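import Pool.Agent.Lib.BDesign.Defs

/-!
`mu N r k` is symmetric, has zero row sums and `0 ≤ μ ≤ Π`.
Row sums: `∑_s ∑_j n_tj n_sj/(rk) = k ∑_j n_tj/(rk) = 1` and `∑_s 1/v = 1`.
PSD: for `x` write `y_j = ∑_t n_tj x_t`, `σ = ∑ x`; `qf μ x x = ∑_j y_j²/(rk) - σ²/v`; since `∑_j y_j = r σ` and
`v r = b k`, Cauchy-Schwarz gives `(rσ)² ≤ b ∑ y_j²`, i.e. `∑ y_j²/(rk) ≥ rσ²/(bk) = σ²/v`.
`μ ≤ Π`: `qf Π x x - qf μ x x = ∑ x_t² - ∑_j y_j²/(rk)` and `y_j² ≤ k ∑_t n_tj x_t²` (Cauchy-Schwarz), sum over `j`.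
-/

set_option autoImplicit false

namespace Pool.Agent.BDesign

open Matrix

variable {T B : Type} [Fintype T] [DecidableEq T] [Fintype B] [DecidableEq B]

/-- double counting `v r = b k` -/
theorem card_mul (N : T → B → ℕ) (r k : ℕ) (hN : IsDesign N r k) :
    Fintype.card T * r = Fintype.card B * k := by
  have h1 : ∑ t, ∑ j, N t j = Fintype.card T * r := by
    rw [Finset.sum_congr rfl fun t _ => hN.1 t]
    simp
  have h2 : ∑ j, ∑ t, N t j = Fintype.card B * k := by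
    rw [Finset.sum_congr rfl fun j _ => hN.2 j]
    simp
  rw [← h1, ← h2]
  exact Finset.sum_comm

private theorem goodMu_qf (N : T → B → ℕ) (r k : ℕ) (x : T → ℝ) :
    qf (mu N r k) x x = (∑ j, (∑ t, (N t j : ℝ) * x t) ^ 2) / ((r : ℝ) * k) -
      (∑ t, x t) ^ 2 / (Fintype.card T : ℝ) := by
  have h1 : ∑ j, (∑ t, (N t j : ℝ) * x t) ^ 2 =
      ∑ t, ∑ s, ∑ j, (N t j : ℝ) * x t * ((N s j : ℝ) * x s) := by
    have e : ∀ j : B, (∑ t, (N t j : ℝ) * x t) ^ 2 =
        ∑ t, ∑ s, (N t j : ℝ) * x t * ((N s j : ℝ) * x s) := fun j => by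
      rw [pow_two, Finset.sum_mul_sum]
    rw [Finset.sum_congr rfl fun j _ => e j, Finset.sum_comm]
    exact Finset.sum_congr rfl fun t _ => Finset.sum_comm
  have h2 : (∑ t, x t) ^ 2 = ∑ t, ∑ s, x t * x s := by
    rw [pow_two, Finset.sum_mul_sum]
  rw [h1, h2, Finset.sum_div, Finset.sum_div, ← Finset.sum_sub_distrib]
  unfold qf dotProduct mulVec mu
  refine Finset.sum_congr rfl fun t _ => ?_
  rw [Finset.sum_div, Finset.sum_div, ← Finset.sum_sub_distrib]
  unfold dotProduct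
  rw [Finset.mul_sum]
  refine Finset.sum_congr rfl fun s _ => ?_
  have e : ∑ j, (N t j : ℝ) * x t * ((N s j : ℝ) * x s) =
      x t * x s * ∑ j, (N t j : ℝ) * (N s j : ℝ) := by
    rw [Finset.mul_sum]
    exact Finset.sum_congr rfl fun j _ => by ring
  rw [e]
  ring

private theorem goodMu_qfPi (x : T → ℝ) : qf (PiM T) x x = ∑ t, x t ^ 2 -
    (∑ t, x t) ^ 2 / (Fintype.card T : ℝ) := by
  have h2 : (∑ t, x t) ^ 2 = ∑ t, ∑ s, x t * x s := by
    rw [pow_two, Finset.sum_mul_sum]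
  rw [h2, Finset.sum_div, ← Finset.sum_sub_distrib]
  unfold qf dotProduct mulVec PiM
  refine Finset.sum_congr rfl fun t _ => ?_
  unfold dotProduct
  have e : ∑ s, ((if t = s then (1 : ℝ) else 0) - 1 / (Fintype.card T : ℝ)) * x s =
      x t - (∑ s, x s) / (Fintype.card T : ℝ) := by
    simp only [sub_mul, Finset.sum_sub_distrib]
    rw [← Finset.mul_sum]
    simp only [ite_mul, one_mul, zero_mul, Finset.sum_ite_eq, Finset.mem_univ, if_true]
    ring
  rw [e, ← Finset.mul_sum]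
  ring

theorem good_mu (N : T → B → ℕ) (r k : ℕ) (hr : 0 < r) (hk : 0 < k) (hT : 0 < Fintype.card T)
    (hN : IsDesign N r k) : Good (mu N r k) := by
  have hr' : (0 : ℝ) < r := by exact_mod_cast hr
  have hk' : (0 : ℝ) < k := by exact_mod_cast hk
  have hv' : (0 : ℝ) < Fintype.card T := by exact_mod_cast hT
  have hrow : ∀ t, ∑ j, (N t j : ℝ) = r := fun t => by exact_mod_cast hN.1 t
  have hcol : ∀ j, ∑ t, (N t j : ℝ) = k := fun j => by exact_mod_cast hN.2 j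
  refine ⟨?_, ?_, ?_, ?_⟩
  · intro t s
    unfold mu
    rw [Finset.sum_congr rfl fun j _ => mul_comm (N t j : ℝ) (N s j : ℝ)]
  · intro t
    unfold mu
    rw [Finset.sum_sub_distrib, ← Finset.sum_div, Finset.sum_comm]
    have e : ∑ j, ∑ s, (N t j : ℝ) * (N s j : ℝ) = r * k := by
      rw [← hrow t, Finset.sum_mul]
      refine Finset.sum_congr rfl fun j _ => ?_
      rw [← Finset.mul_sum, hcol]
    rw [e, div_self (by positivity), Finset.sum_const, Finset.card_univ, nsmul_eq_mul,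
      mul_one_div_cancel hv'.ne', sub_self]
  · intro x
    rw [goodMu_qf]
    obtain ⟨Y, hY⟩ : ∃ Y : ℝ, Y = ∑ j, (∑ t, (N t j : ℝ) * x t) ^ 2 := ⟨_, rfl⟩
    obtain ⟨σ, hσ⟩ : ∃ σ : ℝ, σ = ∑ t, x t := ⟨_, rfl⟩
    have h1 : ∑ j, ∑ t, (N t j : ℝ) * x t = r * σ := by
      rw [Finset.sum_comm, hσ, Finset.mul_sum]
      refine Finset.sum_congr rfl fun t _ => ?_
      rw [← Finset.sum_mul, hrow]
    have h2 := sq_sum_le_card_mul_sum_sq (s := (Finset.univ : Finset B))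
      (f := fun j => ∑ t, (N t j : ℝ) * x t)
    rw [h1, Finset.card_univ, ← hY] at h2
    have h3 : (Fintype.card T : ℝ) * r = Fintype.card B * k := by
      exact_mod_cast card_mul N r k hN
    rw [← hY, ← hσ, sub_nonneg, div_le_div_iff₀ hv' (by positivity)]
    have h4 : r * (σ ^ 2 * (r * k)) ≤ r * (Y * Fintype.card T) := by
      calc r * (σ ^ 2 * (r * k)) = k * (r * σ) ^ 2 := by ring
        _ ≤ k * (Fintype.card B * Y) := mul_le_mul_of_nonneg_left h2 hk'.le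
        _ = (Fintype.card B * k) * Y := by ring
        _ = r * (Y * Fintype.card T) := by rw [← h3]; ring
    exact le_of_mul_le_mul_left h4 hr'
  · intro x
    rw [goodMu_qf, goodMu_qfPi]
    have h1 : ∀ j, (∑ t, (N t j : ℝ) * x t) ^ 2 ≤ k * ∑ t, (N t j : ℝ) * x t ^ 2 := by
      intro j
      have h2 := Finset.sum_mul_sq_le_sq_mul_sq (Finset.univ : Finset T)
        (fun t => Real.sqrt (N t j)) (fun t => Real.sqrt (N t j) * x t)
      have e1 : ∀ t, Real.sqrt (N t j) * (Real.sqrt (N t j) * x t) = (N t j : ℝ) * x t := by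
        intro t
        rw [← mul_assoc, Real.mul_self_sqrt (Nat.cast_nonneg _)]
      have e2 : ∀ t, Real.sqrt (N t j) ^ 2 = (N t j : ℝ) := fun t =>
        Real.sq_sqrt (Nat.cast_nonneg _)
      simp only [e1, mul_pow, e2, hcol] at h2
      exact h2
    have h2 : ∑ j, (∑ t, (N t j : ℝ) * x t) ^ 2 ≤ r * k * ∑ t, x t ^ 2 := by
      calc ∑ j, (∑ t, (N t j : ℝ) * x t) ^ 2 ≤ ∑ j, (k : ℝ) * ∑ t, (N t j : ℝ) * x t ^ 2 :=
            Finset.sum_le_sum fun j _ => h1 j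
        _ = k * ∑ t, ∑ j, (N t j : ℝ) * x t ^ 2 := by rw [← Finset.mul_sum, Finset.sum_comm]
        _ = k * ∑ t, (r : ℝ) * x t ^ 2 := by
            congr 1
            refine Finset.sum_congr rfl fun t _ => ?_
            rw [← Finset.sum_mul, hrow]
        _ = r * k * ∑ t, x t ^ 2 := by rw [← Finset.mul_sum]; ring
    have h3 : (∑ j, (∑ t, (N t j : ℝ) * x t) ^ 2) / ((r : ℝ) * k) ≤ ∑ t, x t ^ 2 := by
      rw [div_le_iff₀ (by positivity)]
      linarith
    linarith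


end Pool.Agent.BDesign
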