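import Pool.Agent.Lib.BDesign.Defs

/-!
General facts on symmetric positive semidefinite quadratic forms (`hs`: symmetric, `hp`: `qf Q x x ≥ 0`).
`psd_cs` Cauchy-Schwarz; `psd_add`, `psd_sub`: `Q(x±y) ≤ 2(Q(x)+Q(y))`; `psd_comb`: for nonnegative
coefficients `c`, `Q(c) ≤ (∑ c) (∑ c_t Q_tt)` (Jensen); `qf_ev`, `qf_ev_le`.
-/

set_option autoImplicit false

namespace Pool.Agent.BDesign

open Matrix

variable {T B : Type} [Fintype T] [DecidableEq T] [Fintype B] [DecidableEq B]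

/-- `qf` as a double sum -/
private theorem psd_qf_sum (Q : Matrix T T ℝ) (x y : T → ℝ) :
    qf Q x y = ∑ t, ∑ s, x t * Q t s * y s := by
  unfold qf
  simp only [dotProduct, Matrix.mulVec, Finset.mul_sum, mul_assoc]

theorem qf_comm (Q : Matrix T T ℝ) (hs : ∀ t s, Q t s = Q s t) (x y : T → ℝ) : qf Q x y = qf Q y x := by
  rw [psd_qf_sum, psd_qf_sum, Finset.sum_comm]
  refine Finset.sum_congr rfl fun t _ => Finset.sum_congr rfl fun s _ => ?_
  rw [hs s t]
  ring

/-- `qf` as a double sum -/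
theorem qf_sum (Q : Matrix T T ℝ) (x y : T → ℝ) : qf Q x y = ∑ t, ∑ s, x t * Q t s * y s :=
  psd_qf_sum Q x y

private theorem psd_add_left (Q : Matrix T T ℝ) (x y z : T → ℝ) :
    qf Q (x + y) z = qf Q x z + qf Q y z := by
  unfold qf
  rw [add_dotProduct]

private theorem psd_sub_left (Q : Matrix T T ℝ) (x y z : T → ℝ) :
    qf Q (x - y) z = qf Q x z - qf Q y z := by
  unfold qf
  rw [sub_dotProduct]

private theorem psd_add_right (Q : Matrix T T ℝ) (x y z : T → ℝ) :
    qf Q x (y + z) = qf Q x y + qf Q x z := by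
  unfold qf
  rw [Matrix.mulVec_add, dotProduct_add]

private theorem psd_sub_right (Q : Matrix T T ℝ) (x y z : T → ℝ) :
    qf Q x (y - z) = qf Q x y - qf Q x z := by
  unfold qf
  rw [Matrix.mulVec_sub, dotProduct_sub]

private theorem psd_smul_left (Q : Matrix T T ℝ) (c : ℝ) (x y : T → ℝ) :
    qf Q (c • x) y = c * qf Q x y := by
  unfold qf
  rw [smul_dotProduct, smul_eq_mul]

private theorem psd_smul_right (Q : Matrix T T ℝ) (c : ℝ) (x y : T → ℝ) :
    qf Q x (c • y) = c * qf Q x y := by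
  unfold qf
  rw [Matrix.mulVec_smul, dotProduct_smul, smul_eq_mul]

theorem psd_cs (Q : Matrix T T ℝ) (hs : ∀ t s, Q t s = Q s t) (hp : ∀ x : T → ℝ, 0 ≤ qf Q x x)
    (x y : T → ℝ) : qf Q x y ^ 2 ≤ qf Q x x * qf Q y y := by
  have h := discrim_le_zero (a := qf Q y y) (b := 2 * qf Q x y) (c := qf Q x x) (fun s => by
    have h1 := hp (x + s • y)
    rw [psd_add_left, psd_add_right, psd_add_right, psd_smul_left, psd_smul_left, psd_smul_right,
      psd_smul_right, qf_comm Q hs y x] at h1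
    linarith)
  unfold discrim at h
  linarith

theorem psd_add (Q : Matrix T T ℝ) (hs : ∀ t s, Q t s = Q s t) (hp : ∀ x : T → ℝ, 0 ≤ qf Q x x)
    (x y : T → ℝ) : qf Q (x + y) (x + y) ≤ 2 * (qf Q x x + qf Q y y) := by
  have h1 := hp (x - y)
  rw [psd_sub_left, psd_sub_right, psd_sub_right, qf_comm Q hs y x] at h1
  rw [psd_add_left, psd_add_right, psd_add_right, qf_comm Q hs y x]
  linarith

theorem psd_sub (Q : Matrix T T ℝ) (hs : ∀ t s, Q t s = Q s t) (hp : ∀ x : T → ℝ, 0 ≤ qf Q x x)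
    (x y : T → ℝ) : qf Q (x - y) (x - y) ≤ 2 * (qf Q x x + qf Q y y) := by
  have h1 := hp (x + y)
  rw [psd_add_left, psd_add_right, psd_add_right, qf_comm Q hs y x] at h1
  rw [psd_sub_left, psd_sub_right, psd_sub_right, qf_comm Q hs y x]
  linarith

private theorem psd_single (Q : Matrix T T ℝ) (i j : T) :
    qf Q (Pi.single i 1) (Pi.single j 1) = Q i j := by
  unfold qf
  simp

private theorem psd_ev_eq (i h : T) : ev i h = Pi.single i 1 - Pi.single h 1 := by
  funext t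
  simp only [ev, Pi.sub_apply, Pi.single_apply]

private theorem psd_qf_ev (Q : Matrix T T ℝ) (hs : ∀ t s, Q t s = Q s t) (i h : T) :
    qf Q (ev i h) (ev i h) = Q i i + Q h h - 2 * Q i h := by
  rw [psd_ev_eq, psd_sub_left, psd_sub_right, psd_sub_right, psd_single, psd_single, psd_single,
    psd_single, hs h i]
  ring

theorem psd_comb (Q : Matrix T T ℝ) (hs : ∀ t s, Q t s = Q s t) (hp : ∀ x : T → ℝ, 0 ≤ qf Q x x)
    (c : T → ℝ) (hc : ∀ t, 0 ≤ c t) : qf Q c c ≤ (∑ t, c t) * ∑ t, c t * Q t t := by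
  have h1 : ∀ t s, 2 * Q t s ≤ Q t t + Q s s := by
    intro t s
    have h2 := hp (ev t s)
    rw [psd_qf_ev Q hs] at h2
    linarith
  have e1 : (∑ t, c t) * ∑ t, c t * Q t t = ∑ t, ∑ s, c t * c s * Q s s := by
    rw [Finset.sum_mul_sum]
    refine Finset.sum_congr rfl fun t _ => Finset.sum_congr rfl fun s _ => ?_
    ring
  have e2 : (∑ t, c t) * ∑ t, c t * Q t t = ∑ t, ∑ s, c t * c s * Q t t := by
    rw [e1, Finset.sum_comm]
    refine Finset.sum_congr rfl fun t _ => Finset.sum_congr rfl fun s _ => ?_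
    ring
  have e3 : 2 * qf Q c c ≤ ∑ t, ∑ s, (c t * c s * Q t t + c t * c s * Q s s) := by
    rw [psd_qf_sum, Finset.mul_sum]
    apply Finset.sum_le_sum
    intro t _
    rw [Finset.mul_sum]
    apply Finset.sum_le_sum
    intro s _
    have h3 := mul_le_mul_of_nonneg_left (h1 t s) (mul_nonneg (hc t) (hc s))
    linarith
  simp only [Finset.sum_add_distrib] at e3
  rw [← e1, ← e2] at e3
  linarith

/-- consequence of `psd_comb` for a column of a design -/
theorem psd_col (Q : Matrix T T ℝ) (hs : ∀ t s, Q t s = Q s t) (hp : ∀ x : T → ℝ, 0 ≤ qf Q x x)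
    (N : T → B → ℕ) (r k : ℕ) (hN : IsDesign N r k) (l : B) :
    qf Q (col N l) (col N l) ≤ (k : ℝ) * ∑ s, (N s l : ℝ) * Q s s := by
  have h := psd_comb Q hs hp (col N l) (fun t => Nat.cast_nonneg _)
  have h2 : ∑ t, col N l t = (k : ℝ) := by
    unfold col
    rw [← Nat.cast_sum, hN.2 l]
  rw [h2] at h
  exact h

theorem qf_ev (Q : Matrix T T ℝ) (hs : ∀ t s, Q t s = Q s t) (i h : T) :
    qf Q (ev i h) (ev i h) = Q i i + Q h h - 2 * Q i h := psd_qf_ev Q hs i h

theorem psd_diag (Q : Matrix T T ℝ) (hp : ∀ x : T → ℝ, 0 ≤ qf Q x x) (i : T) : 0 ≤ Q i i := by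
  have h := hp (Pi.single i 1)
  rwa [psd_single] at h

theorem qf_ev_le (Q : Matrix T T ℝ) (hs : ∀ t s, Q t s = Q s t) (hp : ∀ x : T → ℝ, 0 ≤ qf Q x x)
    (i h : T) : qf Q (ev i h) (ev i h) ≤ 2 * (Q i i + Q h h) := by
  have h1 := psd_sub Q hs hp (Pi.single i 1) (Pi.single h 1)
  rw [psd_single, psd_single, ← psd_ev_eq] at h1
  exact h1

end Pool.Agent.BDesign
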