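import Pool.Agent.Lib.BDesign.Defs
import Pool.Agent.Lib.BDesign.Psd

/-!
Algebra of `H`. From `H (Π - μ) = Π` and symmetry. Note `H Π = H` (rows of `H` sum to 0), so `H μ = H - Π`;
transposing, `μ H = H - Π`. Hence `H = Π + μ H = Π + μ (Π + H μ)= Π + μ + μ H μ`.
`qf H x x = qf (Π - μ) (Hx) (Hx) ≥ 0`, then `qf H x x = qf Π x x + qf μ x x + qf H (μx) (μx) ≥ qf Π x x ≥ 0`.
`H² - H = H μ H` is PSD.  `(H_tt)² = <e_t, H e_t>² ≤ |H e_t|² = (H²)_tt`.
-/

set_option autoImplicit false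

namespace Pool.Agent.BDesign

open Matrix

variable {T B : Type} [Fintype T] [DecidableEq T] [Fintype B] [DecidableEq B]

/-- a matrix with zero row sums absorbs the projection on the right -/
private theorem hb_mul_pi (M : Matrix T T ℝ) (hr : ∀ t, ∑ s, M t s = 0) : M * PiM T = M := by
  ext t s
  rw [Matrix.mul_apply]
  simp only [PiM, mul_sub, Finset.sum_sub_distrib, mul_ite, mul_one, mul_zero]
  rw [Finset.sum_ite_eq' Finset.univ s, ← Finset.sum_mul, hr t]
  simp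

/-- a symmetric matrix with zero row sums absorbs the projection on the left -/
private theorem hb_pi_mul (M : Matrix T T ℝ) (hs : ∀ t s, M t s = M s t)
    (hr : ∀ t, ∑ s, M t s = 0) : PiM T * M = M := by
  ext t s
  rw [Matrix.mul_apply]
  simp only [PiM, sub_mul, Finset.sum_sub_distrib, ite_mul, one_mul, zero_mul]
  rw [Finset.sum_ite_eq Finset.univ t, ← Finset.mul_sum]
  have h : ∑ i, M i s = 0 := by
    rw [← hr s]
    exact Finset.sum_congr rfl fun i _ => hs i s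
  rw [h]
  simp

private theorem hb_tr {M : Matrix T T ℝ} (hs : ∀ t s, M t s = M s t) : Mᵀ = M := by
  ext t s
  exact hs s t

private theorem hb_qf_mul (A M : Matrix T T ℝ) (hs : ∀ t s, M t s = M s t) (x y : T → ℝ) :
    qf (M * A) x y = (M *ᵥ x) ⬝ᵥ (A *ᵥ y) := by
  unfold qf
  rw [← Matrix.mulVec_mulVec, Matrix.dotProduct_mulVec x M]
  have : x ᵥ* M = M *ᵥ x := by
    rw [← Matrix.mulVec_transpose, hb_tr hs]
  rw [this]

theorem pi_symm (t s : T) : PiM T t s = PiM T s t := by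
  simp only [PiM, eq_comm]

/-- the row sums of the projection -/
private theorem hb_pi_row (hT : 0 < Fintype.card T) (t : T) : ∑ s, PiM T t s = 0 := by
  have h : (Fintype.card T : ℝ) ≠ 0 := by exact_mod_cast hT.ne'
  simp only [PiM, Finset.sum_sub_distrib, Finset.sum_const, Finset.card_univ, nsmul_eq_mul]
  rw [Finset.sum_ite_eq Finset.univ t]
  simp [h]

/-- `Π` is a projection -/
theorem pi_mul (hT : 0 < Fintype.card T) : PiM T * PiM T = PiM T :=
  hb_mul_pi _ (hb_pi_row hT)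

private theorem hb_pi_vec (x : T → ℝ) (t : T) :
    (PiM T *ᵥ x) t = x t - (∑ s, x s) / (Fintype.card T : ℝ) := by
  simp only [Matrix.mulVec, dotProduct, PiM, sub_mul, Finset.sum_sub_distrib, ite_mul, one_mul,
    zero_mul]
  rw [Finset.sum_ite_eq Finset.univ t, ← Finset.mul_sum]
  simp only [Finset.mem_univ, if_true]
  ring

/-- `Π x = x` for vectors with sum zero -/
theorem pi_mulVec (x : T → ℝ) (hx : ∑ t, x t = 0) : PiM T *ᵥ x = x := by
  ext t
  rw [hb_pi_vec, hx]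
  simp

theorem qf_pi (x : T → ℝ) : qf (PiM T) x x = ∑ t, x t ^ 2 - (∑ t, x t) ^ 2 / (Fintype.card T : ℝ) := by
  unfold qf
  simp only [dotProduct, hb_pi_vec, mul_sub, Finset.sum_sub_distrib]
  rw [← Finset.sum_mul]
  congr 1
  · exact Finset.sum_congr rfl fun t _ => (sq (x t)).symm
  · ring

theorem qf_pi_nonneg (hT : 0 < Fintype.card T) (x : T → ℝ) : 0 ≤ qf (PiM T) x x := by
  rw [qf_pi]
  have h : (0 : ℝ) < (Fintype.card T : ℝ) := by exact_mod_cast hT
  rw [sub_nonneg, div_le_iff₀ h]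
  have := sq_sum_le_card_mul_sum_sq (s := (Finset.univ : Finset T)) (f := x)
  rw [Finset.card_univ] at this
  linarith

variable {μ H : Matrix T T ℝ}

theorem h_pi (hH : IsH μ H) : H * PiM T = H := hb_mul_pi _ hH.row

theorem pi_h (hH : IsH μ H) : PiM T * H = H := hb_pi_mul _ hH.symm hH.row

theorem mu_pi (hμ : Good μ) : μ * PiM T = μ := hb_mul_pi _ hμ.row

theorem h_mu (hμ : Good μ) (hH : IsH μ H) : H * μ = H - PiM T := by
  have h := hH.inv
  rw [Matrix.mul_sub, h_pi hH] at h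
  rw [← h]
  abel

theorem mu_h (hμ : Good μ) (hH : IsH μ H) : μ * H = H - PiM T := by
  have h := congrArg Matrix.transpose (h_mu hμ hH)
  rw [Matrix.transpose_mul, Matrix.transpose_sub, hb_tr hμ.symm, hb_tr hH.symm,
    hb_tr pi_symm] at h
  exact h

theorem h_expand (hT : 0 < Fintype.card T) (hμ : Good μ) (hH : IsH μ H) :
    H = PiM T + μ + μ * H * μ := by
  have h1 := mu_h hμ hH
  have h2 := h_mu hμ hH
  rw [Matrix.mul_assoc, h2, Matrix.mul_sub, mu_pi hμ, h1]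
  abel

theorem h_psd (hT : 0 < Fintype.card T) (hμ : Good μ) (hH : IsH μ H) (x : T → ℝ) : 0 ≤ qf H x x := by
  have h1 : (PiM T - μ) * H = PiM T := by
    rw [Matrix.sub_mul, pi_h hH, mu_h hμ hH]
    abel
  have h2 : qf H x x = qf (PiM T) (H *ᵥ x) (H *ᵥ x) - qf μ (H *ᵥ x) (H *ᵥ x) := by
    have h3 : qf (PiM T) (H *ᵥ x) (H *ᵥ x) - qf μ (H *ᵥ x) (H *ᵥ x) =
        (H *ᵥ x) ⬝ᵥ ((PiM T - μ) *ᵥ (H *ᵥ x)) := by
      unfold qf
      rw [Matrix.sub_mulVec, dotProduct_sub]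
    rw [h3, Matrix.mulVec_mulVec, h1, ← hb_qf_mul (PiM T) H hH.symm, h_pi hH]
  rw [h2]
  exact sub_nonneg.2 (hμ.le _)

theorem h_ge (hT : 0 < Fintype.card T) (hμ : Good μ) (hH : IsH μ H) (x : T → ℝ) :
    qf (PiM T) x x ≤ qf H x x := by
  have h1 : qf H x x = qf (PiM T) x x + qf μ x x + qf (μ * H * μ) x x := by
    conv_lhs => rw [h_expand hT hμ hH]
    unfold qf
    rw [Matrix.add_mulVec, Matrix.add_mulVec, dotProduct_add, dotProduct_add]
  have h2 : qf (μ * H * μ) x x = qf H (μ *ᵥ x) (μ *ᵥ x) := by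
    rw [Matrix.mul_assoc, hb_qf_mul _ _ hμ.symm, ← Matrix.mulVec_mulVec]
    rfl
  rw [h1, h2]
  have h3 := hμ.psd x
  have h4 := h_psd hT hμ hH (μ *ᵥ x)
  linarith

theorem a_symm (hH : IsH μ H) (t s : T) : Am H t s = Am H s t := by
  unfold Am
  rw [Matrix.mul_apply, Matrix.mul_apply]
  refine Finset.sum_congr rfl fun u _ => ?_
  rw [hH.symm t u, hH.symm u s, mul_comm]

theorem a_eq (hH : IsH μ H) (x : T → ℝ) : qf (Am H) x x = (H *ᵥ x) ⬝ᵥ (H *ᵥ x) :=
  hb_qf_mul H H hH.symm x x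

theorem a_psd (hH : IsH μ H) (x : T → ℝ) : 0 ≤ qf (Am H) x x := by
  rw [a_eq hH]
  exact Finset.sum_nonneg fun t _ => mul_self_nonneg _

theorem a_ge (hT : 0 < Fintype.card T) (hμ : Good μ) (hH : IsH μ H) (x : T → ℝ) :
    qf H x x ≤ qf (Am H) x x := by
  have h1 : H * H = H + H * (μ * H) := by
    rw [mu_h hμ hH, Matrix.mul_sub, h_pi hH]
    abel
  have h2 : qf (Am H) x x = qf H x x + qf (H * (μ * H)) x x := by
    unfold Am
    rw [h1]
    unfold qf
    rw [Matrix.add_mulVec, dotProduct_add]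
  have h3 : qf (H * (μ * H)) x x = qf μ (H *ᵥ x) (H *ᵥ x) := by
    rw [hb_qf_mul _ _ hH.symm, ← Matrix.mulVec_mulVec]
    rfl
  rw [h2, h3]
  have := hμ.psd (H *ᵥ x)
  linarith

theorem a_row (hH : IsH μ H) (t : T) : ∑ s, Am H t s = 0 := by
  unfold Am
  simp only [Matrix.mul_apply]
  rw [Finset.sum_comm]
  refine Finset.sum_eq_zero fun u _ => ?_
  rw [← Finset.mul_sum, hH.row u, mul_zero]

theorem diag_sq (hH : IsH μ H) (t : T) : H t t ^ 2 ≤ Am H t t := by
  unfold Am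
  rw [Matrix.mul_apply]
  have h : ∀ u ∈ (Finset.univ : Finset T), 0 ≤ H t u * H u t := fun u _ => by
    rw [hH.symm u t]
    exact mul_self_nonneg _
  have := Finset.single_le_sum h (Finset.mem_univ t)
  rw [sq]
  exact this

/-- uniqueness of `H` -/
theorem h_unique {H' : Matrix T T ℝ} (hμ : Good μ) (hH : IsH μ H) (hH' : IsH μ H') : H = H' := by
  have h1 : (PiM T - μ) * H' = PiM T := by
    rw [Matrix.sub_mul, pi_h hH', mu_h hμ hH']
    abel
  have h2 : H * ((PiM T - μ) * H') = PiM T * H' := by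
    rw [← Matrix.mul_assoc, hH.inv]
  rw [h1, h_pi hH, pi_h hH'] at h2
  exact h2

end Pool.Agent.BDesign
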