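import Pool.Agent.Lib.BDesign.Defs
import Pool.Agent.Lib.BDesign.HBasic
import Pool.Agent.Lib.BDesign.GoodMu

/-!
Final assembly on `Fin v`, `Fin b`, in the language of the problem file.
`cmat`: `C + J/v` with `C = r I - N Nᵀ/k`.
`isH_of_det`: if `det (C+J/v) ≠ 0` then `H := r (C+J/v)⁻¹ - r J/v`... precisely `(C+J/v)⁻¹ = H/r + J/v`, so
`IsH (mu N r k) H` with `H = r • ((C+J/v)⁻¹ - J/v)` and `trace (C+J/v)⁻¹ = trace H / r + 1`.
`det_of_isH`: conversely.  `exists_opt`: the designs on `Fin v × Fin b` form a finite set (entries `≤ r`), choose a connected one with least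
`tr H` (`H` is unique, `h_unique`).
-/

set_option autoImplicit false

namespace Pool.Agent.BDesign

open Matrix

variable {T B : Type} [Fintype T] [DecidableEq T] [Fintype B] [DecidableEq B]

/-- `C + J/v` -/
noncomputable def cmat {v b : ℕ} (N : Fin v → Fin b → ℕ) (r k : ℕ) : Matrix (Fin v) (Fin v) ℝ :=
  (r : ℝ) • (1 : Matrix (Fin v) (Fin v) ℝ)
    - (1 / (k : ℝ)) • ((Matrix.of N).map (Nat.cast : ℕ → ℝ) * ((Matrix.of N).map (Nat.cast : ℕ → ℝ)).transpose)
    + (1 / (v : ℝ)) • Matrix.of (fun _ _ => (1 : ℝ))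

/-- `J/v` -/
noncomputable def asmA_E (v : ℕ) : Matrix (Fin v) (Fin v) ℝ := fun _ _ => 1 / (v : ℝ)

theorem asmA_eq {v b : ℕ} (N : Fin v → Fin b → ℕ) (r k : ℕ) (hr : 0 < r) (hk : 0 < k) :
    cmat N r k = (r : ℝ) • (PiM (Fin v) - mu N r k) + asmA_E v := by
  have hr' : (r : ℝ) ≠ 0 := by positivity
  have hk' : (k : ℝ) ≠ 0 := by positivity
  ext t s
  simp only [cmat, PiM, mu, asmA_E, Matrix.add_apply, Matrix.sub_apply, Matrix.smul_apply,
    Matrix.mul_apply, Matrix.transpose_apply, Matrix.map_apply, Matrix.of_apply, smul_eq_mul,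
    Matrix.one_apply, Fintype.card_fin]
  set S : ℝ := ∑ j, (N t j : ℝ) * (N s j : ℝ)
  have h1 : (r : ℝ) * (S / ((r : ℝ) * k)) = 1 / (k : ℝ) * S := by
    field_simp
  rw [mul_sub, mul_sub, mul_sub, h1]
  ring

theorem asmA_mulE {v : ℕ} (A : Matrix (Fin v) (Fin v) ℝ) (h : ∀ t, ∑ s, A t s = 0) :
    A * asmA_E v = 0 := by
  ext t s
  simp only [Matrix.mul_apply, asmA_E, Matrix.zero_apply]
  rw [← Finset.sum_mul, h t, zero_mul]

theorem asmA_Emul {v : ℕ} (A : Matrix (Fin v) (Fin v) ℝ) (hs : ∀ t s, A t s = A s t)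
    (h : ∀ t, ∑ s, A t s = 0) : asmA_E v * A = 0 := by
  ext t s
  simp only [Matrix.mul_apply, asmA_E, Matrix.zero_apply]
  rw [← Finset.mul_sum, Finset.sum_congr rfl (fun u _ => hs u s), h s, mul_zero]

theorem asmA_EE {v : ℕ} (hv : 0 < v) : asmA_E v * asmA_E v = asmA_E v := by
  have hv' : (v : ℝ) ≠ 0 := by positivity
  ext t s
  simp only [Matrix.mul_apply, asmA_E, Finset.sum_const, Finset.card_univ, Fintype.card_fin,
    nsmul_eq_mul]
  field_simp

theorem asmA_one {v : ℕ} : PiM (Fin v) + asmA_E v = 1 := by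
  ext t s
  simp only [Matrix.add_apply, PiM, asmA_E, Fintype.card_fin, Matrix.one_apply]
  ring

theorem asmA_P {v b : ℕ} (N : Fin v → Fin b → ℕ) (r k : ℕ) (hv : 0 < v) (hr : 0 < r) (hk : 0 < k)
    (hN : IsDesign N r k) :
    (∀ t s, (PiM (Fin v) - mu N r k) t s = (PiM (Fin v) - mu N r k) s t) ∧
    (∀ t, ∑ s, (PiM (Fin v) - mu N r k) t s = 0) := by
  have hG := good_mu N r k hr hk (by simpa using hv) hN
  have hv' : (v : ℝ) ≠ 0 := by positivity
  constructor
  · intro t s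
    rw [Matrix.sub_apply, Matrix.sub_apply, hG.symm t s, pi_symm t s]
  · intro t
    simp only [Matrix.sub_apply]
    rw [Finset.sum_sub_distrib, hG.row t]
    simp only [PiM, Finset.sum_sub_distrib, Finset.sum_ite_eq, Finset.mem_univ, if_true,
      Finset.sum_const, Finset.card_univ, Fintype.card_fin, nsmul_eq_mul]
    field_simp
    simp

theorem isH_of_det {v b : ℕ} (N : Fin v → Fin b → ℕ) (r k : ℕ) (hv : 0 < v) (hr : 0 < r) (hk : 0 < k)
    (hN : IsDesign N r k) (hd : (cmat N r k).det ≠ 0) :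
    ∃ H, IsH (mu N r k) H ∧ (cmat N r k)⁻¹.trace = H.trace / r + 1 := by
  have hr' : (r : ℝ) ≠ 0 := by positivity
  have hv' : (v : ℝ) ≠ 0 := by positivity
  have hu : IsUnit (cmat N r k).det := isUnit_iff_ne_zero.2 hd
  obtain ⟨hPs, hPr⟩ := asmA_P N r k hv hr hk hN
  set P := PiM (Fin v) - mu N r k with hP
  set C := cmat N r k with hC
  have hCe : C = (r : ℝ) • P + asmA_E v := asmA_eq N r k hr hk
  have hPE : P * asmA_E v = 0 := asmA_mulE P hPr
  have hEP : asmA_E v * P = 0 := asmA_Emul P hPs hPr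
  have hCE : C * asmA_E v = asmA_E v := by
    rw [hCe, add_mul, Matrix.smul_mul, hPE, smul_zero, zero_add, asmA_EE hv]
  have hiE : C⁻¹ * asmA_E v = asmA_E v := by
    calc C⁻¹ * asmA_E v = C⁻¹ * (C * asmA_E v) := by rw [hCE]
      _ = asmA_E v := by rw [← mul_assoc, Matrix.nonsing_inv_mul C hu, one_mul]
  have hCt : C.transpose = C := by
    ext t s
    rw [Matrix.transpose_apply, hCe]
    simp only [Matrix.add_apply, Matrix.smul_apply, hPs s t, asmA_E]
  refine ⟨(r : ℝ) • (C⁻¹ - asmA_E v), ⟨?_, ?_, ?_⟩, ?_⟩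
  · intro t s
    have h1 : (C⁻¹).transpose = C⁻¹ := by rw [Matrix.transpose_nonsing_inv, hCt]
    have h2 : C⁻¹ t s = C⁻¹ s t := by
      conv_lhs => rw [← h1]
      rfl
    simp only [Matrix.smul_apply, Matrix.sub_apply, h2, asmA_E]
  · intro t
    have h1 : ∀ s, ((r : ℝ) • (C⁻¹ - asmA_E v)) t s = r * C⁻¹ t s - r * (1 / (v : ℝ)) := by
      intro s
      simp only [Matrix.smul_apply, Matrix.sub_apply, asmA_E, smul_eq_mul]
      ring
    have h2 : (C⁻¹ * asmA_E v) t ⟨0, hv⟩ = asmA_E v t ⟨0, hv⟩ := by rw [hiE]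
    simp only [Matrix.mul_apply, asmA_E] at h2
    rw [← Finset.sum_mul] at h2
    have h3 : ∑ s, C⁻¹ t s = 1 := by
      field_simp at h2
      linarith
    rw [Finset.sum_congr rfl (fun s _ => h1 s), Finset.sum_sub_distrib, ← Finset.mul_sum, h3,
      Finset.sum_const, Finset.card_univ, Fintype.card_fin, nsmul_eq_mul]
    field_simp
    ring
  · have h1 : (r : ℝ) • P = C - asmA_E v := by
      rw [hCe]
      abel
    have h2 : (r : ℝ) • (C⁻¹ - asmA_E v) * P = C⁻¹ * ((r : ℝ) • P) := by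
      rw [Matrix.smul_mul, sub_mul, hEP, sub_zero, Matrix.mul_smul]
    rw [h2, h1, mul_sub, Matrix.nonsing_inv_mul C hu, hiE]
    rw [← asmA_one]
    abel
  · have h1 : (asmA_E v).trace = 1 := by
      simp only [Matrix.trace, Matrix.diag_apply, asmA_E, Finset.sum_const, Finset.card_univ,
        Fintype.card_fin, nsmul_eq_mul]
      field_simp
    rw [Matrix.trace_smul, Matrix.trace_sub, h1, smul_eq_mul]
    field_simp
    ring

theorem det_of_isH {v b : ℕ} (N : Fin v → Fin b → ℕ) (r k : ℕ) (hv : 0 < v) (hr : 0 < r) (hk : 0 < k)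
    (hN : IsDesign N r k) (H : Matrix (Fin v) (Fin v) ℝ) (hH : IsH (mu N r k) H) :
    (cmat N r k).det ≠ 0 := by
  have hr' : (r : ℝ) ≠ 0 := by positivity
  obtain ⟨hPs, hPr⟩ := asmA_P N r k hv hr hk hN
  have hCe := asmA_eq N r k hr hk
  have hinv := hH.inv
  set P := PiM (Fin v) - mu N r k with hP
  have hEP : asmA_E v * P = 0 := asmA_Emul P hPs hPr
  have hHE : H * asmA_E v = 0 := asmA_mulE H hH.row
  have h1 : ((1 / (r : ℝ)) • H + asmA_E v) * cmat N r k = 1 := by
    rw [hCe, add_mul, mul_add, mul_add, Matrix.smul_mul, Matrix.smul_mul, Matrix.mul_smul,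
      Matrix.mul_smul, hinv, hHE, hEP, asmA_EE hv, smul_zero, smul_zero, smul_smul]
    rw [one_div, inv_mul_cancel₀ hr', one_smul, add_zero, zero_add, asmA_one]
  intro h0
  have h2 := congrArg Matrix.det h1
  rw [Matrix.det_mul, h0, mul_zero, Matrix.det_one] at h2
  exact zero_ne_one h2

end Pool.Agent.BDesign
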