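import Pool.Agent.Lib.BDesign.Defs
import Pool.Agent.Lib.BDesign.AsmA

/-!
The designs on `Fin v × Fin b` form a finite set (entries `≤ r`); among the connected ones choose one with least `tr H`
(`H` is unique, `h_unique`).
-/

set_option autoImplicit false

namespace Pool.Agent.BDesign

open Matrix

variable {T B : Type} [Fintype T] [DecidableEq T] [Fintype B] [DecidableEq B]

theorem exists_opt {v b : ℕ} (N : Fin v → Fin b → ℕ) (r k : ℕ) (hv : 0 < v) (hr : 0 < r) (hk : 0 < k)
    (hN : IsDesign N r k) (H : Matrix (Fin v) (Fin v) ℝ) (hH : IsH (mu N r k) H) :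
    ∃ (N' : Fin v → Fin b → ℕ) (H' : Matrix (Fin v) (Fin v) ℝ), Opt N' r k H' ∧ H'.trace ≤ H.trace := by
  classical
  have hT : 0 < Fintype.card (Fin v) := by simpa using hv
  -- the finite set of connected designs
  have hfin : {N' : Fin v → Fin b → ℕ | IsDesign N' r k ∧
      ∃ H' : Matrix (Fin v) (Fin v) ℝ, IsH (mu N' r k) H'}.Finite := by
    refine Set.Finite.subset (Set.Finite.pi (fun _ : Fin v => Set.Finite.pi
      (fun _ : Fin b => Set.finite_Iic r))) ?_
    rintro N' ⟨hd, -⟩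
    intro t _ j _
    show N' t j ≤ r
    calc N' t j ≤ ∑ l, N' t l := Finset.single_le_sum (fun _ _ => Nat.zero_le _) (Finset.mem_univ j)
      _ = r := hd.1 t
  have hne : {N' : Fin v → Fin b → ℕ | IsDesign N' r k ∧
      ∃ H' : Matrix (Fin v) (Fin v) ℝ, IsH (mu N' r k) H'}.Nonempty := ⟨N, hN, H, hH⟩
  let F : (Fin v → Fin b → ℕ) → ℝ := fun N' =>
    if h : ∃ H' : Matrix (Fin v) (Fin v) ℝ, IsH (mu N' r k) H' then (Classical.choose h).trace else 0
  have hF : ∀ (N' : Fin v → Fin b → ℕ) (H' : Matrix (Fin v) (Fin v) ℝ), IsDesign N' r k →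
      IsH (mu N' r k) H' → F N' = H'.trace := by
    intro N' H' hd hH'
    have h : ∃ H' : Matrix (Fin v) (Fin v) ℝ, IsH (mu N' r k) H' := ⟨H', hH'⟩
    have e : F N' = (Classical.choose h).trace := by
      simp only [F]
      rw [dif_pos h]
    rw [e, h_unique (good_mu N' r k hr hk hT hd) (Classical.choose_spec h) hH']
  obtain ⟨N', ⟨hd, H', hH'⟩, hmin⟩ := hfin.exists_minimalFor F _ hne
  have hmin' : ∀ (N'' : Fin v → Fin b → ℕ) (H'' : Matrix (Fin v) (Fin v) ℝ), IsDesign N'' r k →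
      IsH (mu N'' r k) H'' → H'.trace ≤ H''.trace := by
    intro N'' H'' hd' hH''
    rw [← hF N' H' hd hH', ← hF N'' H'' hd' hH'']
    rcases le_total (F N') (F N'') with h | h
    · exact h
    · exact hmin ⟨hd', H'', hH''⟩ h
  exact ⟨N', H', ⟨hd, hH', hmin'⟩, hmin' N H hN hH⟩

end Pool.Agent.BDesign
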