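import Pool.Agent.Lib.BDesign.Defs

/-!
Existence of binary designs: on `Fin v`, `Fin b` put block `l = { (l k + s) mod v : s < k }`; since `k ≤ v` the elements are
distinct, and the `b k = v r` consecutive integers `0,…,vr-1` hit every residue class mod `v` exactly `r` times.
Transport to general `T`, `B` by `Fintype.equivFin`.
-/

set_option autoImplicit false

namespace Pool.Agent.BDesign

open Matrix

variable {T B : Type} [Fintype T] [DecidableEq T] [Fintype B] [DecidableEq B]

private theorem be_sum_range (f : ℕ → ℕ) (k b : ℕ) :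
    ∑ j ∈ Finset.range b, ∑ s ∈ Finset.range k, f (j * k + s) = ∑ n ∈ Finset.range (b * k), f n := by
  induction b with
  | zero => simp
  | succ b ih =>
    rw [Finset.sum_range_succ, ih, Nat.succ_mul, Finset.sum_range_add]

private theorem be_res (v r t : ℕ) (ht : t < v) :
    ∑ n ∈ Finset.range (r * v), (if n % v = t then 1 else 0) = r := by
  rw [← be_sum_range]
  have h : ∀ j ∈ Finset.range r, ∑ s ∈ Finset.range v, (if (j * v + s) % v = t then 1 else 0) = 1 := by
    intro j _
    have h1 : ∀ s ∈ Finset.range v, (if (j * v + s) % v = t then 1 else 0)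
        = if t = s then 1 else 0 := by
      intro s hs
      rw [Finset.mem_range] at hs
      rw [Nat.mul_add_mod_self_right, Nat.mod_eq_of_lt hs]
      by_cases h2 : s = t
      · rw [if_pos h2, if_pos h2.symm]
      · rw [if_neg h2, if_neg (fun h => h2 h.symm)]
    rw [Finset.sum_congr rfl h1, Finset.sum_ite_eq, if_pos (Finset.mem_range.2 ht)]
  rw [Finset.sum_congr rfl h]
  simp

theorem bin_exists (r k : ℕ) (hk : 0 < k) (hkv : k ≤ Fintype.card T)
    (hc : Fintype.card T * r = Fintype.card B * k) :
    ∃ N : T → B → ℕ, IsDesign N r k ∧ IsBin N := by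
  set v := Fintype.card T with hv
  set b := Fintype.card B with hb
  let eT : T ≃ Fin v := Fintype.equivFin T
  let eB : B ≃ Fin b := Fintype.equivFin B
  have hv0 : 0 < v := by omega
  refine ⟨fun t j => ∑ s ∈ Finset.range k, if ((eB j).val * k + s) % v = (eT t).val then 1 else 0,
    ⟨?_, ?_⟩, ?_⟩
  · intro t
    have h1 : ∑ j : B, ∑ s ∈ Finset.range k,
        (if ((eB j).val * k + s) % v = (eT t).val then 1 else 0)
        = ∑ j : Fin b, ∑ s ∈ Finset.range k,
          (if (j.val * k + s) % v = (eT t).val then 1 else 0) :=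
      Equiv.sum_comp eB (fun j : Fin b => ∑ s ∈ Finset.range k,
        (if (j.val * k + s) % v = (eT t).val then 1 else 0))
    rw [h1, Fin.sum_univ_eq_sum_range (fun j => ∑ s ∈ Finset.range k,
      (if (j * k + s) % v = (eT t).val then 1 else 0)) b]
    rw [be_sum_range (fun n => if n % v = (eT t).val then 1 else 0) k b, ← hc, mul_comm v r]
    exact be_res v r _ (eT t).isLt
  · intro j
    rw [Finset.sum_comm]
    have h1 : ∀ s ∈ Finset.range k, ∑ t : T,
        (if ((eB j).val * k + s) % v = (eT t).val then 1 else 0) = 1 := by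
      intro s _
      have hlt : ((eB j).val * k + s) % v < v := Nat.mod_lt _ hv0
      have h2 : ∑ t : T, (if ((eB j).val * k + s) % v = (eT t).val then 1 else 0)
          = ∑ i : Fin v, (if (⟨((eB j).val * k + s) % v, hlt⟩ : Fin v) = i then 1 else 0) := by
        rw [← Equiv.sum_comp eT]
        refine Finset.sum_congr rfl fun t _ => ?_
        simp only [Fin.ext_iff]
      rw [h2, Finset.sum_ite_eq, if_pos (Finset.mem_univ _)]
    rw [Finset.sum_congr rfl h1]
    simp
  · intro t j
    change ∑ s ∈ Finset.range k, (if ((eB j).val * k + s) % v = (eT t).val then 1 else 0) ≤ 1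
    rw [← Finset.card_filter, Finset.card_le_one]
    intro s hs s' hs'
    rw [Finset.mem_filter, Finset.mem_range] at hs hs'
    have h1 : (eB j).val * k + s ≡ (eB j).val * k + s' [MOD v] := by
      unfold Nat.ModEq
      rw [hs.2, hs'.2]
    have h2 : s ≡ s' [MOD v] := Nat.ModEq.add_left_cancel' _ h1
    exact Nat.ModEq.eq_of_lt_of_lt h2 (by omega) (by omega)

end Pool.Agent.BDesign
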