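import Pool.Agent.Lib.BDesign.Defs

/-!
Pure algebra.  `h7` with `h1`, `h6`, `h3`, `h4`: everything not involving `Y`, `Y'` cancels except
`(k(b-r) - min(r,b-r) + 1) Y ≤ b(b-1) g'³ + (2g' + w') Y' - v(v-1) g²` (use `k(b-r) = r(v-k) = (v-1) g`), and `h1`, `h2` give
`Y' ≤ (v-1)g² + Y`.  With `g' ≤ w'`, `3w' ≤ 3(v-k) ≤ r(v-k)/8`, `min(r,b-r) ≤ r ≤ r(v-k)/2`,
`b(b-1)g'³ = b r(v-k) g'²` (`(b-1)g' = r(v-k)`), `(v-1)g² = r(v-k) g`, `3w' - v ≤ v/2`, `g' ≤ 2k(v-k)/v` (`b-1 ≥ b/2`, `r/b = k/v`),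
`g ≤ 2r(v-k)/v`, `k(v-k) ≥ v`: `(3/8) r(v-k) Y ≤ r(v-k)(b g'² + (v/2) g) ≤ r(v-k) · 5 v r k ((v-k)/v)²`.
-/

set_option autoImplicit false

namespace Pool.Agent.BDesign

open Matrix

variable {T B : Type} [Fintype T] [DecidableEq T] [Fintype B] [DecidableEq B]

/-- pure algebra: see the header -/
theorem d0_alg (v b r k g g' w' Y Y' L C C' P : ℝ) (hk : 2 ≤ k) (hv : k + 2 ≤ v) (hr : 24 ≤ r)
    (hb : b * k = v * r) (hg : g = r * (v - k) / (v - 1)) (hg' : g' = k * (b - r) / (b - 1))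
    (hw' : w' = min k (v - k)) (hY : 0 ≤ Y) (hY' : 0 ≤ Y')
    (h1 : L = (r * k) ^ 2 + (v - 1) * g ^ 2 + Y) (h2 : L = (r * k) ^ 2 + (b - 1) * g' ^ 2 + Y')
    (h3 : -C ≤ (min r (b - r) - g) * Y) (h4 : -C' ≤ (w' - g') * Y') (h5 : g' ≤ w')
    (h6 : (r * k) ^ 3 + (v - 1) * g ^ 3 + 2 * g * Y ≤ P)
    (h7 : k * (b - r) * L + P - r ^ 3 * k ^ 2 * v ≤ (v * (v - 1) * g ^ 3 + 3 * g * Y - C)
      + (b * (b - 1) * g' ^ 3 + 3 * g' * Y' - C') - (v * (v - 1) * g ^ 2 + Y)) :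
    Y ≤ 40 / 3 * (v * r * k * ((v - k) / v) ^ 2) := by
  have hk0 : (0 : ℝ) < k := by linarith
  have hr0 : (0 : ℝ) < r := by linarith
  have hv0 : (0 : ℝ) < v := by linarith
  have hm : 2 ≤ v - k := by linarith
  obtain ⟨R, hR⟩ : ∃ R, R = r * (v - k) := ⟨_, rfl⟩
  have hR0 : 0 < R := by rw [hR]; exact mul_pos hr0 (by linarith)
  have hbr : r ≤ b := by
    have : r * k ≤ b * k := by rw [hb]; nlinarith
    exact le_of_mul_le_mul_right this hk0
  have hb1 : (0 : ℝ) < b - 1 := by linarith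
  have hv1 : (0 : ℝ) < v - 1 := by linarith
  have hR' : k * (b - r) = R := by rw [hR]; nlinarith
  have hgR : (v - 1) * g = R := by rw [hg, hR]; field_simp
  have hgR' : (b - 1) * g' = R := by rw [hg', hR']; field_simp
  have hg0 : 0 < g := by
    by_contra h
    push Not at h
    nlinarith [mul_nonneg hv1.le (neg_nonneg.2 h)]
  have hg'0 : 0 < g' := by
    by_contra h
    push Not at h
    nlinarith [mul_nonneg hb1.le (neg_nonneg.2 h)]
  have e1 : R * (v - 1) * g ^ 2 + (v - 1) * g ^ 3 = v * (v - 1) * g ^ 3 := by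
    rw [← hgR]; ring
  have e2 : R * (r * k) ^ 2 + (r * k) ^ 3 - r ^ 3 * k ^ 2 * v = 0 := by
    rw [hR]; ring
  have e3 : b * (b - 1) * g' ^ 3 = b * R * g' ^ 2 := by rw [← hgR']; ring
  have e4 : (v - 1) * g ^ 2 = R * g := by rw [← hgR]; ring
  rw [hR'] at h7
  -- main inequality
  have m1 : R * Y ≤ (min r (b - r) - 1) * Y + b * R * g' ^ 2 + (2 * g' + w') * Y'
      - v * (R * g) := by
    have h7' : R * ((r * k) ^ 2 + (v - 1) * g ^ 2 + Y) + ((r * k) ^ 3 + (v - 1) * g ^ 3 + 2 * g * Y)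
        - r ^ 3 * k ^ 2 * v ≤ (v * (v - 1) * g ^ 3 + 3 * g * Y - C)
      + (b * (b - 1) * g' ^ 3 + 3 * g' * Y' - C') - (v * (v - 1) * g ^ 2 + Y) := by
      rw [← h1]; linarith
    have e5 : v * (v - 1) * g ^ 2 = v * (R * g) := by rw [← e4]; ring
    rw [e3, e5] at h7'
    linarith
  have hY'le : Y' ≤ R * g + Y := by
    have : 0 ≤ (b - 1) * g' ^ 2 := by positivity
    linarith
  have hw0 : 0 < w' := lt_of_lt_of_le hg'0 h5
  have hw1 : w' ≤ k := by rw [hw']; exact min_le_left _ _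
  have hw2 : w' ≤ v - k := by rw [hw']; exact min_le_right _ _
  have m2 : (2 * g' + w') * Y' ≤ 3 * w' * (R * g + Y) := by
    have a1 : (2 * g' + w') * Y' ≤ (3 * w') * Y' := mul_le_mul_of_nonneg_right (by linarith) hY'
    have a2 : (3 * w') * Y' ≤ 3 * w' * (R * g + Y) :=
      mul_le_mul_of_nonneg_left hY'le (by positivity)
    linarith
  have m3 : (min r (b - r) - 1) * Y ≤ R / 2 * Y := by
    refine mul_le_mul_of_nonneg_right ?_ hY
    have : min r (b - r) ≤ r := min_le_left _ _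
    have h2 : r * 2 ≤ R := by rw [hR]; exact mul_le_mul_of_nonneg_left hm hr0.le
    linarith
  have m4 : 3 * w' * Y ≤ R / 8 * Y := by
    refine mul_le_mul_of_nonneg_right ?_ hY
    have : 24 * (v - k) ≤ R := by
      rw [hR]; exact mul_le_mul_of_nonneg_right hr (by linarith)
    linarith
  have m5 : (3 * w' - v) * (R * g) ≤ v / 2 * (R * g) :=
    mul_le_mul_of_nonneg_right (by linarith) (by positivity)
  have m6 : R * (3 / 8 * Y) ≤ R * (b * g' ^ 2 + v / 2 * g) := by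
    have i1 : 3 * w' * (R * g + Y) = (3 * w' - v) * (R * g) + v * (R * g) + 3 * w' * Y := by ring
    have i2 : R * (b * g' ^ 2 + v / 2 * g) = b * R * g' ^ 2 + v / 2 * (R * g) := by ring
    have i3 : R * (3 / 8 * Y) = R * Y - R / 2 * Y - R / 8 * Y := by ring
    rw [i2, i3]
    rw [i1] at m2
    linarith
  have m7 : 3 / 8 * Y ≤ b * g' ^ 2 + v / 2 * g := le_of_mul_le_mul_left m6 hR0
  -- bounds for g'
  have hbpos : 0 < b := by linarith
  obtain ⟨q, hq⟩ : ∃ q, q = (v - k) / v := ⟨_, rfl⟩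
  have hq0 : 0 < q := by rw [hq]; exact div_pos (by linarith) hv0
  have hqv : q * v = v - k := by rw [hq]; field_simp
  have hg'2 : g' ≤ 2 * k * q := by
    have a1 : (b - 1) * g' ≤ (b - 1) * (2 * k * q) := by
      rw [hgR', hR, ← hqv]
      have : b * (k * q) ≤ (b - 1) * 2 * (k * q) :=
        mul_le_mul_of_nonneg_right (by linarith) (by positivity)
      have e6 : r * (q * v) = b * (k * q) := by
        have : b * (k * q) = (b * k) * q := by ring
        rw [this, hb]; ring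
      rw [e6]; linarith
    exact le_of_mul_le_mul_left a1 hb1
  have m8 : b * g' ^ 2 ≤ 4 * (v * r * k * q ^ 2) := by
    have a1 : g' ^ 2 ≤ (2 * k * q) ^ 2 := pow_le_pow_left₀ hg'0.le hg'2 2
    have a2 : b * g' ^ 2 ≤ b * (2 * k * q) ^ 2 := mul_le_mul_of_nonneg_left a1 hbpos.le
    have a3 : b * (2 * k * q) ^ 2 = 4 * ((b * k) * k * q ^ 2) := by ring
    rw [a3, hb] at a2
    linarith
  have m9 : v / 2 * g ≤ v * r * k * q ^ 2 := by
    have a1 : v / 2 * g ≤ (v - 1) * g := mul_le_mul_of_nonneg_right (by linarith) hg0.le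
    rw [hgR, hR] at a1
    have a2 : v ≤ k * (v - k) := by
      have b1 : (1 : ℝ) * 1 ≤ (k - 1) * (v - k - 1) :=
        mul_le_mul (by linarith) (by linarith) (by norm_num) (by linarith)
      have b2 : k * (v - k) = (k - 1) * (v - k - 1) - 1 + v := by ring
      linarith
    have a3 : v * r * k * q ^ 2 = r * (v - k) * (k * q) := by
      rw [← hqv]; ring
    rw [a3]
    have a4 : 1 ≤ k * q := by
      have : v * 1 ≤ v * (k * q) := by
        have : v * (k * q) = k * (q * v) := by ring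
        rw [this, hqv]; linarith
      exact le_of_mul_le_mul_left this hv0
    have a5 : r * (v - k) * 1 ≤ r * (v - k) * (k * q) :=
      mul_le_mul_of_nonneg_left a4 (by rw [← hR]; exact hR0.le)
    linarith
  rw [← hq]
  linarith


end Pool.Agent.BDesign
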