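import Pool.Agent.Lib.BDesign.Defs
import Pool.Agent.Lib.BDesign.BinExist

/-!
The set of binary designs is finite (entries `≤ 1`) and nonempty (`bin_exists`), take the minimum of `∑ lam²`.
-/

set_option autoImplicit false

namespace Pool.Agent.BDesign

open Matrix

variable {T B : Type} [Fintype T] [DecidableEq T] [Fintype B] [DecidableEq B]

theorem bin_min (r k : ℕ) (hk : 0 < k) (hkv : k ≤ Fintype.card T)
    (hc : Fintype.card T * r = Fintype.card B * k) :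
    ∃ N : T → B → ℕ, IsDesign N r k ∧ IsBin N ∧
      ∀ N' : T → B → ℕ, IsDesign N' r k → IsBin N' →
        ∑ t, ∑ s, lam N t s ^ 2 ≤ ∑ t, ∑ s, lam N' t s ^ 2 := by
  classical
  let g : (T → B → ℕ) → ℕ := fun N => ∑ t, ∑ s, (∑ j, N t j * N s j) ^ 2
  have hg : ∀ N : T → B → ℕ, ∑ t, ∑ s, lam N t s ^ 2 = (g N : ℝ) := by
    intro N
    simp only [g, lam]
    push_cast
    rfl
  obtain ⟨N0, h0, h1⟩ := bin_exists r k hk hkv hc
  let S : Set (T → B → ℕ) := {N | IsDesign N r k ∧ IsBin N}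
  have hS : (g '' S).Nonempty := ⟨g N0, N0, ⟨h0, h1⟩, rfl⟩
  obtain ⟨m, ⟨N, hN, rfl⟩, hm⟩ := (wellFounded_lt (α := ℕ)).has_min (g '' S) hS
  refine ⟨N, hN.1, hN.2, fun N' h1 h2 => ?_⟩
  rw [hg, hg]
  have := hm (g N') ⟨N', ⟨h1, h2⟩, rfl⟩
  exact_mod_cast not_lt.mp this

end Pool.Agent.BDesign
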