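import Pool.Agent.Lib.BDesign.Defs
import Pool.Agent.Lib.BDesign.GoodMu

/-!
The swap of two plots `(i,j)`, `(h,l)` with `i ≠ h`, `j ≠ l`, `n_ij ≥ 1`, `n_hl ≥ 1` is a design and changes
`μ` by `-(1/(rk)) (x zᵀ + z xᵀ)`, `x = e_i - e_h`, `z = N_j - N_l - x` (as real matrices `N' = N - x wᵀ`, `w = f_j - f_l`,
`N'N'ᵀ = NNᵀ - x (Nw)ᵀ - (Nw) xᵀ + 2 x xᵀ`).
-/

set_option autoImplicit false

namespace Pool.Agent.BDesign

open Matrix

variable {T B : Type} [Fintype T] [DecidableEq T] [Fintype B] [DecidableEq B]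

private theorem swapmu_real (N : T → B → ℕ) (i h : T) (j l : B) (hih : i ≠ h) (hjl : j ≠ l)
    (hij : 1 ≤ N i j) (hhl : 1 ≤ N h l) (t : T) (s : B) :
    ((swp N i j h l t s : ℕ) : ℝ) = (N t s : ℝ) - ev i h t * ev j l s := by
  unfold swp ev
  by_cases h1 : t = i
  · subst h1
    by_cases h2 : s = j
    · subst h2
      simp [hih, hjl, Nat.cast_sub hij]
    · by_cases h3 : s = l
      · subst h3
        simp [hih, h2]
      · simp [h2, h3]
  · by_cases h4 : t = h
    · subst h4
      by_cases h2 : s = j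
      · subst h2
        simp [h1, hjl]
      · by_cases h3 : s = l
        · subst h3
          simp [h1, h2, Nat.cast_sub hhl]
        · simp [h2, h3]
    · simp [h1, h4]

theorem swp_real (N : T → B → ℕ) (i h : T) (j l : B) (hih : i ≠ h) (hjl : j ≠ l)
    (hij : 1 ≤ N i j) (hhl : 1 ≤ N h l) (t : T) (s : B) :
    ((swp N i j h l t s : ℕ) : ℝ) = (N t s : ℝ) - ev i h t * ev j l s :=
  swapmu_real N i h j l hih hjl hij hhl t s

private theorem swapmu_ev_sum (i h : T) : ∑ t, ev i h t = 0 := by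
  unfold ev
  rw [Finset.sum_sub_distrib]
  simp

private theorem swapmu_mul_ev (f : T → ℝ) (i h : T) : ∑ t, f t * ev i h t = f i - f h := by
  unfold ev
  simp only [mul_sub, Finset.sum_sub_distrib]
  simp

theorem swp_design (N : T → B → ℕ) (r k : ℕ) (hN : IsDesign N r k) (i h : T) (j l : B)
    (hih : i ≠ h) (hjl : j ≠ l) (hij : 1 ≤ N i j) (hhl : 1 ≤ N h l) :
    IsDesign (swp N i j h l) r k := by
  constructor
  · intro t
    have h1 : ((∑ s, swp N i j h l t s : ℕ) : ℝ) = (r : ℝ) := by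
      rw [Nat.cast_sum]
      simp only [swapmu_real N i h j l hih hjl hij hhl, Finset.sum_sub_distrib,
        ← Finset.mul_sum, swapmu_ev_sum, mul_zero, sub_zero]
      rw [← Nat.cast_sum, hN.1 t]
    exact_mod_cast h1
  · intro s
    have h1 : ((∑ t, swp N i j h l t s : ℕ) : ℝ) = (k : ℝ) := by
      rw [Nat.cast_sum]
      simp only [swapmu_real N i h j l hih hjl hij hhl, Finset.sum_sub_distrib,
        ← Finset.sum_mul, swapmu_ev_sum, zero_mul, sub_zero]
      rw [← Nat.cast_sum, hN.2 s]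
    exact_mod_cast h1

theorem swp_mu (N : T → B → ℕ) (r k : ℕ) (i h : T) (j l : B)
    (hih : i ≠ h) (hjl : j ≠ l) (hij : 1 ≤ N i j) (hhl : 1 ≤ N h l) :
    mu (swp N i j h l) r k = mu N r k - (1 / ((r : ℝ) * k)) •
      (vecMulVec (ev i h) (col N j - col N l - ev i h)
        + vecMulVec (col N j - col N l - ev i h) (ev i h)) := by
  ext t s
  simp only [mu, Matrix.sub_apply, Matrix.smul_apply, Matrix.add_apply, vecMulVec_apply,
    Pi.sub_apply, smul_eq_mul, col]
  simp only [swapmu_real N i h j l hih hjl hij hhl]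
  have e1 : ∑ x, ((N t x : ℝ) - ev i h t * ev j l x) * ((N s x : ℝ) - ev i h s * ev j l x) =
      (∑ x, (N t x : ℝ) * (N s x : ℝ)) - ev i h s * (∑ x, (N t x : ℝ) * ev j l x)
        - ev i h t * (∑ x, (N s x : ℝ) * ev j l x)
        + ev i h t * ev i h s * (∑ x, ev j l x * ev j l x) := by
    rw [Finset.mul_sum, Finset.mul_sum, Finset.mul_sum, ← Finset.sum_sub_distrib,
      ← Finset.sum_sub_distrib, ← Finset.sum_add_distrib]
    apply Finset.sum_congr rfl
    intro x _
    ring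
  have e2 : ev j l j - ev j l l = 2 := by
    unfold ev
    simp [hjl, hjl.symm]
    norm_num
  rw [e1, swapmu_mul_ev (fun x => (N t x : ℝ)), swapmu_mul_ev (fun x => (N s x : ℝ)),
    swapmu_mul_ev (ev j l), e2]
  ring

end Pool.Agent.BDesign
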