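import Pool.Agent.Lib.BDesign.Defs
import Pool.Agent.Lib.BDesign.SwapMu

/-!
Effect of a binary swap on `∑ lam²`.  `N` binary design, `n_ij = n_hl = 1`, `n_il = n_hj = 0` (so `i ≠ h`, `j ≠ l`).
With `M = (lam)`, `x = e_i - e_h`, `z = N_j - N_l - x`: `M' = M - (x zᵀ + z xᵀ)`, `xᵀz = 0`, `|x|² = 2`,
`|z|² = |N_j-N_l|² - 2 = 2(k - lamB j l) - 2`, `xᵀMx = 2(r - lam i h)`, `xᵀM(N_j-N_l) = P_ij - P_il - P_hj + P_hl`:
`tr M'² - tr M² = -4 xᵀMz + 4|z|² = -4(P_ij-P_il-P_hj+P_hl) + 8(r - lam i h) + 8(k - lamB j l) - 8`.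
-/

set_option autoImplicit false

namespace Pool.Agent.BDesign

open Matrix

variable {T B : Type} [Fintype T] [DecidableEq T] [Fintype B] [DecidableEq B]

private theorem binswap_ev {S : Type} [Fintype S] [DecidableEq S] (i h : S) (F : S → ℝ) :
    ∑ t, ev i h t * F t = F i - F h := by
  unfold ev
  simp only [sub_mul, ite_mul, one_mul, zero_mul, Finset.sum_sub_distrib, Finset.sum_ite_eq',
    Finset.mem_univ, if_true]

private theorem binswap_ev_sq {S : Type} [Fintype S] [DecidableEq S] {i h : S} (hih : i ≠ h) :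
    ∑ t, ev i h t ^ 2 = 2 := by
  simp only [sq]
  rw [binswap_ev]
  unfold ev
  simp [hih, Ne.symm hih]
  norm_num

theorem bin_swap (N : T → B → ℕ) (r k : ℕ) (hN : IsDesign N r k) (hb : IsBin N) (i h : T) (j l : B)
    (h1 : N i j = 1) (h2 : N h l = 1) (h3 : N i l = 0) (h4 : N h j = 0) :
    ∑ t, ∑ s, lam (swp N i j h l) t s ^ 2 = ∑ t, ∑ s, lam N t s ^ 2
      - 4 * (Pm N i j - Pm N i l - Pm N h j + Pm N h l)
      + 8 * ((r : ℝ) - lam N i h) + 8 * ((k : ℝ) - lamB N j l) - 8 := by
  have hih : i ≠ h := by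
    rintro rfl
    omega
  have hjl : j ≠ l := by
    rintro rfl
    omega
  have hrow : ∀ t, ∑ j, (N t j : ℝ) = r := by
    intro t
    exact_mod_cast hN.1 t
  have hcol : ∀ j, ∑ t, (N t j : ℝ) = k := by
    intro j
    exact_mod_cast hN.2 j
  have hsqn : ∀ t j, (N t j : ℝ) * (N t j : ℝ) = N t j := by
    intro t j
    have := hb t j
    interval_cases (N t j) <;> norm_num
  have hls : ∀ t s, lam N s t = lam N t s := by
    intro t s
    unfold lam
    exact Finset.sum_congr rfl fun j _ => mul_comm _ _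
  have hlamd : ∀ t, lam N t t = r := by
    intro t
    unfold lam
    simp only [hsqn, hrow]
  set x : T → ℝ := ev i h with hx
  set y : B → ℝ := ev j l with hy
  set c : T → ℝ := fun s => (N s j : ℝ) - N s l with hc
  set z : T → ℝ := fun s => c s - x s with hz
  have hyy : ∑ m, y m ^ 2 = 2 := binswap_ev_sq hjl
  have hxx : ∑ t, x t ^ 2 = 2 := binswap_ev_sq hih
  have hyn : ∀ s, ∑ m, y m * (N s m : ℝ) = c s := fun s => binswap_ev j l fun m => (N s m : ℝ)
  have hlam' : ∀ t s, lam (swp N i j h l) t s = lam N t s - (x t * z s + z t * x s) := by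
    intro t s
    have e1 : lam (swp N i j h l) t s =
        ∑ m, ((N t m : ℝ) - x t * y m) * ((N s m : ℝ) - x s * y m) := by
      unfold lam
      refine Finset.sum_congr rfl fun m _ => ?_
      rw [swp_real N i h j l hih hjl (by omega) (by omega),
        swp_real N i h j l hih hjl (by omega) (by omega)]
    have e2 : ∑ m, ((N t m : ℝ) - x t * y m) * ((N s m : ℝ) - x s * y m) =
        lam N t s - x t * (∑ m, y m * (N s m : ℝ)) - x s * (∑ m, y m * (N t m : ℝ))
          + x t * x s * ∑ m, y m ^ 2 := by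
      unfold lam
      rw [Finset.mul_sum, Finset.mul_sum, Finset.mul_sum, ← Finset.sum_sub_distrib,
        ← Finset.sum_sub_distrib, ← Finset.sum_add_distrib]
      refine Finset.sum_congr rfl fun m _ => ?_
      ring
    rw [e1, e2, hyn, hyn, hyy]
    simp only [hz]
    ring
  have hxc : ∑ t, x t * c t = 2 := by
    rw [binswap_ev i h c]
    simp only [hc]
    rw [h1, h2, h3, h4]
    norm_num
  have hxz : ∑ t, x t * z t = 0 := by
    have e1 : ∀ t, x t * z t = x t * c t - x t ^ 2 := by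
      intro t
      simp only [hz]
      ring
    simp only [e1, Finset.sum_sub_distrib, hxc, hxx]
    ring
  have hcc : ∑ t, c t ^ 2 = 2 * ((k : ℝ) - lamB N j l) := by
    have e1 : ∀ t, c t ^ 2 = (N t j : ℝ) + N t l - 2 * ((N t j : ℝ) * N t l) := by
      intro t
      have e2 := hsqn t j
      have e3 := hsqn t l
      simp only [hc]
      nlinarith
    simp only [e1, Finset.sum_sub_distrib, Finset.sum_add_distrib, hcol, ← Finset.mul_sum]
    unfold lamB
    ring
  have hzz : ∑ t, z t ^ 2 = 2 * ((k : ℝ) - lamB N j l) - 2 := by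
    have e1 : ∀ t, z t ^ 2 = c t ^ 2 - 2 * (x t * c t) + x t ^ 2 := by
      intro t
      simp only [hz]
      ring
    simp only [e1, Finset.sum_sub_distrib, Finset.sum_add_distrib, ← Finset.mul_sum, hxc, hxx, hcc]
    ring
  have hxMc : ∑ t, ∑ s, x t * lam N t s * c s = Pm N i j - Pm N i l - Pm N h j + Pm N h l := by
    have e1 : ∀ t, ∑ s, x t * lam N t s * c s = x t * (Pm N t j - Pm N t l) := by
      intro t
      unfold Pm
      rw [← Finset.sum_sub_distrib, Finset.mul_sum]
      refine Finset.sum_congr rfl fun s _ => ?_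
      simp only [hc]
      ring
    simp only [e1]
    rw [binswap_ev i h fun t => Pm N t j - Pm N t l]
    ring
  have hxMx : ∑ t, ∑ s, x t * lam N t s * x s = 2 * ((r : ℝ) - lam N i h) := by
    have e1 : ∀ t, ∑ s, x t * lam N t s * x s = x t * (lam N t i - lam N t h) := by
      intro t
      have e2 : ∀ s, x t * lam N t s * x s = x s * (x t * lam N t s) := fun s => by ring
      simp only [e2]
      rw [binswap_ev i h fun s => x t * lam N t s]
      ring
    simp only [e1]
    rw [binswap_ev i h fun t => lam N t i - lam N t h, hlamd, hlamd, hls i h]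
    ring
  have hxMz : ∑ t, ∑ s, x t * lam N t s * z s =
      (Pm N i j - Pm N i l - Pm N h j + Pm N h l) - 2 * ((r : ℝ) - lam N i h) := by
    rw [← hxMc, ← hxMx]
    simp only [← Finset.sum_sub_distrib]
    refine Finset.sum_congr rfl fun t _ => Finset.sum_congr rfl fun s _ => ?_
    simp only [hz]
    ring
  have hzMx : ∑ t, ∑ s, z t * lam N t s * x s = ∑ t, ∑ s, x t * lam N t s * z s := by
    rw [Finset.sum_comm]
    refine Finset.sum_congr rfl fun t _ => Finset.sum_congr rfl fun s _ => ?_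
    rw [hls t s]
    ring
  have hA : ∑ t, ∑ s, (x t * z s) * (x t * z s) = (∑ t, x t ^ 2) * ∑ s, z s ^ 2 := by
    rw [Finset.sum_mul_sum]
    refine Finset.sum_congr rfl fun t _ => Finset.sum_congr rfl fun s _ => ?_
    ring
  have hB : ∑ t, ∑ s, (z t * x s) * (z t * x s) = (∑ t, z t ^ 2) * ∑ s, x s ^ 2 := by
    rw [Finset.sum_mul_sum]
    refine Finset.sum_congr rfl fun t _ => Finset.sum_congr rfl fun s _ => ?_
    ring
  have hC : ∑ t, ∑ s, (x t * z s) * (z t * x s) = (∑ t, x t * z t) * ∑ s, x s * z s := by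
    rw [Finset.sum_mul_sum]
    refine Finset.sum_congr rfl fun t _ => Finset.sum_congr rfl fun s _ => ?_
    ring
  have hexp : ∑ t, ∑ s, lam (swp N i j h l) t s ^ 2 = (∑ t, ∑ s, lam N t s ^ 2)
      - 2 * (∑ t, ∑ s, x t * lam N t s * z s) - 2 * (∑ t, ∑ s, z t * lam N t s * x s)
      + (∑ t, ∑ s, (x t * z s) * (x t * z s)) + (∑ t, ∑ s, (z t * x s) * (z t * x s))
      + 2 * ∑ t, ∑ s, (x t * z s) * (z t * x s) := by
    simp only [Finset.mul_sum, ← Finset.sum_sub_distrib, ← Finset.sum_add_distrib]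
    refine Finset.sum_congr rfl fun t _ => Finset.sum_congr rfl fun s _ => ?_
    rw [hlam']
    ring
  rw [hexp, hzMx, hA, hB, hC, hxMz, hxz, hxx, hzz]
  ring

theorem bin_swap_bin (N : T → B → ℕ) (hb : IsBin N) (i h : T) (j l : B)
    (h1 : N i j = 1) (h2 : N h l = 1) (h3 : N i l = 0) (h4 : N h j = 0) :
    IsBin (swp N i j h l) := by
  intro t s
  have hts := hb t s
  unfold swp
  split_ifs with c1 c2 c3 c4
  · omega
  · omega
  · rw [c3.1, c3.2, h3]
  · rw [c4.1, c4.2, h4]
  · exact hts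

end Pool.Agent.BDesign
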