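import Pool.Agent.Lib.BDesign.Defs

/-!
Exact sum over quadruples, `w = n_tj n_sl (1-n_tl)(1-n_sj)` for a binary design (`n² = n`).
`sw_left`: `∑ w (P_tj + P_sl - P_tl - P_sj) = 2 [k(b-r) ∑ lam² + ∑ P² - r³k²v]`.
Proof: by symmetry the left side is `2 ∑_{t,j} n_tj P_tj W_tj - 2 ∑_{t,l} (1-n_tl) P_tl W'_tl` with
`W_tj = ∑_{s,l} n_sl (1-n_tl)(1-n_sj) = ∑_l (1-n_tl)(k - lamB j l) = k(b-r) - rk + P_tj`
(`∑_l lamB j l = rk`, `∑_l n_tl lamB j l = P_tj`), and `W'_tl = ∑_j n_tj (k - lamB j l) = rk - P_tl`.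
So it is `2 ∑_{t,j} P_tj [ k(b-r) n_tj + P_tj - rk ]`; `∑ n P = ∑ lam²`, `∑ P = r · rk · v`.
-/

set_option autoImplicit false

namespace Pool.Agent.BDesign

open Matrix

variable {T B : Type} [Fintype T] [DecidableEq T] [Fintype B] [DecidableEq B]

omit [DecidableEq T] [DecidableEq B] in
private theorem swl_row {N : T → B → ℕ} {r k : ℕ} (hN : IsDesign N r k) (t : T) :
    ∑ j, (N t j : ℝ) = r := by
  have := hN.1 t
  exact_mod_cast this

omit [DecidableEq T] [DecidableEq B] in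
private theorem swl_col {N : T → B → ℕ} {r k : ℕ} (hN : IsDesign N r k) (j : B) :
    ∑ t, (N t j : ℝ) = k := by
  have := hN.2 j
  exact_mod_cast this

omit [DecidableEq T] [DecidableEq B] in
private theorem swl_lamB_sum {N : T → B → ℕ} {r k : ℕ} (hN : IsDesign N r k) (j : B) :
    ∑ l, lamB N j l = (r : ℝ) * k := by
  unfold lamB
  rw [Finset.sum_comm]
  simp only [← Finset.mul_sum, swl_row hN]
  rw [← Finset.sum_mul, swl_col hN]
  ring

omit [DecidableEq T] [DecidableEq B] in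
private theorem swl_P {N : T → B → ℕ} (t : T) (j : B) :
    ∑ l, (N t l : ℝ) * lamB N j l = Pm N t j := by
  unfold lamB Pm lam
  simp only [Finset.mul_sum, Finset.sum_mul]
  rw [Finset.sum_comm]
  refine Finset.sum_congr rfl fun s _ => Finset.sum_congr rfl fun l _ => ?_
  ring

omit [DecidableEq T] [DecidableEq B] in
private theorem swl_P' {N : T → B → ℕ} (t : T) (l : B) :
    ∑ j, (N t j : ℝ) * lamB N j l = Pm N t l := by
  rw [← swl_P]
  refine Finset.sum_congr rfl fun j _ => ?_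
  unfold lamB
  congr 1
  exact Finset.sum_congr rfl fun s _ => by ring

omit [DecidableEq T] [DecidableEq B] in
private theorem swl_in {N : T → B → ℕ} {r k : ℕ} (hN : IsDesign N r k) (j l : B) :
    ∑ s, (N s l : ℝ) * (1 - (N s j : ℝ)) = k - lamB N j l := by
  unfold lamB
  simp only [mul_sub, mul_one, Finset.sum_sub_distrib, swl_col hN]
  congr 1
  exact Finset.sum_congr rfl fun s _ => by ring

omit [DecidableEq T] [DecidableEq B] in
private theorem swl_nP (N : T → B → ℕ) :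
    ∑ t, ∑ j, (N t j : ℝ) * Pm N t j = ∑ t, ∑ s, lam N t s ^ 2 := by
  refine Finset.sum_congr rfl fun t _ => ?_
  unfold Pm
  simp only [Finset.mul_sum]
  rw [Finset.sum_comm]
  refine Finset.sum_congr rfl fun s _ => ?_
  have h : ∀ j : B, (N t j : ℝ) * (lam N t s * (N s j : ℝ)) =
      lam N t s * ((N t j : ℝ) * (N s j : ℝ)) := fun j => by ring
  simp only [h]
  rw [← Finset.mul_sum, sq]
  rfl

omit [DecidableEq T] [DecidableEq B] in
private theorem swl_sumP {N : T → B → ℕ} {r k : ℕ} (hN : IsDesign N r k) :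
    ∑ t, ∑ j, Pm N t j = (r : ℝ) ^ 2 * k * (Fintype.card T : ℝ) := by
  have h1 : ∀ t : T, ∑ j, Pm N t j = (r : ℝ) ^ 2 * k := by
    intro t
    unfold Pm
    rw [Finset.sum_comm]
    simp only [← Finset.mul_sum, swl_row hN]
    rw [← Finset.sum_mul]
    have h2 : ∑ s, lam N t s = (r : ℝ) * k := by
      unfold lam
      rw [Finset.sum_comm]
      simp only [← Finset.mul_sum, swl_col hN]
      rw [← Finset.sum_mul, swl_row hN]
    rw [h2]
    ring
  simp only [h1]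
  rw [Finset.sum_const, Finset.card_univ, nsmul_eq_mul]
  ring

omit [DecidableEq T] [DecidableEq B] in
private theorem swl_A {N : T → B → ℕ} {r k : ℕ} (hN : IsDesign N r k) (t : T) (j : B) :
    ∑ s, ∑ l, ((N t j : ℝ) * (N s l : ℝ) * (1 - (N t l : ℝ)) * (1 - (N s j : ℝ))) * Pm N t j =
      (N t j : ℝ) * Pm N t j * ((k : ℝ) * ((Fintype.card B : ℝ) - r) - r * k + Pm N t j) := by
  rw [Finset.sum_comm]
  have h1 : ∀ l : B, ∑ s, ((N t j : ℝ) * (N s l : ℝ) * (1 - (N t l : ℝ)) * (1 - (N s j : ℝ))) * Pm N t j =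
      (N t j : ℝ) * Pm N t j * (k - lamB N j l - k * (N t l : ℝ) + (N t l : ℝ) * lamB N j l) := by
    intro l
    have h2 : ∀ s : T, ((N t j : ℝ) * (N s l : ℝ) * (1 - (N t l : ℝ)) * (1 - (N s j : ℝ))) * Pm N t j =
        ((N t j : ℝ) * Pm N t j * (1 - (N t l : ℝ))) * ((N s l : ℝ) * (1 - (N s j : ℝ))) :=
      fun s => by ring
    simp only [h2]
    rw [← Finset.mul_sum, swl_in hN]
    ring
  simp only [h1]
  rw [← Finset.mul_sum, Finset.sum_add_distrib, Finset.sum_sub_distrib, Finset.sum_sub_distrib,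
    ← Finset.mul_sum, swl_row hN, swl_lamB_sum hN, swl_P, Finset.sum_const, Finset.card_univ, nsmul_eq_mul]
  ring

omit [DecidableEq T] [DecidableEq B] in
private theorem swl_B {N : T → B → ℕ} {r k : ℕ} (hN : IsDesign N r k) (t : T) (l : B) :
    ∑ s, ∑ j, ((N t j : ℝ) * (N s l : ℝ) * (1 - (N t l : ℝ)) * (1 - (N s j : ℝ))) * Pm N t l =
      (1 - (N t l : ℝ)) * Pm N t l * (r * k - Pm N t l) := by
  rw [Finset.sum_comm]
  have h1 : ∀ j : B, ∑ s, ((N t j : ℝ) * (N s l : ℝ) * (1 - (N t l : ℝ)) * (1 - (N s j : ℝ))) * Pm N t l =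
      (1 - (N t l : ℝ)) * Pm N t l * (k * (N t j : ℝ) - (N t j : ℝ) * lamB N j l) := by
    intro j
    have h2 : ∀ s : T, ((N t j : ℝ) * (N s l : ℝ) * (1 - (N t l : ℝ)) * (1 - (N s j : ℝ))) * Pm N t l =
        ((N t j : ℝ) * Pm N t l * (1 - (N t l : ℝ))) * ((N s l : ℝ) * (1 - (N s j : ℝ))) :=
      fun s => by ring
    simp only [h2]
    rw [← Finset.mul_sum, swl_in hN]
    ring
  simp only [h1]
  rw [← Finset.mul_sum, Finset.sum_sub_distrib, ← Finset.mul_sum, swl_row hN, swl_P']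
  ring

omit [DecidableEq T] [DecidableEq B] in
private theorem swl_symm (f : T → T → B → B → ℝ) :
    ∑ t, ∑ s, ∑ j, ∑ l, f t s j l = ∑ t, ∑ s, ∑ j, ∑ l, f s t l j := by
  rw [Finset.sum_comm]
  refine Finset.sum_congr rfl fun t _ => Finset.sum_congr rfl fun s _ => ?_
  exact Finset.sum_comm

omit [DecidableEq T] [DecidableEq B] in
private theorem swl_move1 (f : T → T → B → B → ℝ) :
    ∑ t, ∑ s, ∑ j, ∑ l, f t s j l = ∑ t, ∑ j, ∑ s, ∑ l, f t s j l := by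
  refine Finset.sum_congr rfl fun t _ => ?_
  exact Finset.sum_comm

omit [DecidableEq T] [DecidableEq B] in
private theorem swl_move2 (f : T → T → B → B → ℝ) :
    ∑ t, ∑ s, ∑ j, ∑ l, f t s j l = ∑ t, ∑ l, ∑ s, ∑ j, f t s j l := by
  refine Finset.sum_congr rfl fun t _ => ?_
  rw [Finset.sum_comm (s := Finset.univ (α := B))]
  refine Finset.sum_congr rfl fun s _ => ?_
  exact Finset.sum_comm

theorem sw_left (N : T → B → ℕ) (r k : ℕ) (hN : IsDesign N r k) (hb : IsBin N) :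
    ∑ t, ∑ s, ∑ j, ∑ l, ((N t j : ℝ) * (N s l : ℝ) * (1 - (N t l : ℝ)) * (1 - (N s j : ℝ))) *
        (Pm N t j - Pm N t l - Pm N s j + Pm N s l)
      = 2 * ((k : ℝ) * ((Fintype.card B : ℝ) - r) * (∑ t, ∑ s, lam N t s ^ 2)
          + (∑ t, ∑ l, Pm N t l ^ 2) - (r : ℝ) ^ 3 * (k : ℝ) ^ 2 * (Fintype.card T : ℝ)) := by
  have hsplit : ∑ t, ∑ s, ∑ j, ∑ l, ((N t j : ℝ) * (N s l : ℝ) * (1 - (N t l : ℝ)) * (1 - (N s j : ℝ))) *
        (Pm N t j - Pm N t l - Pm N s j + Pm N s l) =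
      (∑ t, ∑ s, ∑ j, ∑ l, ((N t j : ℝ) * (N s l : ℝ) * (1 - (N t l : ℝ)) * (1 - (N s j : ℝ))) * Pm N t j) -
      (∑ t, ∑ s, ∑ j, ∑ l, ((N t j : ℝ) * (N s l : ℝ) * (1 - (N t l : ℝ)) * (1 - (N s j : ℝ))) * Pm N t l) -
      (∑ t, ∑ s, ∑ j, ∑ l, ((N t j : ℝ) * (N s l : ℝ) * (1 - (N t l : ℝ)) * (1 - (N s j : ℝ))) * Pm N s j) +
      (∑ t, ∑ s, ∑ j, ∑ l, ((N t j : ℝ) * (N s l : ℝ) * (1 - (N t l : ℝ)) * (1 - (N s j : ℝ))) * Pm N s l) := by
    simp only [← Finset.sum_sub_distrib, ← Finset.sum_add_distrib]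
    refine Finset.sum_congr rfl fun t _ => Finset.sum_congr rfl fun s _ =>
      Finset.sum_congr rfl fun j _ => Finset.sum_congr rfl fun l _ => ?_
    ring
  have e1 : (∑ t, ∑ s, ∑ j, ∑ l, ((N t j : ℝ) * (N s l : ℝ) * (1 - (N t l : ℝ)) * (1 - (N s j : ℝ))) * Pm N s l) =
      ∑ t, ∑ s, ∑ j, ∑ l, ((N t j : ℝ) * (N s l : ℝ) * (1 - (N t l : ℝ)) * (1 - (N s j : ℝ))) * Pm N t j := by
    rw [swl_symm]
    refine Finset.sum_congr rfl fun t _ => Finset.sum_congr rfl fun s _ =>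
      Finset.sum_congr rfl fun j _ => Finset.sum_congr rfl fun l _ => ?_
    ring
  have e2 : (∑ t, ∑ s, ∑ j, ∑ l, ((N t j : ℝ) * (N s l : ℝ) * (1 - (N t l : ℝ)) * (1 - (N s j : ℝ))) * Pm N s j) =
      ∑ t, ∑ s, ∑ j, ∑ l, ((N t j : ℝ) * (N s l : ℝ) * (1 - (N t l : ℝ)) * (1 - (N s j : ℝ))) * Pm N t l := by
    rw [swl_symm]
    refine Finset.sum_congr rfl fun t _ => Finset.sum_congr rfl fun s _ =>
      Finset.sum_congr rfl fun j _ => Finset.sum_congr rfl fun l _ => ?_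
    ring
  have e3 : (∑ t, ∑ s, ∑ j, ∑ l, ((N t j : ℝ) * (N s l : ℝ) * (1 - (N t l : ℝ)) * (1 - (N s j : ℝ))) * Pm N t j) =
      ∑ t, ∑ j, (N t j : ℝ) * Pm N t j * ((k : ℝ) * ((Fintype.card B : ℝ) - r) - r * k + Pm N t j) := by
    rw [swl_move1]
    exact Finset.sum_congr rfl fun t _ => Finset.sum_congr rfl fun j _ => swl_A hN t j
  have e4 : (∑ t, ∑ s, ∑ j, ∑ l, ((N t j : ℝ) * (N s l : ℝ) * (1 - (N t l : ℝ)) * (1 - (N s j : ℝ))) * Pm N t l) =
      ∑ t, ∑ l, (1 - (N t l : ℝ)) * Pm N t l * (r * k - Pm N t l) := by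
    rw [swl_move2]
    exact Finset.sum_congr rfl fun t _ => Finset.sum_congr rfl fun l _ => swl_B hN t l
  rw [hsplit, e1, e2, e3, e4]
  have e5 : (∑ t, ∑ j, (N t j : ℝ) * Pm N t j * ((k : ℝ) * ((Fintype.card B : ℝ) - r) - r * k + Pm N t j)) -
      (∑ t, ∑ l, (1 - (N t l : ℝ)) * Pm N t l * (r * k - Pm N t l)) =
      (k : ℝ) * ((Fintype.card B : ℝ) - r) * (∑ t, ∑ j, (N t j : ℝ) * Pm N t j) + (∑ t, ∑ l, Pm N t l ^ 2) -
        r * k * (∑ t, ∑ j, Pm N t j) := by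
    simp only [Finset.mul_sum, ← Finset.sum_sub_distrib, ← Finset.sum_add_distrib]
    refine Finset.sum_congr rfl fun t _ => Finset.sum_congr rfl fun j _ => ?_
    ring
  rw [swl_nP, swl_sumP hN] at e5
  linear_combination (2 : ℝ) * e5

end Pool.Agent.BDesign
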