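import Pool.Agent.Lib.BDesign.Defs

/-!
`sw_right`: `∑ w (2(r - lam t s) + 2(k - lamB j l) - 2) = 2∑(r-lam)³ + 2∑(k-lamB)³ - 2∑(r-lam)²`,
`w = n_tj n_sl (1-n_tl)(1-n_sj)`, since for fixed `t,s` the sum of `w` is
`(∑_j n_tj(1-n_sj)) (∑_l n_sl (1-n_tl)) = (r - lam t s)²`, and for fixed `j,l` it is `(k - lamB j l)²`
(for the last term use the first way of summation).
-/

set_option autoImplicit false

namespace Pool.Agent.BDesign

open Matrix

variable {T B : Type} [Fintype T] [DecidableEq T] [Fintype B] [DecidableEq B]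

theorem sw_right (N : T → B → ℕ) (r k : ℕ) (hN : IsDesign N r k) (hb : IsBin N) :
    ∑ t, ∑ s, ∑ j, ∑ l, ((N t j : ℝ) * (N s l : ℝ) * (1 - (N t l : ℝ)) * (1 - (N s j : ℝ))) *
        (2 * ((r : ℝ) - lam N t s) + 2 * ((k : ℝ) - lamB N j l) - 2)
      = 2 * (∑ t, ∑ s, ((r : ℝ) - lam N t s) ^ 3) + 2 * (∑ j, ∑ l, ((k : ℝ) - lamB N j l) ^ 3)
        - 2 * (∑ t, ∑ s, ((r : ℝ) - lam N t s) ^ 2) := by
  have hrow : ∀ t, ∑ j, (N t j : ℝ) = r := by
    intro t
    exact_mod_cast hN.1 t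
  have hcol : ∀ j, ∑ t, (N t j : ℝ) = k := by
    intro j
    exact_mod_cast hN.2 j
  have hr1 : ∀ t s, ∑ j, (N t j : ℝ) * (1 - (N s j : ℝ)) = (r : ℝ) - lam N t s := by
    intro t s
    simp only [mul_sub, mul_one, Finset.sum_sub_distrib, hrow]
    rfl
  have hc1 : ∀ j l, ∑ t, (N t j : ℝ) * (1 - (N t l : ℝ)) = (k : ℝ) - lamB N j l := by
    intro j l
    simp only [mul_sub, mul_one, Finset.sum_sub_distrib, hcol]
    rfl
  have hls : ∀ t s, lam N s t = lam N t s := by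
    intro t s
    unfold lam
    exact Finset.sum_congr rfl fun j _ => mul_comm _ _
  have hbs : ∀ j l, lamB N l j = lamB N j l := by
    intro j l
    unfold lamB
    exact Finset.sum_congr rfl fun j _ => mul_comm _ _
  set w : T → T → B → B → ℝ := fun t s j l =>
    (N t j : ℝ) * (N s l : ℝ) * (1 - (N t l : ℝ)) * (1 - (N s j : ℝ)) with hw
  have h1 : ∀ t s, ∑ j, ∑ l, w t s j l = ((r : ℝ) - lam N t s) ^ 2 := by
    intro t s
    have h2 : ∀ j l, w t s j l = ((N t j : ℝ) * (1 - (N s j : ℝ))) * ((N s l : ℝ) * (1 - (N t l : ℝ))) := by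
      intro j l
      simp only [hw]
      ring
    simp only [h2, ← Finset.mul_sum, ← Finset.sum_mul]
    rw [hr1, hr1, hls]
    ring
  have h2 : ∀ j l, ∑ t, ∑ s, w t s j l = ((k : ℝ) - lamB N j l) ^ 2 := by
    intro j l
    have h3 : ∀ t s, w t s j l = ((N t j : ℝ) * (1 - (N t l : ℝ))) * ((N s l : ℝ) * (1 - (N s j : ℝ))) := by
      intro t s
      simp only [hw]
      ring
    simp only [h3, ← Finset.mul_sum, ← Finset.sum_mul]
    rw [hc1, hc1, hbs]
    ring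
  have hsplit : ∑ t, ∑ s, ∑ j, ∑ l, w t s j l *
      (2 * ((r : ℝ) - lam N t s) + 2 * ((k : ℝ) - lamB N j l) - 2) =
      (∑ t, ∑ s, ∑ j, ∑ l, w t s j l * (2 * ((r : ℝ) - lam N t s) - 2)) +
      ∑ t, ∑ s, ∑ j, ∑ l, w t s j l * (2 * ((k : ℝ) - lamB N j l)) := by
    simp only [← Finset.sum_add_distrib]
    refine Finset.sum_congr rfl fun t _ => Finset.sum_congr rfl fun s _ =>
      Finset.sum_congr rfl fun j _ => Finset.sum_congr rfl fun l _ => ?_
    ring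
  have hA : ∑ t, ∑ s, ∑ j, ∑ l, w t s j l * (2 * ((r : ℝ) - lam N t s) - 2) =
      2 * (∑ t, ∑ s, ((r : ℝ) - lam N t s) ^ 3) - 2 * (∑ t, ∑ s, ((r : ℝ) - lam N t s) ^ 2) := by
    simp only [← Finset.sum_mul, h1, Finset.mul_sum, ← Finset.sum_sub_distrib]
    refine Finset.sum_congr rfl fun t _ => Finset.sum_congr rfl fun s _ => ?_
    ring
  have hB : ∑ t, ∑ s, ∑ j, ∑ l, w t s j l * (2 * ((k : ℝ) - lamB N j l)) =
      2 * (∑ j, ∑ l, ((k : ℝ) - lamB N j l) ^ 3) := by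
    have e1 : ∑ t, ∑ s, ∑ j, ∑ l, w t s j l * (2 * ((k : ℝ) - lamB N j l)) =
        ∑ j, ∑ l, ∑ t, ∑ s, w t s j l * (2 * ((k : ℝ) - lamB N j l)) := by
      have e2 : ∀ t, ∑ s, ∑ j, ∑ l, w t s j l * (2 * ((k : ℝ) - lamB N j l)) =
          ∑ j, ∑ l, ∑ s, w t s j l * (2 * ((k : ℝ) - lamB N j l)) := by
        intro t
        rw [Finset.sum_comm]
        exact Finset.sum_congr rfl fun j _ => Finset.sum_comm
      simp only [e2]
      rw [Finset.sum_comm]
      exact Finset.sum_congr rfl fun j _ => Finset.sum_comm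
    rw [e1]
    simp only [← Finset.sum_mul, h2, Finset.mul_sum]
    refine Finset.sum_congr rfl fun t _ => Finset.sum_congr rfl fun s _ => ?_
    ring
  show ∑ t, ∑ s, ∑ j, ∑ l, w t s j l *
      (2 * ((r : ℝ) - lam N t s) + 2 * ((k : ℝ) - lamB N j l) - 2) = _
  rw [hsplit, hA, hB]
  ring

end Pool.Agent.BDesign
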