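import Pool.Agent.Lib.BDesign.Defs
import Pool.Agent.Lib.BDesign.BinSwap
import Pool.Agent.Lib.BDesign.BinMin
import Pool.Agent.Lib.BDesign.SwLeft
import Pool.Agent.Lib.BDesign.SwRight

/-!
For the binary design minimising `∑ lam²`: every admissible quadruple satisfies
`P_ij - P_il - P_hj + P_hl ≤ 2(r - lam i h) + 2(k - lamB j l) - 2` (`bin_swap`, `bin_swap_bin`, `swp_design`).  Multiply by the weights
(which are 1 for admissible quadruples and 0 otherwise) and sum with `sw_left`, `sw_right`.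
-/

set_option autoImplicit false

namespace Pool.Agent.BDesign

open Matrix

variable {T B : Type} [Fintype T] [DecidableEq T] [Fintype B] [DecidableEq B]

private theorem SwIneq_pointwise (N : T → B → ℕ) (r k : ℕ) (hN : IsDesign N r k) (hb : IsBin N)
    (hmin : ∀ N' : T → B → ℕ, IsDesign N' r k → IsBin N' →
        ∑ t, ∑ s, lam N t s ^ 2 ≤ ∑ t, ∑ s, lam N' t s ^ 2) (t s : T) (j l : B) :
    ((N t j : ℝ) * (N s l : ℝ) * (1 - (N t l : ℝ)) * (1 - (N s j : ℝ))) *
        (Pm N t j - Pm N t l - Pm N s j + Pm N s l)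
      ≤ ((N t j : ℝ) * (N s l : ℝ) * (1 - (N t l : ℝ)) * (1 - (N s j : ℝ))) *
        (2 * ((r : ℝ) - lam N t s) + 2 * ((k : ℝ) - lamB N j l) - 2) := by
  have h1 := hb t j
  have h2 := hb s l
  have h3 := hb t l
  have h4 := hb s j
  by_cases c1 : N t j = 0
  · simp [c1]
  by_cases c2 : N s l = 0
  · simp [c2]
  by_cases c3 : N t l = 1
  · simp [c3]
  by_cases c4 : N s j = 1
  · simp [c4]
  have e1 : N t j = 1 := by omega
  have e2 : N s l = 1 := by omega
  have e3 : N t l = 0 := by omega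
  have e4 : N s j = 0 := by omega
  have hts : t ≠ s := by
    rintro rfl
    omega
  have hjl : j ≠ l := by
    rintro rfl
    omega
  have hd := swp_design N r k hN t s j l hts hjl (by omega) (by omega)
  have hbb := bin_swap_bin N hb t s j l e1 e2 e3 e4
  have hm := hmin _ hd hbb
  have hs := bin_swap N r k hN hb t s j l e1 e2 e3 e4
  rw [hs] at hm
  rw [e1, e2, e3, e4]
  norm_num
  linarith

theorem sw_ineq (N : T → B → ℕ) (r k : ℕ) (hN : IsDesign N r k) (hb : IsBin N)
    (hmin : ∀ N' : T → B → ℕ, IsDesign N' r k → IsBin N' →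
        ∑ t, ∑ s, lam N t s ^ 2 ≤ ∑ t, ∑ s, lam N' t s ^ 2) :
    (k : ℝ) * ((Fintype.card B : ℝ) - r) * (∑ t, ∑ s, lam N t s ^ 2)
          + (∑ t, ∑ l, Pm N t l ^ 2) - (r : ℝ) ^ 3 * (k : ℝ) ^ 2 * (Fintype.card T : ℝ)
      ≤ (∑ t, ∑ s, ((r : ℝ) - lam N t s) ^ 3) + (∑ j, ∑ l, ((k : ℝ) - lamB N j l) ^ 3)
        - (∑ t, ∑ s, ((r : ℝ) - lam N t s) ^ 2) := by
  have hL := sw_left N r k hN hb
  have hR := sw_right N r k hN hb
  have hle := Finset.sum_le_sum (s := (Finset.univ : Finset T)) fun t _ =>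
    Finset.sum_le_sum (s := (Finset.univ : Finset T)) fun s _ =>
      Finset.sum_le_sum (s := (Finset.univ : Finset B)) fun j _ =>
        Finset.sum_le_sum (s := (Finset.univ : Finset B)) fun l _ =>
          SwIneq_pointwise N r k hN hb hmin t s j l
  rw [hL, hR] at hle
  linarith

end Pool.Agent.BDesign
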