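import Pool.Agent.Lib.BDesign.Defs
import Pool.Agent.Lib.BDesign.GoodMu

/-!
One-sided facts for a binary design, `v = |T| ≥ 2`, `g = r(v-k)/(v-1)` (mean of `r - lam t s` over `s ≠ t`),
`φ_ts = g - (r - lam t s)` for `t ≠ s`, `φ_tt = 0`.  `lam t t = r`, `∑_s lam t s = rk`, so `∑_s φ_ts = 0`.
`vf_sq`: `∑(r-lam)² = v(v-1)g² + ∑φ²`.  `vf_cube`: `∑(r-lam)³ = v(v-1)g³ + 3g∑φ² - ∑φ³`.
`vf_lam`: `∑lam² = (rk)² + (v-1)g² + ∑φ²` (from `lam t t = r`, `lam t s = r - g + φ`; check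
`v r² + v(v-1)(r-g)² = (rk)² + (v-1) g²`).  `phi_eq`: `φ = r k (μ - mΠ)`, `m = mc v k = g/(rk)`.
`gap_le`: `r - lam t s = #{j : n_tj = 1, n_sj = 0} ≤ min r (b-r)`.  `mean_le`: `g` is the mean of `r - lam t s` over `s ≠ t`.
`vf_C`: `-φ ≤ w - g` off the diagonal.
-/

set_option autoImplicit false

namespace Pool.Agent.BDesign

open Matrix

variable {T B : Type} [Fintype T] [DecidableEq T] [Fintype B] [DecidableEq B]

theorem va_lam_self (N : T → B → ℕ) (r k : ℕ) (hN : IsDesign N r k) (hb : IsBin N) (t : T) :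
    lam N t t = (r : ℝ) := by
  unfold lam
  have h1 : ∀ j : B, (N t j : ℝ) * (N t j : ℝ) = (N t j : ℝ) := by
    intro j
    have := hb t j
    interval_cases h : N t j <;> simp
  rw [Finset.sum_congr rfl (fun j _ => h1 j), ← Nat.cast_sum, hN.1 t]

theorem va_lam_row (N : T → B → ℕ) (r k : ℕ) (hN : IsDesign N r k) (t : T) :
    ∑ s, lam N t s = (r : ℝ) * k := by
  unfold lam
  rw [Finset.sum_comm]
  have h1 : ∀ j : B, ∑ s, (N t j : ℝ) * (N s j : ℝ) = (N t j : ℝ) * k := by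
    intro j
    rw [← Finset.mul_sum, ← Nat.cast_sum, hN.2 j]
  rw [Finset.sum_congr rfl (fun j _ => h1 j), ← Finset.sum_mul, ← Nat.cast_sum, hN.1 t]

/-- the uniform formula for `phi` -/
theorem va_phi (N : T → B → ℕ) (r k : ℕ) (hN : IsDesign N r k) (hb : IsBin N) (t s : T) :
    phi N r k t s = (r : ℝ) * ((Fintype.card T : ℝ) - k) / ((Fintype.card T : ℝ) - 1)
      * (1 - (if t = s then 1 else 0)) - ((r : ℝ) - lam N t s) := by
  unfold phi
  by_cases h : t = s
  · subst h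
    rw [if_pos rfl, if_pos rfl, va_lam_self N r k hN hb t]
    ring
  · rw [if_neg h, if_neg h]
    ring

theorem va_delta_sum (t : T) : ∑ s : T, (1 - (if t = s then (1 : ℝ) else 0)) = (Fintype.card T : ℝ) - 1 := by
  rw [Finset.sum_sub_distrib]
  simp

theorem phi_row (N : T → B → ℕ) (r k : ℕ) (hT : 2 ≤ Fintype.card T) (hN : IsDesign N r k) (hb : IsBin N)
    (t : T) : ∑ s, phi N r k t s = 0 := by
  have hv : (Fintype.card T : ℝ) - 1 ≠ 0 := by
    have : (2 : ℝ) ≤ (Fintype.card T : ℝ) := by exact_mod_cast hT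
    intro h
    linarith
  rw [Finset.sum_congr rfl (fun s _ => va_phi N r k hN hb t s), Finset.sum_sub_distrib,
    ← Finset.mul_sum, va_delta_sum, Finset.sum_sub_distrib, va_lam_row N r k hN t,
    Finset.sum_const, Finset.card_univ, nsmul_eq_mul]
  field_simp
  ring

theorem va_diag (N : T → B → ℕ) (r k : ℕ) (t : T) : phi N r k t t = 0 := by
  unfold phi
  rw [if_pos rfl]

theorem va_gap (N : T → B → ℕ) (r k : ℕ) (hN : IsDesign N r k) (hb : IsBin N)
    (g : ℝ) (hg : g = (r : ℝ) * ((Fintype.card T : ℝ) - k) / ((Fintype.card T : ℝ) - 1)) (t s : T) :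
    (r : ℝ) - lam N t s = g * (1 - (if t = s then 1 else 0)) - phi N r k t s := by
  rw [va_phi N r k hN hb t s, hg]
  ring

theorem vf_sq (N : T → B → ℕ) (r k : ℕ) (hT : 2 ≤ Fintype.card T) (hN : IsDesign N r k) (hb : IsBin N)
    (v g : ℝ) (hv : v = (Fintype.card T : ℝ)) (hg : g = (r : ℝ) * (v - k) / (v - 1)) :
    ∑ t, ∑ s, ((r : ℝ) - lam N t s) ^ 2 = v * (v - 1) * g ^ 2 + ∑ t, ∑ s, phi N r k t s ^ 2 := by
  subst hv
  have h1 : ∀ t s : T, ((r : ℝ) - lam N t s) ^ 2 = g ^ 2 * (1 - (if t = s then (1 : ℝ) else 0))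
      - 2 * g * phi N r k t s + phi N r k t s ^ 2 := by
    intro t s
    rw [va_gap N r k hN hb g hg t s]
    by_cases h : t = s
    · subst h
      rw [va_diag]
      simp
    · rw [if_neg h]
      ring
  have h2 : ∀ t : T, ∑ s, ((r : ℝ) - lam N t s) ^ 2 =
      g ^ 2 * ((Fintype.card T : ℝ) - 1) + ∑ s, phi N r k t s ^ 2 := by
    intro t
    rw [Finset.sum_congr rfl (fun s _ => h1 t s), Finset.sum_add_distrib, Finset.sum_sub_distrib,
      ← Finset.mul_sum, ← Finset.mul_sum, va_delta_sum, phi_row N r k hT hN hb t]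
    ring
  rw [Finset.sum_congr rfl (fun t _ => h2 t), Finset.sum_add_distrib, Finset.sum_const,
    Finset.card_univ, nsmul_eq_mul]
  ring

theorem vf_cube (N : T → B → ℕ) (r k : ℕ) (hT : 2 ≤ Fintype.card T) (hN : IsDesign N r k) (hb : IsBin N)
    (v g : ℝ) (hv : v = (Fintype.card T : ℝ)) (hg : g = (r : ℝ) * (v - k) / (v - 1)) :
    ∑ t, ∑ s, ((r : ℝ) - lam N t s) ^ 3 = v * (v - 1) * g ^ 3
      + 3 * g * (∑ t, ∑ s, phi N r k t s ^ 2) - ∑ t, ∑ s, phi N r k t s ^ 3 := by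
  subst hv
  have h1 : ∀ t s : T, ((r : ℝ) - lam N t s) ^ 3 = g ^ 3 * (1 - (if t = s then (1 : ℝ) else 0))
      - 3 * g ^ 2 * phi N r k t s + 3 * g * phi N r k t s ^ 2 - phi N r k t s ^ 3 := by
    intro t s
    rw [va_gap N r k hN hb g hg t s]
    by_cases h : t = s
    · subst h
      rw [va_diag]
      simp
    · rw [if_neg h]
      ring
  have h2 : ∀ t : T, ∑ s, ((r : ℝ) - lam N t s) ^ 3 =
      g ^ 3 * ((Fintype.card T : ℝ) - 1) + 3 * g * ∑ s, phi N r k t s ^ 2 - ∑ s, phi N r k t s ^ 3 := by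
    intro t
    rw [Finset.sum_congr rfl (fun s _ => h1 t s), Finset.sum_sub_distrib, Finset.sum_add_distrib,
      Finset.sum_sub_distrib,
      ← Finset.mul_sum, ← Finset.mul_sum, ← Finset.mul_sum, va_delta_sum, phi_row N r k hT hN hb t]
    ring
  rw [Finset.sum_congr rfl (fun t _ => h2 t), Finset.sum_sub_distrib, Finset.sum_add_distrib,
    Finset.sum_const, Finset.card_univ, nsmul_eq_mul, ← Finset.mul_sum]
  ring

theorem vf_lam (N : T → B → ℕ) (r k : ℕ) (hT : 2 ≤ Fintype.card T) (hN : IsDesign N r k) (hb : IsBin N)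
    (v g : ℝ) (hv : v = (Fintype.card T : ℝ)) (hg : g = (r : ℝ) * (v - k) / (v - 1)) :
    ∑ t, ∑ s, lam N t s ^ 2 = ((r : ℝ) * k) ^ 2 + (v - 1) * g ^ 2 + ∑ t, ∑ s, phi N r k t s ^ 2 := by
  subst hv
  have hv1 : (Fintype.card T : ℝ) - 1 ≠ 0 := by
    have : (2 : ℝ) ≤ (Fintype.card T : ℝ) := by exact_mod_cast hT
    intro h
    linarith
  have h1 : ∀ t s : T, lam N t s ^ 2 = (r : ℝ) ^ 2
      + ((r - g) ^ 2 - (r : ℝ) ^ 2) * (1 - (if t = s then (1 : ℝ) else 0))
      + 2 * (r - g) * phi N r k t s + phi N r k t s ^ 2 := by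
    intro t s
    have h := va_gap N r k hN hb g hg t s
    have h' : lam N t s = (r : ℝ) - (g * (1 - (if t = s then 1 else 0)) - phi N r k t s) := by
      linarith
    rw [h']
    by_cases h : t = s
    · subst h
      rw [va_diag]
      simp
    · rw [if_neg h]
      ring
  have h2 : ∀ t : T, ∑ s, lam N t s ^ 2 =
      (Fintype.card T : ℝ) * (r : ℝ) ^ 2 + ((r - g) ^ 2 - (r : ℝ) ^ 2) * ((Fintype.card T : ℝ) - 1)
        + ∑ s, phi N r k t s ^ 2 := by
    intro t
    rw [Finset.sum_congr rfl (fun s _ => h1 t s), Finset.sum_add_distrib, Finset.sum_add_distrib,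
      Finset.sum_add_distrib, Finset.sum_const, Finset.card_univ, nsmul_eq_mul,
      ← Finset.mul_sum, ← Finset.mul_sum, va_delta_sum, phi_row N r k hT hN hb t]
    ring
  rw [Finset.sum_congr rfl (fun t _ => h2 t), Finset.sum_add_distrib,
    Finset.sum_const, Finset.card_univ, nsmul_eq_mul]
  have h3 : (Fintype.card T : ℝ) * ((Fintype.card T : ℝ) * (r : ℝ) ^ 2
      + ((r - g) ^ 2 - (r : ℝ) ^ 2) * ((Fintype.card T : ℝ) - 1))
      = ((r : ℝ) * k) ^ 2 + ((Fintype.card T : ℝ) - 1) * g ^ 2 := by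
    rw [hg]
    field_simp
    ring
  rw [h3]

theorem vf_C (N : T → B → ℕ) (r k : ℕ) (w g : ℝ)
    (hg : g = (r : ℝ) * ((Fintype.card T : ℝ) - k) / ((Fintype.card T : ℝ) - 1))
    (hw : ∀ t s, (r : ℝ) - lam N t s ≤ w) :
    -(∑ t, ∑ s, phi N r k t s ^ 3) ≤ (w - g) * ∑ t, ∑ s, phi N r k t s ^ 2 := by
  rw [← Finset.sum_neg_distrib, Finset.mul_sum]
  refine Finset.sum_le_sum fun t _ => ?_
  rw [← Finset.sum_neg_distrib, Finset.mul_sum]
  refine Finset.sum_le_sum fun s _ => ?_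
  by_cases h : t = s
  · subst h
    rw [va_diag]
    simp
  · have h1 : phi N r k t s = g - ((r : ℝ) - lam N t s) := by
      unfold phi
      rw [if_neg h, hg]
    have h2 : -phi N r k t s ≤ w - g := by
      rw [h1]
      linarith [hw t s]
    have h3 : 0 ≤ phi N r k t s ^ 2 := sq_nonneg _
    have h4 := mul_le_mul_of_nonneg_right h2 h3
    calc -phi N r k t s ^ 3 = -phi N r k t s * phi N r k t s ^ 2 := by ring
      _ ≤ (w - g) * phi N r k t s ^ 2 := h4

/-- `r - lam t s ≤ min r (b - r)` for a binary design -/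
theorem gap_le (N : T → B → ℕ) (r k : ℕ) (hN : IsDesign N r k) (hb : IsBin N) (t s : T) :
    (r : ℝ) - lam N t s ≤ min (r : ℝ) ((Fintype.card B : ℝ) - r) := by
  refine le_min ?_ ?_
  · have : 0 ≤ lam N t s := Finset.sum_nonneg fun j _ => by positivity
    linarith
  · have h1 : (r : ℝ) = ∑ j, (N t j : ℝ) := by rw [← Nat.cast_sum, hN.1 t]
    have h2 : (r : ℝ) = ∑ j, (N s j : ℝ) := by rw [← Nat.cast_sum, hN.1 s]
    have h3 : (r : ℝ) - lam N t s = ∑ j, (N t j : ℝ) * (1 - (N s j : ℝ)) := by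
      unfold lam
      rw [h1, ← Finset.sum_sub_distrib]
      exact Finset.sum_congr rfl fun j _ => by ring
    have h4 : (Fintype.card B : ℝ) - r = ∑ j, (1 - (N s j : ℝ)) := by
      rw [Finset.sum_sub_distrib, ← h2]
      simp
    rw [h3, h4]
    refine Finset.sum_le_sum fun j _ => ?_
    have h5 : (N t j : ℝ) ≤ 1 := by exact_mod_cast hb t j
    have h6 : (N s j : ℝ) ≤ 1 := by exact_mod_cast hb s j
    nlinarith [mul_nonneg (sub_nonneg.2 h5) (sub_nonneg.2 h6)]

/-- the mean is at most the maximum -/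
theorem mean_le (N : T → B → ℕ) (r k : ℕ) (hT : 2 ≤ Fintype.card T) (hN : IsDesign N r k) (hb : IsBin N) :
    (r : ℝ) * ((Fintype.card T : ℝ) - k) / ((Fintype.card T : ℝ) - 1)
      ≤ min (r : ℝ) ((Fintype.card B : ℝ) - r) := by
  have hv : 0 < (Fintype.card T : ℝ) - 1 := by
    have : (2 : ℝ) ≤ (Fintype.card T : ℝ) := by exact_mod_cast hT
    linarith
  have hne : Nonempty T := Fintype.card_pos_iff.1 (by omega)
  obtain ⟨t⟩ := hne
  set g : ℝ := (r : ℝ) * ((Fintype.card T : ℝ) - k) / ((Fintype.card T : ℝ) - 1) with hg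
  set w : ℝ := min (r : ℝ) ((Fintype.card B : ℝ) - r) with hw
  have h1 : ∀ s : T, g * (1 - (if t = s then (1 : ℝ) else 0)) - phi N r k t s
      ≤ w * (1 - (if t = s then (1 : ℝ) else 0)) := by
    intro s
    rw [← va_gap N r k hN hb g hg t s]
    by_cases h : t = s
    · subst h
      rw [va_lam_self N r k hN hb t]
      simp
    · rw [if_neg h]
      have := gap_le N r k hN hb t s
      rw [← hw] at this
      linarith
  have h2 : ∑ s, (g * (1 - (if t = s then (1 : ℝ) else 0)) - phi N r k t s)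
      ≤ ∑ s, w * (1 - (if t = s then (1 : ℝ) else 0)) := Finset.sum_le_sum fun s _ => h1 s
  rw [Finset.sum_sub_distrib, ← Finset.mul_sum, ← Finset.mul_sum, va_delta_sum,
    phi_row N r k hT hN hb t] at h2
  have h3 : g * ((Fintype.card T : ℝ) - 1) ≤ w * ((Fintype.card T : ℝ) - 1) := by linarith
  exact le_of_mul_le_mul_right h3 hv

/-- relation with `Bmat`: `φ = r k (μ - mΠ)` -/
theorem phi_eq (N : T → B → ℕ) (r k : ℕ) (hr : 0 < r) (hk : 0 < k) (hT : 2 ≤ Fintype.card T)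
    (hN : IsDesign N r k) (hb : IsBin N) (t s : T) :
    phi N r k t s = (r : ℝ) * k * Bmat N r k t s := by
  have hr' : (r : ℝ) ≠ 0 := by positivity
  have hk' : (k : ℝ) ≠ 0 := by positivity
  have hv2 : (2 : ℝ) ≤ (Fintype.card T : ℝ) := by exact_mod_cast hT
  have hv1 : (Fintype.card T : ℝ) - 1 ≠ 0 := by
    intro h
    linarith
  have hv0 : (Fintype.card T : ℝ) ≠ 0 := by
    intro h
    linarith
  have hB : Bmat N r k t s = lam N t s / ((r : ℝ) * k) - 1 / (Fintype.card T : ℝ)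
      - mc (Fintype.card T) k * ((if t = s then 1 else 0) - 1 / (Fintype.card T : ℝ)) := by
    simp only [Bmat, mu, PiM, lam, Matrix.sub_apply, Matrix.smul_apply, smul_eq_mul]
  rw [va_phi N r k hN hb t s, hB]
  unfold mc
  by_cases h : t = s
  · subst h
    rw [if_pos rfl, va_lam_self N r k hN hb t]
    field_simp
    ring
  · rw [if_neg h]
    field_simp
    ring

end Pool.Agent.BDesign
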