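import Pool.Agent.Lib.BDesign.Defs
import Pool.Agent.Lib.BDesign.HBasic
import Pool.Agent.Lib.BDesign.VarA

/-!
`vf_P`: `∑_{t,l} P_tl² = tr(NᵀM²N) = tr M³` with `M = (lam)`.  `M = (rk/v)J + C`, `C = r k μ` PSD with zero row sums,
`C = gΠ + φ` (`phi_eq`, `mc v k · rk = g`), so `tr M³ = (rk)³ + tr C³` and `tr C³ = (v-1)g³ + 3g²·tr φ + 3g tr φ² + tr φ³`
with `tr φ = 0`; `tr φ³ ≥ -g tr φ²` since `tr(φ C φ) = g tr φ² + tr φ³ ≥ 0` (`C` PSD).  (`φΠ = φ`.)
-/

set_option autoImplicit false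

namespace Pool.Agent.BDesign

open Matrix

variable {T B : Type} [Fintype T] [DecidableEq T] [Fintype B] [DecidableEq B]

private theorem VarP_tr (X : Matrix T B ℝ) : (X * Xᵀ).trace = ∑ t, ∑ l, X t l ^ 2 := by
  simp only [Matrix.trace, Matrix.diag_apply, Matrix.mul_apply, Matrix.transpose_apply, pow_two]

private theorem VarP_diag (N : T → B → ℕ) (r k : ℕ) (hN : IsDesign N r k) (hb : IsBin N) (t : T) :
    lam N t t = r := by
  unfold lam
  have h : ∀ j, (N t j : ℝ) * (N t j : ℝ) = (N t j : ℝ) := by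
    intro j
    have h1 := hb t j
    interval_cases N t j <;> simp
  simp only [h]
  rw [← Nat.cast_sum, hN.1 t]

theorem vf_P (N : T → B → ℕ) (r k : ℕ) (hr : 0 < r) (hk : 0 < k) (hT : 2 ≤ Fintype.card T)
    (hN : IsDesign N r k) (hb : IsBin N)
    (v g : ℝ) (hv : v = (Fintype.card T : ℝ)) (hg : g = (r : ℝ) * (v - k) / (v - 1)) :
    ((r : ℝ) * k) ^ 3 + (v - 1) * g ^ 3 + 2 * g * (∑ t, ∑ s, phi N r k t s ^ 2)
      ≤ ∑ t, ∑ l, Pm N t l ^ 2 := by
  have hv2 : (2 : ℝ) ≤ v := by rw [hv]; exact_mod_cast hT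
  have hv1 : v - 1 ≠ 0 := by linarith
  have hgv : g * (v - 1) = r * (v - k) := by
    rw [hg]; field_simp
  obtain ⟨M, hMdef⟩ : ∃ M : Matrix T T ℝ, M = fun t s => lam N t s := ⟨_, rfl⟩
  obtain ⟨Φ, hΦdef⟩ : ∃ Φ : Matrix T T ℝ, Φ = phi N r k := ⟨_, rfl⟩
  obtain ⟨J, hJdef⟩ : ∃ J : Matrix T T ℝ, J = fun _ _ => 1 := ⟨_, rfl⟩
  obtain ⟨b, hbdef⟩ : ∃ b : ℝ, b = r - g := ⟨_, rfl⟩
  have hsymm : ∀ t s, Φ t s = Φ s t := by
    intro t s
    rw [hΦdef]
    unfold phi lam
    by_cases h : t = s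
    · subst h; rfl
    · rw [if_neg h, if_neg (Ne.symm h)]
      congr 2
      exact Finset.sum_congr rfl fun j _ => mul_comm _ _
  have hrow : ∀ t, ∑ s, Φ t s = 0 := by
    intro t
    rw [hΦdef]
    exact phi_row N r k hT hN hb t
  have hcol : ∀ t, ∑ s, Φ s t = 0 := by
    intro t
    rw [← hrow t]
    exact Finset.sum_congr rfl fun s _ => hsymm s t
  have hΦT : Φᵀ = Φ := by
    ext t s
    exact hsymm s t
  have hM : M = g • (1 : Matrix T T ℝ) + b • J + Φ := by
    ext t s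
    rw [Matrix.add_apply, Matrix.add_apply, Matrix.smul_apply, Matrix.smul_apply, hMdef, hΦdef,
      hJdef, hbdef]
    simp only [smul_eq_mul]
    by_cases h : t = s
    · subst h
      rw [Matrix.one_apply_eq, VarP_diag N r k hN hb t]
      unfold phi
      rw [if_pos rfl]
      ring
    · rw [Matrix.one_apply_ne h]
      unfold phi
      rw [if_neg h, ← hv, ← hg]
      ring
  have hJ1 : ∀ t s, J t s = 1 := fun t s => by rw [hJdef]
  have hM1 : ∀ t s, M t s = lam N t s := fun t s => by rw [hMdef]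
  have hJJ : J * J = v • J := by
    ext t s
    rw [Matrix.smul_apply, Matrix.mul_apply]
    simp [hv, hJ1]
  have hJΦ : J * Φ = 0 := by
    ext t s
    rw [Matrix.mul_apply]
    simpa [hJ1] using hcol s
  have hΦJ : Φ * J = 0 := by
    ext t s
    rw [Matrix.mul_apply]
    simpa [hJ1] using hrow t
  have hinc : inc N * (inc N)ᵀ = M := by
    ext t s
    rw [hM1, Matrix.mul_apply]
    rfl
  have hMT : Mᵀ = M := by
    rw [← hinc, Matrix.transpose_mul, Matrix.transpose_transpose]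
  have hP : ∑ t, ∑ l, Pm N t l ^ 2 = (M * M * M).trace := by
    have h1 : ∀ t l, Pm N t l = (M * inc N) t l := by
      intro t l
      rw [Matrix.mul_apply]
      simp only [hM1]
      rfl
    simp only [h1]
    rw [← VarP_tr, Matrix.transpose_mul, hMT]
    congr 1
    rw [← Matrix.mul_assoc, Matrix.mul_assoc M (inc N), hinc]
  have hM2 : M * M = (g ^ 2) • (1 : Matrix T T ℝ) + (2 * g * b + b ^ 2 * v) • J + (2 * g) • Φ
      + Φ * Φ := by
    rw [hM]
    simp only [add_mul, mul_add, Matrix.smul_mul, Matrix.mul_smul, Matrix.one_mul, Matrix.mul_one,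
      hJJ, hJΦ, hΦJ, smul_zero, smul_smul, add_zero, zero_add]
    ext t s
    simp only [Matrix.add_apply, Matrix.smul_apply, smul_eq_mul]
    ring
  have hM3 : (M * M * M).trace = g ^ 3 * v + (3 * g ^ 2 * b + 3 * g * b ^ 2 * v + b ^ 3 * v ^ 2) * v
      + 3 * g * (Φ * Φ).trace + (Φ * Φ * Φ).trace := by
    have h1 : M * M * M = (g ^ 3) • (1 : Matrix T T ℝ)
        + (3 * g ^ 2 * b + 3 * g * b ^ 2 * v + b ^ 3 * v ^ 2) • J + (3 * g ^ 2) • Φ
        + (3 * g) • (Φ * Φ) + Φ * Φ * Φ := by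
      rw [hM2]
      conv_lhs => rw [hM]
      have e1 : Φ * Φ * J = 0 := by rw [Matrix.mul_assoc, hΦJ, Matrix.mul_zero]
      simp only [add_mul, mul_add, Matrix.smul_mul, Matrix.mul_smul, Matrix.one_mul, Matrix.mul_one,
        hJJ, hJΦ, hΦJ, e1, smul_zero, smul_smul, add_zero, zero_add]
      ext t s
      simp only [Matrix.add_apply, Matrix.smul_apply, smul_eq_mul]
      ring
    have h2 : Φ.trace = 0 := by
      rw [hΦdef]
      unfold Matrix.trace
      refine Finset.sum_eq_zero fun t _ => ?_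
      rw [Matrix.diag_apply]
      unfold phi
      rw [if_pos rfl]
    have h3 : J.trace = v := by
      rw [hv]
      simp [Matrix.trace, hJ1]
    have h4 : (1 : Matrix T T ℝ).trace = v := by
      rw [hv, Matrix.trace_one]
    rw [h1]
    simp only [Matrix.trace_add, Matrix.trace_smul, h2, h3, h4, smul_eq_mul, mul_zero, add_zero]
  have hΦ2 : (Φ * Φ).trace = ∑ t, ∑ s, phi N r k t s ^ 2 := by
    have h1 := VarP_tr Φ
    rw [hΦT] at h1
    rw [h1, hΦdef]
  have hpos : 0 ≤ g * (Φ * Φ).trace + (Φ * Φ * Φ).trace := by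
    have h1 : (Φ * M * Φ).trace = g * (Φ * Φ).trace + (Φ * Φ * Φ).trace := by
      rw [hM]
      simp only [add_mul, mul_add, Matrix.smul_mul, Matrix.mul_smul, Matrix.mul_one, hΦJ, smul_zero,
        add_zero, Matrix.trace_add, Matrix.trace_smul, smul_eq_mul]
    have h2 : (Φ * M * Φ).trace = ∑ t, ∑ l, (Φ * inc N) t l ^ 2 := by
      rw [← VarP_tr, Matrix.transpose_mul, hΦT, ← hinc]
      congr 1
      simp only [Matrix.mul_assoc]
    rw [← h1, h2]
    exact Finset.sum_nonneg fun t _ => Finset.sum_nonneg fun l _ => sq_nonneg _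
  have hrk : g + b * v = r * k := by
    rw [hbdef]
    linarith
  rw [hP, hM3, ← hΦ2, ← hrk]
  nlinarith [hpos]

end Pool.Agent.BDesign
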