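import Pool.Agent.Lib.BDesign.Defs
import Pool.Agent.Lib.BDesign.SwIneq
import Pool.Agent.Lib.BDesign.VarP
import Pool.Agent.Lib.BDesign.D0Alg

/-!
The good binary design.  `N` minimises `∑ lam²` among binary designs (`bin_min`), `sw_ineq`; apply `vf_sq`, `vf_cube`, `vf_lam`, `vf_C`
(with `gap_le`, `mean_le`), `vf_P` to `N` and `vf_cube`, `vf_lam`, `vf_C`, `mean_le` to the transposed design `tr' N`
(`lam (tr' N) = lamB N`, `tr' N` is a binary design with parameters `(k, r)` and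
`∑ lamB² = ∑ lam²` because `tr (NᵀN)² = tr (NNᵀ)²`), then `d0_alg` with `Y = ∑φ²`; finally `HS2 (Bmat) = Y/(rk)²` (`phi_eq`).
(`w' = min k (v-k)`.)
-/

set_option autoImplicit false

namespace Pool.Agent.BDesign

open Matrix

variable {T B : Type} [Fintype T] [DecidableEq T] [Fintype B] [DecidableEq B]

private theorem lam_tr (N : T → B → ℕ) (j l : B) : lam (tr' N) j l = lamB N j l := rfl

private theorem tr_design (N : T → B → ℕ) (r k : ℕ) (hN : IsDesign N r k) :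
    IsDesign (tr' N) k r := ⟨hN.2, hN.1⟩

private theorem tr_bin (N : T → B → ℕ) (hN : IsBin N) : IsBin (tr' N) := fun j t => hN t j

private theorem lamB_sq (N : T → B → ℕ) :
    ∑ j, ∑ l, lamB N j l ^ 2 = ∑ t, ∑ s, lam N t s ^ 2 := by
  simp only [lamB, lam, pow_two, Finset.sum_mul_sum]
  calc ∑ j, ∑ l, ∑ t, ∑ s, (N t j : ℝ) * N t l * (N s j * N s l)
      = ∑ j, ∑ t, ∑ l, ∑ s, (N t j : ℝ) * N t l * (N s j * N s l) :=
        Finset.sum_congr rfl fun j _ => Finset.sum_comm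
    _ = ∑ t, ∑ j, ∑ l, ∑ s, (N t j : ℝ) * N t l * (N s j * N s l) := Finset.sum_comm
    _ = ∑ t, ∑ j, ∑ s, ∑ l, (N t j : ℝ) * N t l * (N s j * N s l) :=
        Finset.sum_congr rfl fun t _ => Finset.sum_congr rfl fun j _ => Finset.sum_comm
    _ = ∑ t, ∑ s, ∑ j, ∑ l, (N t j : ℝ) * N t l * (N s j * N s l) :=
        Finset.sum_congr rfl fun t _ => Finset.sum_comm
    _ = ∑ t, ∑ s, ∑ j, ∑ l, (N t j : ℝ) * N s j * (N t l * N s l) := by
        refine Finset.sum_congr rfl fun t _ => Finset.sum_congr rfl fun s _ =>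
          Finset.sum_congr rfl fun j _ => Finset.sum_congr rfl fun l _ => ?_
        ring

theorem d0 (r k : ℕ) (hk : 2 ≤ k) (hv : k + 2 ≤ Fintype.card T) (hr : 24 ≤ r)
    (hc : Fintype.card T * r = Fintype.card B * k) :
    ∃ N : T → B → ℕ, IsDesign N r k ∧ IsBin N ∧
      HS2 (Bmat N r k) ≤ 40 / 3 * ((((Fintype.card T : ℝ) - k) / (Fintype.card T : ℝ)) ^ 2 *
        (Fintype.card T : ℝ) / ((r : ℝ) * k)) := by
  obtain ⟨N, hN, hb, hmin⟩ := bin_min (T := T) (B := B) r k (by omega) (by omega) hc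
  refine ⟨N, hN, hb, ?_⟩
  have hT2 : 2 ≤ Fintype.card T := by omega
  have hrk : r ≤ Fintype.card B := by
    by_contra hlt
    push Not at hlt
    have h1 : Fintype.card B * k < r * k := Nat.mul_lt_mul_of_pos_right hlt (by omega)
    have h2 : r * k ≤ Fintype.card T * r := by
      rw [mul_comm r k]; exact Nat.mul_le_mul_right r (by omega)
    omega
  have hB2 : 2 ≤ Fintype.card B := by omega
  have hsw := sw_ineq N r k hN hb hmin
  have hN' := tr_design N r k hN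
  have hb' := tr_bin N hb
  have c1 := vf_lam N r k hT2 hN hb _ _ rfl rfl
  have c2 := vf_lam (tr' N) k r hB2 hN' hb' _ _ rfl rfl
  have c3 := vf_C N r k (min (r : ℝ) ((Fintype.card B : ℝ) - r)) _ rfl
    (fun t s => gap_le N r k hN hb t s)
  have c4 := vf_C (tr' N) k r (min (k : ℝ) ((Fintype.card T : ℝ) - k)) _ rfl
    (fun t s => gap_le (tr' N) k r hN' hb' t s)
  have c5 := mean_le (tr' N) k r hB2 hN' hb'
  have c6 := vf_P N r k (by omega) (by omega) hT2 hN hb _ _ rfl rfl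
  have c7 := vf_sq N r k hT2 hN hb _ _ rfl rfl
  have c8 := vf_cube N r k hT2 hN hb _ _ rfl rfl
  have c9 := vf_cube (tr' N) k r hB2 hN' hb' _ _ rfl rfl
  simp only [lam_tr] at c2 c9
  rw [lamB_sq] at c2
  have hkR : (2 : ℝ) ≤ k := by exact_mod_cast hk
  have hvR : (k : ℝ) + 2 ≤ Fintype.card T := by exact_mod_cast hv
  have hrR : (24 : ℝ) ≤ r := by exact_mod_cast hr
  have hbR : (Fintype.card B : ℝ) * k = Fintype.card T * r := by exact_mod_cast hc.symm
  have hY : 0 ≤ ∑ t, ∑ s, phi N r k t s ^ 2 :=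
    Finset.sum_nonneg fun t _ => Finset.sum_nonneg fun s _ => sq_nonneg _
  have hY' : 0 ≤ ∑ t, ∑ s, phi (tr' N) k r t s ^ 2 :=
    Finset.sum_nonneg fun t _ => Finset.sum_nonneg fun s _ => sq_nonneg _
  rw [c7, c8, c9] at hsw
  have hmain := d0_alg (Fintype.card T) (Fintype.card B) r k _ _ _
    (∑ t, ∑ s, phi N r k t s ^ 2) (∑ t, ∑ s, phi (tr' N) k r t s ^ 2)
    (∑ t, ∑ s, lam N t s ^ 2) (∑ t, ∑ s, phi N r k t s ^ 3)
    (∑ t, ∑ s, phi (tr' N) k r t s ^ 3) (∑ t, ∑ l, Pm N t l ^ 2)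
    hkR hvR hrR hbR rfl rfl rfl hY hY' c1 (by rw [c2, mul_comm (k : ℝ) r]) c3 c4 c5 c6 hsw
  have hr0 : (0 : ℝ) < r := by linarith
  have hk0 : (0 : ℝ) < k := by linarith
  have hv0 : (0 : ℝ) < Fintype.card T := by linarith
  have hYe : ∑ t, ∑ s, phi N r k t s ^ 2 = ((r : ℝ) * k) ^ 2 * HS2 (Bmat N r k) := by
    unfold HS2
    rw [Finset.mul_sum]
    refine Finset.sum_congr rfl fun t _ => ?_
    rw [Finset.mul_sum]
    refine Finset.sum_congr rfl fun s _ => ?_
    rw [phi_eq N r k (by omega) (by omega) hT2 hN hb t s]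
    ring
  rw [hYe] at hmain
  have hpos : (0 : ℝ) < ((r : ℝ) * k) ^ 2 := by positivity
  refine le_of_mul_le_mul_left (hmain.trans (le_of_eq ?_)) hpos
  field_simp


end Pool.Agent.BDesign
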