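import Pool.Agent.Lib.BDesign.Defs
import Pool.Agent.Lib.BDesign.VarA
import Pool.Agent.Lib.BDesign.HBasic
import Pool.Agent.Lib.BDesign.GoodMu

/-!
For `v = k`: binary means all entries are `1`, `r = b`, `μ = 0`, `mc = 0`.  For `v = k+1`: every block misses exactly one variety, so
`lam t s = b - 2(b-r)` for all `t ≠ s`, hence `phi = 0` (its row sums vanish) and `Bmat = 0` by `phi_eq`.
-/

set_option autoImplicit false

namespace Pool.Agent.BDesign

open Matrix

variable {T B : Type} [Fintype T] [DecidableEq T] [Fintype B] [DecidableEq B]

/-- for `v - k ≤ 1` every binary design has `Bmat = 0` -/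
theorem d0_small (N : T → B → ℕ) (r k : ℕ) (hk : 2 ≤ k) (hkv : k ≤ Fintype.card T)
    (hv : Fintype.card T ≤ k + 1) (hr : 0 < r) (hN : IsDesign N r k) (hb : IsBin N) :
    HS2 (Bmat N r k) = 0 := by
  have hcm := card_mul N r k hN
  have hk0 : (0 : ℝ) < (k : ℝ) := by exact_mod_cast (by omega : 0 < k)
  have hr0 : (0 : ℝ) < (r : ℝ) := by exact_mod_cast hr
  have h01 : ∀ t j, N t j = 0 ∨ N t j = 1 := fun t j => by
    have := hb t j
    omega
  suffices hB : ∀ t s, Bmat N r k t s = 0 by
    unfold HS2
    exact Finset.sum_eq_zero fun t _ => Finset.sum_eq_zero fun s _ => by rw [hB t s]; ring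
  rcases Nat.lt_or_ge k (Fintype.card T) with hlt | hge
  · -- v = k + 1
    have hv1 : Fintype.card T = k + 1 := by omega
    have hv1R : (Fintype.card T : ℝ) = k + 1 := by rw [hv1]; push_cast; ring
    have hcmR : ((k : ℝ) + 1) * r = (Fintype.card B : ℝ) * k := by
      have : ((Fintype.card T * r : ℕ) : ℝ) = ((Fintype.card B * k : ℕ) : ℝ) := by rw [hcm]
      push_cast at this
      rw [hv1R] at this
      exact this
    have hphi : ∀ t s, phi N r k t s = 0 := by
      intro t s
      unfold phi
      by_cases hts : t = s
      · rw [if_pos hts]
      · rw [if_neg hts]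
        have hcol : ∀ j, (N t j : ℝ) * (N s j : ℝ) = (N t j : ℝ) + (N s j : ℝ) - 1 := by
          intro j
          rcases h01 t j with h1 | h1
          · rcases h01 s j with h2 | h2
            · exfalso
              have hs : ∑ u, N u j = k := hN.2 j
              have hsub : ∑ u ∈ (Finset.univ.erase t).erase s, N u j = k := by
                have e1 : ∑ u ∈ Finset.univ.erase t, N u j = k := by
                  rw [← hs, ← Finset.add_sum_erase Finset.univ _ (Finset.mem_univ t), h1, zero_add]
                have hmem : s ∈ Finset.univ.erase t :=
                  Finset.mem_erase.2 ⟨fun h => hts h.symm, Finset.mem_univ s⟩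
                rw [← e1, ← Finset.add_sum_erase _ _ hmem, h2, zero_add]
              have hle : ∑ u ∈ (Finset.univ.erase t).erase s, N u j
                  ≤ ∑ u ∈ (Finset.univ.erase t).erase s, 1 :=
                Finset.sum_le_sum fun u _ => hb u j
              rw [hsub, Finset.sum_const, smul_eq_mul, mul_one, Finset.card_erase_of_mem,
                Finset.card_erase_of_mem (Finset.mem_univ t), Finset.card_univ] at hle
              · omega
              · exact Finset.mem_erase.2 ⟨fun h => hts h.symm, Finset.mem_univ s⟩
            · rw [h1, h2]; norm_num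
          · rw [h1]; push_cast; ring
        have hlam : lam N t s = 2 * r - Fintype.card B := by
          unfold lam
          rw [Finset.sum_congr rfl fun j _ => hcol j, Finset.sum_sub_distrib,
            Finset.sum_add_distrib]
          have e1 : ∑ j, (N t j : ℝ) = r := by
            have := hN.1 t
            exact_mod_cast this
          have e2 : ∑ j, (N s j : ℝ) = r := by
            have := hN.1 s
            exact_mod_cast this
          rw [e1, e2, Finset.sum_const, Finset.card_univ]
          simp
          ring
        rw [hlam, hv1R]
        have hne : (k : ℝ) + 1 - 1 ≠ 0 := by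
          rw [add_sub_cancel_right]; exact hk0.ne'
        field_simp
        rw [add_sub_cancel_left] at *
        nlinarith
    intro t s
    have h1 := phi_eq N r k hr (by omega) (by omega) hN hb t s
    rw [hphi t s] at h1
    have h2 : (r : ℝ) * k ≠ 0 := (mul_pos hr0 hk0).ne'
    rcases mul_eq_zero.1 h1.symm with h3 | h3
    · exact absurd h3 h2
    · exact h3
  · -- v = k
    have hv1 : Fintype.card T = k := by omega
    have hall : ∀ t j, N t j = 1 := by
      intro t j
      by_contra hne
      have h0 : N t j = 0 := by
        rcases h01 t j with h | h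
        · exact h
        · exact absurd h hne
      have hs : ∑ u, N u j = k := hN.2 j
      have e1 : ∑ u ∈ Finset.univ.erase t, N u j = k := by
        rw [← hs, ← Finset.add_sum_erase Finset.univ _ (Finset.mem_univ t), h0, zero_add]
      have hle : ∑ u ∈ Finset.univ.erase t, N u j ≤ ∑ u ∈ Finset.univ.erase t, 1 :=
        Finset.sum_le_sum fun u _ => hb u j
      rw [e1, Finset.sum_const, smul_eq_mul, mul_one,
        Finset.card_erase_of_mem (Finset.mem_univ t), Finset.card_univ] at hle
      omega
    intro t s
    have hBr : (Fintype.card B : ℝ) = r := by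
      have := hN.1 t
      simp only [hall] at this
      rw [Finset.sum_const, Finset.card_univ, smul_eq_mul, mul_one] at this
      exact_mod_cast this
    have hmc : mc (Fintype.card T) k = 0 := by
      unfold mc
      rw [hv1, sub_self, zero_div]
    have hmu : mu N r k t s = 0 := by
      unfold mu
      simp only [hall]
      rw [hv1]
      simp
      rw [hBr]
      field_simp
      ring
    show mu N r k t s - mc (Fintype.card T) k * PiM T t s = 0
    rw [hmc, hmu]
    ring

end Pool.Agent.BDesign
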