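import Pool.Agent.Lib.BDesign.Defs
import Pool.Agent.Lib.BDesign.HBasic

/-!
Norm bounds from the Hilbert-Schmidt norm.
`hs_apply`: `|Qx|² ≤ HS2 Q · |x|²` (Cauchy-Schwarz in each row).
`mu_le_of_hs`: if `HS2 (μ - mΠ) ≤ q²`, `q ≥ 0` then `qf μ x x ≤ (m + q) qf Π x x`
(apply Cauchy-Schwarz to `y = Πx`: `qf μ x x = qf μ y y = m|y|² + <y,(μ-mΠ)y>`).
`h_le`: if `μ ≤ ρΠ`, `ρ < 1`: `(1-ρ) qf H x x ≤ qf Π x x` and `(1-ρ)² |Hx|² ≤ qf Π x x`
(`u = Hx`: `qf H x x = qf (Π-μ) u u ≥ (1-ρ)|u|²`, and `qf H x x = <Πx,u> ≤ |Πx||u|`).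
`h_exists`: if `μ ≤ ρΠ`, `ρ < 1`, then `H` exists (`1 - μ` is injective: `x = μx` gives `|x|² = qf μ x x ≤ ρ|x|²`; take
`H = (1-μ)⁻¹ - J/v`).
-/

set_option autoImplicit false

namespace Pool.Agent.BDesign

open Matrix

variable {T B : Type} [Fintype T] [DecidableEq T] [Fintype B] [DecidableEq B]

theorem hs_apply (Q : Matrix T T ℝ) (x : T → ℝ) :
    (Q *ᵥ x) ⬝ᵥ (Q *ᵥ x) ≤ HS2 Q * ∑ t, x t ^ 2 := by
  unfold HS2
  rw [Finset.sum_mul]
  simp only [dotProduct]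
  refine Finset.sum_le_sum fun t _ => ?_
  have h := Finset.sum_mul_sq_le_sq_mul_sq Finset.univ (fun s => Q t s) x
  simp only [Matrix.mulVec, dotProduct]
  calc (∑ s, Q t s * x s) * (∑ s, Q t s * x s) = (∑ s, Q t s * x s) ^ 2 := by ring
    _ ≤ (∑ s, Q t s ^ 2) * ∑ s, x s ^ 2 := h

private theorem hspec_tr_pi : (PiM T)ᵀ = PiM T := by
  ext t s
  rw [Matrix.transpose_apply, pi_symm]

private theorem hspec_tr_of_symm {Q : Matrix T T ℝ} (h : ∀ t s, Q t s = Q s t) : Qᵀ = Q := by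
  ext t s
  rw [Matrix.transpose_apply, h]

private theorem hspec_pi_mu {μ : Matrix T T ℝ} (hμ : Good μ) : PiM T * μ = μ := by
  have h := congrArg Matrix.transpose (mu_pi hμ)
  rw [Matrix.transpose_mul, hspec_tr_pi, hspec_tr_of_symm hμ.symm] at h
  exact h

/-- moving a symmetric matrix across the dot product -/
private theorem hspec_move {Q : Matrix T T ℝ} (h : Qᵀ = Q) (x y : T → ℝ) :
    (Q *ᵥ x) ⬝ᵥ y = x ⬝ᵥ (Q *ᵥ y) := by
  have : Q *ᵥ x = x ᵥ* Q := by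
    conv_lhs => rw [← h]
    rw [Matrix.mulVec_transpose]
  rw [this, Matrix.dotProduct_mulVec]

private theorem hspec_pi_norm (hT : 0 < Fintype.card T) (x : T → ℝ) :
    (PiM T *ᵥ x) ⬝ᵥ (PiM T *ᵥ x) = qf (PiM T) x x := by
  unfold qf
  rw [hspec_move hspec_tr_pi, Matrix.mulVec_mulVec, pi_mul hT]

private theorem hspec_cs (x y : T → ℝ) : (x ⬝ᵥ y) ^ 2 ≤ (x ⬝ᵥ x) * (y ⬝ᵥ y) := by
  have h := Finset.sum_mul_sq_le_sq_mul_sq Finset.univ x y
  simp only [dotProduct]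
  calc (∑ i, x i * y i) ^ 2 ≤ (∑ i, x i ^ 2) * ∑ i, y i ^ 2 := h
    _ = (∑ i, x i * x i) * ∑ i, y i * y i := by
      congr 1 <;> exact Finset.sum_congr rfl fun i _ => by ring

private theorem hspec_nn (x : T → ℝ) : 0 ≤ x ⬝ᵥ x := by
  simp only [dotProduct]
  exact Finset.sum_nonneg fun i _ => mul_self_nonneg _

theorem mu_le_of_hs {μ : Matrix T T ℝ} (hT : 0 < Fintype.card T) (hμ : Good μ) (m q : ℝ) (hq : 0 ≤ q)
    (h : HS2 (μ - m • PiM T) ≤ q ^ 2) (x : T → ℝ) : qf μ x x ≤ (m + q) * qf (PiM T) x x := by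
  set y := PiM T *ᵥ x with hy
  set p := qf (PiM T) x x with hp
  have hyy : y ⬝ᵥ y = p := hspec_pi_norm hT x
  have hp0 : 0 ≤ p := by rw [← hyy]; exact hspec_nn y
  have hpy : PiM T *ᵥ y = y := by
    rw [hy, Matrix.mulVec_mulVec, pi_mul hT]
  have h1 : qf μ x x = y ⬝ᵥ (μ *ᵥ y) := by
    rw [hy, Matrix.mulVec_mulVec, mu_pi hμ, hspec_move hspec_tr_pi, Matrix.mulVec_mulVec,
      hspec_pi_mu hμ]
    rfl
  have h2 : y ⬝ᵥ (μ *ᵥ y) = m * p + y ⬝ᵥ ((μ - m • PiM T) *ᵥ y) := by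
    rw [Matrix.sub_mulVec, Matrix.smul_mulVec, hpy, dotProduct_sub, dotProduct_smul, hyy]
    simp only [smul_eq_mul]
    ring
  have h3 : (y ⬝ᵥ ((μ - m • PiM T) *ᵥ y)) ^ 2 ≤ (q * p) ^ 2 := by
    have e1 := hspec_cs y ((μ - m • PiM T) *ᵥ y)
    have e2 := hs_apply (μ - m • PiM T) y
    have e3 : ∑ t, y t ^ 2 = p := by
      rw [← hyy]
      simp only [dotProduct]
      exact Finset.sum_congr rfl fun i _ => by ring
    rw [e3] at e2
    rw [hyy] at e1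
    have e4 : HS2 (μ - m • PiM T) * p ≤ q ^ 2 * p := mul_le_mul_of_nonneg_right h hp0
    calc (y ⬝ᵥ ((μ - m • PiM T) *ᵥ y)) ^ 2
        ≤ p * (((μ - m • PiM T) *ᵥ y) ⬝ᵥ ((μ - m • PiM T) *ᵥ y)) := e1
      _ ≤ p * (q ^ 2 * p) := mul_le_mul_of_nonneg_left (e2.trans e4) hp0
      _ = (q * p) ^ 2 := by ring
  have h5 := (abs_le.1 (abs_le_of_sq_le_sq h3 (mul_nonneg hq hp0))).2
  rw [h1, h2]
  linarith

theorem h_le {μ H : Matrix T T ℝ} (hT : 0 < Fintype.card T) (hμ : Good μ) (hH : IsH μ H) (ρ : ℝ)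
    (hρ : ρ < 1) (h : ∀ x : T → ℝ, qf μ x x ≤ ρ * qf (PiM T) x x) (x : T → ℝ) :
    (1 - ρ) * qf H x x ≤ qf (PiM T) x x ∧
    (1 - ρ) ^ 2 * ((H *ᵥ x) ⬝ᵥ (H *ᵥ x)) ≤ qf (PiM T) x x := by
  set u := H *ᵥ x with hu
  set p := qf (PiM T) x x with hp
  set E := qf H x x with hE
  have hHt : Hᵀ = H := hspec_tr_of_symm hH.symm
  have hpu : PiM T *ᵥ u = u := by
    rw [hu, Matrix.mulVec_mulVec, pi_h hH]
  have hE1 : E = qf (PiM T) u u - qf μ u u := by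
    have e1 : qf (PiM T) u u - qf μ u u = u ⬝ᵥ ((PiM T - μ) *ᵥ u) := by
      unfold qf
      rw [Matrix.sub_mulVec, dotProduct_sub]
    rw [e1, hu, hspec_move hHt, Matrix.mulVec_mulVec, Matrix.mulVec_mulVec,
      hH.inv, pi_h hH]
    rfl
  have hpuu : qf (PiM T) u u = u ⬝ᵥ u := by
    unfold qf
    rw [hpu]
  have hU0 : 0 ≤ u ⬝ᵥ u := hspec_nn u
  have hge : (1 - ρ) * (u ⬝ᵥ u) ≤ E := by
    have := h u
    rw [hE1, hpuu]
    rw [hpuu] at this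
    linarith
  have hE0 : 0 ≤ E := le_trans (mul_nonneg (by linarith) hU0) hge
  have hEu : E = (PiM T *ᵥ x) ⬝ᵥ u := by
    rw [hspec_move hspec_tr_pi, hpu]
    rfl
  have hcs : E ^ 2 ≤ p * (u ⬝ᵥ u) := by
    rw [hEu]
    have := hspec_cs (PiM T *ᵥ x) u
    rw [hspec_pi_norm hT] at this
    exact this
  have hp0 : 0 ≤ p := qf_pi_nonneg hT x
  have hfirst : (1 - ρ) * E ≤ p := by
    rcases hE0.eq_or_lt with h0 | h0
    · rw [← h0, mul_zero]; exact hp0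
    · have h1 : (1 - ρ) * E ^ 2 ≤ p * E := by
        calc (1 - ρ) * E ^ 2 ≤ (1 - ρ) * (p * (u ⬝ᵥ u)) :=
              mul_le_mul_of_nonneg_left hcs (by linarith)
          _ = p * ((1 - ρ) * (u ⬝ᵥ u)) := by ring
          _ ≤ p * E := mul_le_mul_of_nonneg_left hge hp0
      have h2 : ((1 - ρ) * E) * E ≤ p * E := by nlinarith
      exact le_of_mul_le_mul_right h2 h0
  refine ⟨hfirst, ?_⟩
  calc (1 - ρ) ^ 2 * (u ⬝ᵥ u) = (1 - ρ) * ((1 - ρ) * (u ⬝ᵥ u)) := by ring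
    _ ≤ (1 - ρ) * E := mul_le_mul_of_nonneg_left hge (by linarith)
    _ ≤ p := hfirst

theorem h_exists {μ : Matrix T T ℝ} (hT : 0 < Fintype.card T) (hμ : Good μ) (ρ : ℝ)
    (hρ : ρ < 1) (h : ∀ x : T → ℝ, qf μ x x ≤ ρ * qf (PiM T) x x) : ∃ H, IsH μ H := by
  set M : Matrix T T ℝ := 1 - μ with hM
  set K : Matrix T T ℝ := 1 - PiM T with hK
  have hμt : μᵀ = μ := hspec_tr_of_symm hμ.symm
  have hMt : Mᵀ = M := by
    rw [hM, Matrix.transpose_sub, Matrix.transpose_one, hμt]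
  have hKt : Kᵀ = K := by
    rw [hK, Matrix.transpose_sub, Matrix.transpose_one, hspec_tr_pi]
  have hKK : K * K = K := by
    rw [hK, Matrix.mul_sub, Matrix.mul_one, Matrix.sub_mul, Matrix.one_mul, pi_mul hT]
    abel
  have hMK : M * K = K := by
    rw [hM, hK, Matrix.sub_mul, Matrix.one_mul, Matrix.mul_sub, Matrix.mul_one, mu_pi hμ]
    abel
  have hKM : K * M = K := by
    have := congrArg Matrix.transpose hMK
    rwa [Matrix.transpose_mul, hMt, hKt] at this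
  have hdet : M.det ≠ 0 := by
    intro h0
    obtain ⟨x, hx0, hx⟩ := Matrix.exists_mulVec_eq_zero_iff.2 h0
    apply hx0
    have hx1 : μ *ᵥ x = x := by
      rw [hM, Matrix.sub_mulVec, Matrix.one_mulVec, sub_eq_zero] at hx
      exact hx.symm
    have hpx : PiM T *ᵥ x = x := by
      rw [← hx1, Matrix.mulVec_mulVec, hspec_pi_mu hμ]
    have h1 := h x
    have h2 : qf μ x x = x ⬝ᵥ x := by unfold qf; rw [hx1]
    have h3 : qf (PiM T) x x = x ⬝ᵥ x := by unfold qf; rw [hpx]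
    rw [h2, h3] at h1
    have h4 : x ⬝ᵥ x ≤ 0 := by nlinarith [hspec_nn x]
    have h5 : x ⬝ᵥ x = 0 := le_antisymm h4 (hspec_nn x)
    exact dotProduct_self_eq_zero.1 h5
  have hu : IsUnit M.det := isUnit_iff_ne_zero.2 hdet
  have hinvK : M⁻¹ * K = K := by
    calc M⁻¹ * K = M⁻¹ * (M * K) := by rw [hMK]
      _ = K := by rw [← Matrix.mul_assoc, Matrix.nonsing_inv_mul _ hu, Matrix.one_mul]
  have hinvt : (M⁻¹)ᵀ = M⁻¹ := by
    rw [Matrix.transpose_nonsing_inv, hMt]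
  have hPiM : PiM T - μ = M - K := by
    rw [hM, hK]; abel
  refine ⟨M⁻¹ - K, ?_, ?_, ?_⟩
  · intro t s
    have : (M⁻¹ - K)ᵀ = M⁻¹ - K := by rw [Matrix.transpose_sub, hinvt, hKt]
    have h' := congrFun (congrFun this s) t
    rw [Matrix.transpose_apply] at h'
    exact h'
  · intro t
    have h0 : (M⁻¹ - K) * K = 0 := by
      rw [Matrix.sub_mul, hinvK, hKK, sub_self]
    have h1 := congrFun (congrFun h0 t) t
    rw [Matrix.mul_apply] at h1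
    have hKe : ∀ s, K s t = 1 / (Fintype.card T : ℝ) := by
      intro s
      rw [hK, Matrix.sub_apply, Matrix.one_apply]
      unfold PiM
      ring
    simp only [hKe, Matrix.zero_apply] at h1
    rw [← Finset.sum_mul] at h1
    have hc : (1 / (Fintype.card T : ℝ)) ≠ 0 := by
      have : (Fintype.card T : ℝ) ≠ 0 := by exact_mod_cast hT.ne'
      exact one_div_ne_zero this
    exact (mul_eq_zero.1 h1).resolve_right hc
  · have e : (M⁻¹ - K) * (M - K) = M⁻¹ * M - M⁻¹ * K - (K * M - K * K) := by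
      rw [Matrix.sub_mul, Matrix.mul_sub M⁻¹ M K, Matrix.mul_sub K M K]
    rw [hPiM, e, Matrix.nonsing_inv_mul _ hu, hinvK, hKM, hKK, hK]
    abel

end Pool.Agent.BDesign
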