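import Pool.Agent.Lib.BDesign.Defs
import Pool.Agent.Lib.BDesign.HSpec
import Pool.Agent.Lib.BDesign.GoodMu

/-!
`h_lin`: for any `m ≠ 1`, `Q = μ - mΠ`: `H = (1-m)⁻¹Π + (1-m)⁻²(Q + Q H Q)`.
(`(1-m)H - Π = H(μ - mΠ) = HQ`, and `(1-m) HQ = Q + Q H Q`.)
`tr_h`: `tr H = (v-1)/(1-m) + (1-m)⁻² (tr Q + tr(Q H Q))`.
`tr_QHQ_lb`: `tr(QHQ) ≥ HS2 Q` (sum over `s` of `qf H (Q e_s) (Q e_s) ≥ qf Π (Qe_s)(Qe_s) = |Q e_s|²`, columns of `Q` sum to 0).
`tr_QHQ_ub`: if `μ ≤ ρΠ`, `ρ<1`: `tr(QHQ) ≤ HS2 Q/(1-ρ)`.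
`tr_Bmat`: `tr (Bmat N r k) = Gam N / (r k)`.
-/

set_option autoImplicit false

namespace Pool.Agent.BDesign

open Matrix

variable {T B : Type} [Fintype T] [DecidableEq T] [Fintype B] [DecidableEq B]

variable {μ H : Matrix T T ℝ}

private theorem traceId_QHQ (hT : 0 < Fintype.card T) (hμ : Good μ) (hH : IsH μ H) (m : ℝ) :
    (μ - m • PiM T) * H * (μ - m • PiM T) =
      ((1 - m) ^ 2) • H - (1 - m) • PiM T - (μ - m • PiM T) := by
  have e1 : (μ - m • PiM T) * H = (1 - m) • H - PiM T := by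
    rw [Matrix.sub_mul, Matrix.smul_mul, mu_h hμ hH, pi_h hH, sub_smul, one_smul]
    abel
  have e2 : H * (μ - m • PiM T) = (1 - m) • H - PiM T := by
    rw [Matrix.mul_sub, Matrix.mul_smul, h_mu hμ hH, h_pi hH, sub_smul, one_smul]
    abel
  have e3 : (μ - m • PiM T) * PiM T = μ - m • PiM T := by
    rw [Matrix.sub_mul, Matrix.smul_mul, mu_pi hμ, pi_mul hT]
  rw [Matrix.mul_assoc, e2, Matrix.mul_sub, Matrix.mul_smul, e1, e3, smul_sub, smul_smul]
  congr 2
  congr 1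
  ring

theorem h_lin (hT : 0 < Fintype.card T) (hμ : Good μ) (hH : IsH μ H) (m : ℝ) (hm : m ≠ 1) :
    H = (1 - m)⁻¹ • PiM T + ((1 - m) ^ 2)⁻¹ •
      ((μ - m • PiM T) + (μ - m • PiM T) * H * (μ - m • PiM T)) := by
  have h1 : (1 - m) ≠ 0 := sub_ne_zero.mpr (Ne.symm hm)
  rw [traceId_QHQ hT hμ hH m]
  have e : (μ - m • PiM T) + (((1 - m) ^ 2) • H - (1 - m) • PiM T - (μ - m • PiM T)) =
      ((1 - m) ^ 2) • H - (1 - m) • PiM T := by abel
  rw [e, smul_sub, smul_smul, smul_smul, inv_mul_cancel₀ (pow_ne_zero 2 h1), one_smul]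
  have e2 : ((1 - m) ^ 2)⁻¹ * (1 - m) = (1 - m)⁻¹ := by
    rw [pow_two, mul_inv, mul_assoc, inv_mul_cancel₀ h1, mul_one]
  rw [e2]
  abel

private theorem traceId_pi (hT : 0 < Fintype.card T) :
    (PiM T).trace = (Fintype.card T : ℝ) - 1 := by
  have hv : (Fintype.card T : ℝ) ≠ 0 := by exact_mod_cast hT.ne'
  unfold Matrix.trace
  simp only [Matrix.diag_apply, PiM, if_true]
  rw [Finset.sum_const, Finset.card_univ, nsmul_eq_mul, mul_sub, mul_one, mul_one_div_cancel hv]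

theorem tr_h (hT : 0 < Fintype.card T) (hμ : Good μ) (hH : IsH μ H) (m : ℝ) (hm : m ≠ 1) :
    H.trace = ((Fintype.card T : ℝ) - 1) / (1 - m) + ((1 - m) ^ 2)⁻¹ *
      ((μ - m • PiM T).trace + ((μ - m • PiM T) * H * (μ - m • PiM T)).trace) := by
  have h := congrArg Matrix.trace (h_lin hT hμ hH m hm)
  rw [Matrix.trace_add, Matrix.trace_smul, Matrix.trace_smul, Matrix.trace_add,
    traceId_pi hT] at h
  rw [h, smul_eq_mul, smul_eq_mul, div_eq_inv_mul]

private theorem traceId_symm (hμ : Good μ) (m : ℝ) (t s : T) :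
    (μ - m • PiM T) t s = (μ - m • PiM T) s t := by
  rw [Matrix.sub_apply, Matrix.sub_apply, Matrix.smul_apply, Matrix.smul_apply, hμ.symm t s,
    pi_symm t s]

private theorem traceId_pirow (hT : 0 < Fintype.card T) (t : T) : ∑ s, PiM T t s = 0 := by
  have hv : (Fintype.card T : ℝ) ≠ 0 := by exact_mod_cast hT.ne'
  simp only [PiM]
  rw [Finset.sum_sub_distrib, Finset.sum_ite_eq, if_pos (Finset.mem_univ t), Finset.sum_const,
    Finset.card_univ, nsmul_eq_mul, mul_one_div_cancel hv, sub_self]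

private theorem traceId_col (hT : 0 < Fintype.card T) (hμ : Good μ) (m : ℝ) (s : T) :
    ∑ t, (μ - m • PiM T) t s = 0 := by
  have e : ∀ t, (μ - m • PiM T) t s = μ s t - m * PiM T s t := by
    intro t
    rw [traceId_symm hμ m t s, Matrix.sub_apply, Matrix.smul_apply, smul_eq_mul]
  simp only [e]
  rw [Finset.sum_sub_distrib, ← Finset.mul_sum, hμ.row s, traceId_pirow hT s, mul_zero, sub_zero]

private theorem traceId_qhq_diag (hμ : Good μ) (m : ℝ) (s : T) :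
    ((μ - m • PiM T) * H * (μ - m • PiM T)) s s =
      qf H (fun t => (μ - m • PiM T) t s) (fun t => (μ - m • PiM T) t s) := by
  rw [Matrix.mul_assoc, Matrix.mul_apply]
  unfold qf
  simp only [dotProduct]
  refine Finset.sum_congr rfl fun t _ => ?_
  rw [traceId_symm hμ m s t]
  rfl

private theorem traceId_trace (hμ : Good μ) (m : ℝ) :
    ((μ - m • PiM T) * H * (μ - m • PiM T)).trace =
      ∑ s, qf H (fun t => (μ - m • PiM T) t s) (fun t => (μ - m • PiM T) t s) := by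
  unfold Matrix.trace
  exact Finset.sum_congr rfl fun s _ => traceId_qhq_diag hμ m s

private theorem traceId_hs (hT : 0 < Fintype.card T) (hμ : Good μ) (m : ℝ) :
    HS2 (μ - m • PiM T) =
      ∑ s, qf (PiM T) (fun t => (μ - m • PiM T) t s) (fun t => (μ - m • PiM T) t s) := by
  unfold HS2
  rw [Finset.sum_comm]
  refine Finset.sum_congr rfl fun s _ => ?_
  rw [qf_pi, traceId_col hT hμ m s]
  simp

theorem tr_QHQ_lb (hT : 0 < Fintype.card T) (hμ : Good μ) (hH : IsH μ H) (m : ℝ) :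
    HS2 (μ - m • PiM T) ≤ ((μ - m • PiM T) * H * (μ - m • PiM T)).trace := by
  rw [traceId_trace hμ m, traceId_hs hT hμ m]
  exact Finset.sum_le_sum fun s _ => h_ge hT hμ hH _

theorem tr_QHQ_ub (hT : 0 < Fintype.card T) (hμ : Good μ) (hH : IsH μ H) (m ρ : ℝ) (hρ : ρ < 1)
    (h : ∀ x : T → ℝ, qf μ x x ≤ ρ * qf (PiM T) x x) :
    (1 - ρ) * ((μ - m • PiM T) * H * (μ - m • PiM T)).trace ≤ HS2 (μ - m • PiM T) := by
  rw [traceId_trace hμ m, traceId_hs hT hμ m, Finset.mul_sum]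
  exact Finset.sum_le_sum fun s _ => (h_le hT hμ hH ρ hρ h _).1

theorem tr_Bmat (N : T → B → ℕ) (r k : ℕ) (hr : 0 < r) (hk : 0 < k) (hT : 2 ≤ Fintype.card T)
    (hN : IsDesign N r k) : (Bmat N r k).trace = Gam N / ((r : ℝ) * k) := by
  have hT0 : 0 < Fintype.card T := by omega
  have hv : (Fintype.card T : ℝ) ≠ 0 := by exact_mod_cast hT0.ne'
  have hv1 : (Fintype.card T : ℝ) - 1 ≠ 0 := by
    have : (2 : ℝ) ≤ Fintype.card T := by exact_mod_cast hT
    linarith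
  have hr' : (r : ℝ) ≠ 0 := by exact_mod_cast hr.ne'
  have hk' : (k : ℝ) ≠ 0 := by exact_mod_cast hk.ne'
  unfold Bmat
  rw [Matrix.trace_sub, Matrix.trace_smul, traceId_pi hT0]
  have e1 : (mu N r k).trace = (∑ t, ∑ j, (N t j : ℝ) * (N t j : ℝ)) / ((r : ℝ) * k) - 1 := by
    unfold Matrix.trace
    simp only [Matrix.diag_apply, mu]
    rw [Finset.sum_sub_distrib, Finset.sum_const, Finset.card_univ, nsmul_eq_mul,
      mul_one_div_cancel hv, Finset.sum_div]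
  have e2 : Gam N = ∑ t, ∑ j, (N t j : ℝ) * (N t j : ℝ) - (Fintype.card T : ℝ) * r := by
    unfold Gam
    have e3 : ∀ t, ∑ j, (N t j : ℝ) * ((N t j : ℝ) - 1) =
        ∑ j, (N t j : ℝ) * (N t j : ℝ) - r := by
      intro t
      have h4 : ∑ j, (N t j : ℝ) = r := by
        rw [← Nat.cast_sum, hN.1 t]
      rw [← h4, ← Finset.sum_sub_distrib]
      refine Finset.sum_congr rfl fun j _ => ?_
      ring
    simp only [e3]
    rw [Finset.sum_sub_distrib, Finset.sum_const, Finset.card_univ, nsmul_eq_mul]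
  rw [e1, e2]
  unfold mc
  rw [smul_eq_mul]
  field_simp
  ring

end Pool.Agent.BDesign
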