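import Pool.Agent.Lib.BDesign.Defs
import Pool.Agent.Lib.BDesign.TraceId
import Pool.Agent.Lib.BDesign.D0
import Pool.Agent.Lib.BDesign.D0Small
import Pool.Agent.Lib.BDesign.HSpec
import Pool.Agent.Lib.BDesign.GoodMu
import Pool.Agent.Lib.BDesign.BinExist

/-!
Comparison of a minimiser with the good binary design.
`compare_gen`: if `N₀` is a binary design with `HS2 (Bmat N₀) ≤ q²`, `m + q ≤ 3/5` (`m = mc v k`), then
`Gam N/(rk) + HS2 (Bmat N) ≤ (5/2) q²` for every minimiser `N`: `mu_le_of_hs`, `h_exists` give `H₀`; `tr H ≤ tr H₀`; use `tr_h`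
for both, `tr_Bmat` (`Gam N₀ = 0`), `tr_QHQ_lb`, `tr_QHQ_ub`.
`compare`: with `κ = (v-k)/v`: `Gam N/(rk) + HS2 (Bmat N) ≤ 34 κ² v/(rk)`, for `v ≥ k+2` from `d0` (`q² = (40/3)κ²v/(rk) ≤ 40000/r`
is tiny, `m ≤ 1/k ≤ 1/2`), for `v ≤ k+1` from `bin_exists`, `d0_small` with `q = 0`.
-/

set_option autoImplicit false

namespace Pool.Agent.BDesign

open Matrix

variable {T B : Type} [Fintype T] [DecidableEq T] [Fintype B] [DecidableEq B]

theorem compare_gen (N N₀ : T → B → ℕ) (r k : ℕ) (H : Matrix T T ℝ) (hr : 0 < r) (hk : 2 ≤ k)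
    (hT : 2 ≤ Fintype.card T) (hkv : k ≤ Fintype.card T) (ho : Opt N r k H)
    (hN₀ : IsDesign N₀ r k) (hb₀ : IsBin N₀) (q : ℝ) (hq : 0 ≤ q)
    (h : HS2 (Bmat N₀ r k) ≤ q ^ 2) (hm : mc (Fintype.card T) k + q ≤ 3 / 5) :
    Gam N / ((r : ℝ) * k) + HS2 (Bmat N r k) ≤ 5 / 2 * q ^ 2 := by
  have hT0 : 0 < Fintype.card T := by omega
  have hk0 : 0 < k := by omega
  set m := mc (Fintype.card T) k with hmdef
  have hμ := good_mu N r k hr hk0 hT0 ho.des
  have hμ₀ := good_mu N₀ r k hr hk0 hT0 hN₀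
  have hm1 : m ≠ 1 := by intro h1; rw [h1] at hm; linarith
  have hρ : m + q < 1 := by linarith
  have hle : ∀ x : T → ℝ, qf (mu N₀ r k) x x ≤ (m + q) * qf (PiM T) x x :=
    mu_le_of_hs hT0 hμ₀ m q hq h
  obtain ⟨H₀, hH₀⟩ := h_exists hT0 hμ₀ (m + q) hρ hle
  have hmin := ho.min N₀ H₀ hN₀ hH₀
  have t1 := tr_h hT0 hμ ho.isH m hm1
  have t2 := tr_h hT0 hμ₀ hH₀ m hm1
  have b1 := tr_Bmat N r k hr hk0 hT ho.des
  have b2 := tr_Bmat N₀ r k hr hk0 hT hN₀
  have g0 : Gam N₀ = 0 := by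
    unfold Gam
    refine Finset.sum_eq_zero fun t _ => Finset.sum_eq_zero fun j _ => ?_
    have := hb₀ t j
    interval_cases h' : N₀ t j <;> simp
  have l1 := tr_QHQ_lb hT0 hμ ho.isH m
  have l2 := tr_QHQ_ub hT0 hμ₀ hH₀ m (m + q) hρ hle
  rw [g0, zero_div] at b2
  unfold Bmat at b1 b2 h ⊢
  rw [← hmdef] at b1 b2 h ⊢
  rw [b1] at t1
  rw [b2] at t2
  rw [t1, t2] at hmin
  have hpos : 0 < ((1 - m) ^ 2)⁻¹ := by
    have : 0 < (1 - m) ^ 2 := by
      have : 1 - m ≠ 0 := fun h => hm1 (by linarith)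
      positivity
    positivity
  have hmin2 : ((1 - m) ^ 2)⁻¹ * (Gam N / ((r : ℝ) * k) +
      ((mu N r k - m • PiM T) * H * (mu N r k - m • PiM T)).trace) ≤
      ((1 - m) ^ 2)⁻¹ * (0 +
      ((mu N₀ r k - m • PiM T) * H₀ * (mu N₀ r k - m • PiM T)).trace) := by linarith
  have hmin3 := le_of_mul_le_mul_left hmin2 hpos
  have hq2 : (2 / 5) * ((mu N₀ r k - m • PiM T) * H₀ * (mu N₀ r k - m • PiM T)).trace ≤ q ^ 2 := by
    have l0 := tr_QHQ_lb hT0 hμ₀ hH₀ m
    have hs0 : 0 ≤ HS2 (mu N₀ r k - m • PiM T) := by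
      unfold HS2
      exact Finset.sum_nonneg fun t _ => Finset.sum_nonneg fun s _ => sq_nonneg _
    have e1 : (2 / 5) * ((mu N₀ r k - m • PiM T) * H₀ * (mu N₀ r k - m • PiM T)).trace ≤
        (1 - (m + q)) * ((mu N₀ r k - m • PiM T) * H₀ * (mu N₀ r k - m • PiM T)).trace :=
      mul_le_mul_of_nonneg_right (by linarith) (hs0.trans l0)
    linarith
  linarith

theorem compare (N : T → B → ℕ) (r k : ℕ) (H : Matrix T T ℝ) (hr : 10 ^ 10 ≤ r) (hk : 2 ≤ k)
    (hkv : k ≤ Fintype.card T) (hK : Fintype.card T ≤ 3000 * k) (ho : Opt N r k H) :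
    Gam N / ((r : ℝ) * k) + HS2 (Bmat N r k)
      ≤ 34 * ((((Fintype.card T : ℝ) - k) / (Fintype.card T : ℝ)) ^ 2 *
        (Fintype.card T : ℝ) / ((r : ℝ) * k)) := by
  have hr0 : 0 < r := by omega
  have hT : 2 ≤ Fintype.card T := by omega
  have hc : Fintype.card T * r = Fintype.card B * k := card_mul N r k ho.des
  have hrR : (10 : ℝ) ^ 10 ≤ r := by exact_mod_cast hr
  have hrpos : (0 : ℝ) < r := by exact_mod_cast hr0
  have hkR : (2 : ℝ) ≤ k := by exact_mod_cast hk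
  have hkpos : (0 : ℝ) < k := by linarith
  have hvR : (2 : ℝ) ≤ Fintype.card T := by exact_mod_cast hT
  have hkvR : (k : ℝ) ≤ Fintype.card T := by exact_mod_cast hkv
  have hKR : (Fintype.card T : ℝ) ≤ 3000 * k := by exact_mod_cast hK
  set v : ℝ := (Fintype.card T : ℝ) with hv
  have hm : mc (Fintype.card T) k ≤ 1 / 2 := by
    unfold mc
    rw [← hv, div_le_iff₀ (mul_pos hkpos (by linarith))]
    nlinarith
  set K2 : ℝ := ((v - k) / v) ^ 2 * v / ((r : ℝ) * k) with hK2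
  have hK20 : 0 ≤ K2 := by
    rw [hK2]; positivity
  by_cases hcase : k + 2 ≤ Fintype.card T
  · obtain ⟨N₀, hN₀, hb₀, hHS⟩ := d0 (B := B) r k hk hcase (by omega) hc
    rw [← hv, ← hK2] at hHS
    have hsq : Real.sqrt (40 / 3 * K2) ^ 2 = 40 / 3 * K2 := Real.sq_sqrt (by positivity)
    have hsmall : K2 ≤ 3000 / r := by
      rw [hK2]
      have h1 : ((v - k) / v) ^ 2 ≤ 1 := by
        have h0 : 0 ≤ (v - k) / v := div_nonneg (by linarith) (by linarith)
        have h1 : (v - k) / v ≤ 1 := by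
          rw [div_le_one (by linarith)]; linarith
        nlinarith
      calc ((v - k) / v) ^ 2 * v / ((r : ℝ) * k) ≤ 1 * (3000 * k) / ((r : ℝ) * k) := by
            apply div_le_div_of_nonneg_right _ (by positivity)
            exact mul_le_mul h1 hKR (by linarith) (by norm_num)
        _ = 3000 / r := by field_simp
    have hsmall2 : 40 / 3 * K2 ≤ (1 / 10) ^ 2 := by
      have : (3000 : ℝ) / r ≤ 3000 / 10 ^ 10 := by
        apply div_le_div_of_nonneg_left (by norm_num) (by norm_num) hrR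
      have h3 : K2 ≤ 3000 / 10 ^ 10 := hsmall.trans this
      norm_num at h3 ⊢
      linarith
    have hq10 : Real.sqrt (40 / 3 * K2) ≤ 1 / 10 := by
      rw [show (1 / 10 : ℝ) = Real.sqrt ((1 / 10) ^ 2) by
        rw [Real.sqrt_sq (by norm_num)]]
      exact Real.sqrt_le_sqrt hsmall2
    have := compare_gen N N₀ r k H hr0 hk hT hkv ho hN₀ hb₀ (Real.sqrt (40 / 3 * K2))
      (Real.sqrt_nonneg _) (by rw [hsq]; exact hHS) (by linarith)
    rw [hsq] at this
    linarith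
  · obtain ⟨N₀, hN₀, hb₀⟩ := bin_exists (T := T) (B := B) r k (by omega) hkv hc
    have hz := d0_small N₀ r k hk hkv (by omega) hr0 hN₀ hb₀
    have := compare_gen N N₀ r k H hr0 hk hT hkv ho hN₀ hb₀ 0 le_rfl (by rw [hz]; norm_num)
      (by linarith)
    have h34 : 0 ≤ 34 * K2 := by positivity
    linarith

end Pool.Agent.BDesign
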