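import Pool.Agent.Lib.BDesign.Defs
import Pool.Agent.Lib.BDesign.HBasic
import Pool.Agent.Lib.BDesign.GoodMu

/-!
`diag_ident`: with `G = ((k-1)/k) H - Π`, `(k-1) A - k H = (k²/(k-1)) (G² + G)` on the diagonal (pure algebra, `HΠ = H`).
`G_lb`: `G_ii ≥ -1/v`: by the identity `H = (1-m)⁻¹Π + (1-m)⁻²(Q + Q H Q)` with `m = 1/k`, `Q = μ - mΠ`
(`(1-m)H - Π = HQ`, `(1-m)HQ = Q + QHQ`), so `H_ii ≥ (k/(k-1)) Π_ii + (k/(k-1))² (μ_ii - Π_ii/k)` and
`k μ_ii - Π_ii ≥ -(k-1)/v` because `∑_j n_ij² ≥ ∑_j n_ij = r`.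
`trace_lb`: sum of `diag_ident` over `i` with `(G²)_ii ≥ 0`, `G_ii ≥ -1/v`: `≥ -k²/(k-1) ≥ -2k`.
-/

set_option autoImplicit false

namespace Pool.Agent.BDesign

open Matrix

variable {T B : Type} [Fintype T] [DecidableEq T] [Fintype B] [DecidableEq B]

theorem diag_ident (N : T → B → ℕ) (r k : ℕ) (H : Matrix T T ℝ) (hr : 0 < r) (hk : 2 ≤ k)
    (hT : 0 < Fintype.card T) (hN : IsDesign N r k) (hH : IsH (mu N r k) H) (i : T) :
    ((k : ℝ) - 1) * Am H i i - k * H i i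
      = (k : ℝ) ^ 2 / ((k : ℝ) - 1) * ((Gm k H * Gm k H) i i + Gm k H i i) := by
  have hk1 : (0 : ℝ) < (k : ℝ) - 1 := by
    have : (2 : ℝ) ≤ k := by exact_mod_cast hk
    linarith
  have hk0 : (0 : ℝ) < k := by linarith
  have h1 : Gm k H * Gm k H = ((((k : ℝ) - 1) / k) ^ 2) • Am H
      - (2 * (((k : ℝ) - 1) / k)) • H + PiM T := by
    unfold Gm Am
    rw [Matrix.sub_mul, Matrix.mul_sub, Matrix.mul_sub, pi_mul hT]
    simp only [Matrix.smul_mul, Matrix.mul_smul, h_pi hH, pi_h hH, smul_smul]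
    rw [sq, two_mul, add_smul]
    abel
  rw [h1]
  simp only [Matrix.add_apply, Matrix.sub_apply, Matrix.smul_apply, smul_eq_mul, Gm]
  field_simp
  ring

private theorem md_qhq {Q H : Matrix T T ℝ} (hQ : ∀ t s, Q t s = Q s t) (i : T) :
    (Q * H * Q) i i = qf H (fun t => Q t i) (fun t => Q t i) := by
  unfold qf
  rw [Matrix.mul_assoc, Matrix.mul_apply]
  unfold dotProduct Matrix.mulVec dotProduct
  refine Finset.sum_congr rfl fun t _ => ?_
  rw [hQ i t, Matrix.mul_apply]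

theorem G_lb (N : T → B → ℕ) (r k : ℕ) (H : Matrix T T ℝ) (hr : 0 < r) (hk : 2 ≤ k)
    (hT : 0 < Fintype.card T) (hN : IsDesign N r k) (hH : IsH (mu N r k) H) (i : T) :
    -(1 / (Fintype.card T : ℝ)) ≤ Gm k H i i := by
  have hk2 : (2 : ℝ) ≤ k := by exact_mod_cast hk
  have hk1 : (0 : ℝ) < (k : ℝ) - 1 := by linarith
  have hk0 : (0 : ℝ) < k := by linarith
  have hr0 : (0 : ℝ) < r := by exact_mod_cast hr
  have hv0 : (0 : ℝ) < (Fintype.card T : ℝ) := by exact_mod_cast hT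
  have hg := good_mu N r k hr (by omega) hT hN
  set μ := mu N r k with hμdef
  set Q : Matrix T T ℝ := μ - (1 / (k : ℝ)) • PiM T with hQdef
  have hQs : ∀ t s, Q t s = Q s t := by
    intro t s
    simp only [hQdef, Matrix.sub_apply, Matrix.smul_apply, smul_eq_mul]
    rw [hg.symm t s, pi_symm t s]
  have hHQ : H * Q = (((k : ℝ) - 1) / k) • H - PiM T := by
    rw [hQdef, Matrix.mul_sub, h_mu hg hH, Matrix.mul_smul, h_pi hH]
    have e : ((k : ℝ) - 1) / k = 1 - 1 / k := by field_simp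
    rw [e, sub_smul, one_smul]
    abel
  have hQPi : Q * PiM T = Q := by
    rw [hQdef, Matrix.sub_mul, mu_pi hg, Matrix.smul_mul, pi_mul hT]
  have hQH : Q * H = (((k : ℝ) - 1) / k) • H - PiM T := by
    rw [hQdef, Matrix.sub_mul, mu_h hg hH, Matrix.smul_mul, pi_h hH]
    have e : ((k : ℝ) - 1) / k = 1 - 1 / k := by field_simp
    rw [e, sub_smul, one_smul]
    abel
  -- `(1 - m) H Q = Q + Q H Q`
  have hexp : (((k : ℝ) - 1) / k) • (H * Q) = Q + Q * H * Q := by
    rw [hQH, Matrix.sub_mul, Matrix.smul_mul]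
    have hPQ : PiM T * Q = Q := by
      have h1 : Q.transpose = Q := by
        ext t s
        exact hQs s t
      have h2 : (PiM T).transpose = PiM T := by
        ext t s
        exact pi_symm s t
      calc PiM T * Q = (PiM T).transpose * Q.transpose := by rw [h1, h2]
        _ = (Q * PiM T).transpose := (Matrix.transpose_mul _ _).symm
        _ = Q := by rw [hQPi, h1]
    rw [hPQ]
    abel
  have hG : Gm k H = H * Q := by
    rw [hHQ]
    rfl
  have h1 : (((k : ℝ) - 1) / k) * Gm k H i i = Q i i + (Q * H * Q) i i := by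
    rw [hG]
    have := congrFun (congrFun hexp i) i
    simpa only [Matrix.smul_apply, Matrix.add_apply, smul_eq_mul] using this
  have h2 : 0 ≤ (Q * H * Q) i i := by
    rw [md_qhq hQs]
    exact h_psd hT hg hH _
  -- the diagonal of `Q`
  have h3 : -(((k : ℝ) - 1) / k) * (1 / (Fintype.card T : ℝ)) ≤ Q i i := by
    have h4 : (r : ℝ) ≤ ∑ j, (N i j : ℝ) * (N i j : ℝ) := by
      have h5 : (∑ j, (N i j : ℝ)) = r := by
        have := hN.1 i
        exact_mod_cast this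
      rw [← h5]
      refine Finset.sum_le_sum fun j _ => ?_
      have h6 : N i j ≤ N i j * N i j := Nat.le_mul_self _
      exact_mod_cast h6
    have h7 : 1 / (k : ℝ) ≤ (∑ j, (N i j : ℝ) * (N i j : ℝ)) / ((r : ℝ) * k) := by
      rw [div_le_div_iff₀ hk0 (by positivity)]
      nlinarith
    have h8 : Q i i = (∑ j, (N i j : ℝ) * (N i j : ℝ)) / ((r : ℝ) * k)
        - 1 / (Fintype.card T : ℝ) - 1 / (k : ℝ) * (1 - 1 / (Fintype.card T : ℝ)) := by
      simp only [hQdef, hμdef, Matrix.sub_apply, Matrix.smul_apply, smul_eq_mul, mu, PiM, if_true]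
    have h9 : ((k : ℝ) - 1) / k = 1 - 1 / k := by field_simp
    rw [h8, h9]
    have h10 : -(1 - 1 / (k : ℝ)) * (1 / (Fintype.card T : ℝ))
        = 1 / (k : ℝ) - 1 / (Fintype.card T : ℝ)
          - 1 / (k : ℝ) * (1 - 1 / (Fintype.card T : ℝ)) := by ring
    rw [h10]
    linarith
  have hκ : 0 < ((k : ℝ) - 1) / k := by positivity
  have h11 : (((k : ℝ) - 1) / k) * (-(1 / (Fintype.card T : ℝ)))
      ≤ (((k : ℝ) - 1) / k) * Gm k H i i := by
    rw [h1]
    linarith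
  exact le_of_mul_le_mul_left h11 hκ

theorem GG_nonneg (N : T → B → ℕ) (r k : ℕ) (H : Matrix T T ℝ) (hH : IsH (mu N r k) H) (i : T) :
    0 ≤ (Gm k H * Gm k H) i i := by
  rw [Matrix.mul_apply]
  refine Finset.sum_nonneg fun j _ => ?_
  have h : Gm k H j i = Gm k H i j := by
    simp only [Gm, Matrix.sub_apply, Matrix.smul_apply, smul_eq_mul]
    rw [hH.symm j i, pi_symm j i]
  rw [h]
  exact mul_self_nonneg _

theorem trace_lb (N : T → B → ℕ) (r k : ℕ) (H : Matrix T T ℝ) (hr : 0 < r) (hk : 2 ≤ k)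
    (hT : 0 < Fintype.card T) (hN : IsDesign N r k) (hH : IsH (mu N r k) H) :
    -(2 * (k : ℝ)) ≤ (k : ℝ) * ((Am H).trace - H.trace) - (Am H).trace := by
  have hk2 : (2 : ℝ) ≤ k := by exact_mod_cast hk
  have hk1 : (0 : ℝ) < (k : ℝ) - 1 := by linarith
  have hk0 : (0 : ℝ) < k := by linarith
  have hv0 : (0 : ℝ) < (Fintype.card T : ℝ) := by exact_mod_cast hT
  have h1 : (k : ℝ) * ((Am H).trace - H.trace) - (Am H).trace
      = ∑ i, (((k : ℝ) - 1) * Am H i i - k * H i i) := by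
    rw [Finset.sum_sub_distrib, ← Finset.mul_sum, ← Finset.mul_sum]
    unfold Matrix.trace Matrix.diag
    ring
  have h2 : ∀ i ∈ (Finset.univ : Finset T), (k : ℝ) ^ 2 / ((k : ℝ) - 1)
      * (-(1 / (Fintype.card T : ℝ))) ≤ ((k : ℝ) - 1) * Am H i i - k * H i i := by
    intro i _
    rw [diag_ident N r k H hr hk hT hN hH i]
    refine mul_le_mul_of_nonneg_left ?_ (by positivity)
    have := G_lb N r k H hr hk hT hN hH i
    have := GG_nonneg N r k H hH i
    linarith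
  rw [h1]
  refine le_trans ?_ (Finset.sum_le_sum h2)
  rw [Finset.sum_const, Finset.card_univ, nsmul_eq_mul]
  have h3 : (Fintype.card T : ℝ) * ((k : ℝ) ^ 2 / ((k : ℝ) - 1) * (-(1 / (Fintype.card T : ℝ))))
      = -((k : ℝ) ^ 2 / ((k : ℝ) - 1)) := by
    field_simp
  rw [h3]
  have h4 : (k : ℝ) ^ 2 / ((k : ℝ) - 1) ≤ 2 * k := by
    rw [div_le_iff₀ hk1]
    nlinarith
  linarith

end Pool.Agent.BDesign
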