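import Pool.Agent.Lib.BDesign.Defs
import Pool.Agent.Lib.BDesign.HBasic
import Pool.Agent.Lib.BDesign.GoodMu

/-!
Averaging over the plots `(h,l)`.
`sum_id`: `∑_{h,l} n_hl (S_ij - S_il - S_hj + S_hl - qf A (e_i-e_h)) = v r (S_ij - A_ii) + r k (tr A - tr H) - r tr A`.
Ingredients: `∑_{h,l} n_hl = v r`; `∑_h n_hl = k` and `∑_l S_il = 0` (`∑_l S_il = (A N 1)_i = r (A1)_i = 0`);
`∑_l n_hl = r` and `∑_h S_hj = 0`; `∑ n_hl S_hl = tr(A N Nᵀ) = r k tr(A μ) = r k (tr A - tr H)`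
(`A (J/v) = 0`, `A μ = A - H`); `qf A (e_i-e_h) = A_ii + A_hh - 2A_ih`, `∑_h A_ih = 0`.
`row_S`: `∑_j n_ij S_ij = (A N Nᵀ)_ii = r k (A μ)_ii`.
-/

set_option autoImplicit false

namespace Pool.Agent.BDesign

open Matrix

variable {T B : Type} [Fintype T] [DecidableEq T] [Fintype B] [DecidableEq B]

private theorem msum_nn (N : T → B → ℕ) (r k : ℕ) (hr : 0 < r) (hk : 0 < k) (t s : T) :
    ∑ j, (N t j : ℝ) * (N s j : ℝ) = (r : ℝ) * k * (mu N r k t s + 1 / (Fintype.card T : ℝ)) := by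
  have h1 : ((r : ℝ) * (k : ℝ)) ≠ 0 := by positivity
  unfold mu
  field_simp
  ring

private theorem msum_aμ (N : T → B → ℕ) (r k : ℕ) (H : Matrix T T ℝ) (hr : 0 < r) (hk : 0 < k)
    (hT : 0 < Fintype.card T) (hN : IsDesign N r k) (hH : IsH (mu N r k) H) :
    Am H * mu N r k = Am H - H := by
  have hg := good_mu N r k hr hk hT hN
  unfold Am
  rw [Matrix.mul_assoc, h_mu hg hH, Matrix.mul_sub, h_pi hH]

/-- `∑_j n_ij S_ij = r k (A - H)_ii` -/
private theorem msum_row (N : T → B → ℕ) (r k : ℕ) (H : Matrix T T ℝ) (hr : 0 < r) (hk : 0 < k)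
    (hT : 0 < Fintype.card T) (hN : IsDesign N r k) (hH : IsH (mu N r k) H) (i : T) :
    ∑ j, (N i j : ℝ) * Sm N H i j = (r : ℝ) * k * (Am H i i - H i i) := by
  have h1 : ∀ j, (N i j : ℝ) * Sm N H i j = ∑ t, Am H i t * ((N t j : ℝ) * (N i j : ℝ)) := by
    intro j
    unfold Sm Am inc
    rw [Matrix.mul_apply, Finset.mul_sum]
    refine Finset.sum_congr rfl fun t _ => by ring
  simp_rw [h1]
  rw [Finset.sum_comm]
  simp_rw [← Finset.mul_sum]
  have h2 : ∀ t, Am H i t * ∑ j, (N t j : ℝ) * (N i j : ℝ)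
      = (r : ℝ) * k * (Am H i t * mu N r k t i) + (r : ℝ) * k / (Fintype.card T : ℝ) * Am H i t := by
    intro t
    rw [msum_nn N r k hr hk t i]
    ring
  simp_rw [h2]
  rw [Finset.sum_add_distrib, ← Finset.mul_sum, ← Finset.mul_sum, a_row hH i, mul_zero, add_zero,
    ← Matrix.mul_apply, msum_aμ N r k H hr hk hT hN hH, Matrix.sub_apply]

private theorem msum_Srow (N : T → B → ℕ) (r k : ℕ) (H : Matrix T T ℝ)
    (hN : IsDesign N r k) (hH : IsH (mu N r k) H) (i : T) : ∑ l, Sm N H i l = 0 := by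
  have h1 : ∀ l, Sm N H i l = ∑ t, Am H i t * (N t l : ℝ) := by
    intro l
    unfold Sm Am inc
    rw [Matrix.mul_apply]
  simp_rw [h1]
  rw [Finset.sum_comm]
  simp_rw [← Finset.mul_sum]
  have h2 : ∀ t, ∑ l, (N t l : ℝ) = (r : ℝ) := by
    intro t
    exact_mod_cast hN.1 t
  simp_rw [h2]
  rw [← Finset.sum_mul, a_row hH i, zero_mul]

private theorem msum_Scol (N : T → B → ℕ) (r k : ℕ) (H : Matrix T T ℝ)
    (hH : IsH (mu N r k) H) (j : B) : ∑ h, Sm N H h j = 0 := by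
  have h1 : ∀ h, Sm N H h j = ∑ t, Am H h t * (N t j : ℝ) := by
    intro h
    unfold Sm Am inc
    rw [Matrix.mul_apply]
  simp_rw [h1]
  rw [Finset.sum_comm]
  refine Finset.sum_eq_zero fun t _ => ?_
  rw [← Finset.sum_mul]
  have : ∑ h, Am H h t = 0 := by
    rw [← a_row hH t]
    exact Finset.sum_congr rfl fun h _ => a_symm hH h t
  rw [this, zero_mul]

theorem sum_id (N : T → B → ℕ) (r k : ℕ) (H : Matrix T T ℝ) (hr : 0 < r) (hk : 0 < k)
    (hT : 0 < Fintype.card T) (hN : IsDesign N r k) (hH : IsH (mu N r k) H) (i : T) (j : B) :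
    ∑ h, ∑ l, (N h l : ℝ) * (Sm N H i j - Sm N H i l - Sm N H h j + Sm N H h l
        - qf (Am H) (ev i h) (ev i h))
      = (Fintype.card T : ℝ) * r * (Sm N H i j - Am H i i)
        + (r : ℝ) * k * ((Am H).trace - H.trace) - r * (Am H).trace := by
  have hrow : ∀ h, ∑ l, (N h l : ℝ) = (r : ℝ) := fun h => by exact_mod_cast hN.1 h
  have hcol : ∀ l, ∑ h, (N h l : ℝ) = (k : ℝ) := fun l => by exact_mod_cast hN.2 l
  have h1 : ∀ h, ∑ l, (N h l : ℝ) * (Sm N H i j - Sm N H i l - Sm N H h j + Sm N H h l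
        - qf (Am H) (ev i h) (ev i h))
      = (r : ℝ) * Sm N H i j - ∑ l, (N h l : ℝ) * Sm N H i l - (r : ℝ) * Sm N H h j
        + (r : ℝ) * k * (Am H h h - H h h)
        - (r : ℝ) * (Am H i i + Am H h h - 2 * Am H i h) := by
    intro h
    rw [← msum_row N r k H hr hk hT hN hH h, qf_ev (Am H) (a_symm hH) i h]
    have : ∀ l, (N h l : ℝ) * (Sm N H i j - Sm N H i l - Sm N H h j + Sm N H h l
        - (Am H i i + Am H h h - 2 * Am H i h))
        = (N h l : ℝ) * Sm N H i j - (N h l : ℝ) * Sm N H i l - (N h l : ℝ) * Sm N H h j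
          + (N h l : ℝ) * Sm N H h l - (N h l : ℝ) * (Am H i i + Am H h h - 2 * Am H i h) := by
      intro l
      ring
    simp_rw [this]
    rw [Finset.sum_sub_distrib, Finset.sum_add_distrib, Finset.sum_sub_distrib,
      Finset.sum_sub_distrib, ← Finset.sum_mul, ← Finset.sum_mul, ← Finset.sum_mul, hrow h]
  simp_rw [h1]
  have h2 : ∑ h, ∑ l, (N h l : ℝ) * Sm N H i l = 0 := by
    rw [Finset.sum_comm]
    have : ∀ l, ∑ h, (N h l : ℝ) * Sm N H i l = (k : ℝ) * Sm N H i l := by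
      intro l
      rw [← Finset.sum_mul, hcol l]
    simp_rw [this]
    rw [← Finset.mul_sum, msum_Srow N r k H hN hH i, mul_zero]
  have h3 : ∀ h, (r : ℝ) * Sm N H i j - ∑ l, (N h l : ℝ) * Sm N H i l - (r : ℝ) * Sm N H h j
        + (r : ℝ) * k * (Am H h h - H h h)
        - (r : ℝ) * (Am H i i + Am H h h - 2 * Am H i h)
      = ((r : ℝ) * Sm N H i j - (r : ℝ) * Am H i i) - ∑ l, (N h l : ℝ) * Sm N H i l
        - (r : ℝ) * Sm N H h j + ((r : ℝ) * k - r) * Am H h h - (r : ℝ) * k * H h h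
        + 2 * (r : ℝ) * Am H i h := by
    intro h
    ring
  simp_rw [h3]
  rw [Finset.sum_add_distrib, Finset.sum_sub_distrib, Finset.sum_add_distrib,
    Finset.sum_sub_distrib, Finset.sum_sub_distrib, ← Finset.mul_sum, ← Finset.mul_sum,
    ← Finset.mul_sum, ← Finset.mul_sum, h2, msum_Scol N r k H hH j, a_row hH i,
    Finset.sum_const, Finset.card_univ, nsmul_eq_mul]
  unfold Matrix.trace
  simp only [Matrix.diag_apply]
  ring

/-- `∑_j n_ij S_ij = r k (A - H)_ii` -/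
theorem row_S (N : T → B → ℕ) (r k : ℕ) (H : Matrix T T ℝ) (hr : 0 < r) (hk : 0 < k)
    (hT : 0 < Fintype.card T) (hN : IsDesign N r k) (hH : IsH (mu N r k) H) (i : T) :
    ∑ j, (N i j : ℝ) * Sm N H i j = (r : ℝ) * k * (Am H i i - H i i) :=
  msum_row N r k H hr hk hT hN hH i

/-- `∑_t n_tj S_tj = N_jᵀ A N_j` -/
theorem col_S (N : T → B → ℕ) (H : Matrix T T ℝ) (j : B) :
    ∑ t, (N t j : ℝ) * Sm N H t j = qf (Am H) (col N j) (col N j) := by
  unfold qf dotProduct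
  refine Finset.sum_congr rfl fun t _ => ?_
  unfold Sm Am inc col
  rw [Matrix.mul_apply]
  simp [Matrix.mulVec, dotProduct]

end Pool.Agent.BDesign
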