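import Pool.Agent.Lib.BDesign.Defs
import Pool.Agent.Lib.BDesign.HBasic
import Pool.Agent.Lib.BDesign.GoodMu
import Pool.Agent.Lib.BDesign.Psd

/-!
Identities for the vectors `d_tl = N_l/k - e_t`.
`dv_A`: `∑_l n_tl |d_tl|_A² = r (2 H_tt - A_tt) + k⁻² ∑_l n_tl |N_l|_A²`: expand
`|N_l/k - e_t|² = |N_l|²/k² - (2/k) S_tl + A_tt` and use `∑_l n_tl S_tl = r k (A - H)_tt` (`A μ = A - H`).
`dv_H`: the same with `H` in place of `A` and `H μ = H - Π`: `r (2 (1 - 1/v) - H_tt) + k⁻² ∑_l n_tl |N_l|_H²`.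
`dv_bound`: if `i` maximises `A_tt + c H_tt` and all `H_tt ≤ c`, `c > 0`: by `psd_col`,
`k⁻² |N_l|²_{A+cH} ≤ k⁻¹ ∑_s n_sl (A_ss + c H_ss) ≤ A_ii + c H_ii`, so
`∑_l n_il (|d|_A² + c |d|_H²) ≤ r (2 H_ii + 2 c) ≤ 4 c r`; both parts are nonnegative.
`dv_avg`: sum of `dv_A` over `t`: `≤ 2 r tr H`, `dv_H`: `≤ 2 r v`.
-/

set_option autoImplicit false

namespace Pool.Agent.BDesign

open Matrix

variable {T B : Type} [Fintype T] [DecidableEq T] [Fintype B] [DecidableEq B]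

private theorem dvid_col (N : T → B → ℕ) (k : ℕ) (hk : 0 < k) (Q : Matrix T T ℝ)
    (hs : ∀ t s, Q t s = Q s t) (t : T) (l : B) :
    qf Q (dv N k t l) (dv N k t l)
      = qf Q (col N l) (col N l) / (k : ℝ) ^ 2 - 2 / (k : ℝ) * (∑ s, Q t s * (N s l : ℝ)) + Q t t := by
  have hk' : (k : ℝ) ≠ 0 := by positivity
  let e : T → ℝ := fun s => if s = t then 1 else 0
  have hdv : dv N k t l = fun s => (1 / (k : ℝ)) * col N l s - e s := by
    funext s
    simp only [dv, col, e]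
    ring
  have hbil : ∀ (a b : ℝ) (x y : T → ℝ),
      qf Q (fun s => a * x s - b * y s) (fun s => a * x s - b * y s)
        = a ^ 2 * qf Q x x - 2 * a * b * qf Q y x + b ^ 2 * qf Q y y := by
    intro a b x y
    have hc : qf Q x y = qf Q y x := qf_comm Q hs x y
    have h2 : ∑ u, ∑ s, (a * x u - b * y u) * Q u s * (a * x s - b * y s)
        = a ^ 2 * (∑ u, ∑ s, x u * Q u s * x s) - a * b * (∑ u, ∑ s, x u * Q u s * y s)
          - a * b * (∑ u, ∑ s, y u * Q u s * x s) + b ^ 2 * (∑ u, ∑ s, y u * Q u s * y s) := by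
      simp only [Finset.mul_sum]
      rw [← Finset.sum_sub_distrib, ← Finset.sum_sub_distrib, ← Finset.sum_add_distrib]
      refine Finset.sum_congr rfl fun u _ => ?_
      rw [← Finset.sum_sub_distrib, ← Finset.sum_sub_distrib, ← Finset.sum_add_distrib]
      refine Finset.sum_congr rfl fun s _ => ?_
      ring
    rw [qf_sum, h2, ← qf_sum, ← qf_sum, ← qf_sum, ← qf_sum, hc]
    ring
  have h3 := hbil (1 / (k : ℝ)) 1 (col N l) e
  have h4 : (fun s => (1 / (k : ℝ)) * col N l s - 1 * e s) = dv N k t l := by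
    rw [hdv]
    funext s
    ring
  rw [h4] at h3
  have h5 : qf Q e (col N l) = ∑ s, Q t s * (N s l : ℝ) := by
    rw [qf_sum]
    simp only [e]
    rw [Finset.sum_eq_single t]
    · simp [col]
    · intro u _ hu
      simp [hu]
    · simp
  have h6 : qf Q e e = Q t t := by
    rw [qf_sum]
    simp only [e]
    rw [Finset.sum_eq_single t]
    · simp
    · intro u _ hu
      simp [hu]
    · simp
  rw [h3, h5, h6]
  field_simp

private theorem dvid_nn (N : T → B → ℕ) (r k : ℕ) (hr : 0 < r) (hk : 0 < k) (t s : T) :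
    ∑ j, (N t j : ℝ) * (N s j : ℝ) = (r : ℝ) * k * (mu N r k t s + 1 / (Fintype.card T : ℝ)) := by
  have h1 : ((r : ℝ) * (k : ℝ)) ≠ 0 := by positivity
  unfold mu
  field_simp
  ring

private theorem dvid_sum (N : T → B → ℕ) (r k : ℕ) (hr : 0 < r) (hk : 0 < k)
    (hN : IsDesign N r k) (Q : Matrix T T ℝ) (hs : ∀ t s, Q t s = Q s t)
    (hrow : ∀ t, ∑ s, Q t s = 0) (t : T) :
    ∑ l, (N t l : ℝ) * qf Q (dv N k t l) (dv N k t l)
      = (r : ℝ) * Q t t - 2 * (r : ℝ) * (Q * mu N r k) t t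
        + (∑ l, (N t l : ℝ) * qf Q (col N l) (col N l)) / (k : ℝ) ^ 2 := by
  have hk' : (k : ℝ) ≠ 0 := by positivity
  have h1 : ∀ l, (N t l : ℝ) * qf Q (dv N k t l) (dv N k t l)
      = (N t l : ℝ) * qf Q (col N l) (col N l) / (k : ℝ) ^ 2
        - 2 / (k : ℝ) * (∑ s, Q t s * ((N s l : ℝ) * (N t l : ℝ))) + (N t l : ℝ) * Q t t := by
    intro l
    rw [dvid_col N k hk Q hs t l, Finset.mul_sum, Finset.mul_sum]
    have : ∑ s, 2 / (k : ℝ) * (Q t s * ((N s l : ℝ) * (N t l : ℝ)))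
        = (N t l : ℝ) * ∑ s, 2 / (k : ℝ) * (Q t s * (N s l : ℝ)) := by
      rw [Finset.mul_sum]
      exact Finset.sum_congr rfl fun s _ => by ring
    rw [this]
    ring
  simp_rw [h1]
  rw [Finset.sum_add_distrib, Finset.sum_sub_distrib, ← Finset.sum_div, ← Finset.mul_sum,
    ← Finset.sum_mul]
  have h2 : ∑ l, (N t l : ℝ) = (r : ℝ) := by exact_mod_cast hN.1 t
  have h3 : ∑ l, ∑ s, Q t s * ((N s l : ℝ) * (N t l : ℝ)) = (r : ℝ) * k * (Q * mu N r k) t t := by
    rw [Finset.sum_comm]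
    simp_rw [← Finset.mul_sum]
    have h4 : ∀ s, Q t s * ∑ l, (N s l : ℝ) * (N t l : ℝ)
        = (r : ℝ) * k * (Q t s * mu N r k s t) + (r : ℝ) * k / (Fintype.card T : ℝ) * Q t s := by
      intro s
      rw [dvid_nn N r k hr hk s t]
      ring
    simp_rw [h4]
    rw [Finset.sum_add_distrib, ← Finset.mul_sum, ← Finset.mul_sum, hrow t, mul_zero, add_zero,
      ← Matrix.mul_apply]
  rw [h2, h3]
  field_simp
  ring

theorem dv_A (N : T → B → ℕ) (r k : ℕ) (H : Matrix T T ℝ) (hr : 0 < r) (hk : 0 < k)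
    (hT : 0 < Fintype.card T) (hN : IsDesign N r k) (hH : IsH (mu N r k) H) (t : T) :
    ∑ l, (N t l : ℝ) * qf (Am H) (dv N k t l) (dv N k t l)
      = (r : ℝ) * (2 * H t t - Am H t t)
        + (∑ l, (N t l : ℝ) * qf (Am H) (col N l) (col N l)) / (k : ℝ) ^ 2 := by
  have hg := good_mu N r k hr hk hT hN
  have h1 : Am H * mu N r k = Am H - H := by
    unfold Am
    rw [Matrix.mul_assoc, h_mu hg hH, Matrix.mul_sub, h_pi hH]
  rw [dvid_sum N r k hr hk hN (Am H) (a_symm hH) (a_row hH) t, h1, Matrix.sub_apply]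
  ring

theorem dv_H (N : T → B → ℕ) (r k : ℕ) (H : Matrix T T ℝ) (hr : 0 < r) (hk : 0 < k)
    (hT : 0 < Fintype.card T) (hN : IsDesign N r k) (hH : IsH (mu N r k) H) (t : T) :
    ∑ l, (N t l : ℝ) * qf H (dv N k t l) (dv N k t l)
      = (r : ℝ) * (2 * (1 - 1 / (Fintype.card T : ℝ)) - H t t)
        + (∑ l, (N t l : ℝ) * qf H (col N l) (col N l)) / (k : ℝ) ^ 2 := by
  have hg := good_mu N r k hr hk hT hN
  rw [dvid_sum N r k hr hk hN H hH.symm hH.row t, h_mu hg hH, Matrix.sub_apply]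
  simp only [PiM, if_true]
  ring

theorem dv_bound (N : T → B → ℕ) (r k : ℕ) (H : Matrix T T ℝ) (hr : 0 < r) (hk : 0 < k)
    (hT : 0 < Fintype.card T) (hN : IsDesign N r k) (hH : IsH (mu N r k) H) (c : ℝ) (hc : 0 < c)
    (hc2 : ∀ t, H t t ≤ c) (i : T) (hi : ∀ t, Am H t t + c * H t t ≤ Am H i i + c * H i i) :
    (∑ l, (N i l : ℝ) * qf (Am H) (dv N k i l) (dv N k i l) ≤ 4 * c * r) ∧
    (∑ l, (N i l : ℝ) * qf H (dv N k i l) (dv N k i l) ≤ 4 * r) := by
  have hg := good_mu N r k hr hk hT hN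
  have hk' : (0 : ℝ) < (k : ℝ) := by positivity
  have hr' : (0 : ℝ) < (r : ℝ) := by positivity
  have hv' : (0 : ℝ) < (Fintype.card T : ℝ) := by exact_mod_cast hT
  have hA := dv_A N r k H hr hk hT hN hH i
  have hHH := dv_H N r k H hr hk hT hN hH i
  have hAp : 0 ≤ ∑ l, (N i l : ℝ) * qf (Am H) (dv N k i l) (dv N k i l) :=
    Finset.sum_nonneg fun l _ => mul_nonneg (Nat.cast_nonneg _) (a_psd hH _)
  have hHp : 0 ≤ ∑ l, (N i l : ℝ) * qf H (dv N k i l) (dv N k i l) :=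
    Finset.sum_nonneg fun l _ => mul_nonneg (Nat.cast_nonneg _) (h_psd hT hg hH _)
  have hcomb : ∀ l, qf (Am H) (col N l) (col N l) + c * qf H (col N l) (col N l)
      ≤ (k : ℝ) ^ 2 * (Am H i i + c * H i i) := by
    intro l
    have h1 := psd_col (Am H) (a_symm hH) (a_psd hH) N r k hN l
    have h2 := psd_col H hH.symm (h_psd hT hg hH) N r k hN l
    have h3 : ∑ s, (N s l : ℝ) * (Am H s s + c * H s s) ≤ ∑ s, (N s l : ℝ) * (Am H i i + c * H i i) :=
      Finset.sum_le_sum fun s _ => mul_le_mul_of_nonneg_left (hi s) (Nat.cast_nonneg _)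
    have h4 : ∑ s, (N s l : ℝ) * (Am H i i + c * H i i) = (k : ℝ) * (Am H i i + c * H i i) := by
      rw [← Finset.sum_mul]
      congr 1
      exact_mod_cast hN.2 l
    have h5 : ∑ s, (N s l : ℝ) * (Am H s s + c * H s s)
        = ∑ s, (N s l : ℝ) * Am H s s + c * ∑ s, (N s l : ℝ) * H s s := by
      rw [Finset.mul_sum, ← Finset.sum_add_distrib]
      exact Finset.sum_congr rfl fun s _ => by ring
    calc qf (Am H) (col N l) (col N l) + c * qf H (col N l) (col N l)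
        ≤ (k : ℝ) * ∑ s, (N s l : ℝ) * Am H s s + c * ((k : ℝ) * ∑ s, (N s l : ℝ) * H s s) :=
          add_le_add h1 (mul_le_mul_of_nonneg_left h2 hc.le)
      _ = (k : ℝ) * ∑ s, (N s l : ℝ) * (Am H s s + c * H s s) := by rw [h5]; ring
      _ ≤ (k : ℝ) * ((k : ℝ) * (Am H i i + c * H i i)) := by
          rw [← h4]
          exact mul_le_mul_of_nonneg_left h3 hk'.le
      _ = (k : ℝ) ^ 2 * (Am H i i + c * H i i) := by ring
  have hsum : (∑ l, (N i l : ℝ) * qf (Am H) (col N l) (col N l)) / (k : ℝ) ^ 2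
      + c * ((∑ l, (N i l : ℝ) * qf H (col N l) (col N l)) / (k : ℝ) ^ 2)
      ≤ r * (Am H i i + c * H i i) := by
    have h1 : (∑ l, (N i l : ℝ) * qf (Am H) (col N l) (col N l)) / (k : ℝ) ^ 2
      + c * ((∑ l, (N i l : ℝ) * qf H (col N l) (col N l)) / (k : ℝ) ^ 2)
      = (∑ l, (N i l : ℝ) * (qf (Am H) (col N l) (col N l) + c * qf H (col N l) (col N l)))
        / (k : ℝ) ^ 2 := by
      have : ∑ l, (N i l : ℝ) * (qf (Am H) (col N l) (col N l) + c * qf H (col N l) (col N l))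
          = ∑ l, (N i l : ℝ) * qf (Am H) (col N l) (col N l)
            + c * ∑ l, (N i l : ℝ) * qf H (col N l) (col N l) := by
        rw [Finset.mul_sum, ← Finset.sum_add_distrib]
        exact Finset.sum_congr rfl fun s _ => by ring
      rw [this]
      ring
    rw [h1, div_le_iff₀ (by positivity)]
    calc ∑ l, (N i l : ℝ) * (qf (Am H) (col N l) (col N l) + c * qf H (col N l) (col N l))
        ≤ ∑ l, (N i l : ℝ) * ((k : ℝ) ^ 2 * (Am H i i + c * H i i)) :=
          Finset.sum_le_sum fun l _ => mul_le_mul_of_nonneg_left (hcomb l) (Nat.cast_nonneg _)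
      _ = r * (Am H i i + c * H i i) * (k : ℝ) ^ 2 := by
          rw [← Finset.sum_mul]
          have : ∑ l, (N i l : ℝ) = (r : ℝ) := by exact_mod_cast hN.1 i
          rw [this]
          ring
  have hHi : H i i ≤ c := hc2 i
  have hfrac : 0 < 1 / (Fintype.card T : ℝ) := by positivity
  have hcr : 0 < c * (r : ℝ) := mul_pos hc hr'
  have htot : (∑ l, (N i l : ℝ) * qf (Am H) (dv N k i l) (dv N k i l))
      + c * (∑ l, (N i l : ℝ) * qf H (dv N k i l) (dv N k i l)) ≤ 4 * c * r := by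
    rw [hA, hHH]
    have h6 : (r : ℝ) * H i i ≤ r * c := mul_le_mul_of_nonneg_left hHi hr'.le
    have h7 : 0 < c * (r : ℝ) * (1 / (Fintype.card T : ℝ)) := mul_pos hcr hfrac
    nlinarith [hsum, h6, h7]
  constructor
  · nlinarith [htot, mul_nonneg hc.le hHp]
  · have h8 : c * (∑ l, (N i l : ℝ) * qf H (dv N k i l) (dv N k i l)) ≤ c * (4 * r) := by
      nlinarith [htot, hAp]
    exact le_of_mul_le_mul_left h8 hc

theorem dv_avg (N : T → B → ℕ) (r k : ℕ) (H : Matrix T T ℝ) (hr : 0 < r) (hk : 0 < k)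
    (hT : 0 < Fintype.card T) (hN : IsDesign N r k) (hH : IsH (mu N r k) H) :
    (∑ t, ∑ l, (N t l : ℝ) * qf (Am H) (dv N k t l) (dv N k t l) ≤ 2 * r * H.trace) ∧
    (∑ t, ∑ l, (N t l : ℝ) * qf H (dv N k t l) (dv N k t l) ≤ 2 * r * (Fintype.card T : ℝ)) := by
  have hg := good_mu N r k hr hk hT hN
  have hk' : (0 : ℝ) < (k : ℝ) := by positivity
  have hr' : (0 : ℝ) < (r : ℝ) := by positivity
  have hv' : (0 : ℝ) < (Fintype.card T : ℝ) := by exact_mod_cast hT
  have hrow : ∀ h, ∑ l, (N h l : ℝ) = (r : ℝ) := fun h => by exact_mod_cast hN.1 h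
  have hcol : ∀ l, ∑ h, (N h l : ℝ) = (k : ℝ) := fun l => by exact_mod_cast hN.2 l
  -- general bound for a psd form
  have key : ∀ (Q : Matrix T T ℝ), (∀ t s, Q t s = Q s t) → (∀ x : T → ℝ, 0 ≤ qf Q x x) →
      ∑ t, (∑ l, (N t l : ℝ) * qf Q (col N l) (col N l)) / (k : ℝ) ^ 2 ≤ r * Q.trace := by
    intro Q hs hp
    rw [← Finset.sum_div, div_le_iff₀ (by positivity), Finset.sum_comm]
    have h1 : ∀ l, ∑ t, (N t l : ℝ) * qf Q (col N l) (col N l) ≤ (k : ℝ) ^ 2 * ∑ s, (N s l : ℝ) * Q s s := by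
      intro l
      rw [← Finset.sum_mul, hcol l]
      have := psd_col Q hs hp N r k hN l
      calc (k : ℝ) * qf Q (col N l) (col N l) ≤ (k : ℝ) * ((k : ℝ) * ∑ s, (N s l : ℝ) * Q s s) :=
            mul_le_mul_of_nonneg_left this hk'.le
        _ = (k : ℝ) ^ 2 * ∑ s, (N s l : ℝ) * Q s s := by ring
    calc ∑ l, ∑ t, (N t l : ℝ) * qf Q (col N l) (col N l)
        ≤ ∑ l, (k : ℝ) ^ 2 * ∑ s, (N s l : ℝ) * Q s s := Finset.sum_le_sum fun l _ => h1 l
      _ = r * Q.trace * (k : ℝ) ^ 2 := by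
          rw [← Finset.mul_sum, Finset.sum_comm]
          simp_rw [← Finset.sum_mul, hrow]
          rw [← Finset.mul_sum]
          unfold Matrix.trace
          simp only [Matrix.diag_apply]
          ring
  constructor
  · simp_rw [dv_A N r k H hr hk hT hN hH]
    rw [Finset.sum_add_distrib, ← Finset.mul_sum, Finset.sum_sub_distrib, ← Finset.mul_sum]
    have h1 := key (Am H) (a_symm hH) (a_psd hH)
    have h2 : ∑ t, H t t = H.trace := by simp [Matrix.trace]
    have h3 : ∑ t, Am H t t = (Am H).trace := by simp [Matrix.trace]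
    rw [h2, h3]
    nlinarith [h1]
  · simp_rw [dv_H N r k H hr hk hT hN hH]
    rw [Finset.sum_add_distrib, ← Finset.mul_sum, Finset.sum_sub_distrib, Finset.sum_const,
      Finset.card_univ, nsmul_eq_mul]
    have h1 := key H hH.symm (h_psd hT hg hH)
    have h2 : ∑ t, H t t = H.trace := by simp [Matrix.trace]
    rw [h2]
    have h3 : (Fintype.card T : ℝ) * (2 * (1 - 1 / (Fintype.card T : ℝ)))
        = 2 * (Fintype.card T : ℝ) - 2 := by
      field_simp
    rw [h3]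
    nlinarith [h1]

end Pool.Agent.BDesign
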