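import Pool.Agent.Lib.BDesign.Defs
import Pool.Agent.Lib.BDesign.MSum
import Pool.Agent.Lib.BDesign.MDiag

/-!
`m_ineq`: multiply the hypothesis by `n_hl`, sum, use `sum_id`, `trace_lb`, divide by `v r`.
-/

set_option autoImplicit false

namespace Pool.Agent.BDesign

open Matrix

variable {T B : Type} [Fintype T] [DecidableEq T] [Fintype B] [DecidableEq B]

theorem m_ineq (N : T → B → ℕ) (r k : ℕ) (H : Matrix T T ℝ) (hr : 0 < r) (hk : 2 ≤ k)
    (hT : 0 < Fintype.card T) (hN : IsDesign N r k) (hH : IsH (mu N r k) H) (i : T) (j : B)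
    (ρ : T → B → ℝ)
    (h : ∀ h l, 1 ≤ N h l → Sm N H i j - Sm N H i l - Sm N H h j + Sm N H h l
        - qf (Am H) (ev i h) (ev i h) ≤ ρ h l) :
    Sm N H i j - Am H i i ≤ 2 * (k : ℝ) / (Fintype.card T : ℝ)
      + (∑ h, ∑ l, (N h l : ℝ) * ρ h l) / ((Fintype.card T : ℝ) * r) := by
  have h1 := sum_id N r k H hr (by omega) hT hN hH i j
  have h2 := trace_lb N r k H hr hk hT hN hH
  have h3 : ∑ h, ∑ l, (N h l : ℝ) * (Sm N H i j - Sm N H i l - Sm N H h j + Sm N H h l
        - qf (Am H) (ev i h) (ev i h)) ≤ ∑ h, ∑ l, (N h l : ℝ) * ρ h l := by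
    apply Finset.sum_le_sum
    intro a _
    apply Finset.sum_le_sum
    intro b _
    rcases Nat.eq_zero_or_pos (N a b) with h0 | h0
    · rw [h0]
      simp
    · exact mul_le_mul_of_nonneg_left (h a b h0) (Nat.cast_nonneg _)
  have hv : (0 : ℝ) < (Fintype.card T : ℝ) := by exact_mod_cast hT
  have hr' : (0 : ℝ) < (r : ℝ) := by exact_mod_cast hr
  have h4 := mul_le_mul_of_nonneg_left h2 hr'.le
  have h5 : Sm N H i j - Am H i i ≤
      (2 * (k : ℝ) * r + ∑ h, ∑ l, (N h l : ℝ) * ρ h l) / ((Fintype.card T : ℝ) * r) := by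
    rw [le_div_iff₀ (mul_pos hv hr')]
    linarith
  refine le_trans h5 (le_of_eq ?_)
  field_simp

end Pool.Agent.BDesign
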