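import Pool.Agent.Lib.BDesign.Defs
import Pool.Agent.Lib.BDesign.HBasic

/-!
Rank two update.  Put `X = xᵀHx`, `Z = zᵀHz`, `c = xᵀHz`, `X2 = xᵀAx`, `Z2 = zᵀAz`, `c2 = xᵀAz` (`A = H²`),
`g = (1+εc)² - ε² X Z ≠ 0`, `μ' = μ - ε (x zᵀ + z xᵀ)`.  Then
`H' = H + (ε/g) [ εZ (Hx)(Hx)ᵀ - (1+εc)((Hx)(Hz)ᵀ + (Hz)(Hx)ᵀ) + εX (Hz)(Hz)ᵀ ]` satisfies `IsH μ' H'` and
`tr H' = tr H + (ε/g)(ε (Z X2 + X Z2) - 2 (1+εc) c2)`.
Verification: `Π - μ' = (Π - μ) + ε(x zᵀ + z xᵀ)`; use `H(Π-μ) = Π`, `(Hx)ᵀ(Π-μ) = xᵀ` (as `∑x = 0`), and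
`(Hx)ᵀ x = X`, `(Hx)ᵀ z = c`, etc.
-/

set_option autoImplicit false

namespace Pool.Agent.BDesign

open Matrix

variable {T B : Type} [Fintype T] [DecidableEq T] [Fintype B] [DecidableEq B]

/-- `∑ s, (H x) s = 0` -/
theorem rankTwo_sum_mulVec {μ H : Matrix T T ℝ} (hH : IsH μ H) (x : T → ℝ) :
    ∑ s, (H *ᵥ x) s = 0 := by
  simp only [Matrix.mulVec, dotProduct]
  rw [Finset.sum_comm]
  apply Finset.sum_eq_zero
  intro t _
  rw [← Finset.sum_mul]
  have : ∑ s, H s t = 0 := by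
    rw [← hH.row t]
    exact Finset.sum_congr rfl (fun s _ => hH.symm s t)
  rw [this, zero_mul]

theorem rankTwo_vecMul {μ H : Matrix T T ℝ} (hH : IsH μ H) (x : T → ℝ) :
    x ᵥ* H = H *ᵥ x := by
  funext s
  simp only [Matrix.mulVec, Matrix.vecMul, dotProduct]
  exact Finset.sum_congr rfl (fun t _ => by rw [hH.symm t s]; ring)

theorem rankTwo_pi_vecMul (x : T → ℝ) (hx : ∑ t, x t = 0) : x ᵥ* PiM T = x := by
  have h := pi_mulVec x hx
  conv_rhs => rw [← h]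
  funext s
  simp only [Matrix.mulVec, Matrix.vecMul, dotProduct]
  exact Finset.sum_congr rfl (fun t _ => by rw [pi_symm t s]; ring)

/-- `H (Π - μ')` -/
theorem rankTwo_mul {μ H : Matrix T T ℝ} (hH : IsH μ H) (x z : T → ℝ) (ε : ℝ) :
    H * (PiM T - (μ - ε • (vecMulVec x z + vecMulVec z x)))
      = PiM T + ε • (vecMulVec (H *ᵥ x) z + vecMulVec (H *ᵥ z) x) := by
  have e : PiM T - (μ - ε • (vecMulVec x z + vecMulVec z x))
      = (PiM T - μ) + ε • (vecMulVec x z + vecMulVec z x) := by abel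
  rw [e, Matrix.mul_add, hH.inv, Matrix.mul_smul, Matrix.mul_add, Matrix.mul_vecMulVec,
    Matrix.mul_vecMulVec]

/-- `(H w)ᵀ (Π - μ')` -/
theorem rankTwo_row {μ H : Matrix T T ℝ} (hH : IsH μ H) (x z w : T → ℝ) (hw : ∑ t, w t = 0)
    (ε : ℝ) :
    (H *ᵥ w) ᵥ* (PiM T - (μ - ε • (vecMulVec x z + vecMulVec z x)))
      = w + ε • ((w ⬝ᵥ (H *ᵥ x)) • z + (w ⬝ᵥ (H *ᵥ z)) • x) := by
  rw [← rankTwo_vecMul hH w, Matrix.vecMul_vecMul, rankTwo_mul hH, Matrix.vecMul_add,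
    rankTwo_pi_vecMul w hw, Matrix.vecMul_smul, Matrix.vecMul_add, Matrix.vecMul_vecMulVec,
    Matrix.vecMul_vecMulVec]

theorem rank_two {μ H : Matrix T T ℝ} (hT : 0 < Fintype.card T) (hμ : Good μ) (hH : IsH μ H)
    (x z : T → ℝ) (hx : ∑ t, x t = 0) (hz : ∑ t, z t = 0) (ε : ℝ)
    (hg : (1 + ε * qf H x z) ^ 2 - ε ^ 2 * (qf H x x * qf H z z) ≠ 0) :
    ∃ H' : Matrix T T ℝ, IsH (μ - ε • (vecMulVec x z + vecMulVec z x)) H' ∧
      H'.trace = H.trace + ε / ((1 + ε * qf H x z) ^ 2 - ε ^ 2 * (qf H x x * qf H z z)) *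
        (ε * (qf H z z * qf (Am H) x x + qf H x x * qf (Am H) z z)
          - 2 * (1 + ε * qf H x z) * qf (Am H) x z) := by
  set X := qf H x x with hX
  set Z := qf H z z with hZ
  set c := qf H x z with hc
  set g := (1 + ε * c) ^ 2 - ε ^ 2 * (X * Z) with hgd
  set p : T → ℝ := H *ᵥ x with hp
  set q : T → ℝ := H *ᵥ z with hq
  have hxp : x ⬝ᵥ p = X := rfl
  have hxq : x ⬝ᵥ q = c := rfl
  have hzq : z ⬝ᵥ q = Z := rfl
  have hzp : z ⬝ᵥ p = c := by
    have h := qf_comm H hH.symm z x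
    rw [← hc] at h
    exact h
  have hps : ∑ s, p s = 0 := rankTwo_sum_mulVec hH x
  have hqs : ∑ s, q s = 0 := rankTwo_sum_mulVec hH z
  have hpp : p ⬝ᵥ p = qf (Am H) x x := (a_eq hH x).symm
  have hqq : q ⬝ᵥ q = qf (Am H) z z := (a_eq hH z).symm
  have hpq : p ⬝ᵥ q = qf (Am H) x z := by
    unfold qf Am
    rw [← Matrix.mulVec_mulVec, Matrix.dotProduct_mulVec x, rankTwo_vecMul hH x]
  have hqp : q ⬝ᵥ p = qf (Am H) x z := by
    rw [dotProduct_comm, hpq]
  have hg' : g ≠ 0 := hg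
  refine ⟨H + (ε / g) • ((ε * Z) • vecMulVec p p - (1 + ε * c) • (vecMulVec p q + vecMulVec q p)
    + (ε * X) • vecMulVec q q), ⟨?_, ?_, ?_⟩, ?_⟩
  · intro t s
    simp only [Matrix.add_apply, Matrix.sub_apply, Matrix.smul_apply, smul_eq_mul,
      Matrix.vecMulVec_apply]
    rw [hH.symm t s]
    ring
  · intro t
    have e : ∀ s, (H + (ε / g) • ((ε * Z) • vecMulVec p p
        - (1 + ε * c) • (vecMulVec p q + vecMulVec q p) + (ε * X) • vecMulVec q q)) t s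
        = H t s + (ε / g * (ε * Z) * p t - ε / g * (1 + ε * c) * q t) * p s
          + (ε / g * (ε * X) * q t - ε / g * (1 + ε * c) * p t) * q s := by
      intro s
      simp only [Matrix.add_apply, Matrix.sub_apply, Matrix.smul_apply, smul_eq_mul,
        Matrix.vecMulVec_apply]
      ring
    simp only [e]
    rw [Finset.sum_add_distrib, Finset.sum_add_distrib, ← Finset.mul_sum, ← Finset.mul_sum,
      hps, hqs, hH.row t]
    ring
  · have hP : p ᵥ* (PiM T - (μ - ε • (vecMulVec x z + vecMulVec z x)))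
        = x + ε • (X • z + c • x) := by
      have h := rankTwo_row hH x z x hx ε
      rw [← hp, ← hq, hxp, hxq] at h
      exact h
    have hQ : q ᵥ* (PiM T - (μ - ε • (vecMulVec x z + vecMulVec z x)))
        = z + ε • (c • z + Z • x) := by
      have h := rankTwo_row hH x z z hz ε
      rw [← hp, ← hq, hzp, hzq] at h
      exact h
    rw [Matrix.add_mul, rankTwo_mul hH, Matrix.smul_mul, Matrix.add_mul, Matrix.sub_mul,
      Matrix.smul_mul, Matrix.smul_mul, Matrix.smul_mul, Matrix.add_mul, Matrix.vecMulVec_mul,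
      Matrix.vecMulVec_mul, Matrix.vecMulVec_mul, Matrix.vecMulVec_mul, hP, hQ, ← hp, ← hq]
    funext t s
    simp only [Matrix.add_apply, Matrix.sub_apply, Matrix.smul_apply, smul_eq_mul,
      Matrix.vecMulVec_apply, Pi.add_apply, Pi.smul_apply]
    have hk : ε / g * g = ε := div_mul_cancel₀ ε hg'
    have e1 : ε * (p t * z s + q t * x s) + ε / g * (ε * Z * (p t * (x s + ε * (X * z s + c * x s)))
        - (1 + ε * c) * (p t * (z s + ε * (c * z s + Z * x s))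
          + q t * (x s + ε * (X * z s + c * x s)))
        + ε * X * (q t * (z s + ε * (c * z s + Z * x s))))
        = (ε - ε / g * g) * (p t * z s + q t * x s) := by
      rw [hgd]
      ring
    rw [hk] at e1
    linarith
  · rw [Matrix.trace_add, Matrix.trace_smul, Matrix.trace_add, Matrix.trace_sub,
      Matrix.trace_smul, Matrix.trace_smul, Matrix.trace_smul, Matrix.trace_add,
      Matrix.trace_vecMulVec, Matrix.trace_vecMulVec, Matrix.trace_vecMulVec,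
      Matrix.trace_vecMulVec, hpp, hqq, hpq, hqp]
    simp only [smul_eq_mul]
    ring

end Pool.Agent.BDesign
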