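import Pool.Agent.Lib.BDesign.Defs
import Pool.Agent.Lib.BDesign.HBasic
import Pool.Agent.Lib.BDesign.RankTwo

/-!
`g ≥ 0` when `μ' = μ - ε (x zᵀ + z xᵀ)` satisfies `μ' ≤ Π`.
For real `a, b` let `u = a Hx + b Hz`. `qf (Π - μ) u u = a²X + 2abc + b²Z` and
`uᵀx = aX + bc`, `uᵀz = ac + bZ`, so `0 ≤ qf (Π-μ') u u = a²X+2abc+b²Z + 2ε(aX+bc)(ac+bZ)`
`= a² X(1+2εc) + 2ab (c + ε(XZ+c²)) + b² Z (1+2εc)`.
A nonnegative binary form has nonnegative discriminant: `XZ(1+2εc)² ≥ (c+ε(XZ+c²))²`, and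
`XZ(1+2εc)² - (c+ε(XZ+c²))² = (XZ - c²) g`. If `XZ > c²` we get `g ≥ 0`.
If `XZ = c²` (Cauchy-Schwarz gives `c² ≤ XZ`), `g = 1+2εc`; if `X > 0` the coefficient of `a²` gives `1+2εc ≥ 0`,
if `X = 0` then `c = 0` and `g = 1`.
-/

set_option autoImplicit false

namespace Pool.Agent.BDesign

open Matrix

variable {T B : Type} [Fintype T] [DecidableEq T] [Fintype B] [DecidableEq B]

/-- a binary form which is nonnegative has nonnegative discriminant -/
theorem gNonneg_disc {P Q R : ℝ} (h : ∀ a b : ℝ, 0 ≤ a ^ 2 * P + 2 * (a * b) * Q + b ^ 2 * R) :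
    Q ^ 2 ≤ P * R := by
  have hP : 0 ≤ P := by
    have := h 1 0
    linarith
  have hR : 0 ≤ R := by
    have := h 0 1
    linarith
  rcases hP.eq_or_lt with hP0 | hP0
  · by_contra hcon
    have hQ : Q ≠ 0 := by
      rintro rfl
      apply hcon
      rw [← hP0]
      norm_num
    have h1 := h (-(R + 1) / (2 * Q)) 1
    rw [← hP0] at h1
    have e : 2 * (-(R + 1) / (2 * Q) * 1) * Q = -(R + 1) := by
      field_simp
    rw [e] at h1
    linarith
  · have h1 := h (-Q) P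
    have e : (-Q) ^ 2 * P + 2 * (-Q * P) * Q + P ^ 2 * R = P * (P * R - Q ^ 2) := by ring
    rw [e] at h1
    have h2 := nonneg_of_mul_nonneg_right h1 hP0
    linarith

theorem g_nonneg {μ H : Matrix T T ℝ} (hT : 0 < Fintype.card T) (hμ : Good μ) (hH : IsH μ H)
    (x z : T → ℝ) (hx : ∑ t, x t = 0) (hz : ∑ t, z t = 0) (ε : ℝ)
    (hμ' : Good (μ - ε • (vecMulVec x z + vecMulVec z x))) :
    0 ≤ (1 + ε * qf H x z) ^ 2 - ε ^ 2 * (qf H x x * qf H z z) := by
  set X := qf H x x with hX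
  set Z := qf H z z with hZ
  set c := qf H x z with hc
  set p : T → ℝ := H *ᵥ x with hp
  set q : T → ℝ := H *ᵥ z with hq
  set D : Matrix T T ℝ := PiM T - (μ - ε • (vecMulVec x z + vecMulVec z x)) with hD
  have hxp : x ⬝ᵥ p = X := rfl
  have hxq : x ⬝ᵥ q = c := rfl
  have hzq : z ⬝ᵥ q = Z := rfl
  have hzp : z ⬝ᵥ p = c := by
    have h := qf_comm H hH.symm z x
    rw [← hc] at h
    exact h
  have hX0 : 0 ≤ X := h_psd hT hμ hH x
  have hZ0 : 0 ≤ Z := h_psd hT hμ hH z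
  have hcs : c ^ 2 ≤ X * Z := psd_cs H hH.symm (h_psd hT hμ hH) x z
  have hP : p ᵥ* D = x + ε • (X • z + c • x) := by
    have h := rankTwo_row hH x z x hx ε
    rw [← hp, ← hq, hxp, hxq, ← hD] at h
    exact h
  have hQ : q ᵥ* D = z + ε • (c • z + Z • x) := by
    have h := rankTwo_row hH x z z hz ε
    rw [← hp, ← hq, hzp, hzq, ← hD] at h
    exact h
  have hform : ∀ a b : ℝ, 0 ≤ a ^ 2 * (X * (1 + 2 * ε * c))
      + 2 * (a * b) * (c + ε * (X * Z + c ^ 2)) + b ^ 2 * (Z * (1 + 2 * ε * c)) := by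
    intro a b
    have h := hμ'.le (a • p + b • q)
    have h1 : 0 ≤ ((a • p + b • q) ᵥ* D) ⬝ᵥ (a • p + b • q) := by
      rw [← Matrix.dotProduct_mulVec, hD, Matrix.sub_mulVec, dotProduct_sub]
      have := sub_nonneg.2 h
      exact this
    rw [Matrix.add_vecMul, Matrix.smul_vecMul, Matrix.smul_vecMul, hP, hQ] at h1
    simp only [add_dotProduct, smul_dotProduct, dotProduct_add, dotProduct_smul, smul_eq_mul,
      hxp, hxq, hzp, hzq] at h1
    calc (0 : ℝ) ≤ _ := h1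
      _ = _ := by ring
  have hdisc := gNonneg_disc hform
  have key : (X * Z - c ^ 2) * ((1 + ε * c) ^ 2 - ε ^ 2 * (X * Z))
      = X * (1 + 2 * ε * c) * (Z * (1 + 2 * ε * c)) - (c + ε * (X * Z + c ^ 2)) ^ 2 := by ring
  rcases hcs.lt_or_eq with hlt | heq
  · have h1 : 0 ≤ (X * Z - c ^ 2) * ((1 + ε * c) ^ 2 - ε ^ 2 * (X * Z)) := by
      rw [key]; linarith
    exact nonneg_of_mul_nonneg_right h1 (sub_pos.2 hlt)
  · rw [← heq]
    have e : (1 + ε * c) ^ 2 - ε ^ 2 * c ^ 2 = 1 + 2 * ε * c := by ring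
    rw [e]
    rcases hX0.eq_or_lt with hX1 | hX1
    · have hc0 : c = 0 := by
        rw [← hX1, zero_mul] at heq
        exact pow_eq_zero_iff (two_ne_zero) |>.1 heq
      rw [hc0]
      norm_num
    · have h1 := hform 1 0
      have h2 : 0 ≤ X * (1 + 2 * ε * c) := by linarith
      exact nonneg_of_mul_nonneg_right h2 hX1

end Pool.Agent.BDesign
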