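import Pool.Agent.Lib.BDesign.Defs
import Pool.Agent.Lib.BDesign.RankTwo
import Pool.Agent.Lib.BDesign.GNonneg

/-!
Abstract optimality inequality.
`opt_ineq`: if `g > 0`, `rank_two` gives `H'` and minimality gives `(ε/g)(ε(ZX2+XZ2) - 2(1+εc)c2) ≥ 0`.
If `g = 0` then `|1+εc| = ε√(XZ)` and `2(1+εc)c2 ≤ 2ε√(XZ)·√(X2 Z2) ≤ ε(Z X2 + X Z2)` (Cauchy-Schwarz + AM-GM;
avoid square roots: it is enough that `(2(1+εc)c2)² ≤ (ε(ZX2+XZ2))²`).
`opt_ineq2`: with `y = z + t x` (any real `t`), `2 c2 ≤ ε (Z X2 + X Z2 - 2 c c2)`, the bracket is invariant under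
`z ↦ z + t x`, so equals `Y X2 + X Y2 - 2 (xᵀHy)(xᵀAy) ≤ 2 (Y X2 + X Y2)` by Cauchy-Schwarz and AM-GM.
-/

set_option autoImplicit false

namespace Pool.Agent.BDesign

open Matrix

variable {T B : Type} [Fintype T] [DecidableEq T] [Fintype B] [DecidableEq B]

private theorem optIneq_aux {s t X Y X2 Y2 : ℝ} (hX : 0 ≤ X) (hY : 0 ≤ Y) (hX2 : 0 ≤ X2)
    (hY2 : 0 ≤ Y2) (h1 : s ^ 2 ≤ X * Y) (h2 : t ^ 2 ≤ X2 * Y2) :
    2 * (s * t) ≤ Y * X2 + X * Y2 ∧ -(2 * (s * t)) ≤ Y * X2 + X * Y2 := by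
  have h3 : s ^ 2 * t ^ 2 ≤ (X * Y) * (X2 * Y2) :=
    mul_le_mul h1 h2 (sq_nonneg t) (mul_nonneg hX hY)
  have h4 : (2 * (s * t)) ^ 2 ≤ (Y * X2 + X * Y2) ^ 2 := by
    nlinarith [sq_nonneg (Y * X2 - X * Y2)]
  have h5 : 0 ≤ Y * X2 + X * Y2 := add_nonneg (mul_nonneg hY hX2) (mul_nonneg hX hY2)
  have h6 := abs_le_of_sq_le_sq' h4 h5
  exact ⟨h6.2, by linarith [h6.1]⟩

theorem opt_ineq {μ H : Matrix T T ℝ} (hT : 0 < Fintype.card T) (hμ : Good μ) (hH : IsH μ H)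
    (x z : T → ℝ) (hx : ∑ t, x t = 0) (hz : ∑ t, z t = 0) (ε : ℝ) (hε : 0 < ε)
    (hμ' : Good (μ - ε • (vecMulVec x z + vecMulVec z x)))
    (hmin : ∀ H', IsH (μ - ε • (vecMulVec x z + vecMulVec z x)) H' → H.trace ≤ H'.trace) :
    2 * (1 + ε * qf H x z) * qf (Am H) x z
      ≤ ε * (qf H z z * qf (Am H) x x + qf H x x * qf (Am H) z z) := by
  have hg := g_nonneg hT hμ hH x z hx hz ε hμ'
  have hX : 0 ≤ qf H x x := h_psd hT hμ hH x
  have hZ : 0 ≤ qf H z z := h_psd hT hμ hH z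
  have hX2 : 0 ≤ qf (Am H) x x := a_psd hH x
  have hZ2 : 0 ≤ qf (Am H) z z := a_psd hH z
  rcases eq_or_lt_of_le hg with hg0 | hg0
  · -- `g = 0`
    have hc2 : qf (Am H) x z ^ 2 ≤ qf (Am H) x x * qf (Am H) z z :=
      psd_cs (Am H) (a_symm hH) (a_psd hH) x z
    have h1 : (1 + ε * qf H x z) ^ 2 ≤ (ε * qf H x x) * (ε * qf H z z) := by
      nlinarith [hg0]
    have h2 := (optIneq_aux (mul_nonneg hε.le hX) (mul_nonneg hε.le hZ) hX2 hZ2 h1 hc2).1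
    nlinarith [h2]
  · obtain ⟨H', hH', htr⟩ := rank_two hT hμ hH x z hx hz ε hg0.ne'
    have h1 := hmin H' hH'
    rw [htr] at h1
    have h2 : 0 ≤ ε / ((1 + ε * qf H x z) ^ 2 - ε ^ 2 * (qf H x x * qf H z z)) *
        (ε * (qf H z z * qf (Am H) x x + qf H x x * qf (Am H) z z)
          - 2 * (1 + ε * qf H x z) * qf (Am H) x z) := by linarith
    have h3 : 0 < ε / ((1 + ε * qf H x z) ^ 2 - ε ^ 2 * (qf H x x * qf H z z)) :=
      div_pos hε hg0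
    have h4 := nonneg_of_mul_nonneg_right h2 h3
    linarith

theorem opt_ineq2 {μ H : Matrix T T ℝ} (hT : 0 < Fintype.card T) (hμ : Good μ) (hH : IsH μ H)
    (x z : T → ℝ) (ε : ℝ) (hε : 0 < ε)
    (h : 2 * (1 + ε * qf H x z) * qf (Am H) x z
      ≤ ε * (qf H z z * qf (Am H) x x + qf H x x * qf (Am H) z z)) (c : ℝ) :
    qf (Am H) x z ≤ ε * (qf H x x * qf (Am H) (z + c • x) (z + c • x)
      + qf H (z + c • x) (z + c • x) * qf (Am H) x x) := by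
  have hexp : ∀ Q : Matrix T T ℝ, (∀ t s, Q t s = Q s t) →
      qf Q (z + c • x) (z + c • x) = qf Q z z + 2 * c * qf Q x z + c ^ 2 * qf Q x x ∧
      qf Q x (z + c • x) = qf Q x z + c * qf Q x x := by
    intro Q hQ
    have hcomm := qf_comm Q hQ z x
    unfold qf at *
    constructor
    · simp only [mulVec_add, mulVec_smul, dotProduct_add, add_dotProduct, dotProduct_smul,
        smul_dotProduct, smul_eq_mul]
      rw [hcomm]
      ring
    · simp only [mulVec_add, mulVec_smul, dotProduct_add, dotProduct_smul, smul_eq_mul]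
  obtain ⟨hY, hcy⟩ := hexp H hH.symm
  obtain ⟨hY2, hc2y⟩ := hexp (Am H) (a_symm hH)
  set y : T → ℝ := z + c • x with hy
  have hX : 0 ≤ qf H x x := h_psd hT hμ hH x
  have hYn : 0 ≤ qf H y y := h_psd hT hμ hH y
  have hX2 : 0 ≤ qf (Am H) x x := a_psd hH x
  have hY2n : 0 ≤ qf (Am H) y y := a_psd hH y
  have e1 : qf H x y ^ 2 ≤ qf H x x * qf H y y := psd_cs H hH.symm (h_psd hT hμ hH) x y
  have e2 : qf (Am H) x y ^ 2 ≤ qf (Am H) x x * qf (Am H) y y :=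
    psd_cs (Am H) (a_symm hH) (a_psd hH) x y
  have e3 := (optIneq_aux hX hYn hX2 hY2n e1 e2).2
  -- the invariance of the bracket
  have e4 : qf H z z * qf (Am H) x x + qf H x x * qf (Am H) z z - 2 * (qf H x z * qf (Am H) x z)
      = qf H y y * qf (Am H) x x + qf H x x * qf (Am H) y y
        - 2 * (qf H x y * qf (Am H) x y) := by
    rw [hY, hY2, hcy, hc2y]
    ring
  have e5 : 2 * qf (Am H) x z ≤ ε * (qf H z z * qf (Am H) x x + qf H x x * qf (Am H) z z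
      - 2 * (qf H x z * qf (Am H) x z)) := by
    linarith [h]
  rw [e4] at e5
  have e6 : ε * (qf H y y * qf (Am H) x x + qf H x x * qf (Am H) y y
        - 2 * (qf H x y * qf (Am H) x y))
      ≤ ε * (2 * (qf H y y * qf (Am H) x x + qf H x x * qf (Am H) y y)) :=
    mul_le_mul_of_nonneg_left (by linarith) hε.le
  linarith

end Pool.Agent.BDesign
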