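import Pool.Agent.Lib.BDesign.Defs
import Pool.Agent.Lib.BDesign.OptIneq
import Pool.Agent.Lib.BDesign.SwapMu

/-!
Inequality (O) for a minimiser, for ALL plots (also the degenerate pairs `i = h` or `j = l`, where the left side is
`≤ 0`: for `i = h` it is `0`, for `j = l` it is `-qf A x x`).
For `i ≠ h`, `j ≠ l`: combine `swp_design`, `swp_mu`, `good_mu`, `opt_ineq`, `opt_ineq2` with `z = N_j - N_l - x`
and `y = z + (1+c) x = N_j - N_l + c x`; `qf A x z = S_ij - S_il - S_hj + S_hl - qf A x x` where `S = A N`.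
-/

set_option autoImplicit false

namespace Pool.Agent.BDesign

open Matrix

variable {T B : Type} [Fintype T] [DecidableEq T] [Fintype B] [DecidableEq B]

private theorem ev_dot (i h : T) (u : T → ℝ) : ev i h ⬝ᵥ u = u i - u h := by
  simp only [dotProduct, ev, sub_mul, ite_mul, one_mul, zero_mul, Finset.sum_sub_distrib,
    Finset.sum_ite_eq', Finset.mem_univ, if_true]

private theorem ev_sum (i h : T) : ∑ t, ev i h t = 0 := by
  simp only [ev, Finset.sum_sub_distrib, Finset.sum_ite_eq', Finset.mem_univ, if_true, sub_self]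

private theorem ev_self (i : T) : ev i i = 0 := by
  funext t; simp [ev]

private theorem am_col (N : T → B → ℕ) (H : Matrix T T ℝ) (j : B) (t : T) :
    (Am H *ᵥ col N j) t = Sm N H t j := rfl

theorem opt_swap (N : T → B → ℕ) (r k : ℕ) (H : Matrix T T ℝ) (hr : 0 < r) (hk : 0 < k)
    (hT : 0 < Fintype.card T) (ho : Opt N r k H) (i h : T) (j l : B)
    (hij : 1 ≤ N i j) (hhl : 1 ≤ N h l) (c : ℝ) :
    Sm N H i j - Sm N H i l - Sm N H h j + Sm N H h l - qf (Am H) (ev i h) (ev i h)
      ≤ 1 / ((r : ℝ) * k) *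
        (qf H (ev i h) (ev i h) *
            qf (Am H) (col N j - col N l + c • ev i h) (col N j - col N l + c • ev i h)
          + qf H (col N j - col N l + c • ev i h) (col N j - col N l + c • ev i h) *
            qf (Am H) (ev i h) (ev i h)) := by
  have hμ := good_mu N r k hr hk hT ho.des
  have hH := ho.isH
  have hε : 0 < 1 / ((r : ℝ) * k) := by positivity
  by_cases hih : i = h
  · subst hih
    have q0 : ∀ Q : Matrix T T ℝ, qf Q (0 : T → ℝ) 0 = 0 := fun Q => by simp [qf]
    rw [ev_self, q0, q0]
    simp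
  by_cases hjl : j = l
  · subst hjl
    have a1 := a_psd hH (ev i h)
    have a2 := a_psd hH (col N j - col N j + c • ev i h)
    have a3 := h_psd hT hμ hH (ev i h)
    have a4 := h_psd hT hμ hH (col N j - col N j + c • ev i h)
    have : 0 ≤ 1 / ((r : ℝ) * k) *
        (qf H (ev i h) (ev i h) *
            qf (Am H) (col N j - col N j + c • ev i h) (col N j - col N j + c • ev i h)
          + qf H (col N j - col N j + c • ev i h) (col N j - col N j + c • ev i h) *
            qf (Am H) (ev i h) (ev i h)) :=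
      mul_nonneg hε.le (add_nonneg (mul_nonneg a3 a2) (mul_nonneg a4 a1))
    linarith
  have hd := swp_design N r k ho.des i h j l hih hjl hij hhl
  have hm := swp_mu N r k i h j l hih hjl hij hhl
  have hμ' := good_mu _ r k hr hk hT hd
  rw [hm] at hμ'
  have hz : ∑ t, (col N j - col N l - ev i h) t = 0 := by
    simp only [Pi.sub_apply, Finset.sum_sub_distrib, ev_sum, sub_zero, col]
    have e1 := ho.des.2 j
    have e2 := ho.des.2 l
    have e3 : ∑ t, (N t j : ℝ) = (k : ℝ) := by rw [← e1]; push_cast; rfl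
    have e4 : ∑ t, (N t l : ℝ) = (k : ℝ) := by rw [← e2]; push_cast; rfl
    rw [e3, e4, sub_self]
  have h1 := opt_ineq hT hμ hH (ev i h) (col N j - col N l - ev i h) (ev_sum i h) hz
    (1 / ((r : ℝ) * k)) hε hμ' (fun H' hH' => ho.min _ H' hd (by rw [hm]; exact hH'))
  have h2 := opt_ineq2 hT hμ hH (ev i h) (col N j - col N l - ev i h) (1 / ((r : ℝ) * k)) hε h1
    (1 + c)
  have e1 : col N j - col N l - ev i h + (1 + c) • ev i h = col N j - col N l + c • ev i h := by
    rw [add_smul, one_smul]; abel
  rw [e1] at h2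
  have e2 : qf (Am H) (ev i h) (col N j - col N l - ev i h) =
      Sm N H i j - Sm N H i l - Sm N H h j + Sm N H h l - qf (Am H) (ev i h) (ev i h) := by
    simp only [qf, mulVec_sub, dotProduct_sub, ev_dot, am_col]
    ring
  rw [e2] at h2
  exact h2

end Pool.Agent.BDesign
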