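import Pool.Agent.Lib.BDesign.Defs
import Pool.Agent.Lib.BDesign.OptSwap
import Pool.Agent.Lib.BDesign.MIneq
import Pool.Agent.Lib.BDesign.DvId

/-!
Step 1, main inequality.  For plots `(i,j)`, `(h,l)` apply `opt_swap` with `c = -k`:
`N_j - N_l - k (e_i - e_h) = k (d_ij - d_hl)`, so with `psd_sub` and `qf_ev_le`
`LHS ≤ (1/(rk)) · 4k² [ (H_ii+H_hh)(|d_ij|_A²+|d_hl|_A²) + (A_ii+A_hh)(|d_ij|_H²+|d_hl|_H²) ]`, i.e. `(4k/r)[...]` (`rho1`).
`step1_main`: apply `m_ineq` for each plot `(i,j)` of `i`, multiply by `n_ij/r` and sum over `j` (`row_S`):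
`k(A_ii - H_ii) - A_ii ≤ 2k/v + (4k/r) (1/(vr)) ∑_{hl} n_hl [ (H_ii+H_hh)(a + |d_hl|_A²) + (A_ii+A_hh)(b + |d_hl|_H²) ]`
with `a = (1/r)∑_j n_ij |d_ij|_A² ≤ 4c`, `b ≤ 4` (`dv_bound`); `H_ii+H_hh ≤ 2c`, `A_ii+A_hh ≤ 2a*`; by `dv_avg` the averages of
`|d_hl|_A²`, `|d_hl|_H²` are `≤ 2 tr H / v ≤ 2c` and `≤ 2`.  Total `(4k/r)(2c·6c + 2a*·6) ≤ 96 (k/r) a*` since `c² ≤ a*`.
-/

set_option autoImplicit false

namespace Pool.Agent.BDesign

open Matrix

variable {T B : Type} [Fintype T] [DecidableEq T] [Fintype B] [DecidableEq B]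

omit [DecidableEq T] in
private theorem step1a_qf_smul (Q : Matrix T T ℝ) (c : ℝ) (z : T → ℝ) :
    qf Q (c • z) (c • z) = c ^ 2 * qf Q z z := by
  unfold qf
  rw [Matrix.mulVec_smul, smul_dotProduct, dotProduct_smul, smul_eq_mul, smul_eq_mul]
  ring

omit [Fintype T] [Fintype B] [DecidableEq B] in
private theorem step1a_vec (N : T → B → ℕ) (k : ℕ) (hk : 0 < k) (i h : T) (j l : B) :
    col N j - col N l + (-(k : ℝ)) • ev i h = (k : ℝ) • (dv N k i j - dv N k h l) := by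
  have hk' : (k : ℝ) ≠ 0 := by positivity
  funext s
  simp only [Pi.add_apply, Pi.sub_apply, Pi.smul_apply, smul_eq_mul, col, ev, dv]
  field_simp
  ring

omit [Fintype B] [DecidableEq B] in
private theorem step1a_qf_le (Q : Matrix T T ℝ) (hs : ∀ t s, Q t s = Q s t)
    (hp : ∀ x : T → ℝ, 0 ≤ qf Q x x) (N : T → B → ℕ) (k : ℕ) (hk : 0 < k) (i h : T) (j l : B) :
    qf Q (col N j - col N l + (-(k : ℝ)) • ev i h) (col N j - col N l + (-(k : ℝ)) • ev i h)
      ≤ 2 * (k : ℝ) ^ 2 * (qf Q (dv N k i j) (dv N k i j) + qf Q (dv N k h l) (dv N k h l)) := by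
  rw [step1a_vec N k hk i h j l, step1a_qf_smul]
  have h1 := psd_sub Q hs hp (dv N k i j) (dv N k h l)
  have h2 : (0 : ℝ) ≤ (k : ℝ) ^ 2 := by positivity
  nlinarith [mul_le_mul_of_nonneg_left h1 h2]

theorem rho1 (N : T → B → ℕ) (r k : ℕ) (H : Matrix T T ℝ) (hr : 0 < r) (hk : 0 < k)
    (hT : 0 < Fintype.card T) (ho : Opt N r k H) (i h : T) (j l : B)
    (hij : 1 ≤ N i j) (hhl : 1 ≤ N h l) :
    Sm N H i j - Sm N H i l - Sm N H h j + Sm N H h l - qf (Am H) (ev i h) (ev i h)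
      ≤ 4 * (k : ℝ) / r *
        ((H i i + H h h) * (qf (Am H) (dv N k i j) (dv N k i j) + qf (Am H) (dv N k h l) (dv N k h l))
          + (Am H i i + Am H h h) *
            (qf H (dv N k i j) (dv N k i j) + qf H (dv N k h l) (dv N k h l))) := by
  have hg : Good (mu N r k) := good_mu N r k hr hk hT ho.des
  have hHp : ∀ x : T → ℝ, 0 ≤ qf H x x := h_psd hT hg ho.isH
  have hHs : ∀ t s, H t s = H s t := ho.isH.symm
  have hAp : ∀ x : T → ℝ, 0 ≤ qf (Am H) x x := a_psd ho.isH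
  have hAs : ∀ t s, Am H t s = Am H s t := a_symm ho.isH
  have h0 := opt_swap N r k H hr hk hT ho i h j l hij hhl (-(k : ℝ))
  refine le_trans h0 ?_
  have e1 := step1a_qf_le H hHs hHp N k hk i h j l
  have e2 := step1a_qf_le (Am H) hAs hAp N k hk i h j l
  have e3 := qf_ev_le H hHs hHp i h
  have e4 := qf_ev_le (Am H) hAs hAp i h
  have p1 := hHp (ev i h)
  have p2 := hAp (ev i h)
  have p3 := hHp (col N j - col N l + (-(k : ℝ)) • ev i h)
  have p4 := hAp (col N j - col N l + (-(k : ℝ)) • ev i h)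
  have q1 := hHp (dv N k i j)
  have q2 := hHp (dv N k h l)
  have q3 := hAp (dv N k i j)
  have q4 := hAp (dv N k h l)
  have d1 := psd_diag H hHp i
  have d2 := psd_diag H hHp h
  have d3 := psd_diag (Am H) hAp i
  have d4 := psd_diag (Am H) hAp h
  have hrp : (0 : ℝ) < r := by exact_mod_cast hr
  have hkp : (0 : ℝ) < k := by exact_mod_cast hk
  set X := qf H (ev i h) (ev i h) with hX
  set Y := qf (Am H) (ev i h) (ev i h) with hY
  set U := qf H (col N j - col N l + (-(k : ℝ)) • ev i h) (col N j - col N l + (-(k : ℝ)) • ev i h) with hU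
  set V := qf (Am H) (col N j - col N l + (-(k : ℝ)) • ev i h) (col N j - col N l + (-(k : ℝ)) • ev i h) with hV
  set a1 := qf H (dv N k i j) (dv N k i j) with ha1
  set a2 := qf H (dv N k h l) (dv N k h l) with ha2
  set b1 := qf (Am H) (dv N k i j) (dv N k i j) with hb1
  set b2 := qf (Am H) (dv N k h l) (dv N k h l) with hb2
  have m1 : X * V ≤ (2 * (H i i + H h h)) * (2 * (k : ℝ) ^ 2 * (b1 + b2)) :=
    mul_le_mul e3 e2 p4 (by positivity)
  have m2 : U * Y ≤ (2 * (k : ℝ) ^ 2 * (a1 + a2)) * (2 * (Am H i i + Am H h h)) :=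
    mul_le_mul e1 e4 p2 (by positivity)
  have m3 : X * V + U * Y ≤ 4 * (k : ℝ) ^ 2 * ((H i i + H h h) * (b1 + b2)
      + (Am H i i + Am H h h) * (a1 + a2)) := by nlinarith [m1, m2]
  calc 1 / ((r : ℝ) * k) * (X * V + U * Y)
      ≤ 1 / ((r : ℝ) * k) * (4 * (k : ℝ) ^ 2 * ((H i i + H h h) * (b1 + b2)
      + (Am H i i + Am H h h) * (a1 + a2))) := by
        exact mul_le_mul_of_nonneg_left m3 (by positivity)
    _ = 4 * (k : ℝ) / r * ((H i i + H h h) * (b1 + b2)
      + (Am H i i + Am H h h) * (a1 + a2)) := by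
        field_simp

theorem step1_main (N : T → B → ℕ) (r k : ℕ) (H : Matrix T T ℝ) (hr : 0 < r) (hk : 2 ≤ k)
    (hT : 0 < Fintype.card T) (ho : Opt N r k H) (c a : ℝ) (hc : 0 < c)
    (hc2 : ∀ t, H t t ≤ c) (ha : ∀ t, Am H t t ≤ a) (hca : c ^ 2 ≤ a) (i : T)
    (hi : ∀ t, Am H t t + c * H t t ≤ Am H i i + c * H i i) :
    ((k : ℝ) - 1) * Am H i i - k * H i i
      ≤ 2 * (k : ℝ) / (Fintype.card T : ℝ) + 96 * ((k : ℝ) / r) * a := by
  have hk0 : 0 < k := by omega
  have hg : Good (mu N r k) := good_mu N r k hr hk0 hT ho.des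
  have hHp : ∀ x : T → ℝ, 0 ≤ qf H x x := h_psd hT hg ho.isH
  have hAp : ∀ x : T → ℝ, 0 ≤ qf (Am H) x x := a_psd ho.isH
  have hrp : (0 : ℝ) < r := by exact_mod_cast hr
  have hkp : (0 : ℝ) < k := by exact_mod_cast hk0
  have hvp : (0 : ℝ) < (Fintype.card T : ℝ) := by exact_mod_cast hT
  have hapos : 0 < a := lt_of_lt_of_le (by positivity) hca
  set v : ℝ := (Fintype.card T : ℝ) with hv
  have hNsum : ∑ h, ∑ l, (N h l : ℝ) = v * r := by
    have : ∀ h, ∑ l, (N h l : ℝ) = r := fun h => by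
      have := ho.des.1 h
      exact_mod_cast this
    simp only [this, Finset.sum_const, Finset.card_univ, nsmul_eq_mul]
    rw [hv]
  obtain ⟨av1, av2⟩ := dv_avg N r k H hr hk0 hT ho.des ho.isH
  obtain ⟨bd1, bd2⟩ := dv_bound N r k H hr hk0 hT ho.des ho.isH c hc hc2 i hi
  have htr : H.trace ≤ v * c := by
    rw [Matrix.trace]
    calc ∑ t, H.diag t ≤ ∑ _t : T, c := Finset.sum_le_sum (fun t _ => hc2 t)
      _ = v * c := by simp [hv]
  -- pointwise bound
  have key : ∀ j, 1 ≤ N i j → Sm N H i j - Am H i i ≤ 2 * (k : ℝ) / v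
      + 4 * (k : ℝ) / r * (2 * c * (qf (Am H) (dv N k i j) (dv N k i j) + 2 * c)
        + 2 * a * (qf H (dv N k i j) (dv N k i j) + 2)) := by
    intro j hij
    have h1 := m_ineq N r k H hr hk hT ho.des ho.isH i j
      (fun h l => 4 * (k : ℝ) / r *
        (2 * c * (qf (Am H) (dv N k i j) (dv N k i j) + qf (Am H) (dv N k h l) (dv N k h l))
          + 2 * a * (qf H (dv N k i j) (dv N k i j) + qf H (dv N k h l) (dv N k h l)))) ?_
    · refine le_trans h1 ?_
      have e : ∑ h, ∑ l, (N h l : ℝ) * (4 * (k : ℝ) / r *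
        (2 * c * (qf (Am H) (dv N k i j) (dv N k i j) + qf (Am H) (dv N k h l) (dv N k h l))
          + 2 * a * (qf H (dv N k i j) (dv N k i j) + qf H (dv N k h l) (dv N k h l))))
          = 4 * (k : ℝ) / r * (2 * c * (qf (Am H) (dv N k i j) (dv N k i j) * (v * r)
              + ∑ h, ∑ l, (N h l : ℝ) * qf (Am H) (dv N k h l) (dv N k h l))
            + 2 * a * (qf H (dv N k i j) (dv N k i j) * (v * r)
              + ∑ h, ∑ l, (N h l : ℝ) * qf H (dv N k h l) (dv N k h l))) := by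
        rw [← hNsum]
        simp only [Finset.mul_sum, ← Finset.sum_add_distrib]
        refine Finset.sum_congr rfl (fun h _ => Finset.sum_congr rfl (fun l _ => ?_))
        ring
      rw [e]
      have e2 : 4 * (k : ℝ) / r * (2 * c * (qf (Am H) (dv N k i j) (dv N k i j) * (v * r)
              + ∑ h, ∑ l, (N h l : ℝ) * qf (Am H) (dv N k h l) (dv N k h l))
            + 2 * a * (qf H (dv N k i j) (dv N k i j) * (v * r)
              + ∑ h, ∑ l, (N h l : ℝ) * qf H (dv N k h l) (dv N k h l)))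
          ≤ (4 * (k : ℝ) / r * (2 * c * (qf (Am H) (dv N k i j) (dv N k i j) + 2 * c)
        + 2 * a * (qf H (dv N k i j) (dv N k i j) + 2))) * (v * r) := by
        rw [mul_assoc (4 * (k : ℝ) / r)]
        apply mul_le_mul_of_nonneg_left _ (by positivity)
        have w1 : ∑ h, ∑ l, (N h l : ℝ) * qf (Am H) (dv N k h l) (dv N k h l) ≤ 2 * c * (v * r) := by
          refine le_trans av1 ?_
          nlinarith [mul_le_mul_of_nonneg_left htr hrp.le]
        have w2 : ∑ h, ∑ l, (N h l : ℝ) * qf H (dv N k h l) (dv N k h l) ≤ 2 * (v * r) := by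
          refine le_trans av2 (le_of_eq ?_)
          ring
        have w3 := mul_le_mul_of_nonneg_left w1 (by positivity : (0:ℝ) ≤ 2 * c)
        have w4 := mul_le_mul_of_nonneg_left w2 (by positivity : (0:ℝ) ≤ 2 * a)
        nlinarith [w3, w4]
      have e3 := (div_le_iff₀ (by positivity : (0:ℝ) < v * r)).mpr e2
      exact add_le_add le_rfl e3
    · intro h l hhl
      refine le_trans (rho1 N r k H hr hk0 hT ho i h j l hij hhl) ?_
      apply mul_le_mul_of_nonneg_left _ (by positivity)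
      have q1 := hHp (dv N k i j)
      have q2 := hHp (dv N k h l)
      have q3 := hAp (dv N k i j)
      have q4 := hAp (dv N k h l)
      have s1 : H i i + H h h ≤ 2 * c := by linarith [hc2 i, hc2 h]
      have s2 : Am H i i + Am H h h ≤ 2 * a := by linarith [ha i, ha h]
      have s3 := mul_le_mul_of_nonneg_right s1 (add_nonneg q3 q4)
      have s4 := mul_le_mul_of_nonneg_right s2 (add_nonneg q1 q2)
      linarith [s3, s4]
  have key2 : ∀ j, (N i j : ℝ) * (Sm N H i j - Am H i i) ≤ (N i j : ℝ) * (2 * (k : ℝ) / v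
      + 4 * (k : ℝ) / r * (2 * c * (qf (Am H) (dv N k i j) (dv N k i j) + 2 * c)
        + 2 * a * (qf H (dv N k i j) (dv N k i j) + 2))) := by
    intro j
    rcases Nat.eq_zero_or_pos (N i j) with h0 | h0
    · simp [h0]
    · exact mul_le_mul_of_nonneg_left (key j h0) (by positivity)
  have hNi : ∑ j, (N i j : ℝ) = r := by
    have := ho.des.1 i
    exact_mod_cast this
  have sum1 := Finset.sum_le_sum (fun j (_ : j ∈ Finset.univ) => key2 j)
  have eL : ∑ j, (N i j : ℝ) * (Sm N H i j - Am H i i)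
      = (r : ℝ) * k * (Am H i i - H i i) - r * Am H i i := by
    rw [← row_S N r k H hr hk0 hT ho.des ho.isH i, ← hNi, Finset.sum_mul, ← Finset.sum_sub_distrib]
    refine Finset.sum_congr rfl (fun j _ => ?_)
    ring
  have eR : ∑ j, (N i j : ℝ) * (2 * (k : ℝ) / v
      + 4 * (k : ℝ) / r * (2 * c * (qf (Am H) (dv N k i j) (dv N k i j) + 2 * c)
        + 2 * a * (qf H (dv N k i j) (dv N k i j) + 2)))
      = 2 * (k : ℝ) / v * r + 4 * (k : ℝ) / r *
        (2 * c * (∑ j, (N i j : ℝ) * qf (Am H) (dv N k i j) (dv N k i j) + 2 * c * r)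
        + 2 * a * (∑ j, (N i j : ℝ) * qf H (dv N k i j) (dv N k i j) + 2 * r)) := by
    generalize 4 * (k : ℝ) / r = K
    rw [← hNi]
    simp only [Finset.mul_sum, ← Finset.sum_add_distrib]
    refine Finset.sum_congr rfl (fun j _ => ?_)
    ring
  rw [eL, eR] at sum1
  have f1 : 2 * c * (∑ j, (N i j : ℝ) * qf (Am H) (dv N k i j) (dv N k i j) + 2 * c * r)
        + 2 * a * (∑ j, (N i j : ℝ) * qf H (dv N k i j) (dv N k i j) + 2 * r)
        ≤ 24 * a * r := by
    have g1 := mul_le_mul_of_nonneg_left bd1 (by positivity : (0:ℝ) ≤ 2 * c)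
    have g2 := mul_le_mul_of_nonneg_left bd2 (by positivity : (0:ℝ) ≤ 2 * a)
    have g3 := mul_le_mul_of_nonneg_right hca hrp.le
    nlinarith [g1, g2, g3]
  have f2 := mul_le_mul_of_nonneg_left f1 (by positivity : (0:ℝ) ≤ 4 * (k : ℝ) / r)
  have f3 : (r : ℝ) * (((k : ℝ) - 1) * Am H i i - k * H i i)
      ≤ r * (2 * (k : ℝ) / v + 96 * ((k : ℝ) / r) * a) := by
    have f4 : 4 * (k : ℝ) / r * (24 * a * r) = r * (96 * ((k : ℝ) / r) * a) := by
      field_simp
      ring
    nlinarith [sum1, f2, f4]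
  exact le_of_mul_le_mul_left f3 hrp

end Pool.Agent.BDesign
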