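import Pool.Agent.Lib.BDesign.Defs
import Pool.Agent.Lib.BDesign.Step1a
import Pool.Agent.Lib.BDesign.GoodMu
import Pool.Agent.Lib.BDesign.HBasic

/-!
Step 1, conclusion `A_tt ≤ 32`.  Let `c = max H_tt` (`c > 0`: `H_tt ≥ Π_tt = 1 - 1/v > 0`), `a = max A_tt`, `i` a maximiser
of `A_tt + c H_tt =: g_t`.  `c² ≤ a` (`diag_sq`).  `g_i ≥ a` and `g_i ≥ c² + c² = 2c²` (evaluate at the maximiser of `H`,
where `A_tt ≥ H_tt² = c²`).  If `c H_ii > A_ii` then `2c² ≤ g_i < 2 c H_ii`, impossible since `H_ii ≤ c`; hence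
`a ≤ g_i ≤ 2 A_ii`.  `step1_main`: `(k-1)A_ii - k H_ii ≤ 2k/v + 96 (k/r) a ≤ k + k a/16` (`v ≥ 2`, `r ≥ 1536`).
If `A_ii > 16` then `H_ii ≤ A_ii/4`, so LHS `≥ (k/2)A_ii - (k/4)A_ii = k A_ii/4`, contradiction.
If `A_ii ≤ 16` then `a ≤ 32`.
-/

set_option autoImplicit false

namespace Pool.Agent.BDesign

open Matrix

variable {T B : Type} [Fintype T] [DecidableEq T] [Fintype B] [DecidableEq B]

private theorem step1b_qf_single (Q : Matrix T T ℝ) (t : T) :
    qf Q (Pi.single t 1) (Pi.single t 1) = Q t t := by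
  unfold qf
  rw [Matrix.mulVec_single_one, single_one_dotProduct]
  rfl

private theorem step1b_pos {μ H : Matrix T T ℝ} (hT : 2 ≤ Fintype.card T) (hμ : Good μ)
    (hH : IsH μ H) (t : T) : 0 < H t t := by
  have h1 := h_ge (by omega) hμ hH (Pi.single t (1 : ℝ))
  rw [step1b_qf_single, step1b_qf_single] at h1
  have hv : (2 : ℝ) ≤ (Fintype.card T : ℝ) := by exact_mod_cast hT
  have h2 : PiM T t t = 1 - 1 / (Fintype.card T : ℝ) := by
    unfold PiM
    simp
  rw [h2] at h1
  have h3 : 1 / (Fintype.card T : ℝ) ≤ 1 / 2 := one_div_le_one_div_of_le (by norm_num) hv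
  linarith

theorem step1 (N : T → B → ℕ) (r k : ℕ) (H : Matrix T T ℝ) (hr : 1536 ≤ r) (hk : 2 ≤ k)
    (hT : 2 ≤ Fintype.card T) (ho : Opt N r k H) (t : T) : Am H t t ≤ 32 := by
  have hμ := good_mu N r k (by omega) (by omega) (by omega) ho.des
  have hH := ho.isH
  have hpos := step1b_pos hT hμ hH
  have hne : (Finset.univ : Finset T).Nonempty := ⟨t, Finset.mem_univ t⟩
  obtain ⟨m1, -, hm1⟩ := Finset.exists_max_image Finset.univ (fun s => H s s) hne
  obtain ⟨m2, -, hm2⟩ := Finset.exists_max_image Finset.univ (fun s => Am H s s) hne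
  obtain ⟨i, -, hi⟩ := Finset.exists_max_image Finset.univ
    (fun s => Am H s s + H m1 m1 * H s s) hne
  simp only [Finset.mem_univ, forall_true_left] at hm1 hm2 hi
  have hc : 0 < H m1 m1 := hpos m1
  have hd1 := diag_sq hH m1
  have hd := diag_sq hH i
  have hca : H m1 m1 ^ 2 ≤ Am H m2 m2 := hd1.trans (hm2 m1)
  have hmain := step1_main N r k H (by omega) hk (by omega) ho (H m1 m1) (Am H m2 m2) hc hm1 hm2
    hca i hi
  have hg1 := hi m1
  have hg2 := hi m2
  have hti := hm2 t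
  have hhc := hm1 i
  have hhp := hpos i
  have hp2 := hpos m2
  generalize H m1 m1 = c at *
  generalize Am H m2 m2 = a at *
  generalize Am H i i = A at *
  generalize H i i = h at *
  generalize H m2 m2 = h2 at *
  generalize Am H m1 m1 = A1 at *
  have hch : c * h ≤ A := by
    by_contra hcon
    push Not at hcon
    nlinarith
  have ha2 : a ≤ 2 * A := by nlinarith [mul_pos hc hp2]
  have hkr : (0 : ℝ) < k := by
    have : 0 < k := by omega
    exact_mod_cast this
  have hk2 : (2 : ℝ) ≤ k := by exact_mod_cast hk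
  have hrr : (1536 : ℝ) ≤ r := by exact_mod_cast hr
  have hv : (2 : ℝ) ≤ (Fintype.card T : ℝ) := by exact_mod_cast hT
  have ha0 : 0 ≤ a := le_trans (sq_nonneg c) hca
  have e1 : 2 * (k : ℝ) / (Fintype.card T : ℝ) ≤ k := by
    rw [div_le_iff₀ (by linarith)]
    nlinarith
  have e2 : 96 * ((k : ℝ) / r) * a ≤ k * a / 16 := by
    have : (k : ℝ) / r ≤ k / 1536 := div_le_div_of_nonneg_left hkr.le (by norm_num) hrr
    calc 96 * ((k : ℝ) / r) * a ≤ 96 * (k / 1536) * a := by
          apply mul_le_mul_of_nonneg_right _ ha0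
          linarith
      _ = k * a / 16 := by ring
  have e3 : ((k : ℝ) - 1) * A - k * h ≤ k + k * a / 16 := by linarith
  have hA0 : 0 ≤ A := le_trans (sq_nonneg h) hd
  have e4 : (k : ℝ) * (A / 2 - h) ≤ k * (1 + a / 16) := by nlinarith
  have e5 : A / 2 - h ≤ 1 + a / 16 := le_of_mul_le_mul_left e4 hkr
  by_cases hA : A ≤ 16
  · linarith
  · push Not at hA
    have hh4 : h ≤ A / 4 := by
      by_contra hcon
      push Not at hcon
      nlinarith
    linarith

end Pool.Agent.BDesign
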