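import Pool.Agent.Lib.BDesign.Defs
import Pool.Agent.Lib.BDesign.Step1b

/-!
Step 2.  Assume all `A_tt ≤ 32` (so `H_tt ≤ 6`).  `rho2`: for plots `(i,j),(h,l)` apply `opt_swap` with `c = 0`:
`X ≤ 2(H_ii+H_hh) ≤ 24`, `X2 ≤ 2(A_ii+A_hh) ≤ 128`, `|N_j-N_l|_A² ≤ 2(|N_j|_A²+|N_l|_A²)`, `|·|_H² ≤ |·|_A²`:
LHS `≤ (304/(rk)) (|N_j|_A² + |N_l|_A²)`.
`step2`: let `j` maximise `a_j = |N_j|_A²`, `a* = a_j`.  `m_ineq` for the plots `(t,j)`: `S_tj - A_tt ≤ 2k/v + (608/(rk)) a*`.
Multiply by `n_tj/k` and sum over `t` (`col_S`): `a*/k ≤ 32 + 2k/v + (608/r)(a*/k) ≤ 34 + 0.396 a*/k`, so `a* ≤ 57 k`.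
`plot_bound`: `S_ij - A_ii ≤ 2k/v + 34656/r` for every plot (`304·2·57 = 34656`).
-/

set_option autoImplicit false

namespace Pool.Agent.BDesign

open Matrix

variable {T B : Type} [Fintype T] [DecidableEq T] [Fintype B] [DecidableEq B]

theorem rho2 (N : T → B → ℕ) (r k : ℕ) (H : Matrix T T ℝ) (hr : 0 < r) (hk : 0 < k)
    (hT : 0 < Fintype.card T) (ho : Opt N r k H) (hA : ∀ t, Am H t t ≤ 32) (i h : T) (j l : B)
    (hij : 1 ≤ N i j) (hhl : 1 ≤ N h l) :
    Sm N H i j - Sm N H i l - Sm N H h j + Sm N H h l - qf (Am H) (ev i h) (ev i h)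
      ≤ 304 / ((r : ℝ) * k) * (qf (Am H) (col N j) (col N j) + qf (Am H) (col N l) (col N l)) := by
  have hg : Good (mu N r k) := good_mu N r k hr hk hT ho.des
  have hH := ho.isH
  have hswap := opt_swap N r k H hr hk hT ho i h j l hij hhl 0
  rw [zero_smul, add_zero] at hswap
  have hHd : ∀ t, H t t ≤ 6 := by
    intro t
    have h1 := diag_sq hH t
    have h2 := hA t
    nlinarith
  have hHs : ∀ t s, H t s = H s t := hH.symm
  have hHp : ∀ x : T → ℝ, 0 ≤ qf H x x := h_psd hT hg hH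
  have hAs : ∀ t s, Am H t s = Am H s t := a_symm hH
  have hAp : ∀ x : T → ℝ, 0 ≤ qf (Am H) x x := a_psd hH
  have e1 : qf H (ev i h) (ev i h) ≤ 24 := by
    have := qf_ev_le H hHs hHp i h
    linarith [hHd i, hHd h]
  have e2 : qf (Am H) (ev i h) (ev i h) ≤ 128 := by
    have := qf_ev_le (Am H) hAs hAp i h
    linarith [hA i, hA h]
  have e3 := psd_sub (Am H) hAs hAp (col N j) (col N l)
  have e4 := a_ge hT hg hH (col N j - col N l)
  have e5 := hHp (col N j - col N l)
  have e6 := hHp (ev i h)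
  have e7 := hAp (ev i h)
  have e8 := hAp (col N j - col N l)
  have hrk : (0 : ℝ) < (r : ℝ) * k := by positivity
  refine hswap.trans ?_
  have e9 : qf H (ev i h) (ev i h) * qf (Am H) (col N j - col N l) (col N j - col N l)
      ≤ 24 * (2 * (qf (Am H) (col N j) (col N j) + qf (Am H) (col N l) (col N l))) :=
    mul_le_mul e1 e3 e8 (by norm_num)
  have e10 : qf H (col N j - col N l) (col N j - col N l) * qf (Am H) (ev i h) (ev i h)
      ≤ (2 * (qf (Am H) (col N j) (col N j) + qf (Am H) (col N l) (col N l))) * 128 :=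
    mul_le_mul (e4.trans e3) e2 e7 (e8.trans e3)
  have e11 : 0 < 1 / ((r : ℝ) * k) := by positivity
  calc _ ≤ 1 / ((r : ℝ) * k) *
      (304 * (qf (Am H) (col N j) (col N j) + qf (Am H) (col N l) (col N l))) := by
        apply mul_le_mul_of_nonneg_left _ e11.le
        linarith
    _ = _ := by ring

private theorem step2_sum (N : T → B → ℕ) (r k : ℕ) (hN : IsDesign N r k) (c : ℝ) :
    ∑ h, ∑ l, (N h l : ℝ) * c = (Fintype.card T : ℝ) * r * c := by
  have h1 : ∀ h, ∑ l, (N h l : ℝ) * c = (r : ℝ) * c := by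
    intro h
    rw [← Finset.sum_mul, ← Nat.cast_sum, hN.1 h]
  simp only [h1, Finset.sum_const, Finset.card_univ, nsmul_eq_mul]
  ring

theorem step2 (N : T → B → ℕ) (r k : ℕ) (H : Matrix T T ℝ) (hr : 1536 ≤ r) (hk : 2 ≤ k)
    (hkv : k ≤ Fintype.card T) (ho : Opt N r k H) (l : B) :
    qf (Am H) (col N l) (col N l) ≤ 57 * (k : ℝ) := by
  have hr0 : 0 < r := by omega
  have hk0 : 0 < k := by omega
  have hT2 : 2 ≤ Fintype.card T := by omega
  have hT : 0 < Fintype.card T := by omega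
  have hA : ∀ t, Am H t t ≤ 32 := step1 N r k H hr hk hT2 ho
  have hH := ho.isH
  obtain ⟨j, -, hj⟩ := Finset.exists_max_image (Finset.univ : Finset B)
    (fun j => qf (Am H) (col N j) (col N j)) ⟨l, Finset.mem_univ l⟩
  have hj' : ∀ l, qf (Am H) (col N l) (col N l) ≤ qf (Am H) (col N j) (col N j) :=
    fun l => hj l (Finset.mem_univ l)
  have hrR : (0 : ℝ) < r := by exact_mod_cast hr0
  have hkR : (0 : ℝ) < k := by exact_mod_cast hk0
  have hTR : (0 : ℝ) < Fintype.card T := by exact_mod_cast hT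
  have hrk : (0 : ℝ) < (r : ℝ) * k := by positivity
  set a := qf (Am H) (col N j) (col N j) with ha
  have ha0 : 0 ≤ a := a_psd hH _
  have hS : ∀ t, 1 ≤ N t j → Sm N H t j ≤ Am H t t + 2 * (k : ℝ) / (Fintype.card T : ℝ)
      + 608 / ((r : ℝ) * k) * a := by
    intro t ht
    have h1 := m_ineq N r k H hr0 hk hT ho.des hH t j (fun _ _ => 608 / ((r : ℝ) * k) * a) (by
      intro h l hhl
      have h2 := rho2 N r k H hr0 hk0 hT ho hA t h j l ht hhl
      refine h2.trans ?_
      have h3 : 304 / ((r : ℝ) * k) *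
          (qf (Am H) (col N j) (col N j) + qf (Am H) (col N l) (col N l))
          ≤ 304 / ((r : ℝ) * k) * (a + a) := by
        apply mul_le_mul_of_nonneg_left _ (by positivity)
        have := hj' l
        linarith
      refine h3.trans (le_of_eq ?_)
      ring)
    rw [step2_sum N r k ho.des,
      mul_div_cancel_left₀ (608 / ((r : ℝ) * k) * a) (mul_pos hTR hrR).ne'] at h1
    linarith
  have hsum : a ≤ ∑ t, (N t j : ℝ) * (32 + 2 + 608 / ((r : ℝ) * k) * a) := by
    refine (col_S N H j).symm.le.trans ?_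
    apply Finset.sum_le_sum
    intro t _
    by_cases ht : 1 ≤ N t j
    · apply mul_le_mul_of_nonneg_left _ (Nat.cast_nonneg _)
      have h1 := hS t ht
      have h2 := hA t
      have h3 : 2 * (k : ℝ) / (Fintype.card T : ℝ) ≤ 2 := by
        rw [div_le_iff₀ hTR]
        have : (k : ℝ) ≤ Fintype.card T := by exact_mod_cast hkv
        linarith
      linarith
    · have h0 : N t j = 0 := by omega
      rw [h0]
      simp
  have h5 : ∑ t, (N t j : ℝ) * (32 + 2 + 608 / ((r : ℝ) * k) * a)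
      = k * (34 + 608 / ((r : ℝ) * k) * a) := by
    rw [← Finset.sum_mul, ← Nat.cast_sum, ho.des.2 j]
    ring
  rw [h5] at hsum
  have h6 : (k : ℝ) * (34 + 608 / ((r : ℝ) * k) * a) = 34 * k + 608 / r * a := by
    field_simp
  rw [h6] at hsum
  have h7 : 608 / (r : ℝ) ≤ 608 / 1536 := by
    apply div_le_div_of_nonneg_left (by norm_num) (by norm_num)
    exact_mod_cast hr
  have h8 : 608 / (r : ℝ) * a ≤ 608 / 1536 * a := mul_le_mul_of_nonneg_right h7 ha0
  have h9 : a ≤ 57 * k := by linarith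
  exact (hj' l).trans h9

theorem plot_bound (N : T → B → ℕ) (r k : ℕ) (H : Matrix T T ℝ) (hr : 1536 ≤ r) (hk : 2 ≤ k)
    (hkv : k ≤ Fintype.card T) (ho : Opt N r k H) (i : T) (j : B) (hij : 1 ≤ N i j) :
    Sm N H i j - Am H i i ≤ 2 * (k : ℝ) / (Fintype.card T : ℝ) + 34656 / r := by
  have hr0 : 0 < r := by omega
  have hk0 : 0 < k := by omega
  have hT2 : 2 ≤ Fintype.card T := by omega
  have hT : 0 < Fintype.card T := by omega
  have hA : ∀ t, Am H t t ≤ 32 := step1 N r k H hr hk hT2 ho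
  have hrR : (0 : ℝ) < r := by exact_mod_cast hr0
  have hkR : (0 : ℝ) < k := by exact_mod_cast hk0
  have hTR : (0 : ℝ) < Fintype.card T := by exact_mod_cast hT
  have h1 := m_ineq N r k H hr0 hk hT ho.des ho.isH i j (fun _ _ => 34656 / (r : ℝ)) (by
    intro h l hhl
    have h2 := rho2 N r k H hr0 hk0 hT ho hA i h j l hij hhl
    refine h2.trans ?_
    have h3 : 304 / ((r : ℝ) * k) *
        (qf (Am H) (col N j) (col N j) + qf (Am H) (col N l) (col N l))
        ≤ 304 / ((r : ℝ) * k) * (57 * k + 57 * k) := by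
      apply mul_le_mul_of_nonneg_left _ (by positivity)
      have := step2 N r k H hr hk hkv ho l
      have := step2 N r k H hr hk hkv ho j
      linarith
    refine h3.trans (le_of_eq ?_)
    field_simp
    norm_num)
  rw [step2_sum N r k ho.des,
    mul_div_cancel_left₀ (34656 / (r : ℝ)) (mul_pos hTR hrR).ne'] at h1
  exact h1

end Pool.Agent.BDesign
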