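import Pool.Agent.Lib.BDesign.Defs
import Pool.Agent.Lib.BDesign.Step2
import Pool.Agent.Lib.BDesign.MDiag
import Pool.Agent.Lib.BDesign.MSum

/-!
`diag_avg`: average `plot_bound` over the plots of `i` (`row_S`, `∑_j n_ij = r`): `(k-1)A_ii - kH_ii ≤ 2k/v + 34656/r`.
`step3`: `G = ((k-1)/k) H - Π`; with `diag_ident`, `G_lb`: `(k²/(k-1)) ((G²)_ii - 1/v) ≤ 2k/v + 34656/r`, hence
`k (G²)_ii ≤ 4k/v + 34656/r` (`k ≤ k²/(k-1) ≤ 2k`).
`mu_diag`: `A - H = HμH`, `(HμH)_ii ≥ μ_ii` (`H e = Πe + μHe`; `qf μ (Πe) (μHe) = qf H (μe)(μe) ≥ 0`), so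
`k μ_ii ≤ k(A-H)_ii = ((k-1)A_ii - kH_ii) + A_ii ≤ 2 + 1 + 32`.
-/

set_option autoImplicit false

namespace Pool.Agent.BDesign

open Matrix

variable {T B : Type} [Fintype T] [DecidableEq T] [Fintype B] [DecidableEq B]

theorem diag_avg (N : T → B → ℕ) (r k : ℕ) (H : Matrix T T ℝ) (hr : 1536 ≤ r) (hk : 2 ≤ k)
    (hkv : k ≤ Fintype.card T) (ho : Opt N r k H) (i : T) :
    ((k : ℝ) - 1) * Am H i i - k * H i i ≤ 2 * (k : ℝ) / (Fintype.card T : ℝ) + 34656 / r := by
  have hr0 : (0 : ℝ) < r := by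
    have : 0 < r := by omega
    exact_mod_cast this
  have h1 := row_S N r k H (by omega) (by omega) (by omega) ho.des ho.isH i
  have h2 : ∑ j, (N i j : ℝ) * Sm N H i j ≤
      ∑ j, (N i j : ℝ) * (Am H i i + (2 * (k : ℝ) / (Fintype.card T : ℝ) + 34656 / r)) := by
    refine Finset.sum_le_sum fun j _ => ?_
    rcases Nat.eq_zero_or_pos (N i j) with h0 | h0
    · rw [h0]
      simp
    · have h3 := plot_bound N r k H hr hk hkv ho i j h0
      exact mul_le_mul_of_nonneg_left (by linarith) (Nat.cast_nonneg _)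
  have h4 : ∑ j, (N i j : ℝ) = r := by
    have := ho.des.1 i
    exact_mod_cast this
  rw [h1, ← Finset.sum_mul, h4] at h2
  have h5 : (r : ℝ) * ((k : ℝ) * (Am H i i - H i i)) ≤
      r * (Am H i i + (2 * (k : ℝ) / (Fintype.card T : ℝ) + 34656 / r)) := by
    linarith
  have h6 := le_of_mul_le_mul_left h5 hr0
  linarith

theorem step3 (N : T → B → ℕ) (r k : ℕ) (H : Matrix T T ℝ) (hr : 1536 ≤ r) (hk : 2 ≤ k)
    (hkv : k ≤ Fintype.card T) (ho : Opt N r k H) (i : T) :
    (k : ℝ) * (Gm k H * Gm k H) i i ≤ 4 * (k : ℝ) / (Fintype.card T : ℝ) + 34656 / r := by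
  have h1 := diag_avg N r k H hr hk hkv ho i
  rw [diag_ident N r k H (by omega) hk (by omega) ho.des ho.isH i] at h1
  have h2 := G_lb N r k H (by omega) hk (by omega) ho.des ho.isH i
  have h3 := GG_nonneg N r k H ho.isH i
  have hk2 : (2 : ℝ) ≤ k := by exact_mod_cast hk
  have hv : (0 : ℝ) < (Fintype.card T : ℝ) := by
    have : 0 < Fintype.card T := by omega
    exact_mod_cast this
  generalize (Gm k H * Gm k H) i i = g at *
  generalize Gm k H i i = e at *
  obtain ⟨q, hq⟩ : ∃ q, q = (k : ℝ) ^ 2 / ((k : ℝ) - 1) := ⟨_, rfl⟩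
  rw [← hq] at h1
  have hq1 : (k : ℝ) ≤ q := by
    rw [hq, le_div_iff₀ (by linarith)]
    nlinarith
  have hq2 : q ≤ 2 * k := by
    rw [hq, div_le_iff₀ (by linarith)]
    nlinarith
  have h5 : q * (-(1 / (Fintype.card T : ℝ))) ≤ q * e := mul_le_mul_of_nonneg_left h2 (by linarith)
  have h6 : k * g ≤ q * g := mul_le_mul_of_nonneg_right hq1 h3
  have h7 : q * (1 / (Fintype.card T : ℝ)) ≤ 2 * k * (1 / (Fintype.card T : ℝ)) :=
    mul_le_mul_of_nonneg_right hq2 (by positivity)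
  have h8 : 4 * (k : ℝ) / (Fintype.card T : ℝ) = 2 * (k : ℝ) / (Fintype.card T : ℝ) +
      2 * k * (1 / (Fintype.card T : ℝ)) := by ring
  linarith

omit [DecidableEq T] in
private theorem step3_conj (M Q : Matrix T T ℝ) (hM : ∀ t s, M t s = M s t) (i : T) :
    (M * Q * M) i i = qf Q (fun t => M i t) (fun t => M i t) := by
  unfold qf
  rw [Matrix.mul_assoc, Matrix.mul_apply]
  unfold dotProduct
  refine Finset.sum_congr rfl fun s _ => ?_
  congr 1
  rw [Matrix.mul_apply]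
  unfold Matrix.mulVec dotProduct
  refine Finset.sum_congr rfl fun t _ => ?_
  rw [hM t i]

theorem mu_diag (N : T → B → ℕ) (r k : ℕ) (H : Matrix T T ℝ) (hr : 10 ^ 10 ≤ r) (hk : 2 ≤ k)
    (hkv : k ≤ Fintype.card T) (ho : Opt N r k H) (i : T) :
    mu N r k i i ≤ 35 / k := by
  have hT : 0 < Fintype.card T := by omega
  have hr1 : 1536 ≤ r := le_trans (by norm_num) hr
  have hμ := good_mu N r k (by omega) (by omega) hT ho.des
  have hH := ho.isH
  have e1 : mu N r k * H * mu N r k = H - PiM T - mu N r k := by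
    rw [mu_h hμ hH, Matrix.sub_mul, h_mu hμ hH]
    congr 1
    have h1 := mu_pi hμ
    have h2 : (mu N r k * PiM T).transpose = (mu N r k).transpose := by rw [h1]
    rw [Matrix.transpose_mul] at h2
    have h3 : (mu N r k).transpose = mu N r k := by
      ext a b
      exact hμ.symm b a
    have h4 : (PiM T).transpose = PiM T := by
      ext a b
      exact pi_symm b a
    rw [h3, h4] at h2
    exact h2
  have e2 : mu N r k * (H * H) * mu N r k = H * H - H - H + PiM T := by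
    have h1 : mu N r k * (H * H) * mu N r k = (mu N r k * H) * (H * mu N r k) := by
      simp only [Matrix.mul_assoc]
    rw [h1, mu_h hμ hH, h_mu hμ hH, Matrix.sub_mul, Matrix.mul_sub, Matrix.mul_sub, h_pi hH,
      pi_h hH, pi_mul hT]
    abel
  have p1 := h_psd hT hμ hH (fun t => mu N r k i t)
  have p2 := a_psd hH (fun t => mu N r k i t)
  rw [← step3_conj _ _ hμ.symm i, e1] at p1
  unfold Am at p2
  rw [← step3_conj _ _ hμ.symm i, e2] at p2
  simp only [Matrix.sub_apply, Matrix.add_apply] at p1 p2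
  have h5 : mu N r k i i ≤ Am H i i - H i i := by
    unfold Am
    linarith
  have h6 := diag_avg N r k H hr1 hk hkv ho i
  have h7 := step1 N r k H hr1 hk (by omega) ho i
  have hk0 : (0 : ℝ) < k := by
    have : 0 < k := by omega
    exact_mod_cast this
  have hv : (0 : ℝ) < (Fintype.card T : ℝ) := by exact_mod_cast hT
  have h8 : 2 * (k : ℝ) / (Fintype.card T : ℝ) ≤ 2 := by
    rw [div_le_iff₀ hv]
    have : (k : ℝ) ≤ (Fintype.card T : ℝ) := by exact_mod_cast hkv
    linarith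
  have h9 : 34656 / (r : ℝ) ≤ 1 := by
    have : (10 : ℝ) ^ 10 ≤ r := by exact_mod_cast hr
    rw [div_le_iff₀ (by linarith)]
    linarith
  rw [le_div_iff₀ hk0]
  have h10 : mu N r k i i * k ≤ (Am H i i - H i i) * k := mul_le_mul_of_nonneg_right h5 hk0.le
  linarith

end Pool.Agent.BDesign
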