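import Pool.Agent.Lib.BDesign.Defs
import Pool.Agent.Lib.BDesign.Compare
import Pool.Agent.Lib.BDesign.Step3

/-!
Dense case (`v ≤ 3000k`, `r ≥ 10^24`), `m = mc v k ≤ 1/k ≤ 1/2`.
`pi_col`: `|ΠN_l|² ≤ |N_l|_A² ≤ 57k` (`step2`, `h_ge`, `a_ge`).
`hs_bound`: from `compare`: `HS2 (Bmat) ≤ 34κ²v/(rk) ≤ 34·3000/r ≤ 1.1e-19`.
`mu_le`: `mu_le_of_hs` with `q = 4·10⁻¹⁰`.  `h_norm`: `h_le` with `ρ = 3/5`.
`A_decomp`: `(1-m)H - Π = QH = HQ` (`Q = μ - mΠ`), so `A - (1-m)⁻²Π = (1-m)⁻² ((1-m)H-Π)((1-m)H+Π)`.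
`theta_norm`: `|Θx|² ≤ 35²|Πx|²`, `Θ = (1-m)⁻² H((1-m)H+Π)`: `(1-m)⁻² ≤ 4`, `|Hy| ≤ (5/2)|Πy|`, `|((1-m)H+Π)x| ≤ (7/2)|Πx|`.
-/

set_option autoImplicit false

namespace Pool.Agent.BDesign

open Matrix

variable {T B : Type} [Fintype T] [DecidableEq T] [Fintype B] [DecidableEq B]

theorem pi_col (N : T → B → ℕ) (r k : ℕ) (H : Matrix T T ℝ) (hr : 1536 ≤ r) (hk : 2 ≤ k)
    (hkv : k ≤ Fintype.card T) (ho : Opt N r k H) (l : B) :
    qf (PiM T) (col N l) (col N l) ≤ 57 * (k : ℝ) := by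
  have hT : 0 < Fintype.card T := by omega
  have hμ : Good (mu N r k) := good_mu N r k (by omega) (by omega) hT ho.des
  exact ((h_ge hT hμ ho.isH _).trans (a_ge hT hμ ho.isH _)).trans (step2 N r k H hr hk hkv ho l)

private theorem HS2_nonneg' (Q : Matrix T T ℝ) : 0 ≤ HS2 Q :=
  Finset.sum_nonneg fun _ _ => Finset.sum_nonneg fun _ _ => sq_nonneg _

private theorem Gam_nonneg' (N : T → B → ℕ) : 0 ≤ Gam N := by
  refine Finset.sum_nonneg fun t _ => Finset.sum_nonneg fun j _ => ?_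
  rcases Nat.eq_zero_or_pos (N t j) with h | h
  · simp [h]
  · have h1 : (1 : ℝ) ≤ (N t j : ℝ) := by exact_mod_cast h
    exact mul_nonneg (by linarith) (by linarith)

theorem hs_bound (N : T → B → ℕ) (r k : ℕ) (H : Matrix T T ℝ) (hr : 10 ^ 24 ≤ r) (hk : 2 ≤ k)
    (hkv : k ≤ Fintype.card T) (hK : Fintype.card T ≤ 3000 * k) (ho : Opt N r k H) :
    HS2 (Bmat N r k) ≤ 102000 / (r : ℝ) ∧ 0 ≤ Gam N ∧
    Gam N ≤ 34 * ((((Fintype.card T : ℝ) - k) / (Fintype.card T : ℝ)) ^ 2 * (Fintype.card T : ℝ)) := by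
  have hc := compare N r k H (by omega) hk hkv hK ho
  have hG := Gam_nonneg' N
  have hS := HS2_nonneg' (Bmat N r k)
  have hrR : (0 : ℝ) < r := by
    have : 0 < r := by omega
    exact_mod_cast this
  have hkR : (0 : ℝ) < k := by
    have : 0 < k := by omega
    exact_mod_cast this
  have hvk : (k : ℝ) ≤ (Fintype.card T : ℝ) := by exact_mod_cast hkv
  have hvK : (Fintype.card T : ℝ) ≤ 3000 * k := by exact_mod_cast hK
  set v : ℝ := (Fintype.card T : ℝ) with hv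
  have hv0 : 0 < v := by linarith
  have hκ0 : 0 ≤ (v - k) / v := div_nonneg (by linarith) hv0.le
  have hκ1 : (v - k) / v ≤ 1 := by
    rw [div_le_one hv0]
    linarith
  have hκ2 : ((v - k) / v) ^ 2 ≤ 1 := by nlinarith
  have hrk : (0 : ℝ) < (r : ℝ) * k := mul_pos hrR hkR
  have hGd : 0 ≤ Gam N / ((r : ℝ) * k) := div_nonneg hG hrk.le
  refine ⟨?_, hG, ?_⟩
  · have h1 : HS2 (Bmat N r k) ≤ 34 * (((v - k) / v) ^ 2 * v / ((r : ℝ) * k)) := by linarith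
    have h2 : ((v - k) / v) ^ 2 * v / ((r : ℝ) * k) ≤ 3000 / r := by
      rw [div_le_div_iff₀ hrk hrR]
      have h3 : ((v - k) / v) ^ 2 * v ≤ 3000 * k := by
        calc ((v - k) / v) ^ 2 * v ≤ 1 * v := mul_le_mul_of_nonneg_right hκ2 hv0.le
          _ ≤ 3000 * k := by linarith
      nlinarith
    calc HS2 (Bmat N r k) ≤ 34 * (((v - k) / v) ^ 2 * v / ((r : ℝ) * k)) := h1
      _ ≤ 34 * (3000 / r) := by linarith
      _ = 102000 / (r : ℝ) := by ring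
  · have h1 : Gam N / ((r : ℝ) * k) ≤ 34 * (((v - k) / v) ^ 2 * v / ((r : ℝ) * k)) := by linarith
    have h2 : 34 * (((v - k) / v) ^ 2 * v / ((r : ℝ) * k))
        = (34 * (((v - k) / v) ^ 2 * v)) / ((r : ℝ) * k) := by ring
    rw [h2] at h1
    exact (div_le_div_iff_of_pos_right hrk).1 h1

theorem mc_le (v k : ℕ) (hk : 2 ≤ k) (hkv : k ≤ v) : 0 ≤ mc v k ∧ mc v k ≤ 1 / k := by
  have hkR : (2 : ℝ) ≤ k := by exact_mod_cast hk
  have hvk : (k : ℝ) ≤ (v : ℝ) := by exact_mod_cast hkv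
  have h1 : (0 : ℝ) < (k : ℝ) * ((v : ℝ) - 1) := mul_pos (by linarith) (by linarith)
  unfold mc
  refine ⟨div_nonneg (by linarith) h1.le, ?_⟩
  rw [div_le_div_iff₀ h1 (by linarith)]
  nlinarith

theorem mu_le (N : T → B → ℕ) (r k : ℕ) (H : Matrix T T ℝ) (hr : 10 ^ 24 ≤ r) (hk : 2 ≤ k)
    (hkv : k ≤ Fintype.card T) (hK : Fintype.card T ≤ 3000 * k) (ho : Opt N r k H) (x : T → ℝ) :
    qf (mu N r k) x x ≤ (1 / (k : ℝ) + 4 / 10 ^ 10) * qf (PiM T) x x := by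
  have hT : 0 < Fintype.card T := by omega
  have hμ : Good (mu N r k) := good_mu N r k (by omega) (by omega) hT ho.des
  have hb := (hs_bound N r k H hr hk hkv hK ho).1
  have hrR : (10 : ℝ) ^ 24 ≤ r := by exact_mod_cast hr
  have h1 : (102000 : ℝ) / r ≤ (4 / 10 ^ 10) ^ 2 := by
    calc (102000 : ℝ) / r ≤ 102000 / 10 ^ 24 :=
          div_le_div_of_nonneg_left (by norm_num) (by positivity) hrR
      _ ≤ (4 / 10 ^ 10) ^ 2 := by norm_num
  have h2 := mu_le_of_hs hT hμ (mc (Fintype.card T) k) (4 / 10 ^ 10) (by norm_num)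
    (hb.trans h1) x
  have h3 := (mc_le (Fintype.card T) k hk hkv).2
  have h4 := qf_pi_nonneg hT x
  refine h2.trans (mul_le_mul_of_nonneg_right ?_ h4)
  linarith

theorem h_norm (N : T → B → ℕ) (r k : ℕ) (H : Matrix T T ℝ) (hr : 10 ^ 24 ≤ r) (hk : 2 ≤ k)
    (hkv : k ≤ Fintype.card T) (hK : Fintype.card T ≤ 3000 * k) (ho : Opt N r k H) (x : T → ℝ) :
    qf H x x ≤ 5 / 2 * qf (PiM T) x x ∧ qf (Am H) x x ≤ 25 / 4 * qf (PiM T) x x := by
  have hT : 0 < Fintype.card T := by omega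
  have hμ : Good (mu N r k) := good_mu N r k (by omega) (by omega) hT ho.des
  have hkR : (2 : ℝ) ≤ k := by exact_mod_cast hk
  have hk1 : 1 / (k : ℝ) ≤ 1 / 2 := one_div_le_one_div_of_le (by norm_num) hkR
  have h1 : ∀ y : T → ℝ, qf (mu N r k) y y ≤ 3 / 5 * qf (PiM T) y y := by
    intro y
    refine (mu_le N r k H hr hk hkv hK ho y).trans
      (mul_le_mul_of_nonneg_right ?_ (qf_pi_nonneg hT y))
    have : (4 : ℝ) / 10 ^ 10 ≤ 1 / 10 := by norm_num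
    linarith
  obtain ⟨h2, h3⟩ := h_le hT hμ ho.isH (3 / 5) (by norm_num) h1 x
  rw [a_eq ho.isH x]
  constructor <;> norm_num at h2 h3 <;> linarith

theorem A_decomp {μ H : Matrix T T ℝ} (hT : 0 < Fintype.card T) (hμ : Good μ) (hH : IsH μ H) (m : ℝ)
    (hm : m ≠ 1) :
    Am H - ((1 - m) ^ 2)⁻¹ • PiM T
      = (μ - m • PiM T) * (((1 - m) ^ 2)⁻¹ • (H * ((1 - m) • H + PiM T))) := by
  have h1 : (1 - m) ^ 2 ≠ 0 := pow_ne_zero _ (sub_ne_zero.2 (Ne.symm hm))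
  have h2 : (μ - m • PiM T) * H = (1 - m) • H - PiM T := by
    rw [sub_mul, mu_h hμ hH, smul_mul_assoc, pi_h hH, sub_smul, one_smul]
    abel
  have h3 : (μ - m • PiM T) * (H * ((1 - m) • H + PiM T)) = ((1 - m) ^ 2) • Am H - PiM T := by
    rw [← mul_assoc, h2, sub_mul, mul_add, mul_add, smul_mul_assoc, smul_mul_assoc,
      mul_smul_comm, mul_smul_comm, h_pi hH, pi_h hH, pi_mul hT, smul_smul, ← pow_two]
    unfold Am
    abel
  rw [mul_smul_comm, h3, smul_sub, smul_smul, inv_mul_cancel₀ h1, one_smul]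

private theorem pi_dot (hT : 0 < Fintype.card T) (x : T → ℝ) :
    (PiM T *ᵥ x) ⬝ᵥ (PiM T *ᵥ x) = qf (PiM T) x x := by
  unfold qf
  have h1 : (PiM T)ᵀ = PiM T := by
    ext t s
    exact pi_symm s t
  conv_rhs => rw [← pi_mul hT, ← mulVec_mulVec]
  rw [dotProduct_mulVec x, ← mulVec_transpose, h1]

private theorem dot_add_le (a b : T → ℝ) :
    (a + b) ⬝ᵥ (a + b) ≤ 7 / 5 * (a ⬝ᵥ a) + 7 / 2 * (b ⬝ᵥ b) := by
  simp only [dotProduct, Pi.add_apply, Finset.mul_sum, ← Finset.sum_add_distrib]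
  refine Finset.sum_le_sum fun t _ => ?_
  nlinarith [sq_nonneg (2 * a t - 5 * b t)]

theorem theta_norm (N : T → B → ℕ) (r k : ℕ) (H : Matrix T T ℝ) (hr : 10 ^ 24 ≤ r) (hk : 2 ≤ k)
    (hkv : k ≤ Fintype.card T) (hK : Fintype.card T ≤ 3000 * k) (ho : Opt N r k H) (x : T → ℝ)
    (m : ℝ) (hm : m = mc (Fintype.card T) k) :
    ((((1 - m) ^ 2)⁻¹ • (H * ((1 - m) • H + PiM T))) *ᵥ x) ⬝ᵥ
      ((((1 - m) ^ 2)⁻¹ • (H * ((1 - m) • H + PiM T))) *ᵥ x) ≤ 35 ^ 2 * qf (PiM T) x x := by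
  have hT : 0 < Fintype.card T := by omega
  have hkR : (2 : ℝ) ≤ k := by exact_mod_cast hk
  have hk1 : 1 / (k : ℝ) ≤ 1 / 2 := one_div_le_one_div_of_le (by norm_num) hkR
  obtain ⟨hm0, hm1⟩ := mc_le (Fintype.card T) k hk hkv
  rw [← hm] at hm0 hm1
  have hm2 : m ≤ 1 / 2 := hm1.trans hk1
  have hH := ho.isH
  set c : ℝ := ((1 - m) ^ 2)⁻¹ with hc
  have hq : 1 / 4 ≤ (1 - m) ^ 2 := by nlinarith
  have hc0 : 0 ≤ c := inv_nonneg.2 (by positivity)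
  have hc4 : c ≤ 4 := by
    rw [hc]
    have := inv_anti₀ (by norm_num : (0 : ℝ) < 1 / 4) hq
    norm_num at this ⊢
    linarith
  set P : ℝ := qf (PiM T) x x with hP
  have hP0 : 0 ≤ P := qf_pi_nonneg hT x
  set y : T → ℝ := ((1 - m) • H + PiM T) *ᵥ x with hy
  have e1 : (c • (H * ((1 - m) • H + PiM T))) *ᵥ x = c • (H *ᵥ y) := by
    rw [smul_mulVec, ← mulVec_mulVec]
  rw [e1, smul_dotProduct, dotProduct_smul, smul_eq_mul, smul_eq_mul, ← a_eq hH y]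
  have h1 := (h_norm N r k H hr hk hkv hK ho y).2
  have h2 : PiM T *ᵥ y = y := by
    rw [hy, mulVec_mulVec, mul_add, mul_smul_comm, pi_h hH, pi_mul hT]
  have h3 : qf (PiM T) y y = y ⬝ᵥ y := by
    unfold qf
    rw [h2]
  have h4 : y = (1 - m) • (H *ᵥ x) + PiM T *ᵥ x := by
    rw [hy, add_mulVec, smul_mulVec]
  have h5 : y ⬝ᵥ y ≤ 49 / 4 * P := by
    rw [h4]
    refine (dot_add_le _ _).trans ?_
    rw [pi_dot hT, smul_dotProduct, dotProduct_smul, smul_eq_mul, smul_eq_mul, ← a_eq hH x, ← hP]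
    have h6 := (h_norm N r k H hr hk hkv hK ho x).2
    have h7 : (1 - m) * ((1 - m) * qf (Am H) x x) ≤ 25 / 4 * P := by
      have h8 : 0 ≤ qf (Am H) x x := a_psd hH x
      have h9 : (1 - m) * ((1 - m) * qf (Am H) x x) ≤ qf (Am H) x x := by
        have : (1 - m) * (1 - m) ≤ 1 := by nlinarith
        nlinarith
      linarith
    linarith
  have h10 : qf (Am H) y y ≤ 1225 / 16 * P := by
    rw [h3] at h1
    linarith
  have h11 : 0 ≤ qf (Am H) y y := a_psd hH y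
  have h12 : c * c ≤ 16 := by nlinarith
  calc c * (c * qf (Am H) y y) = (c * c) * qf (Am H) y y := by ring
    _ ≤ 16 * qf (Am H) y y := mul_le_mul_of_nonneg_right h12 h11
    _ ≤ 16 * (1225 / 16 * P) := by linarith
    _ = 35 ^ 2 * P := by ring

end Pool.Agent.BDesign
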