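import Pool.Agent.Lib.BDesign.Defs
import Pool.Agent.Lib.BDesign.DErrA
import Pool.Agent.Lib.BDesign.GoodMu
import Pool.Agent.Lib.BDesign.HBasic
import Pool.Agent.Lib.BDesign.Psd

/-!
Error bounds.  `m = mc v k`, `β = (1-m)⁻²`, `Q = Bmat N r k`, `Θ` as in `DErrA`, so
`S_tl - β(n_tl - k/v) = <e_t, (A-βΠ) N_l> = <Q e_t, Θ N_l>`.
`err_small` (`k ≤ 10^10`): `≤ √(102000/r) · 35 √(57k) ≤ 1/10` (`hs_bound`: `|Qe_t|² ≤ HS2 Q`, `pi_col`, `theta_norm`).
`err_large` (`k > 10^10`): `<Qe_t,u> = <e_t, μu> - m <e_t, Πu>`, `u = ΘN_l`, `|u| ≤ 35√(57k)`;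
`|<e_t,μu>| ≤ √μ_tt √(qf μ u u) ≤ √(35/k) √(1/k + 4·10⁻¹⁰) · 35√(57k) ≤ 0.04` and `m|u| ≤ (1/k)·35√(57k) ≤ 0.003`.
`err_x`: `qf A x x = 2β + <Qx, Θx>`, `|Qx| ≤ √(2·102000/r)`, `|Θx| ≤ 35√2`.
-/

set_option autoImplicit false

namespace Pool.Agent.BDesign

open Matrix

variable {T B : Type} [Fintype T] [DecidableEq T] [Fintype B] [DecidableEq B]

/-- the operator `Θ` -/
private noncomputable def thM (H : Matrix T T ℝ) (m : ℝ) : Matrix T T ℝ :=
  ((1 - m) ^ 2)⁻¹ • (H * ((1 - m) • H + PiM T))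

private theorem derrb_pi (y : T → ℝ) (t : T) :
    (PiM T *ᵥ y) t = y t - (∑ s, y s) / (Fintype.card T : ℝ) := by
  show ∑ s, ((if t = s then 1 else 0) - 1 / (Fintype.card T : ℝ)) * y s = _
  have e : ∀ s, ((if t = s then (1 : ℝ) else 0) - 1 / (Fintype.card T : ℝ)) * y s
      = (if t = s then y s else 0) - y s / (Fintype.card T : ℝ) := by
    intro s
    split_ifs <;> ring
  rw [Finset.sum_congr rfl fun s _ => e s, Finset.sum_sub_distrib, ← Finset.sum_div,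
    Finset.sum_ite_eq]
  simp

private theorem derrb_row (Q : Matrix T T ℝ) (u : T → ℝ) (t : T) :
    ((Q *ᵥ u) t) ^ 2 ≤ HS2 Q * (u ⬝ᵥ u) := by
  have h1 : ((Q *ᵥ u) t) ^ 2 ≤ (∑ s, Q t s ^ 2) * ∑ s, u s ^ 2 :=
    Finset.sum_mul_sq_le_sq_mul_sq Finset.univ (fun s => Q t s) u
  have h2 : ∑ s, Q t s ^ 2 ≤ HS2 Q :=
    Finset.single_le_sum (f := fun t => ∑ s, Q t s ^ 2)
      (fun t _ => Finset.sum_nonneg fun s _ => sq_nonneg _) (Finset.mem_univ t)
  have h3 : ∑ s, u s ^ 2 = u ⬝ᵥ u := Finset.sum_congr rfl fun s _ => sq (u s)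
  rw [← h3]
  exact h1.trans (mul_le_mul_of_nonneg_right h2 (Finset.sum_nonneg fun s _ => sq_nonneg _))

private theorem derrb_m (N : T → B → ℕ) (r k : ℕ) (H : Matrix T T ℝ) (hk : 2 ≤ k)
    (hkv : k ≤ Fintype.card T) : 0 ≤ mc (Fintype.card T) k ∧ mc (Fintype.card T) k ≤ 1 / k ∧
    mc (Fintype.card T) k ≤ 1 / 2 := by
  have h := mc_le (Fintype.card T) k hk hkv
  refine ⟨h.1, h.2, h.2.trans ?_⟩
  have : (2 : ℝ) ≤ k := by exact_mod_cast hk
  exact one_div_le_one_div_of_le (by norm_num) this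

private theorem derrb_key (N : T → B → ℕ) (r k : ℕ) (H : Matrix T T ℝ) (hr : 10 ^ 24 ≤ r)
    (hk : 2 ≤ k) (hkv : k ≤ Fintype.card T) (ho : Opt N r k H) (y : T → ℝ) (t : T) :
    (Am H *ᵥ y) t - ((1 - mc (Fintype.card T) k) ^ 2)⁻¹ * (PiM T *ᵥ y) t
      = (Bmat N r k *ᵥ (thM H (mc (Fintype.card T) k) *ᵥ y)) t := by
  have hT : 0 < Fintype.card T := by omega
  have hr0 : 0 < r := lt_of_lt_of_le (by norm_num) hr
  have hμ := good_mu N r k hr0 (by omega) hT ho.des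
  have hm := derrb_m N r k H hk hkv
  have hA := A_decomp hT hμ ho.isH (mc (Fintype.card T) k) (by linarith [hm.2.2])
  rw [Matrix.mulVec_mulVec]
  have : Bmat N r k * thM H (mc (Fintype.card T) k)
      = Am H - ((1 - mc (Fintype.card T) k) ^ 2)⁻¹ • PiM T := hA.symm
  rw [this, Matrix.sub_mulVec, Matrix.smul_mulVec]
  rfl

private theorem derrb_sm (N : T → B → ℕ) (r k : ℕ) (H : Matrix T T ℝ) (hr : 10 ^ 24 ≤ r)
    (hk : 2 ≤ k) (hkv : k ≤ Fintype.card T) (ho : Opt N r k H) (t : T) (l : B) :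
    Sm N H t l - ((1 - mc (Fintype.card T) k) ^ 2)⁻¹ * ((N t l : ℝ) - k / (Fintype.card T : ℝ))
      = (Bmat N r k *ᵥ (thM H (mc (Fintype.card T) k) *ᵥ col N l)) t := by
  rw [← derrb_key N r k H hr hk hkv ho, derrb_pi]
  have e1 : ∑ s, col N l s = k := by
    have := ho.des.2 l
    show ∑ s, (N s l : ℝ) = k
    exact_mod_cast this
  rw [e1]
  rfl

theorem err_small (N : T → B → ℕ) (r k : ℕ) (H : Matrix T T ℝ) (hr : 10 ^ 24 ≤ r) (hk : 2 ≤ k)
    (hk2 : k ≤ 10 ^ 10)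
    (hkv : k ≤ Fintype.card T) (hK : Fintype.card T ≤ 3000 * k) (ho : Opt N r k H) (t : T) (l : B) :
    |Sm N H t l - ((1 - mc (Fintype.card T) k) ^ 2)⁻¹ * ((N t l : ℝ) - k / (Fintype.card T : ℝ))| ≤ 1 / 10 := by
  rw [derrb_sm N r k H hr hk hkv ho]
  have hrN : 1536 ≤ r := le_trans (by norm_num) hr
  have hrR : (10 : ℝ) ^ 24 ≤ r := by exact_mod_cast hr
  have hr0 : (0 : ℝ) < r := lt_of_lt_of_le (by norm_num) hrR
  have h1 := derrb_row (Bmat N r k) (thM H (mc (Fintype.card T) k) *ᵥ col N l) t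
  have h2 := (hs_bound N r k H hr hk hkv hK ho).1
  have h3 := theta_norm N r k H hr hk hkv hK ho (col N l) _ rfl
  have h4 := pi_col N r k H hrN hk hkv ho l
  have hkR : (k : ℝ) ≤ 10 ^ 10 := by exact_mod_cast hk2
  have h5 : (thM H (mc (Fintype.card T) k) *ᵥ col N l) ⬝ᵥ
      (thM H (mc (Fintype.card T) k) *ᵥ col N l) ≤ 35 ^ 2 * (57 * 10 ^ 10) := by
    refine le_trans h3 ?_
    have : qf (PiM T) (col N l) (col N l) ≤ 57 * 10 ^ 10 := by linarith
    linarith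
  have h6 : 0 ≤ (thM H (mc (Fintype.card T) k) *ᵥ col N l) ⬝ᵥ
      (thM H (mc (Fintype.card T) k) *ᵥ col N l) :=
    Finset.sum_nonneg fun s _ => mul_self_nonneg _
  have h7 : HS2 (Bmat N r k) ≤ 102000 / 10 ^ 24 :=
    h2.trans (div_le_div_of_nonneg_left (by norm_num) (by norm_num) hrR)
  have h8 : ((Bmat N r k *ᵥ (thM H (mc (Fintype.card T) k) *ᵥ col N l)) t) ^ 2 ≤ (1 / 10) ^ 2 := by
    refine h1.trans ((mul_le_mul h7 h5 h6 (by norm_num)).trans ?_)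
    norm_num
  exact abs_le_of_sq_le_sq h8 (by norm_num)

theorem err_large (N : T → B → ℕ) (r k : ℕ) (H : Matrix T T ℝ) (hr : 10 ^ 24 ≤ r) (hk : 10 ^ 10 < k)
    (hkv : k ≤ Fintype.card T) (hK : Fintype.card T ≤ 3000 * k) (ho : Opt N r k H) (t : T) (l : B) :
    |Sm N H t l - ((1 - mc (Fintype.card T) k) ^ 2)⁻¹ * ((N t l : ℝ) - k / (Fintype.card T : ℝ))| ≤ 1 / 10 := by
  have hk2 : 2 ≤ k := le_trans (by norm_num) hk.le
  rw [derrb_sm N r k H hr hk2 hkv ho]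
  have hrN : 1536 ≤ r := le_trans (by norm_num) hr
  have hrN' : 10 ^ 10 ≤ r := le_trans (by norm_num) hr
  have hrR : (10 : ℝ) ^ 24 ≤ r := by exact_mod_cast hr
  have hr0 : (0 : ℝ) < r := lt_of_lt_of_le (by norm_num) hrR
  have hr0N : 0 < r := by exact_mod_cast hr0
  have hkR : (10 : ℝ) ^ 10 < k := by exact_mod_cast hk
  have hk0 : (0 : ℝ) < k := lt_trans (by norm_num) hkR
  have hT : 0 < Fintype.card T := by omega
  have hμ := good_mu N r k hr0N (by omega) hT ho.des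
  obtain ⟨u, hu⟩ : ∃ u, u = thM H (mc (Fintype.card T) k) *ᵥ col N l := ⟨_, rfl⟩
  have h3 : u ⬝ᵥ u ≤ 35 ^ 2 * qf (PiM T) (col N l) (col N l) := by
    rw [hu]; exact theta_norm N r k H hr hk2 hkv hK ho (col N l) _ rfl
  have h4 := pi_col N r k H hrN hk2 hkv ho l
  have h5 : u ⬝ᵥ u ≤ 69825 * (k : ℝ) := by linarith
  have hu0 : 0 ≤ u ⬝ᵥ u := Finset.sum_nonneg fun s _ => mul_self_nonneg _
  -- the sum of `u` is zero
  have hus : ∑ s, u s = 0 := by
    have e1 : u = H *ᵥ (((1 - mc (Fintype.card T) k) ^ 2)⁻¹ •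
        (((1 - mc (Fintype.card T) k) • H + PiM T) *ᵥ col N l)) := by
      rw [hu]
      unfold thM
      rw [Matrix.smul_mulVec, Matrix.mulVec_smul, Matrix.mulVec_mulVec]
    rw [e1]
    show ∑ s, ∑ w, H s w * _ = 0
    rw [Finset.sum_comm]
    refine Finset.sum_eq_zero fun w _ => ?_
    rw [← Finset.sum_mul]
    have : ∑ s, H s w = 0 := by
      rw [← ho.isH.row w]
      exact Finset.sum_congr rfl fun s _ => ho.isH.symm s w
    rw [this, zero_mul]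
  rw [← hu]
  have e2 : (Bmat N r k *ᵥ u) t = (mu N r k *ᵥ u) t - mc (Fintype.card T) k * u t := by
    have : Bmat N r k *ᵥ u = mu N r k *ᵥ u - mc (Fintype.card T) k • (PiM T *ᵥ u) := by
      unfold Bmat
      rw [Matrix.sub_mulVec, Matrix.smul_mulVec]
    rw [this, pi_mulVec u hus]
    rfl
  rw [e2]
  -- first term
  have h6 : ((mu N r k *ᵥ u) t) ^ 2 ≤ (5 / 100) ^ 2 := by
    have e3 : (mu N r k *ᵥ u) t = qf (mu N r k) (Pi.single t 1) u := by
      unfold qf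
      rw [single_one_dotProduct]
    have e4 : qf (mu N r k) (Pi.single t 1) (Pi.single t 1) = mu N r k t t := by
      unfold qf
      rw [single_one_dotProduct, Matrix.mulVec_single_one]
      rfl
    have h7 := psd_cs (mu N r k) hμ.symm hμ.psd (Pi.single t 1) u
    rw [← e3, e4] at h7
    have h8 : mu N r k t t ≤ 35 / k := mu_diag N r k H hrN' hk2 hkv ho t
    have h9 := mu_le N r k H hr hk2 hkv hK ho u
    have e5 : qf (PiM T) u u = u ⬝ᵥ u := by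
      unfold qf
      rw [pi_mulVec u hus]
    rw [e5] at h9
    have h10 : (1 / (k : ℝ) + 4 / 10 ^ 10) ≤ 5 / 10 ^ 10 := by
      have : 1 / (k : ℝ) ≤ 1 / 10 ^ 10 := one_div_le_one_div_of_le (by norm_num) hkR.le
      linarith
    have h11 : qf (mu N r k) u u ≤ 5 / 10 ^ 10 * (69825 * (k : ℝ)) :=
      h9.trans (mul_le_mul h10 h5 hu0 (by norm_num))
    refine h7.trans ((mul_le_mul h8 h11 (hμ.psd u) (by positivity)).trans ?_)
    have e6 : 35 / (k : ℝ) * (5 / 10 ^ 10 * (69825 * (k : ℝ))) = 35 * (5 / 10 ^ 10) * 69825 := by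
      field_simp
    rw [e6]
    norm_num
  have h7 : (mc (Fintype.card T) k * u t) ^ 2 ≤ (5 / 100) ^ 2 := by
    have hm := derrb_m N r k H hk2 hkv
    have e3 : (u t) ^ 2 ≤ u ⬝ᵥ u := by
      rw [sq]
      exact Finset.single_le_sum (f := fun s => u s * u s) (fun s _ => mul_self_nonneg _)
        (Finset.mem_univ t)
    have e4 : (mc (Fintype.card T) k) ^ 2 ≤ (1 / (k : ℝ)) ^ 2 := pow_le_pow_left₀ hm.1 hm.2.1 2
    rw [mul_pow]
    refine (mul_le_mul e4 (e3.trans h5) (sq_nonneg _) (by positivity)).trans ?_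
    have e5 : (1 / (k : ℝ)) ^ 2 * (69825 * (k : ℝ)) = 69825 * (1 / (k : ℝ)) := by
      field_simp
    rw [e5]
    have : 1 / (k : ℝ) ≤ 1 / 10 ^ 10 := one_div_le_one_div_of_le (by norm_num) hkR.le
    linarith
  have h8 := abs_le_of_sq_le_sq' h6 (by norm_num)
  have h9 := abs_le_of_sq_le_sq' h7 (by norm_num)
  rw [abs_le]
  constructor <;> linarith [h8.1, h8.2, h9.1, h9.2]

theorem err_x (N : T → B → ℕ) (r k : ℕ) (H : Matrix T T ℝ) (hr : 10 ^ 24 ≤ r) (hk : 2 ≤ k)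
    (hkv : k ≤ Fintype.card T) (hK : Fintype.card T ≤ 3000 * k) (ho : Opt N r k H) (i h : T)
    (hih : i ≠ h) :
    qf (Am H) (ev i h) (ev i h) ≤ 2 * ((1 - mc (Fintype.card T) k) ^ 2)⁻¹ + 1 / 10 := by
  have hrR : (10 : ℝ) ^ 24 ≤ r := by exact_mod_cast hr
  have hsum : ∑ t, ev i h t = 0 := by
    show ∑ t, ((if t = i then (1 : ℝ) else 0) - (if t = h then 1 else 0)) = 0
    rw [Finset.sum_sub_distrib, Finset.sum_ite_eq', Finset.sum_ite_eq']
    simp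
  have hqp : qf (PiM T) (ev i h) (ev i h) = 2 := by
    unfold qf
    rw [pi_mulVec _ hsum]
    have e1 : ∀ w : T → ℝ, ev i h ⬝ᵥ w = w i - w h := by
      intro w
      show ∑ t, ((if t = i then (1 : ℝ) else 0) - (if t = h then 1 else 0)) * w t = _
      simp only [sub_mul, ite_mul, one_mul, zero_mul]
      rw [Finset.sum_sub_distrib, Finset.sum_ite_eq', Finset.sum_ite_eq']
      simp
    rw [e1]
    unfold ev
    simp [hih, Ne.symm hih]
    norm_num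
  obtain ⟨u, hu⟩ : ∃ u, u = thM H (mc (Fintype.card T) k) *ᵥ ev i h := ⟨_, rfl⟩
  have h3 : u ⬝ᵥ u ≤ 35 ^ 2 * 2 := by
    rw [hu, ← hqp]; exact theta_norm N r k H hr hk hkv hK ho (ev i h) _ rfl
  have hu0 : 0 ≤ u ⬝ᵥ u := Finset.sum_nonneg fun s _ => mul_self_nonneg _
  have h2 := (hs_bound N r k H hr hk hkv hK ho).1
  have h7 : HS2 (Bmat N r k) ≤ 102000 / 10 ^ 24 :=
    h2.trans (div_le_div_of_nonneg_left (by norm_num) (by norm_num) hrR)
  have h8 : ∀ t, ((Bmat N r k *ᵥ u) t) ^ 2 ≤ (5 / 100) ^ 2 := by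
    intro t
    refine (derrb_row (Bmat N r k) u t).trans ((mul_le_mul h7 h3 hu0 (by norm_num)).trans ?_)
    norm_num
  have hkey := derrb_key N r k H hr hk hkv ho (ev i h)
  rw [← hu, pi_mulVec _ hsum] at hkey
  have e1 : ∀ w : T → ℝ, ev i h ⬝ᵥ w = w i - w h := by
    intro w
    show ∑ t, ((if t = i then (1 : ℝ) else 0) - (if t = h then 1 else 0)) * w t = _
    simp only [sub_mul, ite_mul, one_mul, zero_mul]
    rw [Finset.sum_sub_distrib, Finset.sum_ite_eq', Finset.sum_ite_eq']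
    simp
  unfold qf
  rw [e1]
  have k1 := hkey i
  have k2 := hkey h
  have ei : ev i h i = 1 := by unfold ev; simp [hih]
  have eh : ev i h h = -1 := by unfold ev; simp [Ne.symm hih]
  rw [ei] at k1
  rw [eh] at k2
  have h9 := abs_le_of_sq_le_sq' (h8 i) (by norm_num)
  have h10 := abs_le_of_sq_le_sq' (h8 h) (by norm_num)
  linarith [h9.1, h9.2, h10.1, h10.2]

end Pool.Agent.BDesign
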