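import Pool.Agent.Lib.BDesign.Defs
import Pool.Agent.Lib.BDesign.GoodMu

/-!
Combinatorial part.  `n_ij ≥ 2` and no plot `(h,l)` with `n_il = 0`, `n_hj = 0`.  For a block `l` with `n_il = 0` we have
`supp l ⊆ supp j \ {i}`; `|supp j| ≤ k-1` (as `n_ij ≥ 2`), so `|supp l| ≤ k-2` and `∑_t n_tl(n_tl-1) ≥ 2(k - |supp l|) ≥ 4`
(`n(n-1) ≥ 2(n-1)` for `n ≥ 1`).  There are at least `b - (r-1) ≥ b - r` such blocks.
-/

set_option autoImplicit false

namespace Pool.Agent.BDesign

open Matrix

variable {T B : Type} [Fintype T] [DecidableEq T] [Fintype B] [DecidableEq B]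

private theorem dex_col (N : T → B → ℕ) (r k : ℕ) (hN : IsDesign N r k) (i : T) (j l : B)
    (hij : 2 ≤ N i j) (h : ∀ h l, N i l = 0 → N h j = 0 → N h l = 0) (hl : N i l = 0) :
    (4 : ℝ) ≤ ∑ t, (N t l : ℝ) * ((N t l : ℝ) - 1) := by
  classical
  -- supports
  have hsub : (Finset.univ.filter fun t => N t l ≠ 0) ⊆
      (Finset.univ.filter fun t => N t j ≠ 0).erase i := by
    intro t ht
    simp only [Finset.mem_filter, Finset.mem_univ, true_and, Finset.mem_erase] at ht ⊢
    refine ⟨?_, ?_⟩
    · rintro rfl; exact ht hl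
    · intro h0; exact ht (h t l hl h0)
  have hcj : (Finset.univ.filter fun t => N t j ≠ 0).card + 1 ≤ k := by
    have e : k = ∑ t, N t j := (hN.2 j).symm
    have hi : i ∈ (Finset.univ : Finset T) := Finset.mem_univ i
    rw [e, ← Finset.add_sum_erase _ _ hi]
    have h1 : (Finset.univ.filter fun t => N t j ≠ 0).card =
        ((Finset.univ.filter fun t => N t j ≠ 0).erase i).card + 1 := by
      rw [Finset.card_erase_add_one]
      simp only [Finset.mem_filter, Finset.mem_univ, true_and]; omega
    have h2 : ((Finset.univ.filter fun t => N t j ≠ 0).erase i).card ≤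
        ∑ t ∈ Finset.univ.erase i, N t j := by
      rw [Finset.card_eq_sum_ones]
      calc ∑ t ∈ (Finset.univ.filter fun t => N t j ≠ 0).erase i, 1
          ≤ ∑ t ∈ (Finset.univ.filter fun t => N t j ≠ 0).erase i, N t j := by
            refine Finset.sum_le_sum fun t ht => ?_
            simp only [Finset.mem_filter, Finset.mem_univ, true_and, Finset.mem_erase] at ht
            omega
        _ ≤ ∑ t ∈ Finset.univ.erase i, N t j := by
            refine Finset.sum_le_sum_of_subset ?_
            exact Finset.erase_subset_erase _ (Finset.filter_subset _ _)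
    omega
  have hcl : (Finset.univ.filter fun t => N t l ≠ 0).card + 2 ≤ k := by
    have h1 := Finset.card_le_card hsub
    have h2 : ((Finset.univ.filter fun t => N t j ≠ 0).erase i).card + 1 =
        (Finset.univ.filter fun t => N t j ≠ 0).card := by
      rw [Finset.card_erase_add_one]
      simp only [Finset.mem_filter, Finset.mem_univ, true_and]; omega
    omega
  -- n (n - 1) ≥ 2 (n - [n ≠ 0])
  have hpt : ∀ t, 2 * ((N t l : ℝ) - (if N t l ≠ 0 then 1 else 0)) ≤
      (N t l : ℝ) * ((N t l : ℝ) - 1) := by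
    intro t
    rcases Nat.lt_or_ge (N t l) 2 with h2 | h2
    · have : N t l = 0 ∨ N t l = 1 := by omega
      rcases this with h0 | h0 <;> simp [h0]
    · have h3 : (2 : ℝ) ≤ N t l := by exact_mod_cast h2
      rw [if_pos (by omega)]
      nlinarith
  calc (4 : ℝ) ≤ 2 * ((k : ℝ) - ((Finset.univ.filter fun t => N t l ≠ 0).card : ℝ)) := by
        have : (((Finset.univ.filter fun t => N t l ≠ 0).card + 2 : ℕ) : ℝ) ≤ (k : ℝ) := by
          exact_mod_cast hcl
        push_cast at this
        linarith
    _ = ∑ t, 2 * ((N t l : ℝ) - (if N t l ≠ 0 then 1 else 0)) := by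
        rw [← Finset.mul_sum, Finset.sum_sub_distrib]
        congr 2
        · have := hN.2 l
          rw [← this]; push_cast; rfl
        · rw [Finset.sum_boole]
    _ ≤ _ := Finset.sum_le_sum fun t _ => hpt t

theorem dex_comb (N : T → B → ℕ) (r k : ℕ) (hN : IsDesign N r k) (i : T) (j : B) (hij : 2 ≤ N i j)
    (h : ∀ h l, N i l = 0 → N h j = 0 → N h l = 0) :
    4 * ((Fintype.card B : ℝ) - r) ≤ Gam N := by
  classical
  have hnn : ∀ t l, (0 : ℝ) ≤ (N t l : ℝ) * ((N t l : ℝ) - 1) := by
    intro t l
    rcases Nat.eq_zero_or_pos (N t l) with h0 | h0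
    · simp [h0]
    · have : (1 : ℝ) ≤ N t l := by exact_mod_cast h0
      exact mul_nonneg (by linarith) (by linarith)
  have hcard : (Fintype.card B : ℝ) - r ≤
      ((Finset.univ.filter fun l => N i l = 0).card : ℝ) := by
    have h1 : (Finset.univ.filter fun l => N i l ≠ 0).card ≤ r := by
      rw [← hN.1 i, Finset.card_eq_sum_ones]
      calc ∑ l ∈ Finset.univ.filter fun l => N i l ≠ 0, 1
          ≤ ∑ l ∈ Finset.univ.filter fun l => N i l ≠ 0, N i l := by
            refine Finset.sum_le_sum fun t ht => ?_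
            simp only [Finset.mem_filter, Finset.mem_univ, true_and] at ht
            omega
        _ ≤ ∑ l, N i l := Finset.sum_le_sum_of_subset (Finset.filter_subset _ _)
    have h2 := Finset.card_filter_add_card_filter_not (s := (Finset.univ : Finset B))
      (fun l => N i l = 0)
    have h3 : Fintype.card B ≤ (Finset.univ.filter fun l => N i l = 0).card + r := by
      rw [← Finset.card_univ, ← h2]
      exact Nat.add_le_add_left h1 _
    have h4 : ((Fintype.card B : ℕ) : ℝ) ≤
        (((Finset.univ.filter fun l => N i l = 0).card + r : ℕ) : ℝ) := by exact_mod_cast h3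
    push_cast at h4
    linarith
  unfold Gam
  rw [Finset.sum_comm]
  calc 4 * ((Fintype.card B : ℝ) - r) ≤ 4 * ((Finset.univ.filter fun l => N i l = 0).card : ℝ) := by
        linarith
    _ = ∑ l ∈ Finset.univ.filter fun l => N i l = 0, (4 : ℝ) := by
        rw [Finset.sum_const, nsmul_eq_mul]; ring
    _ ≤ ∑ l ∈ Finset.univ.filter fun l => N i l = 0, ∑ t, (N t l : ℝ) * ((N t l : ℝ) - 1) := by
        refine Finset.sum_le_sum fun l hl => ?_
        simp only [Finset.mem_filter, Finset.mem_univ, true_and] at hl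
        exact dex_col N r k hN i j l hij h hl
    _ ≤ ∑ l, ∑ t, (N t l : ℝ) * ((N t l : ℝ) - 1) := by
        refine Finset.sum_le_sum_of_subset_of_nonneg (Finset.filter_subset _ _) fun l _ _ => ?_
        exact Finset.sum_nonneg fun t _ => hnn t l

end Pool.Agent.BDesign
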