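import Pool.Agent.Lib.BDesign.Defs
import Pool.Agent.Lib.BDesign.HBasic
import Pool.Agent.Lib.BDesign.GoodMu

/-!
Spectral part.  `n_ij ≥ 2` and no plot `(h,l)` with `n_il = 0`, `n_hj = 0`; `μ ≤ ρΠ`.  `S = {h : n_hj = 0}`, `L = {l : n_il = 0}`,
`|S| ≥ v-k`, `|L| ≥ b-r`.  `0 = ∑_{h∈S,l∈L} n_hl = (k/v)|S||L| + 1_Sᵀ(N - (k/v)J)1_L`, so
`((k/v)|S||L|)² ≤ |(N-(k/v)J)ᵀ1_S|² |L| = rk (qf μ 1_S 1_S) |L| ≤ rkρ|S||L|` (`∑_l (∑_{h∈S} (n_hl - k/v))² = rk qf μ 1_S 1_S`,
`qf Π 1_S 1_S ≤ |S|`).  Hence `(k/v)²(v-k)(b-r) ≤ rkρ` (trivial if `v = k` or `b = r`); divide by `rk` using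
`b - r = r(v-k)/k` : `((v-k)/v)² ≤ ρ`.
-/

set_option autoImplicit false

namespace Pool.Agent.BDesign

open Matrix

variable {T B : Type} [Fintype T] [DecidableEq T] [Fintype B] [DecidableEq B]

private theorem dexb_qf_mu (N : T → B → ℕ) (r k : ℕ) (x : T → ℝ) :
    qf (mu N r k) x x = (∑ j, (∑ t, (N t j : ℝ) * x t) ^ 2) / ((r : ℝ) * k)
      - (∑ t, x t) ^ 2 / (Fintype.card T : ℝ) := by
  have e1 : ∀ t, (mu N r k *ᵥ x) t = (∑ j, (N t j : ℝ) * ∑ s, (N s j : ℝ) * x s) / ((r : ℝ) * k)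
      - (∑ s, x s) / (Fintype.card T : ℝ) := by
    intro t
    show ∑ s, ((∑ j, (N t j : ℝ) * (N s j : ℝ)) / ((r : ℝ) * (k : ℝ))
      - 1 / (Fintype.card T : ℝ)) * x s = _
    have e2 : ∀ s, ((∑ j, (N t j : ℝ) * (N s j : ℝ)) / ((r : ℝ) * (k : ℝ))
        - 1 / (Fintype.card T : ℝ)) * x s
        = (∑ j, (N t j : ℝ) * ((N s j : ℝ) * x s)) / ((r : ℝ) * k)
          - x s / (Fintype.card T : ℝ) := by
      intro s
      have e3 : ∑ j, (N t j : ℝ) * ((N s j : ℝ) * x s) = (∑ j, (N t j : ℝ) * (N s j : ℝ)) * x s := by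
        rw [Finset.sum_mul]
        exact Finset.sum_congr rfl fun j _ => by ring
      rw [e3]
      ring
    rw [Finset.sum_congr rfl fun s _ => e2 s, Finset.sum_sub_distrib, ← Finset.sum_div,
      ← Finset.sum_div, Finset.sum_comm]
    congr 2
    exact Finset.sum_congr rfl fun j _ => by rw [Finset.mul_sum]
  show ∑ t, x t * (mu N r k *ᵥ x) t = _
  have e4 : ∀ t, x t * (mu N r k *ᵥ x) t
      = (∑ j, ((N t j : ℝ) * x t) * ∑ s, (N s j : ℝ) * x s) / ((r : ℝ) * k)
        - x t * (∑ s, x s) / (Fintype.card T : ℝ) := by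
    intro t
    rw [e1 t]
    have e5 : ∑ j, ((N t j : ℝ) * x t) * ∑ s, (N s j : ℝ) * x s
        = x t * ∑ j, (N t j : ℝ) * ∑ s, (N s j : ℝ) * x s := by
      rw [Finset.mul_sum]
      exact Finset.sum_congr rfl fun j _ => by ring
    rw [e5]
    ring
  rw [Finset.sum_congr rfl fun t _ => e4 t, Finset.sum_sub_distrib, ← Finset.sum_div,
    ← Finset.sum_div, Finset.sum_comm]
  congr 2
  · exact Finset.sum_congr rfl fun j _ => by rw [← Finset.sum_mul, sq]
  · rw [← Finset.sum_mul, sq]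

theorem dex_spec (N : T → B → ℕ) (r k : ℕ) (hr : 0 < r) (hk : 0 < k) (hkv : k ≤ Fintype.card T)
    (hN : IsDesign N r k) (i : T) (j : B) (hij : 2 ≤ N i j) (ρ : ℝ) (hρ0 : 0 ≤ ρ)
    (hρ : ∀ x : T → ℝ, qf (mu N r k) x x ≤ ρ * qf (PiM T) x x)
    (h : ∀ h l, N i l = 0 → N h j = 0 → N h l = 0) :
    (((Fintype.card T : ℝ) - k) / (Fintype.card T : ℝ)) ^ 2 ≤ ρ := by
  classical
  have hT : 0 < Fintype.card T := Fintype.card_pos_iff.2 ⟨i⟩
  have hv0 : (0 : ℝ) < (Fintype.card T : ℝ) := by exact_mod_cast hT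
  have hr0 : (0 : ℝ) < (r : ℝ) := by exact_mod_cast hr
  have hk0 : (0 : ℝ) < (k : ℝ) := by exact_mod_cast hk
  have hcm := card_mul N r k hN
  have hcmR : (Fintype.card T : ℝ) * r = (Fintype.card B : ℝ) * k := by exact_mod_cast hcm
  obtain ⟨v, hv⟩ : ∃ v : ℝ, v = (Fintype.card T : ℝ) := ⟨_, rfl⟩
  obtain ⟨b, hb⟩ : ∃ b : ℝ, b = (Fintype.card B : ℝ) := ⟨_, rfl⟩
  rw [← hv] at hv0
  rw [← hv, ← hb] at hcmR
  have hkvR : (k : ℝ) ≤ v := by rw [hv]; exact_mod_cast hkv
  rcases eq_or_lt_of_le hkvR with heq | hlt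
  · rw [← hv, ← heq, sub_self, zero_div]
    simpa using hρ0
  · let S : Finset T := Finset.univ.filter fun t => N t j = 0
    let L : Finset B := Finset.univ.filter fun l => N i l = 0
    have hS : v - k ≤ (S.card : ℝ) := by
      have h1 : (Finset.univ.filter fun t => ¬ N t j = 0).card ≤ k := by
        have h2 : ∑ t ∈ Finset.univ.filter (fun t => ¬ N t j = 0), 1
            ≤ ∑ t ∈ Finset.univ.filter (fun t => ¬ N t j = 0), N t j :=
          Finset.sum_le_sum fun t ht => Nat.one_le_iff_ne_zero.2 (Finset.mem_filter.1 ht).2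
        have h3 : ∑ t ∈ Finset.univ.filter (fun t => ¬ N t j = 0), N t j ≤ ∑ t, N t j :=
          Finset.sum_le_sum_of_subset (Finset.filter_subset _ _)
        rw [hN.2 j] at h3
        rw [Finset.sum_const, smul_eq_mul, mul_one] at h2
        exact h2.trans h3
      have h4 : S.card + (Finset.univ.filter fun t => ¬ N t j = 0).card = Fintype.card T := by
        rw [Finset.card_filter_add_card_filter_not, Finset.card_univ]
      have h5 : Fintype.card T ≤ S.card + k := by omega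
      have h6 : (Fintype.card T : ℝ) ≤ (S.card : ℝ) + k := by exact_mod_cast h5
      rw [hv]; linarith
    have hL : b - r ≤ (L.card : ℝ) := by
      have h1 : (Finset.univ.filter fun l => ¬ N i l = 0).card ≤ r := by
        have h2 : ∑ l ∈ Finset.univ.filter (fun l => ¬ N i l = 0), 1
            ≤ ∑ l ∈ Finset.univ.filter (fun l => ¬ N i l = 0), N i l :=
          Finset.sum_le_sum fun t ht => Nat.one_le_iff_ne_zero.2 (Finset.mem_filter.1 ht).2
        have h3 : ∑ l ∈ Finset.univ.filter (fun l => ¬ N i l = 0), N i l ≤ ∑ l, N i l :=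
          Finset.sum_le_sum_of_subset (Finset.filter_subset _ _)
        rw [hN.1 i] at h3
        rw [Finset.sum_const, smul_eq_mul, mul_one] at h2
        exact h2.trans h3
      have h4 : L.card + (Finset.univ.filter fun l => ¬ N i l = 0).card = Fintype.card B := by
        rw [Finset.card_filter_add_card_filter_not, Finset.card_univ]
      have h5 : Fintype.card B ≤ L.card + r := by omega
      have h6 : (Fintype.card B : ℝ) ≤ (L.card : ℝ) + r := by exact_mod_cast h5
      rw [hb]; linarith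
    obtain ⟨s, hs⟩ : ∃ s : ℝ, s = (S.card : ℝ) := ⟨_, rfl⟩
    obtain ⟨ℓ, hℓ⟩ : ∃ ℓ : ℝ, ℓ = (L.card : ℝ) := ⟨_, rfl⟩
    rw [← hs] at hS
    rw [← hℓ] at hL
    have hs0 : 0 < s := by linarith
    let x : T → ℝ := fun t => if t ∈ S then 1 else 0
    let y : B → ℝ := fun l => ∑ t, (N t l : ℝ) * x t
    have hxsum : ∑ t, x t = s := by
      rw [hs]
      simp [x]
    have hx2 : ∑ t, x t ^ 2 = s := by
      rw [← hxsum]
      refine Finset.sum_congr rfl fun t _ => ?_
      by_cases ht : t ∈ S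
      · simp [x, ht]
      · simp [x, ht]
    have hy0 : ∀ l ∈ L, y l = 0 := by
      intro l hl
      refine Finset.sum_eq_zero fun t _ => ?_
      by_cases ht : t ∈ S
      · have := h t l (Finset.mem_filter.1 hl).2 (Finset.mem_filter.1 ht).2
        rw [this]; simp
      · simp [x, ht]
    have hysum : ∑ l, y l = r * s := by
      show ∑ l, ∑ t, (N t l : ℝ) * x t = _
      rw [Finset.sum_comm, ← hxsum, Finset.mul_sum]
      refine Finset.sum_congr rfl fun t _ => ?_
      rw [← Finset.sum_mul]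
      congr 1
      exact_mod_cast hN.1 t
    have h1 := hρ x
    rw [dexb_qf_mu, qf_pi, hx2, hxsum, ← hv] at h1
    have h2 : ρ * (s - s ^ 2 / v) ≤ ρ * s := by
      refine mul_le_mul_of_nonneg_left ?_ hρ0
      have : 0 ≤ s ^ 2 / v := by positivity
      linarith
    have h3 : (∑ l, y l ^ 2) / ((r : ℝ) * k) - s ^ 2 / v ≤ ρ * s := h1.trans h2
    have h4 : ∑ l, (y l - k * s / v) ^ 2 = ∑ l, y l ^ 2 - r * k * (s ^ 2 / v) := by
      have e1 : ∀ l, (y l - k * s / v) ^ 2 = y l ^ 2 - 2 * (k * s / v) * y l + (k * s / v) ^ 2 :=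
        fun l => by ring
      rw [Finset.sum_congr rfl fun l _ => e1 l, Finset.sum_add_distrib, Finset.sum_sub_distrib,
        ← Finset.mul_sum, hysum, Finset.sum_const, Finset.card_univ, nsmul_eq_mul, ← hb]
      have e2 : b * (k * s / v) ^ 2 = r * k * (s ^ 2 / v) := by
        have : b * (k * s / v) ^ 2 = (b * k) * k * s ^ 2 / v ^ 2 := by ring
        rw [this, ← hcmR]
        field_simp
      rw [e2]
      field_simp
      ring
    have h5 : ℓ * (k * s / v) ^ 2 ≤ ∑ l, (y l - k * s / v) ^ 2 := by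
      have e1 : ∑ l ∈ L, (y l - k * s / v) ^ 2 ≤ ∑ l, (y l - k * s / v) ^ 2 :=
        Finset.sum_le_sum_of_subset_of_nonneg (Finset.subset_univ _) fun l _ _ => sq_nonneg _
      have e2 : ∑ l ∈ L, (y l - k * s / v) ^ 2 = ℓ * (k * s / v) ^ 2 := by
        rw [Finset.sum_congr rfl fun l hl => by
          rw [hy0 l hl, zero_sub, neg_sq], Finset.sum_const, nsmul_eq_mul, hℓ]
      rw [← e2]; exact e1
    have h6 : ∑ l, y l ^ 2 - r * k * (s ^ 2 / v) ≤ r * k * (ρ * s) := by
      have hrk : (0 : ℝ) < r * k := mul_pos hr0 hk0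
      have := mul_le_mul_of_nonneg_left h3 hrk.le
      have e1 : (r : ℝ) * k * ((∑ l, y l ^ 2) / ((r : ℝ) * k) - s ^ 2 / v)
          = ∑ l, y l ^ 2 - r * k * (s ^ 2 / v) := by
        field_simp
      rw [e1] at this
      exact this
    have h7 : ℓ * (k * s / v) ^ 2 ≤ r * k * (ρ * s) := by
      rw [h4] at h5; exact h5.trans h6
    -- divide by k s
    have h8 : ℓ * k * s / v ^ 2 ≤ r * ρ := by
      have hks : (0 : ℝ) < k * s := mul_pos hk0 hs0
      have e1 : ℓ * (k * s / v) ^ 2 = k * s * (ℓ * k * s / v ^ 2) := by ring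
      have e2 : (r : ℝ) * k * (ρ * s) = k * s * (r * ρ) := by ring
      rw [e1, e2] at h7
      exact le_of_mul_le_mul_left h7 hks
    have hbr : (b - r) * k = r * (v - k) := by
      have : (b - r) * k = b * k - r * k := by ring
      rw [this, ← hcmR]; ring
    have hbr0 : 0 ≤ b - r := by
      by_contra hneg
      push Not at hneg
      have a1 : (b - r) * k < 0 := mul_neg_of_neg_of_pos hneg hk0
      rw [hbr] at a1
      have a2 : 0 ≤ (r : ℝ) * (v - k) := mul_nonneg hr0.le (by linarith)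
      linarith
    have h9 : r * (v - k) * (v - k) ≤ ℓ * k * s := by
      rw [← hbr]
      have a1 : (b - r) * k ≤ ℓ * k := mul_le_mul_of_nonneg_right hL hk0.le
      exact mul_le_mul a1 hS (by linarith) (by
        have : 0 ≤ (b - r) * k := mul_nonneg hbr0 hk0.le
        linarith)
    have h10 : r * (((v - k) / v) ^ 2) ≤ r * ρ := by
      have e1 : (r : ℝ) * (((v - k) / v) ^ 2) = r * (v - k) * (v - k) / v ^ 2 := by ring
      rw [e1]
      refine le_trans ?_ h8
      exact div_le_div_of_nonneg_right h9 (by positivity)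
    rw [← hv]
    exact le_of_mul_le_mul_left h10 hr0

end Pool.Agent.BDesign
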