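import Pool.Agent.Lib.BDesign.Defs
import Pool.Agent.Lib.BDesign.DErrB
import Pool.Agent.Lib.BDesign.DExA
import Pool.Agent.Lib.BDesign.DExB

/-!
Existence of a good plot `(h,l)` for a multiple plot `(i,j)`, `n_ij ≥ 2` (dense case, `k ≤ r`).  Otherwise, with `κ = (v-k)/v`:
`dex_comb`, `hs_bound`: `4(b-r) ≤ Gam N ≤ 34κ²v`, `b - r = κb`: if `κ = 0` then `Gam N = 0`, impossible as `n_ij ≥ 2`; if `κ > 0`,
`4b ≤ 34κv`, `b ≥ v` (`k ≤ r`), so `κ ≥ 2/17` and `r/k = b/v ≤ 8.5`, `k ≥ 10^23`.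
`dex_spec` with `ρ = 1/k + 4·10⁻¹⁰` (`mu_le`): `κ² ≤ 10⁻²³ + 4·10⁻¹⁰`, contradiction.
-/

set_option autoImplicit false

namespace Pool.Agent.BDesign

open Matrix

variable {T B : Type} [Fintype T] [DecidableEq T] [Fintype B] [DecidableEq B]

private theorem DenseExist_gam (N : T → B → ℕ) (i : T) (j : B) (hij : 2 ≤ N i j) : 2 ≤ Gam N := by
  have hnn : ∀ t l, 0 ≤ (N t l : ℝ) * ((N t l : ℝ) - 1) := by
    intro t l
    rcases Nat.eq_zero_or_pos (N t l) with h | h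
    · rw [h]; norm_num
    · have : (1 : ℝ) ≤ (N t l : ℝ) := by exact_mod_cast h
      exact mul_nonneg (by linarith) (by linarith)
  have h2 : (2 : ℝ) ≤ (N i j : ℝ) := by exact_mod_cast hij
  have h1 : (2 : ℝ) ≤ (N i j : ℝ) * ((N i j : ℝ) - 1) := by nlinarith
  calc (2 : ℝ) ≤ (N i j : ℝ) * ((N i j : ℝ) - 1) := h1
    _ ≤ ∑ l, (N i l : ℝ) * ((N i l : ℝ) - 1) :=
        Finset.single_le_sum (f := fun l => (N i l : ℝ) * ((N i l : ℝ) - 1))
          (fun l _ => hnn i l) (Finset.mem_univ j)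
    _ ≤ ∑ t, ∑ l, (N t l : ℝ) * ((N t l : ℝ) - 1) :=
        Finset.single_le_sum (f := fun t => ∑ l, (N t l : ℝ) * ((N t l : ℝ) - 1))
          (fun t _ => Finset.sum_nonneg fun l _ => hnn t l) (Finset.mem_univ i)
    _ = Gam N := rfl

theorem dense_exist (N : T → B → ℕ) (r k : ℕ) (H : Matrix T T ℝ) (hr : 10 ^ 24 ≤ r) (hk : 2 ≤ k)
    (hkr : k ≤ r) (hkv : k ≤ Fintype.card T) (hK : Fintype.card T ≤ 3000 * k) (ho : Opt N r k H)
    (i : T) (j : B) (hij : 2 ≤ N i j) :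
    ∃ h l, N i l = 0 ∧ N h j = 0 ∧ 1 ≤ N h l := by
  by_contra hcon
  have hneg : ∀ h l, N i l = 0 → N h j = 0 → N h l = 0 := by
    intro h l h1 h2
    by_contra h3
    exact hcon ⟨h, l, h1, h2, by omega⟩
  have hcomb := dex_comb N r k ho.des i j hij hneg
  obtain ⟨-, -, hG⟩ := hs_bound N r k H hr hk hkv hK ho
  have hcm := card_mul N r k ho.des
  have hspec := dex_spec N r k (by omega) (by omega) hkv ho.des i j hij
    (1 / (k : ℝ) + 4 / 10 ^ 10) (by positivity) (mu_le N r k H hr hk hkv hK ho) hneg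
  have hG2 := DenseExist_gam N i j hij
  have hkpos : (0 : ℝ) < (k : ℝ) := by exact_mod_cast (by omega : 0 < k)
  have hrpos : (0 : ℝ) < (r : ℝ) := by exact_mod_cast (by omega : 0 < r)
  have hv0 : 0 < Fintype.card T := by omega
  have hvpos : (0 : ℝ) < (Fintype.card T : ℝ) := by exact_mod_cast hv0
  have hcmR : (Fintype.card T : ℝ) * r = (Fintype.card B : ℝ) * k := by exact_mod_cast hcm
  have hkvR : (k : ℝ) ≤ (Fintype.card T : ℝ) := by exact_mod_cast hkv
  have hkrR : (k : ℝ) ≤ (r : ℝ) := by exact_mod_cast hkr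
  have hrR : (10 : ℝ) ^ 24 ≤ (r : ℝ) := by exact_mod_cast hr
  generalize (Fintype.card T : ℝ) = v at *
  generalize (Fintype.card B : ℝ) = b at *
  -- kappa
  obtain ⟨κ, hκ⟩ : ∃ κ : ℝ, κ = (v - k) / v := ⟨_, rfl⟩
  rw [← hκ] at hG hspec
  have hκv : κ * v = v - k := by rw [hκ]; field_simp
  have hκ0 : 0 ≤ κ := by rw [hκ]; exact div_nonneg (by linarith) hvpos.le
  have hκ1 : κ ≤ 1 := by rw [hκ, div_le_one hvpos]; linarith
  -- b - r = κ b
  have hbr : b - r = κ * b := by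
    have : (b - r) * v = (κ * b) * v := by nlinarith
    exact mul_right_cancel₀ hvpos.ne' this
  -- b ≥ v
  have hbv : v ≤ b := by
    have : v * k ≤ b * k := by rw [← hcmR]; exact mul_le_mul_of_nonneg_left hkrR hvpos.le
    exact le_of_mul_le_mul_right this hkpos
  have hκpos : 0 < κ := by
    rcases hκ0.lt_or_eq with h | h
    · exact h
    · rw [← h] at hG
      norm_num at hG
      linarith
  have h4 : 4 * b ≤ 34 * κ * v := by
    have : κ * (4 * b) ≤ κ * (34 * κ * v) := by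
      calc κ * (4 * b) = 4 * (b - r) := by rw [hbr]; ring
        _ ≤ Gam N := hcomb
        _ ≤ 34 * (κ ^ 2 * v) := hG
        _ = κ * (34 * κ * v) := by ring
    exact le_of_mul_le_mul_left this hκpos
  have hκ2 : 2 / 17 ≤ κ := by
    have : 4 * v ≤ 34 * κ * v := by linarith
    have h' : 4 ≤ 34 * κ := le_of_mul_le_mul_right this hvpos
    linarith
  -- r ≤ 8.5 k
  have hrk : (r : ℝ) ≤ 17 / 2 * k := by
    have h5 : b ≤ 17 / 2 * v := by
      have : 34 * κ * v ≤ 34 * 1 * v := by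
        apply mul_le_mul_of_nonneg_right _ hvpos.le
        linarith
      linarith
    have h6 : v * r ≤ v * (17 / 2 * k) := by
      rw [hcmR]
      calc b * k ≤ (17 / 2 * v) * k := mul_le_mul_of_nonneg_right h5 hkpos.le
        _ = v * (17 / 2 * k) := by ring
    exact le_of_mul_le_mul_left h6 hvpos
  have hkbig : (10 : ℝ) ^ 23 ≤ (k : ℝ) := by
    have : (10 : ℝ) ^ 24 ≤ 17 / 2 * k := le_trans hrR hrk
    nlinarith [this]
  have hinv : 1 / (k : ℝ) ≤ 1 / 10 ^ 23 := one_div_le_one_div_of_le (by positivity) hkbig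
  have hsq : (2 / 17 : ℝ) ^ 2 ≤ κ ^ 2 := by
    apply pow_le_pow_left₀ (by norm_num) hκ2
  have : (2 / 17 : ℝ) ^ 2 ≤ 1 / 10 ^ 23 + 4 / 10 ^ 10 := by linarith
  norm_num at this

end Pool.Agent.BDesign
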