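import Pool.Agent.Lib.BDesign.Defs
import Pool.Agent.Lib.BDesign.DenseExist
import Pool.Agent.Lib.BDesign.OptSwap

/-!
The dense case: `(h,l)` from `dense_exist` (`h ≠ i`), `opt_swap` with `c = 0`.  `β = (1-m)⁻² ≥ 1`.  Left side:
`S_ij - S_il - S_hj + S_hl - qf A x x ≥ β(n_ij + n_hl) - 4/10 - 2β - 1/10 ≥ β - 1/2 ≥ 1/2` (`err_small`/`err_large`, `err_x`).
Right side: `(1/(rk)) (X·|y|_A² + |y|_H²·X2)`, `X ≤ (5/2)·2`, `X2 ≤ (25/4)·2`, `|y|_A² ≤ (25/4)|Πy|²`, `|y|_H² ≤ (5/2)|Πy|²`,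
`|Πy|² ≤ 2(57k+57k) = 228k` (`psd_sub`): at most `62.5·228/r < 1/4`.
-/

set_option autoImplicit false

namespace Pool.Agent.BDesign

open Matrix

variable {T B : Type} [Fintype T] [DecidableEq T] [Fintype B] [DecidableEq B]

theorem dense (N : T → B → ℕ) (r k : ℕ) (H : Matrix T T ℝ) (hr : 10 ^ 24 ≤ r) (hk : 2 ≤ k)
    (hkr : k ≤ r) (hkv : k ≤ Fintype.card T) (hK : Fintype.card T ≤ 3000 * k) (ho : Opt N r k H)
    (i : T) (j : B) : N i j ≤ 1 := by
  by_contra hcon
  have hij : 2 ≤ N i j := by omega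
  obtain ⟨h, l, hil, hhj, hhl⟩ := dense_exist N r k H hr hk hkr hkv hK ho i j hij
  have hih : i ≠ h := by
    rintro rfl
    omega
  have hv : 0 < Fintype.card T := by omega
  have hr0 : 0 < r := by omega
  have hk0 : 0 < k := by omega
  have hrR : (10 : ℝ) ^ 24 ≤ r := by exact_mod_cast hr
  have hkR : (2 : ℝ) ≤ k := by exact_mod_cast hk
  have hr0R : (0 : ℝ) < r := by exact_mod_cast hr0
  have hk0R : (0 : ℝ) < k := by exact_mod_cast hk0
  -- the factor
  obtain ⟨hm0, hm1⟩ := mc_le (Fintype.card T) k hk hkv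
  have hkinv : 1 / (k : ℝ) ≤ 1 / 2 := one_div_le_one_div_of_le (by norm_num) hkR
  set m := mc (Fintype.card T) k with hm
  have hβ : 1 ≤ ((1 - m) ^ 2)⁻¹ := by
    rw [one_le_inv₀ (by nlinarith)]
    nlinarith
  have herr : ∀ t l, |Sm N H t l - ((1 - m) ^ 2)⁻¹ *
      ((N t l : ℝ) - k / (Fintype.card T : ℝ))| ≤ 1 / 10 := by
    intro t l
    rcases Nat.lt_or_ge (10 ^ 10) k with hk2 | hk2
    · exact err_large N r k H hr hk2 hkv hK ho t l
    · exact err_small N r k H hr hk hk2 hkv hK ho t l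
  have e1 := abs_le.mp (herr i j)
  have e2 := abs_le.mp (herr i l)
  have e3 := abs_le.mp (herr h j)
  have e4 := abs_le.mp (herr h l)
  have ex := err_x N r k H hr hk hkv hK ho i h hih
  rw [← hm] at ex
  have main := opt_swap N r k H hr0 hk0 hv ho i h j l (by omega) hhl 0
  rw [zero_smul, add_zero] at main
  -- the left side
  have hleft : 1 / 2 ≤ Sm N H i j - Sm N H i l - Sm N H h j + Sm N H h l -
      qf (Am H) (ev i h) (ev i h) := by
    have f1 : (2 : ℝ) ≤ N i j := by exact_mod_cast hij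
    have f2 : (1 : ℝ) ≤ N h l := by exact_mod_cast hhl
    have f3 : ((N i l : ℕ) : ℝ) = 0 := by rw [hil]; norm_num
    have f4 : ((N h j : ℕ) : ℝ) = 0 := by rw [hhj]; norm_num
    rw [f3] at e2
    rw [f4] at e3
    have f5 : 2 * ((1 - m) ^ 2)⁻¹ ≤ ((1 - m) ^ 2)⁻¹ * (N i j : ℝ) := by nlinarith
    have f6 : ((1 - m) ^ 2)⁻¹ ≤ ((1 - m) ^ 2)⁻¹ * (N h l : ℝ) := by nlinarith
    nlinarith [e1.1, e2.2, e3.2, e4.1]
  -- the right side
  have hPs : ∀ t s, PiM T t s = PiM T s t := by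
    intro t s
    simp only [PiM, eq_comm]
  have hPp : ∀ x : T → ℝ, 0 ≤ qf (PiM T) x x := by
    intro x
    have g := good_mu N r k hr0 hk0 hv ho.des
    exact (g.psd x).trans (g.le x)
  have hx : qf (PiM T) (ev i h) (ev i h) = 2 := by
    rw [qf_ev _ hPs]
    simp only [PiM, if_pos, if_neg hih]
    ring
  obtain ⟨x1, x2⟩ := h_norm N r k H hr hk hkv hK ho (ev i h)
  rw [hx] at x1 x2
  obtain ⟨y1, y2⟩ := h_norm N r k H hr hk hkv hK ho (col N j - col N l)
  have hy : qf (PiM T) (col N j - col N l) (col N j - col N l) ≤ 228 * (k : ℝ) := by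
    have a1 := psd_sub (PiM T) hPs hPp (col N j) (col N l)
    have a2 := pi_col N r k H (by omega) hk hkv ho j
    have a3 := pi_col N r k H (by omega) hk hkv ho l
    linarith
  have hA0 : ∀ x : T → ℝ, 0 ≤ qf (Am H) x x := fun x => a_psd ho.isH x
  have hright : 1 / ((r : ℝ) * k) *
        (qf H (ev i h) (ev i h) * qf (Am H) (col N j - col N l) (col N j - col N l)
          + qf H (col N j - col N l) (col N j - col N l) * qf (Am H) (ev i h) (ev i h)) ≤
        1 / 4 := by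
    have b1 : qf H (ev i h) (ev i h) * qf (Am H) (col N j - col N l) (col N j - col N l) ≤
        5 * (1425 * k) := by
      refine mul_le_mul (by linarith) ?_ (hA0 _) (by norm_num)
      linarith
    have b2 : qf H (col N j - col N l) (col N j - col N l) * qf (Am H) (ev i h) (ev i h) ≤
        (570 * k) * (25 / 2) := by
      refine mul_le_mul ?_ (by linarith) (hA0 _) (by positivity)
      linarith
    rw [div_mul_eq_mul_div, one_mul, div_le_iff₀ (by positivity)]
    nlinarith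
  linarith

end Pool.Agent.BDesign
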