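import Pool.Agent.Lib.BDesign.Defs
import Pool.Agent.Lib.BDesign.HBasic
import Pool.Agent.Lib.BDesign.GoodMu

/-!
Transposition.  `H̃ = Π_B + (1/(rk)) Nᵀ H N` is the `H` of the transposed design, `tr H̃ = tr H + b - v`.
(`(Π_B - μ̃) = Π_B - (NᵀN)/(rk) + J/b`; multiply out using `N J_B = r J`, `H J = 0`, `H N Nᵀ/(rk) = H μ = H - Π`,
`Π N = N - (k/v)J`, `v r = b k`.  Trace: `tr(Nᵀ H N)/(rk) = tr(H μ) = tr H - (v-1)`.)
`opt_dual`: `tr' (tr' N) = N`, apply `dual_h` in both directions.
-/

set_option autoImplicit false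

namespace Pool.Agent.BDesign

open Matrix

variable {T B : Type} [Fintype T] [DecidableEq T] [Fintype B] [DecidableEq B]

theorem dual_design (N : T → B → ℕ) (r k : ℕ) (hN : IsDesign N r k) : IsDesign (tr' N) k r :=
  ⟨fun j => hN.2 j, fun t => hN.1 t⟩

private theorem dual_symm {Q : Matrix T T ℝ} (h : ∀ t s, Q t s = Q s t) : Qᵀ = Q := by
  ext t s
  rw [Matrix.transpose_apply, h]

theorem dual_h (N : T → B → ℕ) (r k : ℕ) (H : Matrix T T ℝ) (hr : 0 < r) (hk : 0 < k)
    (hT : 0 < Fintype.card T) (hB : 0 < Fintype.card B) (hN : IsDesign N r k) (hH : IsH (mu N r k) H) :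
    ∃ H' : Matrix B B ℝ, IsH (mu (tr' N) k r) H' ∧
      H'.trace = H.trace + (Fintype.card B : ℝ) - (Fintype.card T : ℝ) := by
  have hμ := good_mu N r k hr hk hT hN
  have hr' : (r : ℝ) ≠ 0 := by exact_mod_cast hr.ne'
  have hk' : (k : ℝ) ≠ 0 := by exact_mod_cast hk.ne'
  have hv' : (Fintype.card T : ℝ) ≠ 0 := by exact_mod_cast hT.ne'
  have hb' : (Fintype.card B : ℝ) ≠ 0 := by exact_mod_cast hB.ne'
  have hcard : (Fintype.card T : ℝ) * r = (Fintype.card B : ℝ) * k := by
    exact_mod_cast card_mul N r k hN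
  set c : ℝ := 1 / ((r : ℝ) * k) with hc
  set n : Matrix T B ℝ := inc N with hn
  set KT : Matrix T T ℝ := 1 - PiM T with hKT
  set KB : Matrix B B ℝ := 1 - PiM B with hKB
  have hrow : ∀ t, ∑ j, n t j = r := by
    intro t
    have := hN.1 t
    simp only [n, inc]
    exact_mod_cast this
  have hcol : ∀ j, ∑ t, n t j = k := by
    intro j
    have := hN.2 j
    simp only [n, inc]
    exact_mod_cast this
  have hKTe : ∀ t s, KT t s = 1 / (Fintype.card T : ℝ) := by
    intro t s
    rw [hKT, Matrix.sub_apply, Matrix.one_apply]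
    unfold PiM
    ring
  have hKBe : ∀ t s, KB t s = 1 / (Fintype.card B : ℝ) := by
    intro t s
    rw [hKB, Matrix.sub_apply, Matrix.one_apply]
    unfold PiM
    ring
  have hmuT : c • (n * nᵀ) = mu N r k + KT := by
    ext t s
    rw [Matrix.add_apply, hKTe, Matrix.smul_apply, Matrix.mul_apply]
    simp only [Matrix.transpose_apply, n, inc, mu, smul_eq_mul, c]
    ring
  have hmuB : mu (tr' N) k r = c • (nᵀ * n) - KB := by
    ext j l
    rw [Matrix.sub_apply, hKBe, Matrix.smul_apply, Matrix.mul_apply]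
    simp only [Matrix.transpose_apply, n, inc, mu, smul_eq_mul, c, tr']
    rw [mul_comm (k : ℝ) (r : ℝ)]
    ring
  have hHt : Hᵀ = H := dual_symm hH.symm
  have hHKT : H * KT = 0 := by
    rw [hKT, Matrix.mul_sub, Matrix.mul_one, h_pi hH, sub_self]
  have hHmu : H * (c • (n * nᵀ)) = H - PiM T := by
    rw [hmuT, Matrix.mul_add, hHKT, add_zero, h_mu hμ hH]
  -- `K_B S = K_B`
  have hKBn : ∀ j t, (KB * nᵀ) j t = r / (Fintype.card B : ℝ) := by
    intro j t
    rw [Matrix.mul_apply]
    simp only [hKBe, Matrix.transpose_apply]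
    rw [← Finset.mul_sum, hrow]
    ring
  have hKBS : KB * (c • (nᵀ * n)) = KB := by
    rw [Matrix.mul_smul, ← Matrix.mul_assoc]
    ext j l
    rw [Matrix.smul_apply, Matrix.mul_apply]
    simp only [hKBn]
    rw [← Finset.mul_sum, hcol, hKBe, smul_eq_mul, hc]
    field_simp
  have hnKn : c • (nᵀ * KT * n) = KB := by
    ext j l
    rw [Matrix.smul_apply, Matrix.mul_apply]
    have e1 : ∀ t, (nᵀ * KT) j t = k / (Fintype.card T : ℝ) := by
      intro t
      rw [Matrix.mul_apply]
      simp only [hKTe, Matrix.transpose_apply]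
      rw [← Finset.sum_mul, hcol]
      ring
    simp only [e1]
    rw [← Finset.mul_sum, hcol, hKBe, smul_eq_mul, hc]
    field_simp
    nlinarith [hcard]
  have hPiB : PiM B = 1 - KB := by rw [hKB]; abel
  have hPiT : PiM T = 1 - KT := by rw [hKT]; abel
  refine ⟨PiM B + c • (nᵀ * H * n), ⟨?_, ?_, ?_⟩, ?_⟩
  · have ht : (PiM B + c • (nᵀ * H * n))ᵀ = PiM B + c • (nᵀ * H * n) := by
      rw [Matrix.transpose_add, Matrix.transpose_smul, Matrix.transpose_mul, Matrix.transpose_mul,
        Matrix.transpose_transpose, hHt, dual_symm (Q := PiM B) pi_symm, Matrix.mul_assoc]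
    intro t s
    have := congrFun (congrFun ht s) t
    rw [Matrix.transpose_apply] at this
    exact this
  · intro j
    simp only [Matrix.add_apply, Matrix.smul_apply, smul_eq_mul]
    rw [Finset.sum_add_distrib, ← Finset.mul_sum]
    have e1 : ∑ s, PiM B j s = 0 := by
      unfold PiM
      rw [Finset.sum_sub_distrib]
      simp [hb']
    have e2 : ∑ s, (nᵀ * H * n) j s = 0 := by
      simp only [Matrix.mul_apply (M := nᵀ * H)]
      rw [Finset.sum_comm]
      have e3 : ∀ t, ∑ s, (nᵀ * H) j t * n t s = (nᵀ * H) j t * r := by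
        intro t
        rw [← Finset.mul_sum, hrow]
      simp only [e3]
      rw [← Finset.sum_mul]
      have e4 : ∑ t, (nᵀ * H) j t = 0 := by
        simp only [Matrix.mul_apply]
        rw [Finset.sum_comm]
        refine Finset.sum_eq_zero fun s _ => ?_
        rw [← Finset.mul_sum, hH.row, mul_zero]
      rw [e4, zero_mul]
    rw [e1, e2]
    ring
  · rw [hmuB]
    have e0 : PiM B - (c • (nᵀ * n) - KB) = 1 - c • (nᵀ * n) := by
      rw [hPiB]; abel
    rw [e0, Matrix.mul_sub, Matrix.mul_one, Matrix.add_mul]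
    have e1 : (c • (nᵀ * H * n)) * (c • (nᵀ * n)) = c • (nᵀ * H * n) - c • (nᵀ * PiM T * n) := by
      calc (c • (nᵀ * H * n)) * (c • (nᵀ * n))
          = c • (nᵀ * (H * (c • (n * nᵀ))) * n) := by
            simp only [Matrix.smul_mul, Matrix.mul_smul, Matrix.mul_assoc]
        _ = c • (nᵀ * (H - PiM T) * n) := by rw [hHmu]
        _ = _ := by rw [Matrix.mul_sub, Matrix.sub_mul, smul_sub]
    have e2 : c • (nᵀ * PiM T * n) = c • (nᵀ * n) - KB := by
      rw [hPiT, Matrix.mul_sub, Matrix.mul_one, Matrix.sub_mul, smul_sub, hnKn]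
    have e3 : PiM B * (c • (nᵀ * n)) = c • (nᵀ * n) - KB := by
      rw [hPiB, Matrix.sub_mul, Matrix.one_mul, hKBS]
    rw [e1, e2, e3]
    abel
  · rw [Matrix.trace_add, Matrix.trace_smul, Matrix.mul_assoc, Matrix.trace_mul_comm,
      Matrix.mul_assoc]
    have e1 : c • (H * (n * nᵀ)).trace = (H - PiM T).trace := by
      rw [← hHmu, Matrix.mul_smul, Matrix.trace_smul]
    rw [e1, Matrix.trace_sub]
    have e2 : (PiM B).trace = (Fintype.card B : ℝ) - 1 := by
      unfold Matrix.trace PiM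
      simp [Matrix.diag, hb']
    have e3 : (PiM T).trace = (Fintype.card T : ℝ) - 1 := by
      unfold Matrix.trace PiM
      simp [Matrix.diag, hv']
    rw [e2, e3]
    ring

theorem opt_dual (N : T → B → ℕ) (r k : ℕ) (H : Matrix T T ℝ) (hr : 0 < r) (hk : 0 < k)
    (hT : 0 < Fintype.card T) (hB : 0 < Fintype.card B) (ho : Opt N r k H) :
    ∃ H' : Matrix B B ℝ, Opt (tr' N) k r H' := by
  obtain ⟨H', hH', htr⟩ := dual_h N r k H hr hk hT hB ho.des ho.isH
  refine ⟨H', dual_design N r k ho.des, hH', ?_⟩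
  intro N' H'' hN' hH''
  obtain ⟨H3, hH3, htr3⟩ := dual_h N' k r H'' hk hr hB hT hN' hH''
  have := ho.min (tr' N') H3 (dual_design N' k r hN') hH3
  rw [htr]
  linarith

end Pool.Agent.BDesign
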