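import Pool.Agent.Lib.BDesign.Defs
import Pool.Agent.Lib.BDesign.Step3

/-!
Step 4: the sparse case.  `G = ((k-1)/k) H - Π`, `β = (k/(k-1))² ∈ [1,4]`, `δ = 4k/v + 34656/r`, `(G²)_ii ≤ δ/k`.
`S_lb`: `((k-1)/k) H = Π + G`, so `A = β (Π + 2G + G²)` and `S_ij = β (n_ij - k/v) + β <G e_i, (2Π + G) N_j>`,
`2Π + G = Π + ((k-1)/k) H`, `|(2Π+G)N_j| ≤ |ΠN_j| + |H N_j| ≤ 2 |H N_j| ≤ 2√(57k)`, `|G e_i| ≤ √(δ/k)`:
`S_ij ≥ β (n_ij - k/v) - 2β√(57δ)`.  `A_ub`: `A_ii = β(1-1/v) + β<Ge_i,(2Π+G)e_i> ≤ β + 2β √(δ/k) √32`.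
`sparse`: if `n_ij ≥ 2`: by `plot_bound`, `β(2 - k/v - 2√(57δ)) ≤ β(1 + 2√(16δ)) + 2k/v + 34656/r`; as `β ≥ 1`,
`1 ≤ 3k/v + 34656/r + 2√(57δ) + 2√(16δ)`; but `k/v ≤ 1/3000`, `r ≥ 10^10` give `δ ≤ 0.00134`, `2√(57δ) ≤ 0.5528`, `2√(16δ) ≤ 0.2930`.
-/

set_option autoImplicit false

namespace Pool.Agent.BDesign

open Matrix

variable {T B : Type} [Fintype T] [DecidableEq T] [Fintype B] [DecidableEq B]

private theorem sparse_key {μ H : Matrix T T ℝ} (hT : 0 < Fintype.card T) (hμ : Good μ)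
    (hH : IsH μ H) (k : ℕ) (hk : 2 ≤ k) (x : T → ℝ) (i : T) {K ε : ℝ}
    (hK : qf (Am H) x x ≤ K) (hG : (Gm k H * Gm k H) i i ≤ ε) :
    |(((k : ℝ) - 1) / k) ^ 2 * (Am H *ᵥ x) i - (PiM T *ᵥ x) i| ≤ √(4 * (ε * K)) := by
  have hk2 : (2 : ℝ) ≤ k := by exact_mod_cast hk
  set γ : ℝ := ((k : ℝ) - 1) / k with hγ
  have hγ0 : 0 ≤ γ := div_nonneg (by linarith) (by linarith)
  have hγ1 : γ ≤ 1 := by
    rw [hγ, div_le_one (by linarith)]
    linarith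
  set G : Matrix T T ℝ := Gm k H with hGdef
  have hGe : G = γ • H - PiM T := rfl
  have hmat : G * (PiM T + γ • H) = γ ^ 2 • (H * H) - PiM T := by
    rw [hGe, sub_mul, mul_add, mul_add, smul_mul_assoc, smul_mul_assoc, mul_smul_comm,
      mul_smul_comm, h_pi hH, pi_h hH, pi_mul hT, smul_smul, sq]
    abel
  set w : T → ℝ := PiM T *ᵥ x + γ • (H *ᵥ x) with hw
  have hGw : (G *ᵥ w) i = γ ^ 2 * (Am H *ᵥ x) i - (PiM T *ᵥ x) i := by
    have h1 : w = (PiM T + γ • H) *ᵥ x := by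
      rw [hw, add_mulVec, smul_mulVec]
    rw [h1, mulVec_mulVec, hmat, sub_mulVec, smul_mulVec]
    rfl
  rw [← hGw]
  have hGsymm : ∀ t s, G t s = G s t := by
    intro t s
    have h1 : ∀ a b, G a b = γ * H a b - PiM T a b := fun a b => rfl
    rw [h1, h1, hH.symm t s, pi_symm t s]
  have hG2 : ∑ t, G i t ^ 2 ≤ ε := by
    refine le_trans (le_of_eq ?_) hG
    rw [mul_apply]
    refine Finset.sum_congr rfl fun t _ => ?_
    rw [hGsymm t i]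
    ring
  have hpi2 : ∑ t, (PiM T *ᵥ x) t ^ 2 = qf (PiM T) x x := by
    have h1 : qf (PiM T) x x = x ⬝ᵥ (PiM T *ᵥ (PiM T *ᵥ x)) := by
      unfold qf
      rw [mulVec_mulVec, pi_mul hT]
    rw [h1]
    unfold dotProduct
    have h2 : ∀ t, x t * (PiM T *ᵥ (PiM T *ᵥ x)) t = ∑ s, x t * (PiM T t s * (PiM T *ᵥ x) s) := by
      intro t
      rw [← Finset.mul_sum]
      rfl
    simp only [h2]
    rw [Finset.sum_comm]
    refine Finset.sum_congr rfl fun s _ => ?_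
    have h3 : (PiM T *ᵥ x) s = ∑ t, PiM T s t * x t := rfl
    rw [sq]
    nth_rw 1 [h3]
    rw [Finset.sum_mul]
    refine Finset.sum_congr rfl fun t _ => ?_
    rw [pi_symm s t]
    ring
  have hH2 : ∑ t, (H *ᵥ x) t ^ 2 = qf (Am H) x x := by
    rw [a_eq hH]
    unfold dotProduct
    refine Finset.sum_congr rfl fun t _ => ?_
    ring
  have hpiK : qf (PiM T) x x ≤ K := (h_ge hT hμ hH x).trans ((a_ge hT hμ hH x).trans hK)
  have hK0 : 0 ≤ K := (qf_pi_nonneg hT x).trans hpiK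
  have hε0 : 0 ≤ ε := (Finset.sum_nonneg fun t _ => sq_nonneg (G i t)).trans hG2
  have hw2 : ∑ t, w t ^ 2 ≤ 4 * K := by
    have h1 : ∀ t, w t ^ 2 ≤ 2 * (PiM T *ᵥ x) t ^ 2 + 2 * (H *ᵥ x) t ^ 2 := by
      intro t
      have h2 : w t = (PiM T *ᵥ x) t + γ * (H *ᵥ x) t := rfl
      rw [h2]
      have h3 : γ ^ 2 ≤ 1 := pow_le_one₀ hγ0 hγ1
      have h4 : γ ^ 2 * (H *ᵥ x) t ^ 2 ≤ 1 * (H *ᵥ x) t ^ 2 :=
        mul_le_mul_of_nonneg_right h3 (sq_nonneg _)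
      nlinarith [sq_nonneg ((PiM T *ᵥ x) t - γ * (H *ᵥ x) t)]
    refine (Finset.sum_le_sum fun t _ => h1 t).trans ?_
    rw [Finset.sum_add_distrib, ← Finset.mul_sum, ← Finset.mul_sum, hpi2, hH2]
    linarith
  have hcs : (G *ᵥ w) i ^ 2 ≤ ε * (4 * K) := by
    have h1 : (G *ᵥ w) i = ∑ t, G i t * w t := rfl
    rw [h1]
    refine (Finset.sum_mul_sq_le_sq_mul_sq _ _ _).trans ?_
    exact mul_le_mul hG2 hw2 (Finset.sum_nonneg fun _ _ => sq_nonneg _) hε0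
  have h5 : 4 * (ε * K) = ε * (4 * K) := by ring
  rw [h5]
  exact Real.abs_le_sqrt hcs

private theorem sparse_pi_apply (x : T → ℝ) (i : T) :
    (PiM T *ᵥ x) i = x i - (∑ t, x t) / (Fintype.card T : ℝ) := by
  have h1 : (PiM T *ᵥ x) i = ∑ t, ((if i = t then 1 else 0) - 1 / (Fintype.card T : ℝ)) * x t := rfl
  rw [h1]
  simp only [sub_mul, ite_mul, one_mul, zero_mul, Finset.sum_sub_distrib, Finset.sum_ite_eq,
    Finset.mem_univ, if_true]
  rw [← Finset.mul_sum]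
  ring

private theorem sparse_beta (k : ℕ) (hk : 2 ≤ k) {x y : ℝ}
    (h : x ≤ (((k : ℝ) - 1) / k) ^ 2 * y) : ((k : ℝ) / ((k : ℝ) - 1)) ^ 2 * x ≤ y := by
  have hk2 : (2 : ℝ) ≤ k := by exact_mod_cast hk
  have h1 : (0 : ℝ) < k - 1 := by linarith
  have h2 : (0 : ℝ) < k := by linarith
  have h3 := mul_le_mul_of_nonneg_left h (sq_nonneg ((k : ℝ) / ((k : ℝ) - 1)))
  have h4 : ((k : ℝ) / ((k : ℝ) - 1)) ^ 2 * ((((k : ℝ) - 1) / k) ^ 2 * y) = y := by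
    field_simp
  rw [h4] at h3
  exact h3

private theorem sparse_beta' (k : ℕ) (hk : 2 ≤ k) {x y : ℝ}
    (h : (((k : ℝ) - 1) / k) ^ 2 * y ≤ x) : y ≤ ((k : ℝ) / ((k : ℝ) - 1)) ^ 2 * x := by
  have hk2 : (2 : ℝ) ≤ k := by exact_mod_cast hk
  have h1 : (0 : ℝ) < k - 1 := by linarith
  have h2 : (0 : ℝ) < k := by linarith
  have h3 := mul_le_mul_of_nonneg_left h (sq_nonneg ((k : ℝ) / ((k : ℝ) - 1)))
  have h4 : ((k : ℝ) / ((k : ℝ) - 1)) ^ 2 * ((((k : ℝ) - 1) / k) ^ 2 * y) = y := by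
    field_simp
  rw [h4] at h3
  exact h3

theorem S_lb (N : T → B → ℕ) (r k : ℕ) (H : Matrix T T ℝ) (hr : 1536 ≤ r) (hk : 2 ≤ k)
    (hkv : k ≤ Fintype.card T) (ho : Opt N r k H) (δ : ℝ)
    (hδ : δ = 4 * (k : ℝ) / (Fintype.card T : ℝ) + 34656 / r) (i : T) (j : B) :
    ((k : ℝ) / ((k : ℝ) - 1)) ^ 2 * ((N i j : ℝ) - k / (Fintype.card T : ℝ) - 2 * √(57 * δ))
      ≤ Sm N H i j := by
  have hk2 : (2 : ℝ) ≤ k := by exact_mod_cast hk
  have hk0 : (0 : ℝ) < k := by linarith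
  have hT : 0 < Fintype.card T := by omega
  have hμ := good_mu N r k (by omega) (by omega) hT ho.des
  have h3 := step3 N r k H hr hk hkv ho i
  rw [← hδ] at h3
  have hG : (Gm k H * Gm k H) i i ≤ δ / k := by
    rw [le_div_iff₀ hk0]
    linarith
  have hkey := sparse_key hT hμ ho.isH k hk (col N j) i (step2 N r k H hr hk hkv ho j) hG
  have e1 : 4 * (δ / k * (57 * (k : ℝ))) = 2 ^ 2 * (57 * δ) := by
    field_simp
    ring
  rw [e1, Real.sqrt_mul (by norm_num), Real.sqrt_sq (by norm_num), sparse_pi_apply] at hkey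
  have e2 : ∑ t, col N j t = k := by
    have := ho.des.2 j
    unfold col
    exact_mod_cast this
  rw [e2] at hkey
  have e3 : Sm N H i j = (Am H *ᵥ col N j) i := rfl
  rw [e3]
  refine sparse_beta k hk ?_
  have h5 := (abs_le.1 hkey).1
  have e4 : col N j i = N i j := rfl
  rw [e4] at h5
  linarith

theorem A_ub (N : T → B → ℕ) (r k : ℕ) (H : Matrix T T ℝ) (hr : 1536 ≤ r) (hk : 2 ≤ k)
    (hkv : k ≤ Fintype.card T) (ho : Opt N r k H) (δ : ℝ)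
    (hδ : δ = 4 * (k : ℝ) / (Fintype.card T : ℝ) + 34656 / r) (i : T) :
    Am H i i ≤ ((k : ℝ) / ((k : ℝ) - 1)) ^ 2 * (1 + 2 * √(16 * δ)) := by
  have hk2 : (2 : ℝ) ≤ k := by exact_mod_cast hk
  have hk0 : (0 : ℝ) < k := by linarith
  have hT : 0 < Fintype.card T := by omega
  have hTr : (0 : ℝ) < Fintype.card T := by exact_mod_cast hT
  have hδ0 : 0 ≤ δ := by
    rw [hδ]
    positivity
  have hμ := good_mu N r k (by omega) (by omega) hT ho.des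
  have h3 := step3 N r k H hr hk hkv ho i
  rw [← hδ] at h3
  have hG : (Gm k H * Gm k H) i i ≤ δ / k := by
    rw [le_div_iff₀ hk0]
    linarith
  have e0 : (Am H *ᵥ (Pi.single i 1 : T → ℝ)) i = Am H i i := by
    simp
  have hK : qf (Am H) (Pi.single i 1 : T → ℝ) (Pi.single i 1 : T → ℝ) ≤ 32 := by
    have h1 : qf (Am H) (Pi.single i 1 : T → ℝ) (Pi.single i 1 : T → ℝ) = Am H i i := by
      unfold qf
      rw [single_dotProduct, e0, one_mul]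
    rw [h1]
    exact step1 N r k H hr hk (by omega) ho i
  have hkey := sparse_key hT hμ ho.isH k hk (Pi.single i 1 : T → ℝ) i hK hG
  rw [e0, sparse_pi_apply] at hkey
  have e1 : √(4 * (δ / k * 32)) ≤ 2 * √(16 * δ) := by
    have h1 : 2 * √(16 * δ) = √(2 ^ 2 * (16 * δ)) := by
      rw [Real.sqrt_mul (by norm_num : (0 : ℝ) ≤ 2 ^ 2), Real.sqrt_sq (by norm_num)]
    rw [h1]
    refine Real.sqrt_le_sqrt ?_
    have h2 : δ / k ≤ δ / 2 := div_le_div_of_nonneg_left hδ0 (by norm_num) hk2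
    linarith
  refine sparse_beta' k hk ?_
  have h5 := (abs_le.1 hkey).2
  have e2 : (0 : ℝ) ≤ (∑ t, (Pi.single i 1 : T → ℝ) t) / (Fintype.card T : ℝ) := by
    rw [Finset.sum_pi_single']
    simp only [Finset.mem_univ, if_true]
    positivity
  have e3 : (Pi.single i 1 : T → ℝ) i = 1 := by simp
  rw [e3] at h5
  linarith

theorem sparse (N : T → B → ℕ) (r k : ℕ) (H : Matrix T T ℝ) (hr : 10 ^ 10 ≤ r) (hk : 2 ≤ k)
    (hkv : 3000 * k ≤ Fintype.card T) (ho : Opt N r k H) (i : T) (j : B) : N i j ≤ 1 := by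
  by_contra hcon
  have hn : 2 ≤ N i j := by omega
  have hn' : (2 : ℝ) ≤ N i j := by exact_mod_cast hn
  have hr1 : 1536 ≤ r := by
    have : (1536 : ℕ) ≤ 10 ^ 10 := by norm_num
    omega
  have hkv1 : k ≤ Fintype.card T := by omega
  have hk2 : (2 : ℝ) ≤ k := by exact_mod_cast hk
  have hk0 : (0 : ℝ) < k := by linarith
  have hv : 3000 * (k : ℝ) ≤ (Fintype.card T : ℝ) := by exact_mod_cast hkv
  have hv0 : (0 : ℝ) < Fintype.card T := by linarith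
  have hrr : (10 : ℝ) ^ 10 ≤ r := by exact_mod_cast hr
  have hr0 : (0 : ℝ) < r := lt_of_lt_of_le (by norm_num) hrr
  set δ : ℝ := 4 * (k : ℝ) / (Fintype.card T : ℝ) + 34656 / r with hδ
  have h1 := S_lb N r k H hr1 hk hkv1 ho δ hδ i j
  have h2 := A_ub N r k H hr1 hk hkv1 ho δ hδ i
  have h3 := plot_bound N r k H hr1 hk hkv1 ho i j (by omega)
  have hkvr : (k : ℝ) / (Fintype.card T : ℝ) ≤ 1 / 3000 := by
    rw [div_le_div_iff₀ hv0 (by norm_num)]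
    linarith
  have hrr2 : 34656 / (r : ℝ) ≤ 4 / 10 ^ 6 := by
    rw [div_le_div_iff₀ hr0 (by norm_num)]
    have : (34656 : ℝ) * 10 ^ 6 ≤ 4 * 10 ^ 10 := by norm_num
    linarith
  have hδ1 : δ ≤ 134 / 100000 := by
    have : 4 * (k : ℝ) / (Fintype.card T : ℝ) = 4 * ((k : ℝ) / (Fintype.card T : ℝ)) := by ring
    rw [hδ, this]
    linarith
  have hδ0 : 0 ≤ δ := by
    rw [hδ]
    positivity
  have hs1 : √(57 * δ) ≤ 277 / 1000 := by
    rw [Real.sqrt_le_left (by norm_num)]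
    linarith
  have hs2 : √(16 * δ) ≤ 147 / 1000 := by
    rw [Real.sqrt_le_left (by norm_num)]
    linarith
  have hβ : 1 ≤ ((k : ℝ) / ((k : ℝ) - 1)) ^ 2 := by
    refine one_le_pow₀ ?_
    rw [le_div_iff₀ (by linarith)]
    linarith
  set β := ((k : ℝ) / ((k : ℝ) - 1)) ^ 2 with hβd
  have h4 : β * (2 - 1 / 3000 - 2 * (277 / 1000)) ≤ Sm N H i j := by
    refine le_trans (mul_le_mul_of_nonneg_left ?_ (by linarith)) h1
    linarith
  have h5 : Am H i i ≤ β * (1 + 2 * (147 / 1000)) := by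
    refine h2.trans (mul_le_mul_of_nonneg_left ?_ (by linarith))
    linarith
  have h6 : 2 * (k : ℝ) / (Fintype.card T : ℝ) = 2 * ((k : ℝ) / (Fintype.card T : ℝ)) := by ring
  rw [h6] at h3
  linarith

end Pool.Agent.BDesign
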