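import Pool.Agent.Lib.BDesign.Defs
import Pool.Agent.Lib.BDesign.Sparse
import Pool.Agent.Lib.BDesign.Dense
import Pool.Agent.Lib.BDesign.Dual

/-!
Core theorem: a minimiser with `max r k ≥ 10^50` is binary.  If `k ≤ r`: `sparse` if `v ≥ 3000k`, else `dense`.
If `r < k`: `opt_dual` (then `r ≤ b` because `v r = b k`, `k ≤ v`), and `2 ≤ r` unless `r ≤ 1`, in which case entries are `≤ 1` anyway
(row sums `r`; similarly if `k ≤ 1`).
-/

set_option autoImplicit false

namespace Pool.Agent.BDesign

open Matrix

variable {T B : Type} [Fintype T] [DecidableEq T] [Fintype B] [DecidableEq B]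

theorem core_le (N : T → B → ℕ) (r k : ℕ) (H : Matrix T T ℝ) (hr : 10 ^ 24 ≤ r)
    (hkr : k ≤ r) (hkv : k ≤ Fintype.card T) (ho : Opt N r k H) (i : T) (j : B) : N i j ≤ 1 := by
  by_cases hk : 2 ≤ k
  · by_cases h3 : 3000 * k ≤ Fintype.card T
    · exact sparse N r k H (le_trans (by norm_num) hr) hk h3 ho i j
    · exact dense N r k H hr hk hkr hkv (by omega) ho i j
  · have h1 : N i j ≤ ∑ t, N t j :=
      Finset.single_le_sum (f := fun t => N t j) (fun t _ => Nat.zero_le _) (Finset.mem_univ i)
    have h2 := ho.des.2 j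
    omega

theorem core (N : T → B → ℕ) (r k : ℕ) (H : Matrix T T ℝ) (hrk : 10 ^ 24 ≤ max r k)
    (hkv : k ≤ Fintype.card T) (ho : Opt N r k H) (i : T) (j : B) : N i j ≤ 1 := by
  rcases le_or_gt k r with hkr | hrk'
  · rw [max_eq_left hkr] at hrk
    exact core_le N r k H hrk hkr hkv ho i j
  · rw [max_eq_right hrk'.le] at hrk
    by_cases hr2 : 2 ≤ r
    · have hT : 0 < Fintype.card T := Fintype.card_pos_iff.mpr ⟨i⟩
      have hB : 0 < Fintype.card B := Fintype.card_pos_iff.mpr ⟨j⟩
      obtain ⟨H', hH'⟩ := opt_dual N r k H (by omega) (by omega) hT hB ho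
      have hcount : Fintype.card T * r = Fintype.card B * k := by
        have h1 : ∑ t, ∑ j, N t j = Fintype.card T * r := by
          simp [ho.des.1]
        have h2 : ∑ t, ∑ j, N t j = Fintype.card B * k := by
          rw [Finset.sum_comm]
          simp [ho.des.2]
        rw [← h1, h2]
      have hrb : r ≤ Fintype.card B := by
        by_contra hc
        push Not at hc
        have h3 : Fintype.card B * k < r * k := Nat.mul_lt_mul_of_pos_right hc (by omega)
        have h4 : r * k ≤ Fintype.card T * r := by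
          rw [Nat.mul_comm]
          exact Nat.mul_le_mul_right r hkv
        omega
      exact core_le (tr' N) k r H' hrk hrk'.le hrb hH' j i
    · have h1 : N i j ≤ ∑ j, N i j :=
        Finset.single_le_sum (f := fun j => N i j) (fun t _ => Nat.zero_le _) (Finset.mem_univ j)
      have h2 := ho.des.1 i
      omega

end Pool.Agent.BDesign
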