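import Pool.Agent.Lib.BDesign.Defs
import Pool.Agent.Lib.BDesign.AsmB
import Pool.Agent.Lib.BDesign.Core

/-!
`N` is connected (`isH_of_det`), `r, k ≥ 2` (there is an entry `≥ 2`).  `exists_opt` gives an optimal `N'`, binary by `core`.
`tr H' ≤ tr H`, and if equality then `N` itself is optimal, hence binary by `core`, contradiction; so `tr H' < tr H` and
`trace (cmat)⁻¹ = tr H / r + 1`.
-/

set_option autoImplicit false

namespace Pool.Agent.BDesign

open Matrix

variable {T B : Type} [Fintype T] [DecidableEq T] [Fintype B] [DecidableEq B]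

/-- Theorem A -/
theorem theoremA (v b r k : ℕ) (N : Fin v → Fin b → ℕ) (hkv : k ≤ v) (hrk : 10 ^ 24 ≤ max r k)
    (hcol : ∀ j, ∑ i, N i j = k) (hrow : ∀ i, ∑ j, N i j = r) (hnb : ∃ i j, 2 ≤ N i j)
    (hd : (cmat N r k).det ≠ 0) :
    ∃ M : Fin v → Fin b → ℕ, (∀ j, ∑ i, M i j = k) ∧ (∀ i, ∑ j, M i j = r) ∧ (∀ i j, M i j ≤ 1) ∧
      (cmat M r k).det ≠ 0 ∧ (cmat M r k)⁻¹.trace < (cmat N r k)⁻¹.trace := by
  have hN : IsDesign N r k := ⟨hrow, hcol⟩
  obtain ⟨i0, j0, h2⟩ := hnb
  have hv : 0 < v := lt_of_le_of_lt (Nat.zero_le _) i0.isLt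
  have hr : 0 < r := by
    have h := Finset.single_le_sum (f := fun j => N i0 j) (fun j _ => Nat.zero_le _)
      (Finset.mem_univ j0)
    rw [hrow i0] at h
    omega
  have hk : 0 < k := by
    have h := Finset.single_le_sum (f := fun i => N i j0) (fun j _ => Nat.zero_le _)
      (Finset.mem_univ i0)
    rw [hcol j0] at h
    omega
  have hkv' : k ≤ Fintype.card (Fin v) := by simpa using hkv
  obtain ⟨H, hH, htr⟩ := isH_of_det N r k hv hr hk hN hd
  obtain ⟨N', H', hopt, hle⟩ := exists_opt N r k hv hr hk hN H hH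
  have hlt : H'.trace < H.trace := by
    by_contra hcon
    have heq : H'.trace = H.trace := le_antisymm hle (not_lt.mp hcon)
    have hoN : Opt N r k H :=
      ⟨hN, hH, fun N'' H'' h1 h2 => by rw [← heq]; exact hopt.min N'' H'' h1 h2⟩
    have := core N r k H hrk hkv' hoN i0 j0
    omega
  refine ⟨N', hopt.des.2, hopt.des.1, fun i j => core N' r k H' hrk hkv' hopt i j, ?_, ?_⟩
  · exact det_of_isH N' r k hv hr hk hopt.des H' hopt.isH
  · have hd' := det_of_isH N' r k hv hr hk hopt.des H' hopt.isH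
    obtain ⟨H'', hH'', htr'⟩ := isH_of_det N' r k hv hr hk hopt.des hd'
    have hu : H'' = H' := by
      refine h_unique ?_ hH'' hopt.isH
      exact good_mu N' r k hr hk (by simpa using hv) hopt.des
    rw [htr', htr, hu]
    have hr' : (0 : ℝ) < r := by exact_mod_cast hr
    have := div_lt_div_of_pos_right hlt hr'
    linarith

end Pool.Agent.BDesign
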