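import Mathlib

/-!
# Block designs: definitions for the `A`-optimality project (MP_a7e07e_co)

`N : T → B → ℕ` is the incidence matrix (rows = varieties `T`, columns = blocks `B`).
-/

set_option autoImplicit false

noncomputable section

namespace Pool.Agent.BDesign

open Matrix

variable {T B : Type} [Fintype T] [DecidableEq T] [Fintype B] [DecidableEq B]

/-- `N` is an equireplicate block design: all row sums are `r`, all column sums are `k`. -/
def IsDesign (N : T → B → ℕ) (r k : ℕ) : Prop :=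
  (∀ t, ∑ j, N t j = r) ∧ (∀ j, ∑ t, N t j = k)

/-- the incidence matrix as a real matrix -/
def inc (N : T → B → ℕ) : Matrix T B ℝ := fun t j => (N t j : ℝ)

/-- a column of the incidence matrix as a real vector -/
def col (N : T → B → ℕ) (j : B) : T → ℝ := fun t => (N t j : ℝ)

/-- the orthogonal projection `Π = I - J/v` -/
def PiM (T : Type) [Fintype T] [DecidableEq T] : Matrix T T ℝ :=
  fun t s => (if t = s then 1 else 0) - 1 / (Fintype.card T : ℝ)

/-- `μ = N Nᵀ / (r k) - J / v` -/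
def mu (N : T → B → ℕ) (r k : ℕ) : Matrix T T ℝ :=
  fun t s => (∑ j, (N t j : ℝ) * (N s j : ℝ)) / ((r : ℝ) * (k : ℝ)) - 1 / (Fintype.card T : ℝ)

/-- the bilinear form of a matrix -/
def qf (Q : Matrix T T ℝ) (x y : T → ℝ) : ℝ := x ⬝ᵥ (Q *ᵥ y)

/-- `μ` is a symmetric matrix with zero row sums and `0 ≤ μ ≤ Π`. -/
structure Good (μ : Matrix T T ℝ) : Prop where
  symm : ∀ t s, μ t s = μ s t
  row : ∀ t, ∑ s, μ t s = 0
  psd : ∀ x : T → ℝ, 0 ≤ qf μ x x
  le : ∀ x : T → ℝ, qf μ x x ≤ qf (PiM T) x x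

/-- `H` is the inverse of `Π - μ` on the orthogonal complement of the constants. -/
structure IsH (μ H : Matrix T T ℝ) : Prop where
  symm : ∀ t s, H t s = H s t
  row : ∀ t, ∑ s, H t s = 0
  inv : H * (PiM T - μ) = PiM T

/-- `N` is a connected design with the smallest value of `tr H` among all connected designs. -/
structure Opt (N : T → B → ℕ) (r k : ℕ) (H : Matrix T T ℝ) : Prop where
  des : IsDesign N r k
  isH : IsH (mu N r k) H
  min : ∀ (N' : T → B → ℕ) (H' : Matrix T T ℝ), IsDesign N' r k → IsH (mu N' r k) H' →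
    H.trace ≤ H'.trace

/-- the vector `e_i - e_h` -/
def ev (i h : T) : T → ℝ := fun t => (if t = i then 1 else 0) - (if t = h then 1 else 0)

/-- the vector `N_l / k - e_t` (block average minus a variety) -/
def dv (N : T → B → ℕ) (k : ℕ) (t : T) (l : B) : T → ℝ :=
  fun s => (N s l : ℝ) / (k : ℝ) - (if s = t then 1 else 0)

/-- the excess `∑ n (n - 1)` -/
def Gam (N : T → B → ℕ) : ℝ := ∑ t, ∑ j, (N t j : ℝ) * ((N t j : ℝ) - 1)

/-- the swap of the plots `(i,j)` and `(h,l)` -/
def swp (N : T → B → ℕ) (i : T) (j : B) (h : T) (l : B) : T → B → ℕ := fun t s =>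
  if t = i ∧ s = j then N t s - 1 else
  if t = h ∧ s = l then N t s - 1 else
  if t = i ∧ s = l then N t s + 1 else
  if t = h ∧ s = j then N t s + 1 else N t s

/-- concurrence of two varieties -/
def lam (N : T → B → ℕ) (t s : T) : ℝ := ∑ j, (N t j : ℝ) * (N s j : ℝ)

/-- intersection number of two blocks -/
def lamB (N : T → B → ℕ) (j l : B) : ℝ := ∑ t, (N t j : ℝ) * (N t l : ℝ)

/-- the centre `m = (v-k)/(k(v-1))` of the spectrum of `μ` for binary designs -/
def mc (v k : ℕ) : ℝ := ((v : ℝ) - k) / ((k : ℝ) * ((v : ℝ) - 1))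

/-- `A = H²` -/
def Am (H : Matrix T T ℝ) : Matrix T T ℝ := H * H

/-- `S = A N` -/
def Sm (N : T → B → ℕ) (H : Matrix T T ℝ) : Matrix T B ℝ := (H * H) * inc N

/-- `G = ((k-1)/k) H - Π` -/
def Gm (k : ℕ) (H : Matrix T T ℝ) : Matrix T T ℝ := (((k : ℝ) - 1) / (k : ℝ)) • H - PiM T

/-- `μ - m Π` with `m = mc v k` -/
def Bmat (N : T → B → ℕ) (r k : ℕ) : Matrix T T ℝ :=
  mu N r k - mc (Fintype.card T) k • PiM T

/-- squared Hilbert-Schmidt norm -/
def HS2 (Q : Matrix T T ℝ) : ℝ := ∑ t, ∑ s, Q t s ^ 2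

/-- binary design -/
def IsBin (N : T → B → ℕ) : Prop := ∀ t j, N t j ≤ 1

/-- `P = M N`, `M = N Nᵀ` -/
def Pm (N : T → B → ℕ) (t : T) (l : B) : ℝ := ∑ s, lam N t s * (N s l : ℝ)

/-- the fluctuation matrix of a binary design -/
def phi (N : T → B → ℕ) (r k : ℕ) : Matrix T T ℝ := fun t s =>
  if t = s then 0 else (r : ℝ) * ((Fintype.card T : ℝ) - k) / ((Fintype.card T : ℝ) - 1) - ((r : ℝ) - lam N t s)

/-- transposed design -/
def tr' (N : T → B → ℕ) : B → T → ℕ := fun j t => N t j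

end Pool.Agent.BDesign

end
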